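import Pool.Agent.Lib.MP_45b5fd_nt.PER.Iface

/-!
# PER, row AMB: many reduced points are fixed by the first involution
-/

set_option autoImplicit false

open Finset

namespace Pool.Per.Amb

open Pool.Per

/-- unitary divisors -/
def UD (d : ℕ) : Finset ℕ := d.divisors.filter (fun u => u.Coprime (d / u))

theorem mem_UD {d u : ℕ} (hd : d ≠ 0) : u ∈ UD d ↔ u ∣ d ∧ u.Coprime (d / u) := by
  unfold UD
  rw [Finset.mem_filter, Nat.mem_divisors]
  exact ⟨fun h => ⟨h.1.1, h.2⟩, fun h => ⟨⟨h.1, hd⟩, h.2⟩⟩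

/-- the part of `d` at the primes of `S` -/
def part (d : ℕ) (S : Finset ℕ) : ℕ := ∏ p ∈ S, p ^ d.factorization p

theorem part_mul {d : ℕ} (hd : d ≠ 0) {S : Finset ℕ} (hS : S ⊆ d.primeFactors) :
    part d S * part d (d.primeFactors \ S) = d := by
  unfold part
  rw [mul_comm, Finset.prod_sdiff hS]
  exact Nat.prod_factorization_pow_eq_self hd

theorem part_coprime {d : ℕ} {S : Finset ℕ} (hS : S ⊆ d.primeFactors) :
    (part d S).Coprime (part d (d.primeFactors \ S)) := by
  unfold part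
  refine Nat.Coprime.prod_left fun p hp => Nat.Coprime.prod_right fun q hq => ?_
  refine Nat.Coprime.pow _ _ ?_
  have hpp : p.Prime := (Nat.mem_primeFactors.mp (hS hp)).1
  have hqq : q.Prime := (Nat.mem_primeFactors.mp (Finset.mem_sdiff.mp hq).1).1
  rw [Nat.coprime_primes hpp hqq]
  rintro rfl
  exact (Finset.mem_sdiff.mp hq).2 hp

theorem prime_dvd_part {d : ℕ} {S : Finset ℕ} (hS : S ⊆ d.primeFactors) {q : ℕ}
    (hq : q.Prime) : q ∣ part d S ↔ q ∈ S := by
  constructor
  · intro h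
    unfold part at h
    obtain ⟨p, hp, hqp⟩ := (Prime.dvd_finsetProd_iff hq.prime _).mp h
    have h1 : q ∣ p := hq.dvd_of_dvd_pow hqp
    have hpp : p.Prime := (Nat.mem_primeFactors.mp (hS hp)).1
    rwa [(Nat.prime_dvd_prime_iff_eq hq hpp).mp h1]
  · intro h
    unfold part
    refine dvd_trans ?_ (Finset.dvd_prod_of_mem _ h)
    have hm := Nat.mem_primeFactors.mp (hS h)
    exact dvd_pow_self q (hq.factorization_pos_of_dvd hm.2.2 hm.2.1).ne'

theorem card_UD {d : ℕ} (hd : d ≠ 0) : 2 ^ d.primeFactors.card ≤ (UD d).card := by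
  rw [← Finset.card_powerset]
  refine Finset.card_le_card_of_injOn (part d) ?_ ?_
  · intro S hS
    have hS' : S ⊆ d.primeFactors := Finset.mem_powerset.mp hS
    rw [Finset.mem_coe, mem_UD hd]
    have h1 := part_mul hd hS'
    have h2 : 0 < part d S := by
      rcases Nat.eq_zero_or_pos (part d S) with h | h
      · rw [h, zero_mul] at h1
        exact absurd h1.symm hd
      · exact h
    refine ⟨⟨_, h1.symm⟩, ?_⟩
    have h3 : d / part d S = part d (d.primeFactors \ S) :=
      Nat.div_eq_of_eq_mul_right h2 h1.symm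
    rw [h3]
    exact part_coprime hS'
  · intro S hS S' hS' h
    have hS1 : S ⊆ d.primeFactors := Finset.mem_powerset.mp hS
    have hS2 : S' ⊆ d.primeFactors := Finset.mem_powerset.mp hS'
    ext q
    constructor
    · intro hq
      have hqq : q.Prime := (Nat.mem_primeFactors.mp (hS1 hq)).1
      rw [← prime_dvd_part hS2 hqq, ← h]
      exact (prime_dvd_part hS1 hqq).mpr hq
    · intro hq
      have hqq : q.Prime := (Nat.mem_primeFactors.mp (hS2 hq)).1
      rw [← prime_dvd_part hS1 hqq, h]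
      exact (prime_dvd_part hS2 hqq).mpr hq

theorem card_half {d : ℕ} (hd : d ≠ 0) :
    (UD d).card ≤ 2 * ((UD d).filter (fun u => u ≤ Nat.sqrt d)).card := by
  have h1 := Finset.card_filter_add_card_filter_not (s := UD d) (fun u => u ≤ Nat.sqrt d)
  have h2 : ((UD d).filter (fun u => ¬ u ≤ Nat.sqrt d)).card ≤
      ((UD d).filter (fun u => u ≤ Nat.sqrt d)).card := by
    refine Finset.card_le_card_of_injOn (fun u => d / u) ?_ ?_
    · intro u hu
      rw [Finset.mem_coe, Finset.mem_filter, mem_UD hd] at hu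
      obtain ⟨⟨hud, huc⟩, hus⟩ := hu
      rw [Finset.mem_coe, Finset.mem_filter, mem_UD hd]
      refine ⟨⟨Nat.div_dvd_of_dvd hud, ?_⟩, ?_⟩
      · rw [Nat.div_div_self hud hd]
        exact huc.symm
      · have h3 : d / u < Nat.sqrt d + 1 := by
          refine Nat.div_lt_of_lt_mul ?_
          refine lt_of_lt_of_le (Nat.lt_succ_sqrt d) ?_
          exact Nat.mul_le_mul (by omega) le_rfl
        exact Nat.lt_succ_iff.mp h3
    · intro u hu u' hu' h
      rw [Finset.mem_coe, Finset.mem_filter, mem_UD hd] at hu hu'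
      have h3 : d / u = d / u' := h
      rw [← Nat.div_div_self hu.1.1 hd, h3, Nat.div_div_self hu'.1.1 hd]
  omega

theorem red_u {d u : ℕ} (hd : d ≠ 0) (hu : u ∈ UD d) (hus : u ≤ Nat.sqrt d) :
    Red d (u * (Nat.sqrt d / u), u) ∧ fS d (u * (Nat.sqrt d / u), u) =
      (u * (Nat.sqrt d / u), u) := by
  obtain ⟨hud, huc⟩ := (mem_UD hd).mp hu
  have hu0 : 0 < u := Nat.pos_of_dvd_of_pos hud (Nat.pos_of_ne_zero hd)
  set s := Nat.sqrt d with hs
  set k := s / u with hk
  have hks : u * k ≤ s := Nat.mul_div_le s u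
  have hks2 : s < u * k + u := by
    have := Nat.lt_mul_div_succ s hu0
    rw [Nat.mul_succ] at this
    exact this
  obtain ⟨c, hc⟩ := hud
  have hcu : d / u = c := by rw [hc]; exact Nat.mul_div_cancel_left c hu0
  have hP2 : (u * k) ^ 2 ≤ d := by
    calc (u * k) ^ 2 ≤ s ^ 2 := Nat.pow_le_pow_left hks 2
      _ = s * s := by ring
      _ ≤ d := Nat.sqrt_le d
  have hle : u * k ^ 2 ≤ c := by
    have h1 : u * (u * k ^ 2) ≤ u * c := by
      rw [← hc]
      calc u * (u * k ^ 2) = (u * k) ^ 2 := by ring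
        _ ≤ d := hP2
    exact Nat.le_of_mul_le_mul_left h1 hu0
  have hdiff : d - (u * k) ^ 2 = u * (c - u * k ^ 2) := by
    rw [Nat.mul_sub, ← hc]
    congr 1
    ring
  refine ⟨⟨hks, hks2, le_trans hus (Nat.le_add_left _ _), ?_, ?_⟩, ?_⟩
  · show u ∣ d - (u * k) ^ 2
    rw [hdiff]
    exact dvd_mul_right _ _
  · rintro p hp ⟨hpu, -, hp3⟩
    have hpu' : p ∣ u := hpu
    have h1 : (d - (u * k) ^ 2) / u = c - u * k ^ 2 := by
      rw [hdiff]
      exact Nat.mul_div_cancel_left _ hu0
    have h2 : p ∣ c - u * k ^ 2 := by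
      have h3 : p ∣ (d - (u * k) ^ 2) / u := hp3
      rwa [h1] at h3
    have h4 : p ∣ c := by
      have h5 : p ∣ u * k ^ 2 := Dvd.dvd.mul_right hpu' _
      have h6 := Nat.dvd_add h2 h5
      rwa [Nat.sub_add_cancel hle] at h6
    rw [hcu] at huc
    exact Nat.Prime.not_coprime_iff_dvd.mpr ⟨p, hp, hpu', h4⟩ huc
  · have h1 : pq d (u * k, u) = 2 * k := by
      show (u * k + s) / u = 2 * k
      apply Nat.div_eq_of_lt_le
      · calc 2 * k * u = u * k + u * k := by ring
          _ ≤ u * k + s := by omega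
      · calc u * k + s < u * k + (u * k + u) := by omega
          _ = (2 * k + 1) * u := by ring
    show (pq d (u * k, u) * u - u * k, u) = (u * k, u)
    rw [h1]
    congr 1
    have : 2 * k * u = u * k + u * k := by ring
    omega

end Pool.Per.Amb

namespace Pool.Per

theorem amb_proof : AMB_Stmt := by
  intro d hd
  have hd0 : d ≠ 0 := by
    rintro rfl
    exact hd ⟨0, rfl⟩
  refine ⟨((Amb.UD d).filter (fun u => u ≤ Nat.sqrt d)).image
    (fun u => (u * (Nat.sqrt d / u), u)), ?_, ?_⟩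
  · intro x hx
    obtain ⟨u, hu, rfl⟩ := Finset.mem_image.mp hx
    obtain ⟨hu1, hu2⟩ := Finset.mem_filter.mp hu
    exact Amb.red_u hd0 hu1 hu2
  · rw [Finset.card_image_of_injective _ (fun u u' h => (Prod.mk.inj h).2)]
    exact le_trans (Amb.card_UD hd0) (Amb.card_half hd0)

end Pool.Per
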