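import Pool.Agent.Lib.MP_45b5fd_nt.PER.Iface

/-!
# PER, module ANA: the weighted sum of the root counts
-/

set_option autoImplicit false

open Finset

namespace Pool.Per.Ana

theorem tele (N : ℕ) (hN : 1 ≤ N) :
    ∑ n ∈ Icc 2 N, 1 / ((n : ℝ) * ((n : ℝ) - 1)) = 1 - 1 / (N : ℝ) := by
  induction N with
  | zero => omega
  | succ N ih =>
    rcases Nat.eq_zero_or_pos N with rfl | h
    · simp
    · rw [Finset.sum_Icc_succ_top (by omega), ih h]
      have h1 : (0 : ℝ) < N := by exact_mod_cast h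
      push_cast
      have h2 : (N : ℝ) + 1 - 1 = N := by ring
      rw [h2]
      field_simp
      ring

theorem sum_inv (N : ℕ) (hN : 1 ≤ N) :
    ∑ p ∈ Nat.primesLE N, 2 / ((p : ℝ) * ((p : ℝ) - 1)) ≤ 2 := by
  have h1 : ∑ p ∈ Nat.primesLE N, 2 / ((p : ℝ) * ((p : ℝ) - 1)) ≤
      ∑ n ∈ Icc 2 N, 2 / ((n : ℝ) * ((n : ℝ) - 1)) := by
    refine Finset.sum_le_sum_of_subset_of_nonneg ?_ ?_
    · intro p hp
      exact mem_Icc.2 ⟨Nat.two_le_of_mem_primesLE hp, Nat.le_of_mem_primesLE hp⟩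
    · intro n hn _
      have h2 : (2 : ℝ) ≤ n := by exact_mod_cast (mem_Icc.1 hn).1
      have h3 : (0 : ℝ) < (n : ℝ) - 1 := by linarith
      positivity
  refine h1.trans ?_
  have h2 : ∑ n ∈ Icc 2 N, 2 / ((n : ℝ) * ((n : ℝ) - 1)) =
      2 * ∑ n ∈ Icc 2 N, 1 / ((n : ℝ) * ((n : ℝ) - 1)) := by
    rw [Finset.mul_sum]
    refine Finset.sum_congr rfl fun n _ => ?_
    ring
  rw [h2, tele N hN]
  have h3 : (0 : ℝ) ≤ 1 / N := by positivity
  linarith

/-- the local sums -/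
theorem local_le (hR : ROOT_Stmt) (hM : MASS_Stmt) (d A p : ℕ) (hp : p.Prime) :
    ∑ a ∈ Icc 1 A, ((pr d (p ^ a) : ℕ) : ℝ) / (p : ℝ) ^ a ≤
      1 / (p : ℝ) + (if ¬ p ∣ 2 * d then ((jacobiSym (d : ℤ) p : ℤ) : ℝ) / p else 0) +
        2 / ((p : ℝ) * ((p : ℝ) - 1)) := by
  have hp2 : (2 : ℝ) ≤ p := by exact_mod_cast hp.two_le
  have hp0 : (0 : ℝ) < p := by linarith
  have hp1 : (0 : ℝ) < (p : ℝ) - 1 := by linarith
  have h0 : (0 : ℝ) ≤ 2 / ((p : ℝ) * ((p : ℝ) - 1)) := by positivity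
  by_cases h : ¬ p ∣ 2 * d
  · rw [if_pos h]
    have h1 : p ≠ 2 := fun h2 => h (h2 ▸ Dvd.intro d rfl)
    have h2 : ¬ p ∣ d := fun h2 => h (Dvd.dvd.mul_left h2 2)
    obtain ⟨J, hJ⟩ : ∃ J : ℝ, J = ((jacobiSym (d : ℤ) p : ℤ) : ℝ) := ⟨_, rfl⟩
    have hJ1 : -1 ≤ J ∧ J ≤ 1 := by
      rw [hJ]
      rcases jacobiSym.trichotomy (d : ℤ) p with h3 | h3 | h3 <;> rw [h3] <;> norm_num
    have h3 : ∀ a ∈ Icc 1 A, ((pr d (p ^ a) : ℕ) : ℝ) / (p : ℝ) ^ a ≤
        (1 + J) * (1 / (p : ℝ)) ^ a := by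
      intro a ha
      have h4 := hR.2.2 d p a hp h1 h2 (mem_Icc.1 ha).1
      have h5 : ((pr d (p ^ a) : ℕ) : ℝ) ≤ 1 + J := by
        rw [hJ]
        exact_mod_cast h4
      rw [div_pow, one_pow, mul_one_div]
      gcongr
    have h4 : ∑ a ∈ Icc 1 A, (1 / (p : ℝ)) ^ a ≤ 1 / ((p : ℝ) - 1) := by
      have h5 : Icc 1 A = Ico 1 (A + 1) := by
        ext x
        simp only [mem_Icc, mem_Ico]
        omega
      rw [h5]
      refine (geom_sum_Ico_le_of_lt_one (by positivity)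
        ((div_lt_one hp0).2 (by linarith))).trans (le_of_eq ?_)
      rw [pow_one]
      have h6 : 1 - 1 / (p : ℝ) = ((p : ℝ) - 1) / p := by field_simp
      rw [h6]
      field_simp
    have h5 : ∑ a ∈ Icc 1 A, ((pr d (p ^ a) : ℕ) : ℝ) / (p : ℝ) ^ a ≤
        (1 + J) * (1 / ((p : ℝ) - 1)) := by
      refine (Finset.sum_le_sum h3).trans ?_
      rw [← Finset.mul_sum]
      exact mul_le_mul_of_nonneg_left h4 (by linarith [hJ1.1])
    refine h5.trans ?_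
    have h6 : (1 + J) * (1 / ((p : ℝ) - 1)) =
        1 / p + J / p + (1 + J) / ((p : ℝ) * ((p : ℝ) - 1)) := by
      field_simp
      ring
    rw [h6, ← hJ]
    have h7 : (1 + J) / ((p : ℝ) * ((p : ℝ) - 1)) ≤ 2 / ((p : ℝ) * ((p : ℝ) - 1)) := by
      have h8 : 1 + J ≤ 2 := by linarith [hJ1.2]
      gcongr
    linarith
  · rw [if_neg h]
    have h1 := hM d p A hp (not_not.1 h)
    linarith

/-- the sum of `f n / n` -/
theorem sum_div_le (hR : ROOT_Stmt) (hM : MASS_Stmt) (hE : EP_Stmt) {C : ℝ}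
    (hC : ∀ N : ℕ, 2 ≤ N →
      |∑ p ∈ Nat.primesLE N, 1 / (p : ℝ) - Real.log (Real.log N)| ≤ C) (d N : ℕ) (hN : 2 ≤ N) :
    ∑ n ∈ Icc 1 N, ((pr d n : ℕ) : ℝ) / n ≤
      Real.exp (C + 2) * Real.log N * Real.exp (chiSum d N) := by
  refine (hE (fun n => ((pr d n : ℕ) : ℝ)) (hR.1 d) N).trans ?_
  have h1 : ∏ p ∈ Nat.primesLE N, (1 + ∑ a ∈ Icc 1 (Nat.log p N),
      ((pr d (p ^ a) : ℕ) : ℝ) / (p : ℝ) ^ a) ≤
      ∏ p ∈ Nat.primesLE N, Real.exp (1 / (p : ℝ) +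
        (if ¬ p ∣ 2 * d then ((jacobiSym (d : ℤ) p : ℤ) : ℝ) / p else 0) +
        2 / ((p : ℝ) * ((p : ℝ) - 1))) := by
    refine Finset.prod_le_prod (fun p _ => by positivity) fun p hp => ?_
    have h2 := local_le hR hM d (Nat.log p N) p (Nat.prime_of_mem_primesLE hp)
    refine le_trans ?_ (Real.exp_le_exp.2 h2)
    rw [add_comm]
    exact Real.add_one_le_exp _
  refine h1.trans ?_
  rw [← Real.exp_sum]
  have hL : 0 < Real.log N := Real.log_pos (by exact_mod_cast hN)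
  have h2 : Real.exp (C + 2) * Real.log N * Real.exp (chiSum d N) =
      Real.exp (C + 2 + Real.log (Real.log N) + chiSum d N) := by
    rw [Real.exp_add (C + 2 + Real.log (Real.log N)), Real.exp_add (C + 2), Real.exp_log hL]
  rw [h2, Real.exp_le_exp, Finset.sum_add_distrib, Finset.sum_add_distrib]
  have h3 := (abs_le.1 (hC N hN)).2
  have h4 := sum_inv N (by omega)
  have h5 : ∑ p ∈ Nat.primesLE N, (if ¬ p ∣ 2 * d then
      ((jacobiSym (d : ℤ) p : ℤ) : ℝ) / p else 0) = chiSum d N := by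
    unfold chiSum
    rw [Finset.sum_filter]
  rw [h5]
  linarith

theorem ana_proof (hR : ROOT_Stmt) (hM : MASS_Stmt) (hG : GB_Stmt) (hE : EP_Stmt) (hW : WS_Stmt)
    (hMe : MERT_Stmt) : ANA_Stmt := by
  obtain ⟨CG, hCG0, hCG⟩ := hG
  obtain ⟨C', hC'0, hC'⟩ := hW CG hCG0
  obtain ⟨CM, hCM0, hCM⟩ := hMe
  refine ⟨4 + 3 * (C' * Real.exp (CM + 2)), by positivity, fun d hd => ?_⟩
  obtain ⟨N, hN⟩ : ∃ N, N = Nat.sqrt d := ⟨_, rfl⟩
  obtain ⟨X, hX⟩ : ∃ X, X = Real.exp (chiSum d N) := ⟨_, rfl⟩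
  have hX0 : 0 < X := by rw [hX]; exact Real.exp_pos _
  have hd1 : d ≠ 0 := fun h => hd (by rw [h]; exact ⟨0, rfl⟩)
  have hN1 : 1 ≤ N := by
    rw [hN, Nat.le_sqrt]
    omega
  have hdpos : (0 : ℝ) < d := by exact_mod_cast Nat.pos_of_ne_zero hd1
  have hs0 : 0 < Real.sqrt d := Real.sqrt_pos.2 hdpos
  have hNs : (N : ℝ) ≤ Real.sqrt d := by
    rw [hN]
    exact Real.nat_sqrt_le_real_sqrt
  have hsN : Real.sqrt d ≤ N + 1 := by
    rw [hN]
    exact Real.real_sqrt_le_nat_sqrt_succ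
  have hNr : (1 : ℝ) ≤ N := by exact_mod_cast hN1
  have hsub := hR.1 d
  rw [← hN, ← hX]
  -- the weights
  have hw : ∀ Q ∈ Icc 1 N, Real.log (4 * Real.sqrt d / Q) ≤
      3 * (1 + Real.log ((N : ℝ) / Q)) := by
    intro Q hQ
    obtain ⟨h1, h2⟩ := mem_Icc.1 hQ
    have hQ0 : (0 : ℝ) < Q := by exact_mod_cast h1
    have hQN : (Q : ℝ) ≤ N := by exact_mod_cast h2
    have h3 : 4 * Real.sqrt d / Q ≤ 8 * ((N : ℝ) / Q) := by
      rw [← mul_div_assoc]
      exact div_le_div_of_nonneg_right (by linarith) hQ0.le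
    have h4 : 0 ≤ Real.log ((N : ℝ) / Q) := Real.log_nonneg ((one_le_div hQ0).2 hQN)
    have h5 : Real.log 8 ≤ 3 := by
      have h6 : Real.log 8 = 3 * Real.log 2 := by
        rw [show (8 : ℝ) = 2 ^ 3 by norm_num, Real.log_pow]
        norm_num
      rw [h6]
      have := Real.log_two_lt_d9
      linarith
    calc Real.log (4 * Real.sqrt d / Q) ≤ Real.log (8 * ((N : ℝ) / Q)) :=
          Real.log_le_log (by positivity) h3
      _ = Real.log 8 + Real.log ((N : ℝ) / Q) :=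
          Real.log_mul (by norm_num) (by positivity)
      _ ≤ _ := by linarith
  rcases Nat.lt_or_ge N 2 with h2 | h2
  · have hN' : N = 1 := by omega
    rw [hN'] at hX ⊢
    have h3 : X = 1 := by
      rw [hX]
      unfold chiSum
      simp
    rw [h3, Icc_self, Finset.sum_singleton, Nat.cast_one, div_one, mul_one]
    have h4 : ((pr d 1 : ℕ) : ℝ) ≤ 1 := hsub.one
    have h5 : Real.log (4 * Real.sqrt d) ≤ 4 * Real.sqrt d :=
      (Real.log_le_sub_one_of_pos (by positivity)).trans (by linarith)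
    have h6 : 1 ≤ Real.sqrt d := hNr.trans hNs
    have h7 : 0 ≤ Real.log (4 * Real.sqrt d) := Real.log_nonneg (by linarith)
    have h8 : 0 ≤ C' * Real.exp (CM + 2) := by positivity
    calc ((pr d 1 : ℕ) : ℝ) * Real.log (4 * Real.sqrt d) ≤ 1 * (4 * Real.sqrt d) := by gcongr
      _ ≤ (4 + 3 * (C' * Real.exp (CM + 2))) * Real.sqrt d := by nlinarith
  · have hL : 0 < Real.log N := Real.log_pos (by exact_mod_cast h2)
    have hP : PowSum CG (fun n => ((pr d n : ℕ) : ℝ)) := by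
      refine hCG _ (fun n => Nat.cast_nonneg _) fun p a hp _ => ?_
      exact_mod_cast hR.2.1 d p a hp
    have h3 := hC' (fun n => ((pr d n : ℕ) : ℝ)) hsub hP N hN1
    have h4 := sum_div_le hR hM hE hCM d N h2
    rw [← hX] at h4
    obtain ⟨S, hS⟩ : ∃ S : ℝ, S = ∑ n ∈ Icc 1 N, ((pr d n : ℕ) : ℝ) *
      (1 + Real.log ((N : ℝ) / n)) := ⟨_, rfl⟩
    rw [← hS] at h3
    have h5 : S ≤ C' * N * (Real.exp (CM + 2) * X) := by
      refine le_of_mul_le_mul_left ?_ hL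
      refine h3.trans ?_
      calc C' * N * ∑ n ∈ Icc 1 N, ((pr d n : ℕ) : ℝ) / n
          ≤ C' * N * (Real.exp (CM + 2) * Real.log N * X) := by gcongr
        _ = _ := by ring
    have h6 : ∑ Q ∈ Icc 1 N, ((pr d Q : ℕ) : ℝ) * Real.log (4 * Real.sqrt d / Q) ≤ 3 * S := by
      rw [hS, Finset.mul_sum]
      refine Finset.sum_le_sum fun Q hQ => ?_
      calc ((pr d Q : ℕ) : ℝ) * Real.log (4 * Real.sqrt d / Q)
          ≤ ((pr d Q : ℕ) : ℝ) * (3 * (1 + Real.log ((N : ℝ) / Q))) :=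
            mul_le_mul_of_nonneg_left (hw Q hQ) (Nat.cast_nonneg _)
        _ = _ := by ring
    refine h6.trans ?_
    have h7 : C' * N * (Real.exp (CM + 2) * X) ≤
        C' * Real.sqrt d * (Real.exp (CM + 2) * X) := by gcongr
    have h8 : 0 ≤ 4 * Real.sqrt d * X := by positivity
    nlinarith

end Pool.Per.Ana
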