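import Pool.Agent.Lib.MP_45b5fd_nt.PER.Iface2

/-!
# PER, row CW: few squarefree `m` have a large block above `2 ^ H` (second stage)
-/

set_option autoImplicit false

open Finset

namespace Pool.Per

namespace Cw

/-- the squarefree `m ≤ X` with a large block `T2 m i` -/
noncomputable def blk (X i r : ℕ) : Finset ℕ := by
  classical
  exact (Icc 1 X).filter (fun m => Squarefree m ∧ 1 / ((r + 1 : ℕ) : ℝ) ^ 2 < |T2 m i|)

theorem mem_blk {X i r m : ℕ} : m ∈ blk X i r ↔ (1 ≤ m ∧ m ≤ X) ∧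
    Squarefree m ∧ 1 / ((r + 1 : ℕ) : ℝ) ^ 2 < |T2 m i| := by
  classical
  unfold blk
  rw [Finset.mem_filter, Finset.mem_Icc]

/-- Markov for the `2k`-th moment -/
theorem card_blk {C : ℝ} {X i k r : ℕ}
    (hM : ∑ m ∈ blk X i r, (T2 m i) ^ (2 * k) ≤ (C * k) ^ k) :
    ((blk X i r).card : ℝ) ≤ (((r + 1 : ℕ) : ℝ) ^ 4 * (C * k)) ^ k := by
  set s : ℝ := ((r + 1 : ℕ) : ℝ) with hs
  have hs0 : 0 < s := by rw [hs]; positivity
  have h1 : ∀ m ∈ blk X i r, (1 / s ^ 2) ^ (2 * k) ≤ (T2 m i) ^ (2 * k) := by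
    intro m hm
    have h2 := (mem_blk.1 hm).2.2
    rw [← (even_two_mul k).pow_abs (T2 m i)]
    exact pow_le_pow_left₀ (by positivity) h2.le _
  have h3 : ((blk X i r).card : ℝ) * (1 / s ^ 2) ^ (2 * k) ≤ (C * k) ^ k := by
    calc ((blk X i r).card : ℝ) * (1 / s ^ 2) ^ (2 * k)
        = ∑ m ∈ blk X i r, (1 / s ^ 2) ^ (2 * k) := by rw [Finset.sum_const, nsmul_eq_mul]
      _ ≤ _ := (Finset.sum_le_sum h1).trans hM
  have h4 : (1 / s ^ 2) ^ (2 * k) * (s ^ 4) ^ k = 1 := by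
    rw [pow_mul, ← mul_pow]
    have : (1 / s ^ 2) ^ 2 * s ^ 4 = 1 := by field_simp
    rw [this, one_pow]
  calc ((blk X i r).card : ℝ)
      = ((blk X i r).card : ℝ) * (1 / s ^ 2) ^ (2 * k) * (s ^ 4) ^ k := by
        rw [mul_assoc, h4, mul_one]
    _ ≤ (C * k) ^ k * (s ^ 4) ^ k := mul_le_mul_of_nonneg_right h3 (by positivity)
    _ = (s ^ 4 * (C * k)) ^ k := by rw [mul_pow (s ^ 4), mul_comm]

theorem topI_lt (X : ℕ) : 8 * (Nat.log 2 X + 1) < 2 ^ topI X := by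
  unfold topI
  exact Nat.lt_pow_succ_log_self (by norm_num) _

theorem topI_le (X : ℕ) : 2 ^ topI X ≤ 16 * (Nat.log 2 X + 1) := by
  unfold topI
  have h := Nat.pow_log_le_self 2 (show 8 * (Nat.log 2 X + 1) ≠ 0 by omega)
  rw [pow_succ]
  omega

/-- one block -/
theorem blk_bound {C : ℝ} (hC : 1 ≤ C)
    (hM : ∀ (X i k : ℕ) (M : Finset ℕ), 1 ≤ X → 1 ≤ i → 1 ≤ k →
      2 ^ (2 * 2 ^ i) * X ^ 3 ≤ 2 ^ (k * 2 ^ i) → (∀ m ∈ M, Squarefree m ∧ m ≤ X) →
      ∑ m ∈ M, (T2 m i) ^ (2 * k) ≤ (C * k) ^ k)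
    {X i r : ℕ} (hX : 1 ≤ X) (hi : 1 ≤ i) (hir : i + r = topI X) :
    ((blk X i r).card : ℝ) ≤
      Real.exp (4 * (Real.log (4 * C) + 5) * (2 ^ r * ((r : ℝ) + 1))) := by
  set L := Nat.log 2 X + 1 with hL
  have hXL : X < 2 ^ L := Nat.lt_pow_succ_log_self (by norm_num) X
  have hI : 8 * L < 2 ^ (i + r) := by rw [hir]; exact topI_lt X
  set k := 3 * L / 2 ^ i + 3 with hk
  have h2i : 0 < 2 ^ i := by positivity
  have hdm := Nat.div_add_mod (3 * L) (2 ^ i)
  have hmod := Nat.mod_lt (3 * L) h2i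
  have hk1 : 1 ≤ k := by
    rw [hk]
    exact le_trans (by norm_num) (Nat.le_add_left 3 _)
  have hkey : 2 * 2 ^ i + 3 * L ≤ k * 2 ^ i := by
    have e : k * 2 ^ i = 2 ^ i * (3 * L / 2 ^ i) + 3 * 2 ^ i := by rw [hk]; ring
    rw [e]; omega
  have hpow : 2 ^ (2 * 2 ^ i) * X ^ 3 ≤ 2 ^ (k * 2 ^ i) := by
    calc 2 ^ (2 * 2 ^ i) * X ^ 3 ≤ 2 ^ (2 * 2 ^ i) * (2 ^ L) ^ 3 :=
          Nat.mul_le_mul_left _ (Nat.pow_le_pow_left hXL.le 3)
      _ = 2 ^ (2 * 2 ^ i + 3 * L) := by rw [← pow_mul, ← pow_add, mul_comm L 3]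
      _ ≤ 2 ^ (k * 2 ^ i) := Nat.pow_le_pow_right (by norm_num) hkey
  have hcard := card_blk (C := C) (hM X i k (blk X i r) hX hi hk1 hpow (fun m hm =>
    ⟨(mem_blk.1 hm).2.1, (mem_blk.1 hm).1.2⟩))
  -- `k ≤ 4 * 2 ^ r`
  have hk4 : k ≤ 4 * 2 ^ r := by
    have h1 : 3 * L / 2 ^ i < 2 ^ r := by
      rw [Nat.div_lt_iff_lt_mul h2i]
      calc 3 * L ≤ 8 * L := by omega
        _ < 2 ^ (i + r) := hI
        _ = 2 ^ r * 2 ^ i := by rw [pow_add]; ring
    have h2 : 1 ≤ 2 ^ r := Nat.one_le_two_pow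
    rw [hk]; omega
  have hk4' : (k : ℝ) ≤ 4 * 2 ^ r := by exact_mod_cast hk4
  have hC0 : 0 < C := by linarith
  have hr0 : (0 : ℝ) ≤ r := Nat.cast_nonneg r
  have h2r : (1 : ℝ) ≤ 2 ^ r := one_le_pow₀ (by norm_num)
  set b : ℝ := ((r : ℝ) + 1) ^ 4 * (C * (4 * 2 ^ r)) with hb
  have hb1 : 1 ≤ b := by
    rw [hb]
    have e1 : (1 : ℝ) ≤ ((r : ℝ) + 1) ^ 4 := one_le_pow₀ (by linarith)
    have e2 : (1 : ℝ) ≤ C * (4 * 2 ^ r) := by nlinarith
    nlinarith
  have hle : ((blk X i r).card : ℝ) ≤ b ^ (4 * 2 ^ r) := by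
    refine hcard.trans ?_
    calc (((r + 1 : ℕ) : ℝ) ^ 4 * (C * k)) ^ k ≤ b ^ k := by
          apply pow_le_pow_left₀ (by positivity)
          rw [hb]
          push_cast
          apply mul_le_mul_of_nonneg_left _ (by positivity)
          exact mul_le_mul_of_nonneg_left hk4' hC0.le
      _ ≤ b ^ (4 * 2 ^ r) := pow_le_pow_right₀ hb1 hk4
  refine hle.trans ?_
  have hb0 : 0 < b := by linarith
  rw [← Real.exp_log (pow_pos hb0 _), Real.log_pow]
  apply Real.exp_le_exp.2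
  have hlogb : Real.log b ≤ (Real.log (4 * C) + 5) * ((r : ℝ) + 1) := by
    have e1 : b = (4 * C) * (((r : ℝ) + 1) ^ 4 * 2 ^ r) := by rw [hb]; ring
    have e0 : Real.log (((r : ℝ) + 1) ^ 4 * 2 ^ r) =
        (4 : ℕ) * Real.log ((r : ℝ) + 1) + r * Real.log 2 := by
      rw [Real.log_mul (by positivity) (by positivity), Real.log_pow, Real.log_pow]
    rw [e1, Real.log_mul (x := 4 * C) (by positivity) (by positivity), e0]
    have e2 : Real.log ((r : ℝ) + 1) ≤ r := by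
      have := Real.log_le_sub_one_of_pos (show (0 : ℝ) < (r : ℝ) + 1 by linarith)
      linarith
    have e3 := Real.log_two_lt_d9
    have e4 : 0 ≤ Real.log (4 * C) := Real.log_nonneg (by linarith)
    push_cast
    have e5 : (r : ℝ) * Real.log 2 ≤ r := by nlinarith
    nlinarith
  push_cast
  calc 4 * 2 ^ r * Real.log b ≤ 4 * 2 ^ r * ((Real.log (4 * C) + 5) * ((r : ℝ) + 1)) :=
        mul_le_mul_of_nonneg_left hlogb (by positivity)
    _ = 4 * (Real.log (4 * C) + 5) * (2 ^ r * ((r : ℝ) + 1)) := by ring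

end Cw

open Cw in
theorem cw_proof (h : MW_Stmt) : CW_Stmt := by
  obtain ⟨C, hC, hM⟩ := h
  set C1 : ℝ := 4 * (Real.log (4 * C) + 5) with hC1
  have hlog4C : 0 ≤ Real.log (4 * C) := Real.log_nonneg (by linarith)
  have hC1p : 0 < C1 := by rw [hC1]; linarith
  refine ⟨576 * (C1 + 1), by positivity, ?_⟩
  intro X H hX hH
  classical
  set L := Nat.log 2 X + 1 with hL
  set t : ℝ := Real.log X / H with ht
  have hX0 : (0 : ℝ) < X := by exact_mod_cast (by omega : 0 < X)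
  have hX2 : (2 : ℝ) ≤ X := by exact_mod_cast hX
  have hlX : Real.log 2 ≤ Real.log X := Real.log_le_log (by norm_num) hX2
  have hl2 := Real.log_two_gt_d9
  have hl2' := Real.log_two_lt_d9
  have hH0 : (0 : ℝ) < H := by exact_mod_cast (by omega : 0 < H)
  have ht0 : 0 < t := by rw [ht]; apply div_pos (by linarith) hH0
  -- the covering
  set R := Nat.log 2 (16 * L / H) with hR
  have hsub : (Icc 1 X).filter (fun m => Squarefree m ∧ Bad2 X H m) ⊆
      ((range (R + 1)).filter (fun r => r + 1 ≤ topI X ∧ 2 ^ r ≤ 16 * L / H)).biUnion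
        (fun r => blk X (topI X - r) r) := by
    intro m hm
    rw [Finset.mem_filter, Finset.mem_Icc] at hm
    obtain ⟨⟨hm1, hmX⟩, hsf, i, hi1, hi2, hi3, hi4⟩ := hm
    have hpow : 2 ^ (topI X - i) ≤ 16 * L / H := by
      rw [Nat.le_div_iff_mul_le (by omega)]
      calc 2 ^ (topI X - i) * H ≤ 2 ^ (topI X - i) * 2 ^ i := Nat.mul_le_mul_left _ hi2
        _ = 2 ^ topI X := by rw [← pow_add, Nat.sub_add_cancel hi3]
        _ ≤ 16 * L := topI_le X
    rw [Finset.mem_biUnion]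
    refine ⟨topI X - i, ?_, ?_⟩
    · rw [Finset.mem_filter, Finset.mem_range]
      refine ⟨?_, by omega, hpow⟩
      have h0 : 16 * L / H ≠ 0 := by
        have : 0 < 2 ^ (topI X - i) := by positivity
        omega
      have := Nat.le_log_of_pow_le (b := 2) (by norm_num) hpow
      rw [hR]; omega
    · have e1 : topI X - (topI X - i) = i := by omega
      rw [e1, mem_blk]
      refine ⟨⟨hm1, hmX⟩, hsf, ?_⟩
      have e2 : topI X + 1 - i = topI X - i + 1 := by omega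
      rw [e2] at hi4
      exact hi4
  rcases Nat.eq_zero_or_pos (16 * L / H) with h0 | h0
  · have hempty : (Icc 1 X).filter (fun m => Squarefree m ∧ Bad2 X H m) = ∅ := by
      rw [Finset.eq_empty_iff_forall_notMem]
      intro m hm
      have h1 := hsub hm
      rw [Finset.mem_biUnion] at h1
      obtain ⟨r, hr, _⟩ := h1
      rw [Finset.mem_filter, h0] at hr
      have : 0 < 2 ^ r := by positivity
      omega
    rw [hempty]
    simp only [Finset.card_empty, Nat.cast_zero]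
    exact (Real.exp_pos _).le
  have h2R : 2 ^ R ≤ 16 * L / H := Nat.pow_log_le_self 2 (by omega)
  have h2R0 : (1 : ℝ) ≤ 2 ^ R := one_le_pow₀ (by norm_num)
  have hR0 : (0 : ℝ) ≤ R := Nat.cast_nonneg R
  -- the bound for one `r`
  have hone : ∀ r ∈ (range (R + 1)).filter (fun r => r + 1 ≤ topI X ∧ 2 ^ r ≤ 16 * L / H),
      ((blk X (topI X - r) r).card : ℝ) ≤ Real.exp (C1 * (2 ^ R * ((R : ℝ) + 1))) := by
    intro r hr
    rw [Finset.mem_filter, Finset.mem_range] at hr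
    have hrR : r ≤ R := by omega
    refine (blk_bound hC hM (by omega : 1 ≤ X) (by omega : 1 ≤ topI X - r)
      (by omega : topI X - r + r = topI X)).trans ?_
    apply Real.exp_le_exp.2
    rw [← hC1]
    apply mul_le_mul_of_nonneg_left _ hC1p.le
    have e1 : (2 : ℝ) ^ r ≤ 2 ^ R := pow_le_pow_right₀ (by norm_num) hrR
    have e2 : (r : ℝ) ≤ R := by exact_mod_cast hrR
    exact mul_le_mul e1 (by linarith) (by positivity) (by positivity)
  have hcard : (((Icc 1 X).filter (fun m => Squarefree m ∧ Bad2 X H m)).card : ℝ) ≤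
      ((R : ℝ) + 1) * Real.exp (C1 * (2 ^ R * ((R : ℝ) + 1))) := by
    have h1 : (((Icc 1 X).filter (fun m => Squarefree m ∧ Bad2 X H m)).card : ℝ) ≤
        ∑ r ∈ (range (R + 1)).filter (fun r => r + 1 ≤ topI X ∧ 2 ^ r ≤ 16 * L / H),
          ((blk X (topI X - r) r).card : ℝ) := by
      have := (Finset.card_le_card hsub).trans Finset.card_biUnion_le
      exact_mod_cast this
    refine h1.trans ((Finset.sum_le_sum hone).trans ?_)
    rw [Finset.sum_const, nsmul_eq_mul]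
    apply mul_le_mul_of_nonneg_right _ (Real.exp_pos _).le
    have h2 := Finset.card_filter_le (range (R + 1))
      (fun r => r + 1 ≤ topI X ∧ 2 ^ r ≤ 16 * L / H)
    rw [Finset.card_range] at h2
    exact_mod_cast h2
  refine hcard.trans ?_
  -- numbers
  have hLr : (L : ℝ) ≤ 3 * Real.log X := by
    have e1 : (2 : ℝ) ^ (Nat.log 2 X) ≤ X := by
      exact_mod_cast Nat.pow_log_le_self 2 (by omega : X ≠ 0)
    have e2 := Real.log_le_log (by positivity) e1
    rw [Real.log_pow] at e2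
    have e3 : (0 : ℝ) ≤ (Nat.log 2 X : ℕ) := Nat.cast_nonneg _
    rw [hL]
    push_cast
    nlinarith
  have h2Rt : (2 : ℝ) ^ R ≤ 48 * t := by
    have e1 : ((2 ^ R * H : ℕ) : ℝ) ≤ ((16 * L : ℕ) : ℝ) := by
      have := (Nat.le_div_iff_mul_le (by omega : 0 < H)).1 h2R
      exact_mod_cast this
    push_cast at e1
    have e2 : (2 : ℝ) ^ R * H ≤ 48 * Real.log X := by linarith
    have e3 : 48 * t = 48 * Real.log X / H := by rw [ht]; ring
    rw [e3, le_div_iff₀ hH0]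
    exact e2
  have hlt : Real.log 2 ≤ Real.log (2 + t) := Real.log_le_log (by norm_num) (by linarith)
  have hRt : (R : ℝ) + 1 ≤ 12 * Real.log (2 + t) := by
    have e1 := Real.log_le_log (by positivity) h2Rt
    rw [Real.log_pow, Real.log_mul (by norm_num) ht0.ne'] at e1
    have e2 : Real.log t ≤ Real.log (2 + t) := Real.log_le_log ht0 (by linarith)
    have e3 : Real.log 48 ≤ 6 * Real.log 2 := by
      have : Real.log 48 ≤ Real.log 64 := Real.log_le_log (by norm_num) (by norm_num)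
      have e4 : Real.log 64 = 6 * Real.log 2 := by
        rw [show (64 : ℝ) = 2 ^ 6 by norm_num, Real.log_pow]; norm_num
      linarith
    nlinarith
  have hfin : C1 * (2 ^ R * ((R : ℝ) + 1)) + 2 ^ R * ((R : ℝ) + 1) ≤
      576 * (C1 + 1) * (1 + t) * Real.log (2 + t) := by
    have e1 : 2 ^ R * ((R : ℝ) + 1) ≤ 48 * t * (12 * Real.log (2 + t)) :=
      mul_le_mul h2Rt hRt (by positivity) (by positivity)
    have e2 : 48 * t * (12 * Real.log (2 + t)) ≤ 576 * ((1 + t) * Real.log (2 + t)) := by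
      have : 0 ≤ Real.log (2 + t) := by linarith
      nlinarith
    have e3 := e1.trans e2
    calc C1 * (2 ^ R * ((R : ℝ) + 1)) + 2 ^ R * ((R : ℝ) + 1)
        = (C1 + 1) * (2 ^ R * ((R : ℝ) + 1)) := by ring
      _ ≤ (C1 + 1) * (576 * ((1 + t) * Real.log (2 + t))) :=
          mul_le_mul_of_nonneg_left e3 (by linarith)
      _ = 576 * (C1 + 1) * (1 + t) * Real.log (2 + t) := by ring
  have hRe : (R : ℝ) + 1 ≤ Real.exp (2 ^ R * ((R : ℝ) + 1)) := by
    have e1 := Real.add_one_le_exp ((2 : ℝ) ^ R * ((R : ℝ) + 1))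
    nlinarith
  calc ((R : ℝ) + 1) * Real.exp (C1 * (2 ^ R * ((R : ℝ) + 1)))
      ≤ Real.exp (2 ^ R * ((R : ℝ) + 1)) * Real.exp (C1 * (2 ^ R * ((R : ℝ) + 1))) :=
        mul_le_mul_of_nonneg_right hRe (Real.exp_pos _).le
    _ = Real.exp (C1 * (2 ^ R * ((R : ℝ) + 1)) + 2 ^ R * ((R : ℝ) + 1)) := by
        rw [← Real.exp_add]; congr 1; ring
    _ ≤ Real.exp (576 * (C1 + 1) * (1 + t) * Real.log (2 + t)) := Real.exp_le_exp.2 hfin

end Pool.Per
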