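import Pool.Agent.Lib.MP_45b5fd_nt.PER.Iface

/-!
# FIN: assembly
-/

set_option autoImplicit false

open Finset

namespace Pool.Per.FIN

/-- part (1) -/
lemma universal (hCF : CF_Stmt) (hGEN : GEN_Stmt) (hRSUM : RSUM_Stmt) (hANA : ANA_Stmt) :
    ∃ C : ℝ, 0 < C ∧ ∀ d : ℕ, ¬ IsSquare d → ∃ p : ℕ, IsPer d p ∧
      (2 : ℝ) ^ d.primeFactors.card * p ≤
        C * Real.sqrt d * Real.exp (chiSum d (Nat.sqrt d)) := by
  obtain ⟨c, hc, hG⟩ := hGEN
  obtain ⟨C, hC, hA⟩ := hANA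
  refine ⟨C / c, by positivity, fun d hd => ?_⟩
  obtain ⟨n, hn, hper, hle⟩ := hG d hd
  refine ⟨n, ⟨hn, hCF d hd n hper⟩, ?_⟩
  have h1 := hRSUM d hd
  have h2 := hA d hd
  have h3 : c * 2 ^ d.primeFactors.card * n ≤
      C * Real.sqrt d * Real.exp (chiSum d (Nat.sqrt d)) := by linarith
  have h4 : (2 : ℝ) ^ d.primeFactors.card * n =
      (c * 2 ^ d.primeFactors.card * n) / c := by field_simp
  rw [h4]
  have h5 : C / c * Real.sqrt d * Real.exp (chiSum d (Nat.sqrt d)) =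
      (C * Real.sqrt d * Real.exp (chiSum d (Nat.sqrt d))) / c := by ring
  rw [h5]
  exact div_le_div_of_nonneg_right h3 hc.le

lemma not_sq {m k : ℕ} (hm : Squarefree m) (h1 : 1 < m) (hk : 0 < k) :
    ¬ IsSquare (m * k ^ 2) := by
  rintro ⟨r, hr⟩
  have hm0 : 0 < m := by omega
  have h2 : k ^ 2 ∣ r ^ 2 := ⟨m, by rw [pow_two r, ← hr]; ring⟩
  obtain ⟨t, ht⟩ := (Nat.pow_dvd_pow_iff (by norm_num)).mp h2
  have h3 : m = t * t := by
    have : m * k ^ 2 = t * t * k ^ 2 := by rw [hr, ht]; ring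
    exact Nat.eq_of_mul_eq_mul_right (by positivity) this
  have h4 : IsUnit t := hm t ⟨1, by rw [h3]; ring⟩
  rw [Nat.isUnit_iff] at h4
  rw [h4] at h3
  omega

theorem fin_proof (hCF : CF_Stmt) (hGEN : GEN_Stmt) (hRSUM : RSUM_Stmt) (hANA : ANA_Stmt)
    (hCNT : CNT_Stmt) (hKER : KER_Stmt) : FIN_Stmt := by
  have hU := universal hCF hGEN hRSUM hANA
  refine ⟨hU, fun ε hε => ?_⟩
  obtain ⟨C, hC, hU⟩ := hU
  obtain ⟨A, hA, C1, hC1, hcnt⟩ := hCNT ε hε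
  obtain ⟨B, hB, hker⟩ := hKER
  refine ⟨max C1 (C * (B * A)), lt_of_lt_of_le hC1 (le_max_left _ _),
    {m | Squarefree m ∧ Bad A m}, fun X => ?_, fun m k hm h1 hE hk h16 => ?_⟩
  · classical
    have h1 : ({m | m ∈ ({m | Squarefree m ∧ Bad A m} : Set ℕ) ∧ m ≤ X} : Set ℕ) =
        (((Icc 1 X).filter (fun m => Squarefree m ∧ Bad A m) : Finset ℕ) : Set ℕ) := by
      ext m
      simp only [Set.mem_ofPred_eq, Finset.coe_filter, Finset.mem_Icc]
      constructor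
      · rintro ⟨⟨h2, h3⟩, h4⟩
        refine ⟨⟨?_, h4⟩, h2, h3⟩
        rcases Nat.eq_zero_or_pos m with h5 | h5
        · rw [h5] at h2
          exact absurd h2 not_squarefree_zero
        · exact h5
      · rintro ⟨⟨_, h4⟩, h2, h3⟩
        exact ⟨⟨h2, h3⟩, h4⟩
    rw [h1, Set.ncard_coe_finset]
    have h2 := hcnt X
    have h3 : (0 : ℝ) ≤ (X : ℝ) ^ ε := by positivity
    have h4 : C1 * (X : ℝ) ^ ε ≤ max C1 (C * (B * A)) * (X : ℝ) ^ ε :=
      mul_le_mul_of_nonneg_right (le_max_left _ _) h3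
    refine le_trans (le_of_eq ?_) (le_trans h2 h4)
    congr!
  · have hbad : ¬ Bad A m := fun h => hE ⟨hm, h⟩
    have h2 := hker A m k hA hm h1 hbad hk h16
    obtain ⟨p, hp, hle⟩ := hU (m * k ^ 2) (not_sq hm h1 hk)
    refine ⟨p, hp, le_trans hle ?_⟩
    have h3 : (0 : ℝ) ≤ C * Real.sqrt ((m * k ^ 2 : ℕ) : ℝ) := by positivity
    refine le_trans (mul_le_mul_of_nonneg_left h2 h3) ?_
    have h4 : 0 ≤ Real.log (Real.log ((m * k ^ 2 : ℕ) : ℝ)) := by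
      have h5 : (16 : ℝ) ≤ ((m * k ^ 2 : ℕ) : ℝ) := by exact_mod_cast h16
      have h6 : 1 ≤ Real.log ((m * k ^ 2 : ℕ) : ℝ) := by
        rw [Real.le_log_iff_exp_le (by linarith)]
        have := Real.exp_one_lt_d9
        linarith
      exact Real.log_nonneg h6
    have h5 : C * (B * A) ≤ max C1 (C * (B * A)) := le_max_right _ _
    calc C * Real.sqrt ((m * k ^ 2 : ℕ) : ℝ) *
          (B * A * Real.log (Real.log ((m * k ^ 2 : ℕ) : ℝ)))
        = C * (B * A) * Real.sqrt ((m * k ^ 2 : ℕ) : ℝ) *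
          Real.log (Real.log ((m * k ^ 2 : ℕ) : ℝ)) := by ring
      _ ≤ _ := by
        apply mul_le_mul_of_nonneg_right _ h4
        exact mul_le_mul_of_nonneg_right h5 (Real.sqrt_nonneg _)

end Pool.Per.FIN
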