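import Pool.Agent.Lib.MP_45b5fd_nt.PER.Iface

/-!
# PER, row KER
-/

set_option autoImplicit false

open Finset

namespace Pool.Per.KER

lemma jac_le (a : ℤ) (p : ℕ) : ((jacobiSym a p : ℤ) : ℝ) ≤ 1 := by
  rcases jacobiSym.trichotomy a p with h | h | h <;> rw [h] <;> norm_num

lemma neg_jac_le (a : ℤ) (p : ℕ) : -((jacobiSym a p : ℤ) : ℝ) ≤ 1 := by
  rcases jacobiSym.trichotomy a p with h | h | h <;> rw [h] <;> norm_num

lemma jac_div_le (a : ℤ) (p : ℕ) : ((jacobiSym a p : ℤ) : ℝ) / p ≤ 1 / (p : ℝ) :=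
  div_le_div_of_nonneg_right (jac_le a p) (Nat.cast_nonneg p)

lemma neg_jac_div_le (a : ℤ) (p : ℕ) : -(((jacobiSym a p : ℤ) : ℝ) / p) ≤ 1 / (p : ℝ) := by
  rw [← neg_div]
  exact div_le_div_of_nonneg_right (neg_jac_le a p) (Nat.cast_nonneg p)

/-- `J(m k² | p) = J(m | p)` for `p` prime to `k` -/
lemma jac_sq {m k p : ℕ} (hp : p.Prime) (h : ¬ p ∣ m * k ^ 2) :
    jacobiSym ((m * k ^ 2 : ℕ) : ℤ) p = jacobiSym (m : ℤ) p := by
  have hk : ¬ p ∣ k := fun h1 => h ((h1.trans (dvd_pow_self k two_ne_zero)).mul_left m)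
  have h1 : ((m * k ^ 2 : ℕ) : ℤ) = (m : ℤ) * (k : ℤ) ^ 2 := by push_cast; ring
  rw [h1, jacobiSym.mul_left, jacobiSym.sq_one' ?_, mul_one]
  rw [Int.gcd_natCast_natCast]
  exact ((Nat.Prime.coprime_iff_not_dvd hp).2 hk).symm

/-- few prime factors -/
lemma card_le {d J : ℕ} (hd : 0 < d) (hJ : Nat.log 2 (Nat.log 2 d) + 1 ≤ J) :
    (2 * d).primeFactors.card ≤ 2 ^ J := by
  have h0 : 0 < 2 * d := by omega
  have h1 : 2 ^ (2 * d).primeFactors.card ≤ ∏ p ∈ (2 * d).primeFactors, p :=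
    Finset.pow_card_le_prod _ _ _ fun p hp => (Nat.prime_of_mem_primeFactors hp).two_le
  have h2 : ∏ p ∈ (2 * d).primeFactors, p ≤ 2 * d := Nat.le_of_dvd h0 (Nat.prod_primeFactors_dvd _)
  have h3 : d < 2 ^ (Nat.log 2 d + 1) := Nat.lt_pow_succ_log_self (by norm_num) d
  have h4 : 2 ^ (2 * d).primeFactors.card < 2 ^ (Nat.log 2 d + 2) := by
    calc 2 ^ (2 * d).primeFactors.card ≤ 2 * d := h1.trans h2
      _ < 2 * 2 ^ (Nat.log 2 d + 1) := by omega
      _ = 2 ^ (Nat.log 2 d + 2) := by ring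
  have h5 : (2 * d).primeFactors.card < Nat.log 2 d + 2 :=
    (Nat.pow_lt_pow_iff_right (by norm_num)).1 h4
  have h6 : Nat.log 2 d < 2 ^ (Nat.log 2 (Nat.log 2 d) + 1) :=
    Nat.lt_pow_succ_log_self (by norm_num) _
  have h7 : 2 ^ (Nat.log 2 (Nat.log 2 d) + 1) ≤ 2 ^ J := Nat.pow_le_pow_right (by norm_num) hJ
  omega

/-- the sum over the small primes -/
lemma small_le (D N J : ℕ) (P : ℕ → Prop) [DecidablePred P] :
    ∑ p ∈ ((Nat.primesLE N).filter P).filter (fun p => p ≤ 2 ^ J),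
      ((jacobiSym (D : ℤ) p : ℤ) : ℝ) / p ≤ ∑ p ∈ Nat.primesLE (2 ^ J), 1 / (p : ℝ) := by
  refine (Finset.sum_le_sum fun p _ => jac_div_le (D : ℤ) p).trans ?_
  refine Finset.sum_le_sum_of_subset_of_nonneg ?_ fun p _ _ => by positivity
  intro p hp
  rw [Finset.mem_filter, Finset.mem_filter, Nat.mem_primesLE] at hp
  rw [Nat.mem_primesLE]
  exact ⟨hp.2, hp.1.1.2⟩

/-- the sum over the large primes -/
lemma large_le {m k J N : ℕ} {B : ℝ} (hd : 0 < m * k ^ 2)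
    (hJ : Nat.log 2 (Nat.log 2 (m * k ^ 2)) + 1 ≤ J)
    (hB : ∑ p ∈ (Ioc (2 ^ J) N).filter Nat.Prime, ((jacobiSym (m : ℤ) p : ℤ) : ℝ) / p ≤ B) :
    ∑ p ∈ ((Nat.primesLE N).filter (fun p => ¬ p ∣ 2 * (m * k ^ 2))).filter
      (fun p => ¬ p ≤ 2 ^ J), ((jacobiSym ((m * k ^ 2 : ℕ) : ℤ) p : ℤ) : ℝ) / p ≤ B + 1 := by
  have h1 : ((Nat.primesLE N).filter (fun p => ¬ p ∣ 2 * (m * k ^ 2))).filter
      (fun p => ¬ p ≤ 2 ^ J) = ((Ioc (2 ^ J) N).filter Nat.Prime).filter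
        (fun p => ¬ p ∣ 2 * (m * k ^ 2)) := by
    ext p
    simp only [Finset.mem_filter, Nat.mem_primesLE, Finset.mem_Ioc, not_le]
    tauto
  rw [h1]
  have h2 : ∑ p ∈ ((Ioc (2 ^ J) N).filter Nat.Prime).filter (fun p => ¬ p ∣ 2 * (m * k ^ 2)),
      ((jacobiSym ((m * k ^ 2 : ℕ) : ℤ) p : ℤ) : ℝ) / p =
      ∑ p ∈ ((Ioc (2 ^ J) N).filter Nat.Prime).filter (fun p => ¬ p ∣ 2 * (m * k ^ 2)),
      ((jacobiSym (m : ℤ) p : ℤ) : ℝ) / p := by
    refine Finset.sum_congr rfl ?_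
    intro p hp
    rw [Finset.mem_filter, Finset.mem_filter] at hp
    rw [jac_sq hp.1.2 (fun h => hp.2 (h.mul_left 2))]
  rw [h2]
  have h3 := Finset.sum_filter_add_sum_filter_not ((Ioc (2 ^ J) N).filter Nat.Prime)
    (fun p => p ∣ 2 * (m * k ^ 2)) (fun p => ((jacobiSym (m : ℤ) p : ℤ) : ℝ) / p)
  have h4 : -(∑ p ∈ ((Ioc (2 ^ J) N).filter Nat.Prime).filter (fun p => p ∣ 2 * (m * k ^ 2)),
      ((jacobiSym (m : ℤ) p : ℤ) : ℝ) / p) ≤ 1 := by
    rw [← Finset.sum_neg_distrib]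
    have h5 : ∀ p ∈ ((Ioc (2 ^ J) N).filter Nat.Prime).filter (fun p => p ∣ 2 * (m * k ^ 2)),
        -(((jacobiSym (m : ℤ) p : ℤ) : ℝ) / p) ≤ 1 / (2 ^ J : ℝ) := by
      intro p hp
      rw [Finset.mem_filter, Finset.mem_filter, Finset.mem_Ioc] at hp
      refine (neg_jac_div_le _ _).trans ?_
      apply one_div_le_one_div_of_le (by positivity)
      exact_mod_cast hp.1.1.1.le
    refine (Finset.sum_le_sum h5).trans ?_
    rw [Finset.sum_const, nsmul_eq_mul]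
    have h6 : (((Ioc (2 ^ J) N).filter Nat.Prime).filter (fun p => p ∣ 2 * (m * k ^ 2))).card ≤
        (2 * (m * k ^ 2)).primeFactors.card := by
      apply Finset.card_le_card
      intro p hp
      rw [Finset.mem_filter, Finset.mem_filter] at hp
      rw [Nat.mem_primeFactors]
      exact ⟨hp.1.2, hp.2, by omega⟩
    have h7 := h6.trans (card_le hd hJ)
    have h8 : ((((Ioc (2 ^ J) N).filter Nat.Prime).filter
        (fun p => p ∣ 2 * (m * k ^ 2))).card : ℝ) ≤ 2 ^ J := by exact_mod_cast h7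
    rw [mul_one_div, div_le_one (by positivity)]
    exact h8
  linarith

lemma log_two_lt : (0.69 : ℝ) < Real.log 2 := by
  have := Real.log_two_gt_d9
  linarith

/-- `1 ≤ log log d` -/
lemma one_le_loglog {d : ℕ} (hd : 16 ≤ d) : 1 ≤ Real.log (Real.log (d : ℝ)) := by
  have h1 : (16 : ℝ) ≤ d := by exact_mod_cast hd
  have h2 : Real.log 16 ≤ Real.log d := Real.log_le_log (by norm_num) h1
  have h3 : Real.log 16 = 4 * Real.log 2 := by
    rw [show (16 : ℝ) = 2 ^ 4 by norm_num, Real.log_pow]; norm_num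
  have h4 := Real.log_two_gt_d9
  have h5 := Real.exp_one_lt_d9
  have h6 : Real.exp 1 ≤ Real.log d := by linarith
  calc (1 : ℝ) = Real.log (Real.exp 1) := (Real.log_exp 1).symm
    _ ≤ Real.log (Real.log d) := Real.log_le_log (Real.exp_pos 1) h6

lemma natlog_le {n : ℕ} (hn : 0 < n) : (Nat.log 2 n : ℝ) ≤ Real.log n / Real.log 2 := by
  have hl : 0 < Real.log 2 := Real.log_pos (by norm_num)
  rw [le_div_iff₀ hl, ← Real.log_pow]
  apply Real.log_le_log (by positivity)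
  exact_mod_cast Nat.pow_log_le_self 2 hn.ne'

lemma loglog_le {d : ℕ} (hd : 16 ≤ d) :
    (Nat.log 2 (Nat.log 2 d) : ℝ) ≤ 2 * Real.log (Real.log (d : ℝ)) := by
  have hl : 0 < Real.log 2 := Real.log_pos (by norm_num)
  have h1 : 0 < Nat.log 2 d := Nat.log_pos (by norm_num) (by omega)
  have h2 := natlog_le h1
  have h3 : (Nat.log 2 d : ℝ) ≤ Real.log d / Real.log 2 := natlog_le (by omega)
  have h4 : 0 < Real.log (d : ℝ) := Real.log_pos (by exact_mod_cast (by omega : 1 < d))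
  have h5 : Real.log (Nat.log 2 d : ℝ) ≤ Real.log (Real.log d / Real.log 2) :=
    Real.log_le_log (by exact_mod_cast h1) h3
  rw [Real.log_div h4.ne' hl.ne'] at h5
  have h6 := one_le_loglog hd
  -- `- log log 2 ≤ 0.38`
  have h7 : -Real.log (Real.log 2) ≤ 0.38 := by
    have h8 : -Real.log (Real.log 2) = Real.log (1 / Real.log 2) := by
      rw [Real.log_div one_ne_zero hl.ne', Real.log_one, zero_sub]
    rw [h8]
    rw [Real.log_le_iff_le_exp (by positivity)]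
    have h9 := Real.log_two_gt_d9
    have h10 : 1 / Real.log 2 ≤ 1.4428 := by
      rw [div_le_iff₀ hl]; linarith
    have h11 : (1.4428 : ℝ) ≤ Real.exp 0.38 := by
      have := Real.quadratic_le_exp_of_nonneg (x := 0.38) (by norm_num)
      norm_num at this ⊢
      linarith
    linarith
  refine h2.trans ?_
  rw [div_le_iff₀ hl]
  have h9 := log_two_lt
  nlinarith

end Pool.Per.KER

namespace Pool.Per

open KER in
/-- **KER** -/
theorem ker_proof (hchi : CHI_Stmt) (hmert : MERT_Stmt) : KER_Stmt := by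
  obtain ⟨B, hB⟩ := hchi
  obtain ⟨C, hC0, hC⟩ := hmert
  refine ⟨3 * Real.exp (C + B + 1), by positivity, ?_⟩
  intro A m k hA hm hm1 hbad hk hd
  set d := m * k ^ 2 with hdd
  have hsq : ¬ IsSquare m := by
    rintro ⟨r, hr⟩
    have h1 : IsUnit r := hm r (by rw [hr])
    rw [Nat.isUnit_iff] at h1
    rw [h1] at hr
    omega
  set J := max 1 (max (A * Nat.log 2 (Nat.log 2 m)) (Nat.log 2 (Nat.log 2 d) + 1)) with hJ
  have hJ1 : 1 ≤ J := le_max_left _ _
  have hJ2 : A * Nat.log 2 (Nat.log 2 m) ≤ J := (le_max_left _ _).trans (le_max_right _ _)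
  have hJ3 : Nat.log 2 (Nat.log 2 d) + 1 ≤ J := (le_max_right _ _).trans (le_max_right _ _)
  have hd0 : 0 < d := by omega
  -- the size of `J`
  have hll := one_le_loglog hd
  have hmd : m ≤ d := by
    rw [hdd]; exact Nat.le_mul_of_pos_right m (by positivity)
  have hlm : Nat.log 2 (Nat.log 2 m) ≤ Nat.log 2 (Nat.log 2 d) :=
    Nat.log_mono_right (Nat.log_mono_right hmd)
  have hA' : (1 : ℝ) ≤ A := by exact_mod_cast hA
  have h2 := loglog_le hd
  have hJs : (J : ℝ) ≤ 3 * (A * Real.log (Real.log (d : ℝ))) := by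
    have hX : Real.log (Real.log (d : ℝ)) ≤ A * Real.log (Real.log (d : ℝ)) := by nlinarith
    rw [hJ]
    push_cast
    refine max_le (by linarith) (max_le ?_ (by linarith))
    have h3 : (Nat.log 2 (Nat.log 2 m) : ℝ) ≤ Nat.log 2 (Nat.log 2 d) := by exact_mod_cast hlm
    have h4 : (Nat.log 2 (Nat.log 2 m) : ℝ) ≤ 2 * Real.log (Real.log (d : ℝ)) := h3.trans h2
    nlinarith
  have hJ0 : (0 : ℝ) < J := by exact_mod_cast hJ1
  -- the sum
  have hsum : chiSum d (Nat.sqrt d) ≤ Real.log J + (C + B + 1) := by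
    unfold chiSum
    rw [← Finset.sum_filter_add_sum_filter_not _ (fun p => p ≤ 2 ^ J)]
    have h3 := small_le d (Nat.sqrt d) J (fun p => ¬ p ∣ 2 * d)
    have h4 := large_le (N := Nat.sqrt d) hd0 hJ3
      (hB A m J (Nat.sqrt d) hsq hbad hJ1 hJ2)
    have h5 : (2 : ℕ) ≤ 2 ^ J := by
      calc 2 = 2 ^ 1 := by norm_num
        _ ≤ 2 ^ J := Nat.pow_le_pow_right (by norm_num) hJ1
    have h6 := (abs_le.1 (hC (2 ^ J) h5)).2
    have h7 : Real.log (Real.log ((2 ^ J : ℕ) : ℝ)) ≤ Real.log J := by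
      have hl : 0 < Real.log 2 := Real.log_pos (by norm_num)
      have h8 : Real.log ((2 ^ J : ℕ) : ℝ) = J * Real.log 2 := by
        push_cast; rw [Real.log_pow]
      rw [h8]
      apply Real.log_le_log (by positivity)
      have h9 := Real.log_two_lt_d9
      nlinarith
    linarith
  calc Real.exp (chiSum d (Nat.sqrt d)) ≤ Real.exp (Real.log J + (C + B + 1)) :=
        Real.exp_le_exp.2 hsum
    _ = J * Real.exp (C + B + 1) := by rw [Real.exp_add, Real.exp_log hJ0]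
    _ ≤ 3 * (A * Real.log (Real.log (d : ℝ))) * Real.exp (C + B + 1) :=
        mul_le_mul_of_nonneg_right hJs (Real.exp_pos _).le
    _ = 3 * Real.exp (C + B + 1) * A * Real.log (Real.log (d : ℝ)) := by ring

end Pool.Per
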