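import Pool.Agent.Lib.MP_45b5fd_nt.PER.Iface2
import Pool.Agent.Lib.MP_45b5fd_nt.PER.FIN
import Pool.Agent.Lib.MP_45b5fd_nt.PER.KER

/-!
# DEV3: the large deviation theorem of the second stage, and the bound for all orders
-/

set_option autoImplicit false

open Finset

namespace Pool.Per.Dev3

/-- few quadratic fields have an order whose period is larger than `C √d H / 2 ^ ω(d)` -/
theorem deviations (hCF : CF_Stmt) (hGEN : GEN_Stmt) (hRSUM : RSUM_Stmt) (hANA : ANA_Stmt)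
    (hKW : KW_Stmt) (hCW : CW_Stmt) :
    ∃ C : ℝ, 0 < C ∧ ∀ X H : ℕ, 2 ≤ X → 1 ≤ H →
      (({m : ℕ | Squarefree m ∧ 1 < m ∧ m ≤ X ∧ ∃ k : ℕ, 0 < k ∧ 16 ≤ m * k ^ 2 ∧
        ¬ ∃ p : ℕ, IsPer (m * k ^ 2) p ∧
          (2 : ℝ) ^ (m * k ^ 2).primeFactors.card * p ≤
            C * Real.sqrt ((m * k ^ 2 : ℕ) : ℝ) *
              max (H : ℝ) (Real.log (Real.log ((m * k ^ 2 : ℕ) : ℝ)))} : Set ℕ).ncard : ℝ) ≤
        Real.exp (C * (1 + Real.log X / H) * Real.log (2 + Real.log X / H)) := by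
  classical
  obtain ⟨C, hC, hU⟩ := FIN.universal hCF hGEN hRSUM hANA
  obtain ⟨B, hB, hker⟩ := hKW
  obtain ⟨C1, hC1, hcnt⟩ := hCW
  refine ⟨max (C * B) C1, lt_of_lt_of_le hC1 (le_max_right _ _), fun X H hX hH => ?_⟩
  have hcnt := hcnt X H hX hH
  have hsub : ({m : ℕ | Squarefree m ∧ 1 < m ∧ m ≤ X ∧ ∃ k : ℕ, 0 < k ∧ 16 ≤ m * k ^ 2 ∧
        ¬ ∃ p : ℕ, IsPer (m * k ^ 2) p ∧
          (2 : ℝ) ^ (m * k ^ 2).primeFactors.card * p ≤
            max (C * B) C1 * Real.sqrt ((m * k ^ 2 : ℕ) : ℝ) *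
              max (H : ℝ) (Real.log (Real.log ((m * k ^ 2 : ℕ) : ℝ)))} : Set ℕ) ⊆
      (((Icc 1 X).filter (fun m => Squarefree m ∧ Bad2 X H m) : Finset ℕ) : Set ℕ) := by
    rintro m ⟨hm, hm1, hmX, k, hk, h16, hno⟩
    rw [Finset.coe_filter]
    refine ⟨Finset.mem_Icc.mpr ⟨by omega, hmX⟩, hm, ?_⟩
    by_contra hbad
    apply hno
    have h2 := hker X H m k hH hm hm1 hmX hbad hk h16
    obtain ⟨p, hp, hle⟩ := hU (m * k ^ 2) (FIN.not_sq hm hm1 hk)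
    refine ⟨p, hp, le_trans hle ?_⟩
    have h3 : (0 : ℝ) ≤ C * Real.sqrt ((m * k ^ 2 : ℕ) : ℝ) := by positivity
    refine le_trans (mul_le_mul_of_nonneg_left h2 h3) ?_
    have h4 : (0 : ℝ) ≤ max (H : ℝ) (Real.log (Real.log ((m * k ^ 2 : ℕ) : ℝ))) :=
      le_trans (Nat.cast_nonneg H) (le_max_left _ _)
    calc C * Real.sqrt ((m * k ^ 2 : ℕ) : ℝ) *
          (B * max (H : ℝ) (Real.log (Real.log ((m * k ^ 2 : ℕ) : ℝ))))
        = (C * B) * Real.sqrt ((m * k ^ 2 : ℕ) : ℝ) *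
          max (H : ℝ) (Real.log (Real.log ((m * k ^ 2 : ℕ) : ℝ))) := by ring
      _ ≤ _ := by
        apply mul_le_mul_of_nonneg_right _ h4
        exact mul_le_mul_of_nonneg_right (le_max_left _ _) (Real.sqrt_nonneg _)
  have h1 : (({m : ℕ | Squarefree m ∧ 1 < m ∧ m ≤ X ∧ ∃ k : ℕ, 0 < k ∧ 16 ≤ m * k ^ 2 ∧
        ¬ ∃ p : ℕ, IsPer (m * k ^ 2) p ∧
          (2 : ℝ) ^ (m * k ^ 2).primeFactors.card * p ≤
            max (C * B) C1 * Real.sqrt ((m * k ^ 2 : ℕ) : ℝ) *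
              max (H : ℝ) (Real.log (Real.log ((m * k ^ 2 : ℕ) : ℝ)))} : Set ℕ).ncard : ℝ) ≤
      (((Icc 1 X).filter (fun m => Squarefree m ∧ Bad2 X H m)).card : ℝ) := by
    have := Set.ncard_le_ncard hsub (Finset.finite_toSet _)
    rw [Set.ncard_coe_finset] at this
    exact_mod_cast this
  refine le_trans h1 (le_trans hcnt ?_)
  apply Real.exp_le_exp.2
  have hlX : 0 ≤ Real.log (X : ℝ) := Real.log_nonneg (by exact_mod_cast (by omega : 1 ≤ X))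
  have hH0 : (0 : ℝ) < H := by exact_mod_cast hH
  have hq : 0 ≤ Real.log X / (H : ℝ) := by positivity
  have hlog : 0 ≤ Real.log (2 + Real.log X / (H : ℝ)) := Real.log_nonneg (by linarith)
  apply mul_le_mul_of_nonneg_right _ hlog
  exact mul_le_mul_of_nonneg_right (le_max_right _ _) (by linarith)

/-- every order: `2 ^ ω(d) * ℓ(d) ≤ C √d max(log m, log log d)` for `d = m k²` -/
theorem orders (hCF : CF_Stmt) (hGEN : GEN_Stmt) (hRSUM : RSUM_Stmt) (hANA : ANA_Stmt)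
    (hKW : KW_Stmt) :
    ∃ C : ℝ, 0 < C ∧ ∀ m k : ℕ, Squarefree m → 1 < m → 0 < k → 16 ≤ m * k ^ 2 →
      ∃ p : ℕ, IsPer (m * k ^ 2) p ∧
        (2 : ℝ) ^ (m * k ^ 2).primeFactors.card * p ≤
          C * Real.sqrt ((m * k ^ 2 : ℕ) : ℝ) *
            max (Real.log m) (Real.log (Real.log ((m * k ^ 2 : ℕ) : ℝ))) := by
  obtain ⟨C, hC, hU⟩ := FIN.universal hCF hGEN hRSUM hANA
  obtain ⟨B, hB, hker⟩ := hKW
  refine ⟨C * (B * 60), by positivity, fun m k hm hm1 hk h16 => ?_⟩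
  set H := 2 ^ topI m + 1 with hH
  have hH1 : 1 ≤ H := by rw [hH]; exact Nat.le_add_left 1 _
  have hbad : ¬ Bad2 m H m := by
    rintro ⟨i, _, h2, h3, _⟩
    have : 2 ^ i ≤ 2 ^ topI m := Nat.pow_le_pow_right (by norm_num) h3
    omega
  have h2 := hker m H m k hH1 hm hm1 le_rfl hbad hk h16
  obtain ⟨p, hp, hle⟩ := hU (m * k ^ 2) (FIN.not_sq hm hm1 hk)
  refine ⟨p, hp, le_trans hle ?_⟩
  have h3 : (0 : ℝ) ≤ C * Real.sqrt ((m * k ^ 2 : ℕ) : ℝ) := by positivity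
  refine le_trans (mul_le_mul_of_nonneg_left h2 h3) ?_
  have hH60 : (H : ℝ) ≤ 60 * Real.log m := by
    have e1 : 2 ^ topI m ≤ 16 * (Nat.log 2 m + 1) := by
      have : 2 ^ Nat.log 2 (8 * (Nat.log 2 m + 1)) ≤ 8 * (Nat.log 2 m + 1) :=
        Nat.pow_log_le_self 2 (by omega)
      calc 2 ^ topI m = 2 ^ Nat.log 2 (8 * (Nat.log 2 m + 1)) * 2 := by
            unfold topI; rw [pow_succ]
        _ ≤ 8 * (Nat.log 2 m + 1) * 2 := Nat.mul_le_mul_right 2 this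
        _ = 16 * (Nat.log 2 m + 1) := by ring
    have e2 : (Nat.log 2 m : ℝ) ≤ Real.log m / Real.log 2 := KER.natlog_le (by omega)
    have e3 := Real.log_two_gt_d9
    have e4 : Real.log 2 ≤ Real.log m := Real.log_le_log (by norm_num) (by exact_mod_cast hm1)
    have e5 : (Nat.log 2 m : ℝ) ≤ 1.45 * Real.log m := by
      refine e2.trans ?_
      rw [div_le_iff₀ (by linarith)]
      nlinarith
    have e6 : (H : ℝ) ≤ 16 * ((Nat.log 2 m : ℝ) + 1) + 1 := by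
      rw [hH]
      push_cast
      have : ((2 ^ topI m : ℕ) : ℝ) ≤ ((16 * (Nat.log 2 m + 1) : ℕ) : ℝ) := by exact_mod_cast e1
      push_cast at this
      linarith
    linarith
  have hlm : 0 ≤ Real.log m := Real.log_nonneg (by exact_mod_cast hm1.le)
  have hmax : max (H : ℝ) (Real.log (Real.log ((m * k ^ 2 : ℕ) : ℝ))) ≤
      60 * max (Real.log m) (Real.log (Real.log ((m * k ^ 2 : ℕ) : ℝ))) := by
    have e1 : Real.log m ≤ max (Real.log m) (Real.log (Real.log ((m * k ^ 2 : ℕ) : ℝ))) :=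
      le_max_left _ _
    have e2 : Real.log (Real.log ((m * k ^ 2 : ℕ) : ℝ)) ≤
        max (Real.log m) (Real.log (Real.log ((m * k ^ 2 : ℕ) : ℝ))) := le_max_right _ _
    exact max_le (by linarith) (by linarith)
  calc C * Real.sqrt ((m * k ^ 2 : ℕ) : ℝ) *
        (B * max (H : ℝ) (Real.log (Real.log ((m * k ^ 2 : ℕ) : ℝ))))
      ≤ C * Real.sqrt ((m * k ^ 2 : ℕ) : ℝ) *
        (B * (60 * max (Real.log m) (Real.log (Real.log ((m * k ^ 2 : ℕ) : ℝ))))) :=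
        mul_le_mul_of_nonneg_left (mul_le_mul_of_nonneg_left hmax hB.le) h3
    _ = C * (B * 60) * Real.sqrt ((m * k ^ 2 : ℕ) : ℝ) *
        max (Real.log m) (Real.log (Real.log ((m * k ^ 2 : ℕ) : ℝ))) := by ring

end Pool.Per.Dev3
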