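import Pool.Agent.Lib.MP_45b5fd_nt.PER.Iface2

/-!
# PER, module DW: the weighted large sieve
-/

set_option autoImplicit false

open Finset

namespace Pool.Per.Dw

/-- Abel summation -/
theorem abel (c : ℕ → ℝ) (T : ℝ) (hT : ∀ N, |∑ n ∈ Icc 1 N, c n| ≤ T) (A B : ℕ) (hAB : A ≤ B) :
    |∑ n ∈ Ioc A B, c n / n| ≤ 2 * T / (A + 1) := by
  have hT0 : 0 ≤ T := (abs_nonneg _).trans (hT 0)
  obtain ⟨s, hs⟩ : ∃ s : ℕ → ℝ, ∀ N, s N = ∑ n ∈ Icc 1 N, c n := ⟨_, fun _ => rfl⟩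
  have hs1 : ∀ N, s (N + 1) = s N + c (N + 1) := fun N => by
    rw [hs, hs, Finset.sum_Icc_succ_top (by omega)]
  have hsT : ∀ N, |s N| ≤ T := fun N => by rw [hs]; exact hT N
  have key : |∑ n ∈ Ioc A B, c n / n - s B / (B + 1) + s A / (A + 1)| ≤
      T * (1 / (A + 1) - 1 / (B + 1)) := by
    induction B, hAB using Nat.le_induction with
    | base => simp
    | succ B hB ih =>
      have hpos : (0 : ℝ) < B + 1 := by positivity
      have hpos2 : (0 : ℝ) < B + 1 + 1 := by positivity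
      have e1 : ∑ n ∈ Ioc A (B + 1), c n / n - s (B + 1) / ((B + 1 : ℕ) + 1) + s A / (A + 1) =
          (∑ n ∈ Ioc A B, c n / n - s B / (B + 1) + s A / (A + 1)) +
            s (B + 1) * (1 / (B + 1) - 1 / (B + 1 + 1)) := by
        rw [Finset.sum_Ioc_succ_top hB, show c (B + 1) = s (B + 1) - s B by rw [hs1]; ring]
        push_cast
        field_simp
        ring
      have e2 : (0 : ℝ) ≤ 1 / (B + 1) - 1 / (B + 1 + 1) := by
        rw [sub_nonneg]
        exact one_div_le_one_div_of_le hpos (by linarith)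
      have e3 : |s (B + 1) * (1 / ((B : ℝ) + 1) - 1 / (B + 1 + 1))| ≤
          T * (1 / ((B : ℝ) + 1) - 1 / (B + 1 + 1)) := by
        rw [abs_mul, abs_of_nonneg e2]
        exact mul_le_mul_of_nonneg_right (hsT _) e2
      rw [e1]
      refine (abs_add_le _ _).trans ((add_le_add ih e3).trans (le_of_eq ?_))
      push_cast
      ring
  have hA : (0 : ℝ) < A + 1 := by positivity
  have hB : (0 : ℝ) < B + 1 := by positivity
  have h1 : |s B / ((B : ℝ) + 1)| ≤ T / (B + 1) := by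
    rw [abs_div, abs_of_pos hB]
    exact div_le_div_of_nonneg_right (hsT _) hB.le
  have h2 : |s A / ((A : ℝ) + 1)| ≤ T / (A + 1) := by
    rw [abs_div, abs_of_pos hA]
    exact div_le_div_of_nonneg_right (hsT _) hA.le
  rw [abs_le] at key h1 h2 ⊢
  have h3 : T * (1 / ((A : ℝ) + 1) - 1 / (B + 1)) = T / (A + 1) - T / (B + 1) := by ring
  have h4 : 2 * T / ((A : ℝ) + 1) = T / (A + 1) + T / (A + 1) := by ring
  rw [h3] at key
  rw [h4]
  constructor <;> linarith [key.1, key.2, h1.1, h1.2, h2.1, h2.2]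

theorem two_mul_le (x : ℝ) (h0 : 0 ≤ x) (h1 : x < 1) :
    2 * x ≤ Real.log (1 + x) - Real.log (1 - x) := by
  have h := Real.hasSum_log_sub_log_of_abs_lt_one (by rwa [abs_of_nonneg h0] : |x| < 1)
  have := le_hasSum h 0 (fun k _ => by positivity)
  simpa using this

/-- upper bound for the odd harmonic sum -/
theorem odd_upper (A B : ℕ) (hA : 1 ≤ A) (hAB : A ≤ B) :
    ∑ n ∈ (Ioc A B).filter Odd, 1 / (n : ℝ) ≤
      (Real.log (if Even B then (B : ℝ) else B + 1) - Real.log A) / 2 := by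
  induction B, hAB using Nat.le_induction with
  | base =>
    have hA' : (0 : ℝ) < A := by exact_mod_cast hA
    simp only [Ioc_self, filter_empty, sum_empty]
    split_ifs
    · simp
    · have := Real.log_le_log hA' (show (A : ℝ) ≤ A + 1 by linarith)
      linarith
  | succ B hB ih =>
    have hB' : (0 : ℝ) < B := by exact_mod_cast (show 0 < B by omega)
    rw [Finset.sum_filter, Finset.sum_Ioc_succ_top hB, ← Finset.sum_filter]
    by_cases hE : Even B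
    · have h1 : Odd (B + 1) := hE.add_one
      have h2 : ¬ Even (B + 1) := Nat.not_even_iff_odd.2 h1
      rw [if_pos h1, if_neg h2]
      rw [if_pos hE] at ih
      have h3 : 1 / ((B : ℝ) + 1) ≤ (Real.log (B + 2) - Real.log B) / 2 := by
        -- log((B+2)/B) >= 2/(B+1)
        have h4 : Real.log (B + 2) - Real.log B = Real.log (1 + 1 / ((B : ℝ) + 1)) -
            Real.log (1 - 1 / ((B : ℝ) + 1)) := by
          rw [show 1 + 1 / ((B : ℝ) + 1) = (B + 2) / (B + 1) by field_simp; ring,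
            show 1 - 1 / ((B : ℝ) + 1) = B / (B + 1) by field_simp; ring,
            Real.log_div (by positivity) (by positivity),
            Real.log_div (by positivity) (by positivity)]
          ring
        rw [h4]
        have h5 := two_mul_le (1 / ((B : ℝ) + 1)) (by positivity) (by
          rw [div_lt_one (by positivity)]
          linarith)
        linarith
      push_cast at *
      have e : (B : ℝ) + 1 + 1 = B + 2 := by ring
      rw [e]
      linarith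
    · have h1 : ¬ Odd (B + 1) := by
        rw [Nat.not_even_iff_odd] at hE
        exact Nat.not_odd_iff_even.2 hE.add_one
      have h2 : Even (B + 1) := Nat.not_odd_iff_even.1 h1
      rw [if_neg h1, if_pos h2]
      rw [if_neg hE] at ih
      push_cast
      linarith

/-- lower bound for the odd harmonic sum -/
theorem odd_lower (A B : ℕ) (hAB : A ≤ B) :
    (Real.log (if Even B then (B : ℝ) + 1 else B + 2) - Real.log (A + 2)) / 2 ≤
      ∑ n ∈ (Ioc A B).filter Odd, 1 / (n : ℝ) := by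
  induction B, hAB using Nat.le_induction with
  | base =>
    simp only [Ioc_self, filter_empty, sum_empty]
    split_ifs
    · have := Real.log_le_log (show (0 : ℝ) < A + 1 by positivity)
        (show (A : ℝ) + 1 ≤ A + 2 by linarith)
      linarith
    · simp
  | succ B hB ih =>
    rw [Finset.sum_filter, Finset.sum_Ioc_succ_top hB, ← Finset.sum_filter]
    by_cases hE : Even B
    · have h1 : Odd (B + 1) := hE.add_one
      have h2 : ¬ Even (B + 1) := Nat.not_even_iff_odd.2 h1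
      rw [if_pos h1, if_neg h2]
      rw [if_pos hE] at ih
      have h3 : (Real.log (B + 3) - Real.log (B + 1)) / 2 ≤ 1 / ((B : ℝ) + 1) := by
        rw [← Real.log_div (by positivity) (by positivity)]
        have h4 := Real.log_le_sub_one_of_pos (show (0 : ℝ) < (B + 3) / (B + 1) by positivity)
        have h5 : ((B : ℝ) + 3) / (B + 1) - 1 = 2 * (1 / (B + 1)) := by
          field_simp
          ring
        linarith
      push_cast at *
      have e : (B : ℝ) + 1 + 2 = B + 3 := by ring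
      rw [e]
      linarith
    · have h1 : ¬ Odd (B + 1) := by
        rw [Nat.not_even_iff_odd] at hE
        exact Nat.not_odd_iff_even.2 hE.add_one
      have h2 : Even (B + 1) := Nat.not_odd_iff_even.1 h1
      rw [if_neg h1, if_pos h2]
      rw [if_neg hE] at ih
      push_cast
      have e : (B : ℝ) + 1 + 1 = B + 2 := by ring
      rw [e]
      linarith

/-- the odd harmonic sum over a scaled interval -/
theorem odd_harm (N₁ N₂ q : ℕ) (hq : 1 ≤ q) (hq1 : q ≤ N₁) (hN : N₁ ≤ N₂) :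
    |∑ n ∈ (Ioc (N₁ / q) (N₂ / q)).filter Odd, 1 / (n : ℝ) - Real.log ((N₂ : ℝ) / N₁) / 2| ≤
      2 * q / N₁ := by
  obtain ⟨A, hA⟩ : ∃ A, A = N₁ / q := ⟨_, rfl⟩
  obtain ⟨B, hB⟩ : ∃ B, B = N₂ / q := ⟨_, rfl⟩
  rw [← hA, ← hB]
  have hA1 : 1 ≤ A := by rw [hA]; exact (Nat.one_le_div_iff (by omega)).2 hq1
  have hAB : A ≤ B := by rw [hA, hB]; exact Nat.div_le_div_right hN
  have q0 : (0 : ℝ) < q := by exact_mod_cast (show 0 < q by omega)
  have n1 : (0 : ℝ) < N₁ := by exact_mod_cast (show 0 < N₁ by omega)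
  have n2 : (0 : ℝ) < N₂ := by exact_mod_cast (show 0 < N₂ by omega)
  have n12 : (N₁ : ℝ) ≤ N₂ := by exact_mod_cast hN
  have a0 : (0 : ℝ) < A := by exact_mod_cast (show 0 < A by omega)
  have b0 : (0 : ℝ) < B := by exact_mod_cast (show 0 < B by omega)
  have ea1 : (A : ℝ) ≤ N₁ / q := by rw [hA]; exact Nat.cast_div_le
  have eb1 : (B : ℝ) ≤ N₂ / q := by rw [hB]; exact Nat.cast_div_le
  have ea2 : (N₁ : ℝ) / q < A + 1 := by
    rw [div_lt_iff₀ q0]
    have h : N₁ < (A + 1) * q := by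
      rw [hA, mul_comm]
      exact Nat.lt_mul_div_succ N₁ (by omega)
    exact_mod_cast h
  have eb2 : (N₂ : ℝ) / q < B + 1 := by
    rw [div_lt_iff₀ q0]
    have h : N₂ < (B + 1) * q := by
      rw [hB, mul_comm]
      exact Nat.lt_mul_div_succ N₂ (by omega)
    exact_mod_cast h
  have hL : Real.log ((N₂ : ℝ) / N₁) = Real.log (N₂ / q) - Real.log (N₁ / q) := by
    rw [Real.log_div n2.ne' n1.ne', Real.log_div n2.ne' q0.ne', Real.log_div n1.ne' q0.ne']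
    ring
  have up := odd_upper A B hA1 hAB
  have lo := odd_lower A B hAB
  have u1 : Real.log (if Even B then (B : ℝ) else B + 1) ≤ Real.log (N₂ / q) + q / N₁ := by
    have h1 : Real.log (if Even B then (B : ℝ) else B + 1) ≤ Real.log (N₂ / q + 1) := by
      split_ifs
      · exact Real.log_le_log b0 (by linarith)
      · exact Real.log_le_log (by linarith) (by linarith)
    have h2 : Real.log (N₂ / q + 1) ≤ Real.log (N₂ / q) + q / N₂ := by
      rw [show (N₂ : ℝ) / q + 1 = (N₂ / q) * (1 + q / N₂) by field_simp,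
        Real.log_mul (by positivity) (by positivity)]
      have h3 := Real.log_le_sub_one_of_pos (show (0 : ℝ) < 1 + q / N₂ by positivity)
      linarith
    have h4 : (q : ℝ) / N₂ ≤ q / N₁ := div_le_div_of_nonneg_left q0.le n1 n12
    linarith
  have u2 : Real.log (N₁ / q) ≤ Real.log A + 2 * (q / N₁) := by
    have h1 : Real.log (N₁ / q) ≤ Real.log (A + 1) :=
      Real.log_le_log (by positivity) ea2.le
    have h2 : Real.log (A + 1) ≤ Real.log A + 1 / A := by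
      rw [show (A : ℝ) + 1 = A * (1 + 1 / A) by field_simp,
        Real.log_mul (by positivity) (by positivity)]
      have h3 := Real.log_le_sub_one_of_pos (show (0 : ℝ) < 1 + 1 / A by positivity)
      linarith
    have h3 : 1 / (A : ℝ) ≤ 2 * (q / N₁) := by
      rw [← mul_div_assoc, div_le_div_iff₀ a0 n1]
      rw [div_lt_iff₀ q0] at ea2
      have h4 : (1 : ℝ) ≤ A := by exact_mod_cast hA1
      nlinarith
    linarith
  have l1 : Real.log (N₂ / q) ≤ Real.log (if Even B then (B : ℝ) + 1 else B + 2) := by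
    split_ifs
    · exact Real.log_le_log (by positivity) (by linarith)
    · exact Real.log_le_log (by positivity) (by linarith)
  have l2 : Real.log (A + 2) ≤ Real.log (N₁ / q) + 2 * (q / N₁) := by
    have h1 : Real.log (A + 2) ≤ Real.log (N₁ / q + 2) :=
      Real.log_le_log (by positivity) (by linarith)
    have h2 : Real.log (N₁ / q + 2) ≤ Real.log (N₁ / q) + 2 * (q / N₁) := by
      rw [show (N₁ : ℝ) / q + 2 = (N₁ / q) * (1 + 2 * (q / N₁)) by field_simp,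
        Real.log_mul (by positivity) (by positivity)]
      have h3 := Real.log_le_sub_one_of_pos (show (0 : ℝ) < 1 + 2 * (q / N₁) by positivity)
      linarith
    linarith
  have hpos : 0 < (q : ℝ) / N₁ := by positivity
  rw [mul_div_assoc, abs_le, hL]
  constructor <;> linarith

theorem reindex (q N₁ N₂ : ℕ) (hq : Odd q) (f : ℕ → ℝ) :
    ∑ n ∈ ((Ioc N₁ N₂).filter Odd).filter (fun n => q ∣ n), f n =
      ∑ n ∈ (Ioc (N₁ / q) (N₂ / q)).filter Odd, f (q * n) := by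
  have hq0 : 0 < q := hq.pos
  refine Finset.sum_nbij' (fun n => n / q) (fun n => q * n) ?_ ?_ ?_ ?_ ?_
  · intro n hn
    simp only [mem_filter, mem_Ioc] at hn ⊢
    obtain ⟨⟨⟨h1, h2⟩, h3⟩, k, rfl⟩ := hn
    rw [Nat.mul_div_cancel_left _ hq0]
    refine ⟨⟨?_, ?_⟩, (Nat.odd_mul.1 h3).2⟩
    · rw [Nat.div_lt_iff_lt_mul hq0, mul_comm]
      exact h1
    · rw [Nat.le_div_iff_mul_le hq0, mul_comm]
      exact h2
  · intro n hn
    simp only [mem_filter, mem_Ioc] at hn ⊢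
    obtain ⟨⟨h1, h2⟩, h3⟩ := hn
    rw [Nat.div_lt_iff_lt_mul hq0, mul_comm] at h1
    rw [Nat.le_div_iff_mul_le hq0, mul_comm] at h2
    exact ⟨⟨⟨h1, h2⟩, hq.mul h3⟩, dvd_mul_right _ _⟩
  · intro n hn
    simp only [mem_filter] at hn
    exact Nat.mul_div_cancel' hn.2
  · intro n hn
    exact Nat.mul_div_cancel_left _ hq0
  · intro n hn
    simp only [mem_filter] at hn
    rw [Nat.mul_div_cancel' hn.2]

/-- the sieve majorant -/
noncomputable def theta (w : ℕ → ℝ) (z n : ℕ) : ℝ :=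
  (∑ a ∈ (Icc 1 z).filter (fun a => a ∣ n), w a) ^ 2

theorem theta_nonneg (w : ℕ → ℝ) (z n : ℕ) : 0 ≤ theta w z n := sq_nonneg _

theorem swap (w : ℕ → ℝ) (z : ℕ) (I : Finset ℕ) (g : ℕ → ℝ) :
    ∑ n ∈ I, theta w z n * g n = ∑ a ∈ Icc 1 z, ∑ b ∈ Icc 1 z,
      w a * w b * ∑ n ∈ I.filter (fun n => Nat.lcm a b ∣ n), g n := by
  have h1 : ∀ n, theta w z n * g n = ∑ a ∈ Icc 1 z, ∑ b ∈ Icc 1 z,
      w a * w b * (if Nat.lcm a b ∣ n then g n else 0) := by
    intro n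
    rw [theta, Finset.sum_filter, pow_two, Finset.sum_mul_sum, Finset.sum_mul]
    refine Finset.sum_congr rfl fun a _ => ?_
    rw [Finset.sum_mul]
    refine Finset.sum_congr rfl fun b _ => ?_
    by_cases ha : a ∣ n
    · by_cases hb : b ∣ n
      · rw [if_pos ha, if_pos hb, if_pos (Nat.lcm_dvd ha hb)]
      · rw [if_neg hb, if_neg (fun h => hb ((Nat.dvd_lcm_right a b).trans h))]
        ring
    · rw [if_neg ha, if_neg (fun h => ha ((Nat.dvd_lcm_left a b).trans h))]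
      ring
  rw [Finset.sum_congr rfl fun n _ => h1 n, Finset.sum_comm]
  refine Finset.sum_congr rfl fun a _ => ?_
  rw [Finset.sum_comm]
  refine Finset.sum_congr rfl fun b _ => ?_
  rw [← Finset.mul_sum, Finset.sum_filter]

/-- the majorant is one on numbers without small prime factors -/
theorem theta_one (w : ℕ → ℝ) (z n : ℕ) (hz : 1 ≤ z) (h1 : w 1 = 1)
    (hn : ∀ p : ℕ, p.Prime → p ∣ n → z < p) : theta w z n = 1 := by
  have h2 : (Icc 1 z).filter (fun a => a ∣ n) = {1} := by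
    ext a
    simp only [mem_filter, mem_Icc, mem_singleton]
    constructor
    · rintro ⟨⟨h3, h4⟩, h5⟩
      by_contra h6
      obtain ⟨p, hp, hpa⟩ := Nat.exists_prime_and_dvd h6
      have h7 := hn p hp (hpa.trans h5)
      have h8 := Nat.le_of_dvd (by omega) hpa
      omega
    · rintro rfl
      exact ⟨⟨le_refl _, hz⟩, one_dvd _⟩
  rw [theta, h2, Finset.sum_singleton, h1, one_pow]

/-- a character sum in a progression -/
theorem chi_sum (hO : ORTH_Stmt) (D N₁ N₂ q : ℕ) (hD : ¬ IsSquare D) (hN1 : 1 ≤ N₁)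
    (hN : N₁ ≤ N₂) (hq : Odd q) :
    |∑ n ∈ ((Ioc N₁ N₂).filter Odd).filter (fun n => q ∣ n),
      ((jacobiSym (D : ℤ) n : ℤ) : ℝ) / n| ≤ 8 * D / N₁ := by
  have hq0 : 0 < q := hq.pos
  rw [reindex q N₁ N₂ hq]
  obtain ⟨A, hA⟩ : ∃ A, A = N₁ / q := ⟨_, rfl⟩
  obtain ⟨B, hB⟩ : ∃ B, B = N₂ / q := ⟨_, rfl⟩
  rw [← hA, ← hB]
  have hAB : A ≤ B := by rw [hA, hB]; exact Nat.div_le_div_right hN
  have q0 : (0 : ℝ) < q := by exact_mod_cast hq0
  have n1 : (0 : ℝ) < N₁ := by exact_mod_cast (show 0 < N₁ by omega)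
  have h1 : ∑ n ∈ (Ioc A B).filter Odd, ((jacobiSym (D : ℤ) (q * n : ℕ) : ℤ) : ℝ) / ((q * n : ℕ) : ℝ) =
      (((jacobiSym (D : ℤ) q : ℤ) : ℝ) / q) * ∑ n ∈ Ioc A B,
        (if Odd n then ((jacobiSym (D : ℤ) n : ℤ) : ℝ) else 0) / (n : ℝ) := by
    rw [Finset.mul_sum, Finset.sum_filter]
    refine Finset.sum_congr rfl fun n hn => ?_
    by_cases h : Odd n
    · rw [if_pos h, if_pos h, jacobiSym.mul_right' _ hq0.ne' h.pos.ne']
      push_cast
      rw [mul_div_mul_comm]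
    · rw [if_neg h, if_neg h]
      ring
  have h2 := abel (fun n => if Odd n then ((jacobiSym (D : ℤ) n : ℤ) : ℝ) else 0) (4 * D)
    (fun N => by
      rw [← Finset.sum_filter]
      exact hO D N hD) A B hAB
  have h3 : |((jacobiSym (D : ℤ) q : ℤ) : ℝ)| ≤ 1 := by
    rcases jacobiSym.trichotomy (D : ℤ) q with h3 | h3 | h3 <;> rw [h3] <;> norm_num
  rw [h1, abs_mul, abs_div, abs_of_pos q0]
  have h4 : (N₁ : ℝ) ≤ q * (A + 1) := by
    have h : N₁ < (A + 1) * q := by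
      rw [hA, mul_comm]
      exact Nat.lt_mul_div_succ N₁ (by omega)
    have h' : (N₁ : ℝ) < (A + 1) * q := by exact_mod_cast h
    linarith
  calc |((jacobiSym (D : ℤ) q : ℤ) : ℝ)| / q * |∑ n ∈ Ioc A B,
        (if Odd n then ((jacobiSym (D : ℤ) n : ℤ) : ℝ) else 0) / (n : ℝ)|
      ≤ 1 / q * (2 * (4 * D) / (A + 1)) := by
        refine mul_le_mul ?_ h2 (abs_nonneg _) (by positivity)
        exact div_le_div_of_nonneg_right h3 q0.le
    _ = 8 * D / (q * (A + 1)) := by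
        field_simp
        ring
    _ ≤ 8 * D / N₁ := div_le_div_of_nonneg_left (by positivity) n1 h4

theorem chi_sq_le (m n : ℕ) :
    ((jacobiSym (m : ℤ) n : ℤ) : ℝ) * ((jacobiSym (m : ℤ) n : ℤ) : ℝ) ≤ 1 := by
  rcases jacobiSym.trichotomy (m : ℤ) n with h3 | h3 | h3 <;> rw [h3] <;> norm_num

theorem eq_of_isSquare {a b : ℕ} (ha : Squarefree a) (hb : Squarefree b)
    (h : IsSquare (a * b)) : a = b := by
  obtain ⟨r, hr⟩ := h
  have ha0 := ha.ne_zero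
  have hb0 := hb.ne_zero
  have hr0 : r ≠ 0 := by
    rintro rfl
    exact mul_ne_zero ha0 hb0 (by simpa using hr)
  refine Nat.eq_of_factorization_eq ha0 hb0 fun p => ?_
  have h1 : (a * b).factorization p = a.factorization p + b.factorization p := by
    rw [Nat.factorization_mul ha0 hb0]
    rfl
  have h2 : (r * r).factorization p = r.factorization p + r.factorization p := by
    rw [Nat.factorization_mul hr0 hr0]
    rfl
  rw [hr, h2] at h1
  have h3 := ha.natFactorization_le_one p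
  have h4 := hb.natFactorization_le_one p
  omega

/-- the weights -/
structure Wt (w : ℕ → ℝ) (z : ℕ) (E : ℝ) : Prop where
  one : w 1 = 1
  le : ∀ d, |w d| ≤ 1
  odd : ∀ d, w d ≠ 0 → Odd d ∧ d ≤ z
  sum : ∑ a ∈ Icc 1 z, ∑ b ∈ Icc 1 z, w a * w b / (Nat.lcm a b : ℝ) ≤ E

theorem lcm_odd {a b : ℕ} (ha : Odd a) (hb : Odd b) : Odd (Nat.lcm a b) := by
  have h : Nat.lcm a b ∣ a * b := Nat.lcm_dvd (dvd_mul_right _ _) (dvd_mul_left _ _)
  exact (ha.mul hb).of_dvd_nat h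

theorem lcm_le {a b z : ℕ} (ha : a ∈ Icc 1 z) (hb : b ∈ Icc 1 z) :
    1 ≤ Nat.lcm a b ∧ Nat.lcm a b ≤ z ^ 2 := by
  rw [mem_Icc] at ha hb
  refine ⟨Nat.lcm_pos (by omega) (by omega), ?_⟩
  refine (Nat.le_of_dvd (Nat.mul_pos (by omega) (by omega))
    (Nat.lcm_dvd (dvd_mul_right a b) (dvd_mul_left b a))).trans ?_
  rw [pow_two]
  exact Nat.mul_le_mul ha.2 hb.2

theorem abs_sum_le_card (z : ℕ) (F : ℕ → ℕ → ℝ) (T : ℝ)
    (h : ∀ a ∈ Icc 1 z, ∀ b ∈ Icc 1 z, |F a b| ≤ T) :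
    |∑ a ∈ Icc 1 z, ∑ b ∈ Icc 1 z, F a b| ≤ (z : ℝ) ^ 2 * T := by
  refine (Finset.abs_sum_le_sum_abs _ _).trans ?_
  have h1 : ∀ a ∈ Icc 1 z, |∑ b ∈ Icc 1 z, F a b| ≤ (z : ℝ) * T := fun a ha => by
    refine (Finset.abs_sum_le_sum_abs _ _).trans ?_
    refine (Finset.sum_le_card_nsmul _ _ T (fun b hb => h a ha b hb)).trans (le_of_eq ?_)
    rw [Nat.card_Icc, nsmul_eq_mul]
    push_cast
    simp
  refine (Finset.sum_le_card_nsmul _ _ _ h1).trans (le_of_eq ?_)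
  rw [Nat.card_Icc, nsmul_eq_mul]
  simp
  ring

/-- off-diagonal entries -/
theorem off (hO : ORTH_Stmt) {w : ℕ → ℝ} {z : ℕ} {E : ℝ} (hw : Wt w z E) {N₁ N₂ X m m' : ℕ}
    (hN1 : 1 ≤ N₁) (hN : N₁ ≤ N₂) (h : Squarefree m ∧ m ≤ X) (h' : Squarefree m' ∧ m' ≤ X)
    (hmm : m ≠ m') :
    |∑ n ∈ (Ioc N₁ N₂).filter Odd, theta w z n * (((jacobiSym (m : ℤ) n : ℤ) : ℝ) *
      ((jacobiSym (m' : ℤ) n : ℤ) : ℝ) / n)| ≤ 8 * (z : ℝ) ^ 2 * (X : ℝ) ^ 2 / N₁ := by
  have hD : ¬ IsSquare (m * m') := fun hs => hmm (eq_of_isSquare h.1 h'.1 hs)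
  have n1 : (0 : ℝ) < N₁ := by exact_mod_cast (show 0 < N₁ by omega)
  have h1 : ∀ n : ℕ, ((jacobiSym (m : ℤ) n : ℤ) : ℝ) * ((jacobiSym (m' : ℤ) n : ℤ) : ℝ) / n =
      ((jacobiSym ((m * m' : ℕ) : ℤ) n : ℤ) : ℝ) / n := fun n => by
    push_cast
    rw [jacobiSym.mul_left]
    push_cast
    rfl
  simp only [h1]
  rw [swap]
  refine (abs_sum_le_card z _ (8 * (X : ℝ) ^ 2 / N₁) ?_).trans (le_of_eq (by ring))
  intro a ha b hb
  by_cases hz : w a * w b = 0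
  · rw [hz, zero_mul, abs_zero]
    positivity
  · have ha' := (hw.odd a (left_ne_zero_of_mul hz)).1
    have hb' := (hw.odd b (right_ne_zero_of_mul hz)).1
    have h2 := chi_sum hO (m * m') N₁ N₂ _ hD hN1 hN (lcm_odd ha' hb')
    rw [abs_mul, abs_mul]
    have h3 : |w a| * |w b| ≤ 1 := mul_le_one₀ (hw.le a) (abs_nonneg _) (hw.le b)
    have h4 : (8 * ((m * m' : ℕ) : ℝ) / N₁) ≤ 8 * (X : ℝ) ^ 2 / N₁ := by
      refine div_le_div_of_nonneg_right ?_ n1.le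
      have h5 : (m : ℝ) ≤ X := by exact_mod_cast h.2
      have h6 : (m' : ℝ) ≤ X := by exact_mod_cast h'.2
      push_cast
      have h7 : (m : ℝ) * m' ≤ X * X := by gcongr
      nlinarith
    calc |w a| * |w b| * |∑ n ∈ ((Ioc N₁ N₂).filter Odd).filter (fun n => Nat.lcm a b ∣ n),
          ((jacobiSym ((m * m' : ℕ) : ℤ) n : ℤ) : ℝ) / n|
        ≤ 1 * (8 * (X : ℝ) ^ 2 / N₁) :=
          mul_le_mul h3 (h2.trans h4) (abs_nonneg _) zero_le_one
      _ = _ := one_mul _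

/-- diagonal entries -/
theorem diag {w : ℕ → ℝ} {z : ℕ} {E : ℝ} (hw : Wt w z E) {N₁ N₂ : ℕ} (m : ℕ)
    (hN1 : 1 ≤ N₁) (hz : z ^ 2 ≤ N₁) (hN : N₁ ≤ N₂) :
    |∑ n ∈ (Ioc N₁ N₂).filter Odd, theta w z n * (((jacobiSym (m : ℤ) n : ℤ) : ℝ) *
      ((jacobiSym (m : ℤ) n : ℤ) : ℝ) / n)| ≤ Real.log ((N₂ : ℝ) / N₁) / 2 * E + 2 := by
  have n1 : (0 : ℝ) < N₁ := by exact_mod_cast (show 0 < N₁ by omega)
  have n12 : (N₁ : ℝ) ≤ N₂ := by exact_mod_cast hN
  have hL : 0 ≤ Real.log ((N₂ : ℝ) / N₁) := Real.log_nonneg (by rwa [one_le_div n1])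
  have h0 : ∀ n : ℕ, 0 ≤ theta w z n * (((jacobiSym (m : ℤ) n : ℤ) : ℝ) *
      ((jacobiSym (m : ℤ) n : ℤ) : ℝ) / n) := fun n =>
    mul_nonneg (theta_nonneg _ _ _) (div_nonneg (mul_self_nonneg _) (Nat.cast_nonneg _))
  rw [abs_of_nonneg (Finset.sum_nonneg fun n _ => h0 n)]
  have h1 : ∑ n ∈ (Ioc N₁ N₂).filter Odd, theta w z n * (((jacobiSym (m : ℤ) n : ℤ) : ℝ) *
      ((jacobiSym (m : ℤ) n : ℤ) : ℝ) / n) ≤
      ∑ n ∈ (Ioc N₁ N₂).filter Odd, theta w z n * (1 / (n : ℝ)) := by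
    refine Finset.sum_le_sum fun n _ => mul_le_mul_of_nonneg_left ?_ (theta_nonneg _ _ _)
    exact div_le_div_of_nonneg_right (chi_sq_le m n) (Nat.cast_nonneg _)
  refine h1.trans ?_
  rw [swap]
  have h2 : ∀ a ∈ Icc 1 z, ∀ b ∈ Icc 1 z,
      |w a * w b * ∑ n ∈ ((Ioc N₁ N₂).filter Odd).filter (fun n => Nat.lcm a b ∣ n), 1 / (n : ℝ) -
        Real.log ((N₂ : ℝ) / N₁) / 2 * (w a * w b / (Nat.lcm a b : ℝ))| ≤ 2 / N₁ := by
    intro a ha b hb
    by_cases hz0 : w a * w b = 0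
    · rw [hz0]
      simp
      positivity
    · have ha' := (hw.odd a (left_ne_zero_of_mul hz0)).1
      have hb' := (hw.odd b (right_ne_zero_of_mul hz0)).1
      have hq := lcm_odd ha' hb'
      obtain ⟨q1, q2⟩ := lcm_le ha hb
      have q0 : (0 : ℝ) < (Nat.lcm a b : ℝ) := by exact_mod_cast (show 0 < Nat.lcm a b by omega)
      rw [reindex _ N₁ N₂ hq]
      have h3 := odd_harm N₁ N₂ (Nat.lcm a b) q1 (q2.trans hz) hN
      have h4 : w a * w b * ∑ n ∈ (Ioc (N₁ / Nat.lcm a b) (N₂ / Nat.lcm a b)).filter Odd,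
          1 / ((Nat.lcm a b * n : ℕ) : ℝ) -
          Real.log ((N₂ : ℝ) / N₁) / 2 * (w a * w b / (Nat.lcm a b : ℝ)) =
          (w a * w b / (Nat.lcm a b : ℝ)) *
            (∑ n ∈ (Ioc (N₁ / Nat.lcm a b) (N₂ / Nat.lcm a b)).filter Odd, 1 / (n : ℝ) -
              Real.log ((N₂ : ℝ) / N₁) / 2) := by
        have h5 : ∑ n ∈ (Ioc (N₁ / Nat.lcm a b) (N₂ / Nat.lcm a b)).filter Odd,
            1 / ((Nat.lcm a b * n : ℕ) : ℝ) = 1 / (Nat.lcm a b : ℝ) *
            ∑ n ∈ (Ioc (N₁ / Nat.lcm a b) (N₂ / Nat.lcm a b)).filter Odd, 1 / (n : ℝ) := by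
          rw [Finset.mul_sum]
          refine Finset.sum_congr rfl fun n _ => ?_
          push_cast
          rw [one_div_mul_one_div]
        rw [h5]
        ring
      rw [h4, abs_mul, abs_div, abs_mul, abs_of_pos q0]
      have h3' : |w a| * |w b| ≤ 1 := mul_le_one₀ (hw.le a) (abs_nonneg _) (hw.le b)
      calc |w a| * |w b| / (Nat.lcm a b : ℝ) *
            |∑ n ∈ (Ioc (N₁ / Nat.lcm a b) (N₂ / Nat.lcm a b)).filter Odd, 1 / (n : ℝ) -
              Real.log ((N₂ : ℝ) / N₁) / 2|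
          ≤ 1 / (Nat.lcm a b : ℝ) * (2 * (Nat.lcm a b : ℝ) / N₁) := by
            refine mul_le_mul ?_ h3 (abs_nonneg _) (by positivity)
            exact div_le_div_of_nonneg_right h3' q0.le
        _ = 2 / N₁ := by field_simp
  have h3 := abs_sum_le_card z (fun a b => w a * w b *
    ∑ n ∈ ((Ioc N₁ N₂).filter Odd).filter (fun n => Nat.lcm a b ∣ n), 1 / (n : ℝ) -
        Real.log ((N₂ : ℝ) / N₁) / 2 * (w a * w b / (Nat.lcm a b : ℝ))) (2 / N₁) h2
  simp only [Finset.sum_sub_distrib, ← Finset.mul_sum] at h3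
  have h4 : (z : ℝ) ^ 2 * (2 / N₁) ≤ 2 := by
    rw [← mul_div_assoc, div_le_iff₀ n1]
    have : (z : ℝ) ^ 2 ≤ N₁ := by exact_mod_cast hz
    linarith
  have h5 : Real.log ((N₂ : ℝ) / N₁) / 2 * ∑ a ∈ Icc 1 z, ∑ b ∈ Icc 1 z,
      w a * w b / (Nat.lcm a b : ℝ) ≤ Real.log ((N₂ : ℝ) / N₁) / 2 * E :=
    mul_le_mul_of_nonneg_left hw.sum (by linarith)
  rw [abs_le] at h3
  linarith [h3.2]

/-- the dual inequality -/
theorem dual (hO : ORTH_Stmt) {w : ℕ → ℝ} {z : ℕ} {E : ℝ} (hw : Wt w z E) (hE : 0 ≤ E)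
    {N₁ N₂ X : ℕ} (hz : 2 ≤ z) (hX : 1 ≤ X) (hN0 : z ^ 2 * X ^ 3 ≤ N₁) (hN : N₁ ≤ N₂)
    {M : Finset ℕ} (hM : ∀ m ∈ M, Squarefree m ∧ m ≤ X) (b : ℕ → ℝ) :
    ∑ n ∈ (Ioc N₁ N₂).filter Odd, theta w z n *
      ((∑ m ∈ M, b m * ((jacobiSym (m : ℤ) n : ℤ) : ℝ)) ^ 2 / n) ≤
      (Real.log ((N₂ : ℝ) / N₁) / 2 * E + 10) * ∑ m ∈ M, (b m) ^ 2 := by
  have hX3 : 1 ≤ X ^ 3 := Nat.one_le_pow _ _ hX
  have hzz : z ^ 2 ≤ N₁ := (Nat.le_mul_of_pos_right _ hX3).trans hN0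
  have hN1 : 1 ≤ N₁ := (Nat.one_le_pow 2 z (by omega)).trans hzz
  have n1 : (0 : ℝ) < N₁ := by exact_mod_cast (show 0 < N₁ by omega)
  have n12 : (N₁ : ℝ) ≤ N₂ := by exact_mod_cast hN
  have hL : 0 ≤ Real.log ((N₂ : ℝ) / N₁) := Real.log_nonneg (by rwa [one_le_div n1])
  obtain ⟨K, hK⟩ : ∃ K, K = Real.log ((N₂ : ℝ) / N₁) / 2 * E + 2 := ⟨_, rfl⟩
  have hK0 : 0 ≤ K := by rw [hK]; positivity
  have h1 : ∑ n ∈ (Ioc N₁ N₂).filter Odd, theta w z n *
      ((∑ m ∈ M, b m * ((jacobiSym (m : ℤ) n : ℤ) : ℝ)) ^ 2 / n) =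
      ∑ m ∈ M, ∑ m' ∈ M, b m * b m' * ∑ n ∈ (Ioc N₁ N₂).filter Odd,
        theta w z n * (((jacobiSym (m : ℤ) n : ℤ) : ℝ) * ((jacobiSym (m' : ℤ) n : ℤ) : ℝ) / n) := by
    have h2 : ∀ n : ℕ, theta w z n * ((∑ m ∈ M, b m * ((jacobiSym (m : ℤ) n : ℤ) : ℝ)) ^ 2 / n) =
        ∑ m ∈ M, ∑ m' ∈ M, b m * b m' * (theta w z n * (((jacobiSym (m : ℤ) n : ℤ) : ℝ) *
          ((jacobiSym (m' : ℤ) n : ℤ) : ℝ) / n)) := fun n => by
      rw [pow_two, Finset.sum_mul_sum, Finset.sum_div, Finset.mul_sum]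
      refine Finset.sum_congr rfl fun m _ => ?_
      rw [Finset.sum_div, Finset.mul_sum]
      refine Finset.sum_congr rfl fun m' _ => ?_
      ring
    rw [Finset.sum_congr rfl fun n _ => h2 n, Finset.sum_comm]
    refine Finset.sum_congr rfl fun m _ => ?_
    rw [Finset.sum_comm]
    refine Finset.sum_congr rfl fun m' _ => ?_
    rw [Finset.mul_sum]
  have h2 : ∀ m ∈ M, ∀ m' ∈ M, b m * b m' * ∑ n ∈ (Ioc N₁ N₂).filter Odd,
        theta w z n * (((jacobiSym (m : ℤ) n : ℤ) : ℝ) * ((jacobiSym (m' : ℤ) n : ℤ) : ℝ) / n) ≤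
      (if m = m' then K * (b m) ^ 2 else 0) +
        8 * (z : ℝ) ^ 2 * (X : ℝ) ^ 2 / N₁ * (|b m| * |b m'|) := by
    intro m hm m' hm'
    refine (le_abs_self _).trans ?_
    rw [abs_mul, abs_mul]
    by_cases h : m = m'
    · subst h
      rw [if_pos rfl]
      have h3 := diag hw m hN1 hzz hN
      rw [← hK] at h3
      have h4 : |b m| * |b m| * |∑ n ∈ (Ioc N₁ N₂).filter Odd,
          theta w z n * (((jacobiSym (m : ℤ) n : ℤ) : ℝ) * ((jacobiSym (m : ℤ) n : ℤ) : ℝ) / n)| ≤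
          |b m| * |b m| * K := mul_le_mul_of_nonneg_left h3 (by positivity)
      have h5 : |b m| * |b m| = (b m) ^ 2 := by rw [← abs_mul, ← pow_two, abs_of_nonneg (sq_nonneg _)]
      have h6 : 0 ≤ 8 * (z : ℝ) ^ 2 * (X : ℝ) ^ 2 / N₁ * (|b m| * |b m|) := by positivity
      rw [h5] at h4 ⊢
      rw [h5] at h6
      linarith
    · rw [if_neg h, zero_add]
      have h3 := off hO hw hN1 hN (hM m hm) (hM m' hm') h
      calc _ ≤ |b m| * |b m'| * (8 * (z : ℝ) ^ 2 * (X : ℝ) ^ 2 / N₁) :=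
            mul_le_mul_of_nonneg_left h3 (by positivity)
        _ = _ := by ring
  have h3 : (M.card : ℝ) ≤ X := by
    have h4 : M ⊆ Icc 1 X := fun m hm =>
      mem_Icc.2 ⟨Nat.pos_of_ne_zero (hM m hm).1.ne_zero, (hM m hm).2⟩
    have h5 := card_le_card h4
    rw [Nat.card_Icc] at h5
    have h6 : M.card ≤ X := by omega
    exact_mod_cast h6
  have h4 : (∑ m ∈ M, |b m|) ^ 2 ≤ X * ∑ m ∈ M, (b m) ^ 2 := by
    have h5 := sq_sum_le_card_mul_sum_sq (s := M) (f := fun m => |b m|)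
    simp only [sq_abs] at h5
    have h6 : 0 ≤ ∑ m ∈ M, (b m) ^ 2 := Finset.sum_nonneg fun m _ => sq_nonneg _
    exact h5.trans (mul_le_mul_of_nonneg_right h3 h6)
  rw [h1]
  refine (Finset.sum_le_sum fun m hm => Finset.sum_le_sum fun m' hm' => h2 m hm m' hm').trans ?_
  simp only [Finset.sum_add_distrib]
  have h5 : ∑ m ∈ M, ∑ m' ∈ M, (if m = m' then K * (b m) ^ 2 else 0) =
      K * ∑ m ∈ M, (b m) ^ 2 := by
    rw [Finset.mul_sum]
    refine Finset.sum_congr rfl fun m hm => ?_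
    rw [Finset.sum_ite_eq, if_pos hm]
  have h6 : ∑ m ∈ M, ∑ m' ∈ M, 8 * (z : ℝ) ^ 2 * (X : ℝ) ^ 2 / N₁ * (|b m| * |b m'|) =
      8 * (z : ℝ) ^ 2 * (X : ℝ) ^ 2 / N₁ * (∑ m ∈ M, |b m|) ^ 2 := by
    rw [pow_two (∑ m ∈ M, |b m|), Finset.sum_mul_sum, Finset.mul_sum]
    refine Finset.sum_congr rfl fun m _ => ?_
    rw [Finset.mul_sum]
  rw [h5, h6]
  have h8 : 0 ≤ ∑ m ∈ M, (b m) ^ 2 := Finset.sum_nonneg fun m _ => sq_nonneg _
  have h7 : 8 * (z : ℝ) ^ 2 * (X : ℝ) ^ 2 / N₁ * (∑ m ∈ M, |b m|) ^ 2 ≤ 8 * ∑ m ∈ M, (b m) ^ 2 := by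
    calc 8 * (z : ℝ) ^ 2 * (X : ℝ) ^ 2 / N₁ * (∑ m ∈ M, |b m|) ^ 2
        ≤ 8 * (z : ℝ) ^ 2 * (X : ℝ) ^ 2 / N₁ * (X * ∑ m ∈ M, (b m) ^ 2) :=
          mul_le_mul_of_nonneg_left h4 (by positivity)
      _ = 8 * ((z : ℝ) ^ 2 * (X : ℝ) ^ 3 / N₁) * ∑ m ∈ M, (b m) ^ 2 := by ring
      _ ≤ 8 * 1 * ∑ m ∈ M, (b m) ^ 2 := by
          refine mul_le_mul_of_nonneg_right ?_ h8
          have : (z : ℝ) ^ 2 * (X : ℝ) ^ 3 / N₁ ≤ 1 := by
            rw [div_le_one n1]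
            exact_mod_cast hN0
          linarith
      _ = _ := by ring
  have h9 : (Real.log ((N₂ : ℝ) / N₁) / 2 * E + 10) = K + 8 := by rw [hK]; ring
  rw [h9, add_mul]
  linarith

theorem dw_proof (hS : SW_Stmt) (hO : ORTH_Stmt) : DW_Stmt := by
  obtain ⟨C₁, hC₁, hS⟩ := hS
  refine ⟨C₁ + 10, by linarith, ?_⟩
  intro X N₁ N₂ z M hz hX hN0 hN hM a ha
  obtain ⟨w, hw1, hw2, hw3, hw4⟩ := hS z hz
  have hlz : 0 < Real.log z := Real.log_pos (by exact_mod_cast (show 1 < z by omega))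
  have hw : Wt w z (C₁ / Real.log z) := ⟨hw1, hw2, hw3, hw4⟩
  have hE : 0 ≤ C₁ / Real.log z := by positivity
  have hX3 : 1 ≤ X ^ 3 := Nat.one_le_pow _ _ hX
  have hzz : z ^ 2 ≤ N₁ := (Nat.le_mul_of_pos_right _ hX3).trans hN0
  have hN1 : 1 ≤ N₁ := (Nat.one_le_pow 2 z (by omega)).trans hzz
  have n1 : (0 : ℝ) < N₁ := by exact_mod_cast (show 0 < N₁ by omega)
  have n12 : (N₁ : ℝ) ≤ N₂ := by exact_mod_cast hN
  have hL : 0 ≤ Real.log ((N₂ : ℝ) / N₁) := Real.log_nonneg (by rwa [one_le_div n1])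
  obtain ⟨S, hS⟩ : ∃ S : ℕ → ℝ, S = fun m : ℕ => ∑ n ∈ (Ioc N₁ N₂).filter Odd,
    a n * ((jacobiSym (m : ℤ) n : ℤ) : ℝ) := ⟨_, rfl⟩
  have hSm : ∀ m : ℕ, ∑ n ∈ (Ioc N₁ N₂).filter Odd, a n * ((jacobiSym (m : ℤ) n : ℤ) : ℝ) = S m :=
    fun m => by rw [hS]
  simp only [hSm]
  have h1 : ∑ m ∈ M, (S m) ^ 2 = ∑ n ∈ (Ioc N₁ N₂).filter Odd,
      (Real.sqrt n * a n) * ((if a n = 0 then 0 else
        (∑ m ∈ M, S m * ((jacobiSym (m : ℤ) n : ℤ) : ℝ)) / Real.sqrt n)) := by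
    have h2 : ∀ n ∈ (Ioc N₁ N₂).filter Odd, (Real.sqrt n * a n) * ((if a n = 0 then 0 else
        (∑ m ∈ M, S m * ((jacobiSym (m : ℤ) n : ℤ) : ℝ)) / Real.sqrt n)) =
        a n * ∑ m ∈ M, S m * ((jacobiSym (m : ℤ) n : ℤ) : ℝ) := by
      intro n hn
      rw [mem_filter, mem_Ioc] at hn
      by_cases h : a n = 0
      · rw [h]
        ring
      · rw [if_neg h]
        have h3 : Real.sqrt (n : ℝ) ≠ 0 :=
          (Real.sqrt_pos.2 (by exact_mod_cast (show 0 < n by omega))).ne'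
        field_simp
    rw [Finset.sum_congr rfl h2]
    simp only [Finset.mul_sum]
    rw [Finset.sum_comm]
    refine Finset.sum_congr rfl fun m _ => ?_
    rw [pow_two]
    nth_rewrite 2 [← hSm m]
    rw [Finset.mul_sum]
    refine Finset.sum_congr rfl fun n _ => ?_
    ring
  have h2 : (∑ m ∈ M, (S m) ^ 2) ^ 2 ≤ (∑ n ∈ (Ioc N₁ N₂).filter Odd, (n : ℝ) * (a n) ^ 2) *
      ((Real.log ((N₂ : ℝ) / N₁) / 2 * (C₁ / Real.log z) + 10) * ∑ m ∈ M, (S m) ^ 2) := by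
    nth_rewrite 1 [h1]
    refine (Finset.sum_mul_sq_le_sq_mul_sq _ _ _).trans ?_
    have h3 : ∀ n : ℕ, (Real.sqrt n * a n) ^ 2 = (n : ℝ) * (a n) ^ 2 := fun n => by
      rw [mul_pow, Real.sq_sqrt (Nat.cast_nonneg _)]
    simp only [h3]
    have h4 : 0 ≤ ∑ n ∈ (Ioc N₁ N₂).filter Odd, (n : ℝ) * (a n) ^ 2 :=
      Finset.sum_nonneg fun _ _ => by positivity
    refine mul_le_mul_of_nonneg_left ?_ h4
    refine le_trans ?_ (dual hO hw hE hz hX hN0 hN hM S)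
    refine Finset.sum_le_sum fun n hn => ?_
    rw [mem_filter, mem_Ioc] at hn
    by_cases h : a n = 0
    · rw [if_pos h]
      have h5 := theta_nonneg w z n
      simp only [ne_eq, OfNat.ofNat_ne_zero, not_false_eq_true, zero_pow]
      positivity
    · rw [if_neg h, theta_one w z n (by omega) hw1 (ha n h), one_mul, div_pow,
        Real.sq_sqrt (Nat.cast_nonneg _)]
  have h3 : 0 ≤ ∑ m ∈ M, (S m) ^ 2 := Finset.sum_nonneg fun _ _ => sq_nonneg _
  have h4 : 0 ≤ ∑ n ∈ (Ioc N₁ N₂).filter Odd, (n : ℝ) * (a n) ^ 2 :=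
    Finset.sum_nonneg fun _ _ => by positivity
  have h6 : (Real.log ((N₂ : ℝ) / N₁) / 2 * (C₁ / Real.log z) + 10) ≤
      (C₁ + 10) * (1 + Real.log ((N₂ : ℝ) / N₁) / Real.log z) := by
    have h7 : 0 ≤ Real.log ((N₂ : ℝ) / N₁) / Real.log z := by positivity
    have h8 : Real.log ((N₂ : ℝ) / N₁) / 2 * (C₁ / Real.log z) =
        C₁ / 2 * (Real.log ((N₂ : ℝ) / N₁) / Real.log z) := by ring
    rw [h8]
    nlinarith [mul_nonneg hC₁.le h7]
  have h7 : ∑ m ∈ M, (S m) ^ 2 ≤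
      (Real.log ((N₂ : ℝ) / N₁) / 2 * (C₁ / Real.log z) + 10) *
        ∑ n ∈ (Ioc N₁ N₂).filter Odd, (n : ℝ) * (a n) ^ 2 := by
    rcases h3.eq_or_lt with h5 | h5
    · rw [← h5]
      positivity
    · refine le_of_mul_le_mul_right ?_ h5
      rw [← pow_two]
      refine h2.trans (le_of_eq ?_)
      ring
  exact h7.trans (mul_le_mul_of_nonneg_right h6 h4)

end Pool.Per.Dw
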