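import Pool.Agent.Lib.MP_45b5fd_nt.PER.Iface

/-!
# PER, module HYP: the hyperbola method for `gg m = 1 * ch m`
-/

set_option autoImplicit false

open Finset

namespace Pool.Per

namespace Hyp

theorem ch_one (m : ℕ) : ch m 1 = 1 := by simp [ch]

theorem ch_mul (m a b : ℕ) : ch m (a * b) = ch m a * ch m b := by
  unfold ch
  by_cases ha : a % 2 = 1
  · by_cases hb : b % 2 = 1
    · have hab : (a * b) % 2 = 1 := by simp [Nat.mul_mod, ha, hb]
      rw [if_pos ha, if_pos hb, if_pos hab]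
      have h1 : NeZero a := ⟨by rintro rfl; simp at ha⟩
      have h2 : NeZero b := ⟨by rintro rfl; simp at hb⟩
      exact jacobiSym.mul_right _ _ _
    · have hab : ¬ (a * b) % 2 = 1 := by
        have : b % 2 = 0 := by omega
        simp [Nat.mul_mod, this]
      rw [if_neg hb, if_neg hab, mul_zero]
  · have hab : ¬ (a * b) % 2 = 1 := by
      have : a % 2 = 0 := by omega
      simp [Nat.mul_mod, this]
    rw [if_neg ha, if_neg hab, zero_mul]

theorem ch_vals (m n : ℕ) : ch m n = 0 ∨ ch m n = 1 ∨ ch m n = -1 := by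
  unfold ch
  split_ifs
  · exact jacobiSym.trichotomy _ _
  · exact Or.inl rfl

theorem ch_abs (m n : ℕ) : |((ch m n : ℤ) : ℝ)| ≤ 1 := by
  rcases ch_vals m n with h | h | h <;> rw [h] <;> simp

theorem ch_pow (m n k : ℕ) : ch m (n ^ k) = ch m n ^ k := by
  induction k with
  | zero => simp [ch_one]
  | succ k ih => rw [pow_succ, ch_mul, ih, pow_succ]

/-- `ch m` as an arithmetic function -/
def chA (m : ℕ) : ArithmeticFunction ℤ := ⟨ch m, by simp [ch]⟩

theorem chA_apply (m n : ℕ) : chA m n = ch m n := rfl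

theorem chA_mult (m : ℕ) : (chA m).IsMultiplicative :=
  ⟨ch_one m, fun _ => ch_mul m _ _⟩

theorem gg_eq (m n : ℕ) : gg m n = (chA m * (ArithmeticFunction.zeta : ArithmeticFunction ℤ)) n := by
  rw [ArithmeticFunction.coe_mul_zeta_apply]
  rfl

theorem ggA_mult (m : ℕ) :
    (chA m * (ArithmeticFunction.zeta : ArithmeticFunction ℤ)).IsMultiplicative :=
  (chA_mult m).mul (ArithmeticFunction.isMultiplicative_zeta.natCast)

theorem gg_mul (m a b : ℕ) (h : a.Coprime b) : gg m (a * b) = gg m a * gg m b := by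
  rw [gg_eq, gg_eq, gg_eq]
  exact (ggA_mult m).2 h

theorem gg_pow (m p k : ℕ) (hp : p.Prime) : gg m (p ^ k) = ∑ i ∈ range (k + 1), ch m p ^ i := by
  unfold gg
  rw [Nat.sum_divisors_prime_pow hp]
  exact sum_congr rfl fun i _ => ch_pow m p i

theorem gg_pow_nonneg (m p k : ℕ) (hp : p.Prime) : 0 ≤ gg m (p ^ k) := by
  rw [gg_pow m p k hp]
  rcases ch_vals m p with h | h | h <;> rw [h]
  · exact sum_nonneg fun i _ => pow_nonneg le_rfl _
  · exact sum_nonneg fun i _ => by simp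
  · rw [neg_one_geom_sum]
    split_ifs <;> norm_num

theorem gg_pow_le (m p k : ℕ) (hp : p.Prime) : gg m (p ^ k) ≤ k + 1 := by
  rw [gg_pow m p k hp]
  calc ∑ i ∈ range (k + 1), ch m p ^ i ≤ ∑ i ∈ range (k + 1), (1 : ℤ) := by
        refine sum_le_sum fun i _ => ?_
        rw [← ch_pow]
        rcases ch_vals m (p ^ i) with h | h | h <;> rw [h] <;> norm_num
    _ = k + 1 := by simp

theorem gg_nonneg (m n : ℕ) : 0 ≤ gg m n := by
  rcases Nat.eq_zero_or_pos n with rfl | hn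
  · simp [gg]
  · rw [gg_eq, (ggA_mult m).multiplicative_factorization _ hn.ne']
    unfold Finsupp.prod
    refine prod_nonneg fun p hp => ?_
    change 0 ≤ (chA m * (ArithmeticFunction.zeta : ArithmeticFunction ℤ)) (p ^ n.factorization p)
    rw [← gg_eq]
    exact gg_pow_nonneg m p _ (Nat.prime_of_mem_primeFactors (by simpa using hp))

theorem gg_one (m : ℕ) : gg m 1 = 1 := by simp [gg, ch_one]

theorem two_pow_aux (a : ℕ) : a + 1 ≤ 2 * 2 ^ (a / 2) := by
  have h : a / 2 + 1 ≤ 2 ^ (a / 2) := Nat.lt_two_pow_self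
  omega

theorem gg_le (m p a : ℕ) (hp : p.Prime) :
    ((gg m (p ^ a) : ℤ) : ℝ) ≤ 2 * (p : ℝ) ^ (a / 2) := by
  have h1 : ((gg m (p ^ a) : ℤ) : ℝ) ≤ ((a : ℤ) + 1 : ℤ) := by
    exact_mod_cast gg_pow_le m p a hp
  have h2 : ((a + 1 : ℕ) : ℝ) ≤ ((2 * 2 ^ (a / 2) : ℕ) : ℝ) := by
    exact_mod_cast two_pow_aux a
  have h3 : (2 : ℝ) ^ (a / 2) ≤ (p : ℝ) ^ (a / 2) := by
    apply pow_le_pow_left₀ (by norm_num)
    exact_mod_cast hp.two_le
  push_cast at h1 h2
  linarith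

/-! ### Partial sums -/

/-- partial sums of `ch m` -/
noncomputable def X (m N : ℕ) : ℝ := ∑ n ∈ Icc 1 N, ((ch m n : ℤ) : ℝ)

theorem X_succ (m N : ℕ) : X m (N + 1) = X m N + ((ch m (N + 1) : ℤ) : ℝ) := by
  unfold X
  rw [sum_Icc_succ_top (by omega)]

theorem V_succ (m N : ℕ) : V m (N + 1) = V m N + ((ch m (N + 1) : ℤ) : ℝ) / (N + 1 : ℕ) := by
  unfold V
  rw [sum_Icc_succ_top (by omega)]

theorem X_le (h : ORTH_Stmt) {m : ℕ} (hm : ¬ IsSquare m) (N : ℕ) : |X m N| ≤ 4 * m := by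
  have e : X m N = ∑ n ∈ (Icc 1 N).filter Odd, ((jacobiSym (m : ℤ) n : ℤ) : ℝ) := by
    unfold X
    rw [sum_filter]
    refine sum_congr rfl fun n _ => ?_
    unfold ch
    by_cases hn : n % 2 = 1
    · rw [if_pos hn, if_pos (Nat.odd_iff.2 hn)]
    · rw [if_neg hn, if_neg (fun h => hn (Nat.odd_iff.1 h))]
      simp
  rw [e]
  exact h m N hm

theorem V_diff (h : ORTH_Stmt) {m : ℕ} (hm : ¬ IsSquare m) {A B : ℕ} (hA : 1 ≤ A) (hAB : A ≤ B) :
    |V m A - V m B| ≤ 8 * m / A := by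
  have hXX : ∀ N, |X m N - X m A| ≤ 8 * m := by
    intro N
    have h1 := X_le h hm N
    have h2 := X_le h hm A
    rw [abs_le] at h1 h2 ⊢
    constructor <;> linarith [h1.1, h1.2, h2.1, h2.2]
  have key : ∀ B, A ≤ B → |V m B - V m A - (X m B - X m A) / B| ≤
      8 * m * (1 / (A : ℝ) - 1 / B) := by
    intro B hB
    induction B, hB using Nat.le_induction with
    | base => simp
    | succ B hB ih =>
      have hB0 : (0 : ℝ) < B := by exact_mod_cast (by omega : 0 < B)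
      have hB1 : (0 : ℝ) < (B : ℝ) + 1 := by linarith
      have e : V m (B + 1) - V m A - (X m (B + 1) - X m A) / ((B + 1 : ℕ) : ℝ) =
          (V m B - V m A - (X m B - X m A) / B) +
            (X m B - X m A) * (1 / (B : ℝ) - 1 / ((B : ℝ) + 1)) := by
        rw [V_succ, X_succ]
        push_cast
        field_simp
        ring
      rw [e]
      have h0 : 0 ≤ 1 / (B : ℝ) - 1 / ((B : ℝ) + 1) := by
        rw [sub_nonneg]
        exact one_div_le_one_div_of_le hB0 (by linarith)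
      calc |(V m B - V m A - (X m B - X m A) / B) +
            (X m B - X m A) * (1 / (B : ℝ) - 1 / ((B : ℝ) + 1))|
          ≤ |V m B - V m A - (X m B - X m A) / B| +
            |(X m B - X m A) * (1 / (B : ℝ) - 1 / ((B : ℝ) + 1))| := abs_add_le _ _
        _ ≤ 8 * m * (1 / (A : ℝ) - 1 / B) +
            8 * m * (1 / (B : ℝ) - 1 / ((B : ℝ) + 1)) := by
            rw [abs_mul, abs_of_nonneg h0]
            exact add_le_add ih (mul_le_mul_of_nonneg_right (hXX B) h0)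
        _ = 8 * m * (1 / (A : ℝ) - 1 / ((B + 1 : ℕ) : ℝ)) := by push_cast; ring
  have hB0 : (0 : ℝ) < B := by exact_mod_cast (by omega : 0 < B)
  have h1 := key B hAB
  have h2 : |(X m B - X m A) / B| ≤ 8 * m / B := by
    rw [abs_div, abs_of_pos hB0]
    exact div_le_div_of_nonneg_right (hXX B) hB0.le
  rw [abs_sub_comm]
  calc |V m B - V m A| = |(V m B - V m A - (X m B - X m A) / B) + (X m B - X m A) / B| := by
        congr 1; ring
    _ ≤ |V m B - V m A - (X m B - X m A) / B| + |(X m B - X m A) / B| := abs_add_le _ _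
    _ ≤ 8 * m * (1 / (A : ℝ) - 1 / B) + 8 * m / B := add_le_add h1 h2
    _ = 8 * m / A := by ring

/-! ### Hyperbola -/

theorem Ioc_sum (m A B : ℕ) (h : A ≤ B) :
    ∑ a ∈ Ioc A B, ((ch m a : ℤ) : ℝ) = X m B - X m A := by
  induction B, h using Nat.le_induction with
  | base => simp
  | succ B hB ih =>
    have e : Ioc A (B + 1) = insert (B + 1) (Ioc A B) := by
      ext x
      rw [mem_insert, mem_Ioc, mem_Ioc]
      omega
    rw [e, sum_insert (by simp), ih, X_succ]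
    ring

theorem sum_gg (m N : ℕ) :
    ∑ n ∈ Icc 1 N, gg m n = ∑ a ∈ Ioc 0 N, ch m a * ((N / a : ℕ) : ℤ) := by
  have h := ArithmeticFunction.sum_Ioc_mul_zeta_eq_sum (chA m) N
  have e : Icc 1 N = Ioc 0 N := rfl
  rw [e]
  calc ∑ n ∈ Ioc 0 N, gg m n
      = ∑ n ∈ Ioc 0 N, (chA m * (ArithmeticFunction.zeta : ArithmeticFunction ℤ)) n :=
        sum_congr rfl fun n _ => gg_eq m n
    _ = _ := h

theorem hyperbola (m N : ℕ) :
    ∑ n ∈ Icc 1 N, ((gg m n : ℤ) : ℝ) =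
      ∑ a ∈ Ioc 0 (Nat.sqrt N), ((ch m a : ℤ) : ℝ) * ((N / a : ℕ) : ℝ) +
      ∑ b ∈ Ioc 0 (Nat.sqrt N), (X m (N / b) - X m (Nat.sqrt N)) := by
  set A := Nat.sqrt N with hA
  have hAN : A ≤ N := Nat.sqrt_le_self N
  have h1 : ∑ n ∈ Icc 1 N, ((gg m n : ℤ) : ℝ) =
      ∑ a ∈ Ioc 0 N, ((ch m a : ℤ) : ℝ) * ((N / a : ℕ) : ℝ) := by
    have := congrArg (fun z : ℤ => (z : ℝ)) (sum_gg m N)
    simp only [Int.cast_sum, Int.cast_mul, Int.cast_natCast] at this
    exact this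
  rw [h1]
  have hsplit : Ioc 0 N = Ioc 0 A ∪ Ioc A N := (Ioc_union_Ioc_eq_Ioc (Nat.zero_le _) hAN).symm
  have hdis : Disjoint (Ioc 0 A) (Ioc A N) := by
    rw [disjoint_left]
    intro x hx hx'
    rw [mem_Ioc] at hx hx'
    omega
  rw [hsplit, sum_union hdis]
  congr 1
  have h2 : ∀ a ∈ Ioc A N, ((ch m a : ℤ) : ℝ) * ((N / a : ℕ) : ℝ) =
      ∑ b ∈ Ioc 0 A, if a * b ≤ N then ((ch m a : ℤ) : ℝ) else 0 := by
    intro a ha
    rw [mem_Ioc] at ha
    rw [← sum_filter, sum_const]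
    have hc : (Ioc 0 A).filter (fun b => a * b ≤ N) = Ioc 0 (N / a) := by
      ext b
      rw [mem_filter, mem_Ioc, mem_Ioc, Nat.le_div_iff_mul_le (by omega)]
      constructor
      · rintro ⟨⟨hb, -⟩, h⟩
        exact ⟨hb, by rw [mul_comm]; exact h⟩
      · rintro ⟨hb, h⟩
        refine ⟨⟨hb, ?_⟩, by rw [mul_comm]; exact h⟩
        by_contra hcon
        have h3 : (A + 1) * (A + 1) ≤ b * a := Nat.mul_le_mul (by omega) (by omega)
        have h4 : N < (A + 1) * (A + 1) := Nat.lt_succ_sqrt N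
        exact absurd (h3.trans h) (not_le.2 h4)
    rw [hc, Nat.card_Ioc, nsmul_eq_mul, Nat.sub_zero, mul_comm]
  rw [sum_congr rfl h2, sum_comm]
  refine sum_congr rfl fun b hb => ?_
  rw [mem_Ioc] at hb
  have hb2 : A ≤ N / b := by
    rw [Nat.le_div_iff_mul_le (by omega)]
    calc A * b ≤ A * A := Nat.mul_le_mul_left _ hb.2
      _ ≤ N := Nat.sqrt_le N
  rw [← sum_filter, ← Ioc_sum m A (N / b) hb2]
  refine sum_congr ?_ fun _ _ => rfl
  ext a
  rw [mem_filter, mem_Ioc, mem_Ioc, Nat.le_div_iff_mul_le (by omega)]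
  constructor
  · rintro ⟨⟨h3, -⟩, h4⟩
    exact ⟨h3, h4⟩
  · rintro ⟨h3, h4⟩
    refine ⟨⟨h3, ?_⟩, h4⟩
    exact le_trans (Nat.le_mul_of_pos_right a (by omega)) h4

theorem hyp2 (h : ORTH_Stmt) {m : ℕ} (hm : ¬ IsSquare m) (N : ℕ) :
    |∑ n ∈ Icc 1 N, ((gg m n : ℤ) : ℝ) - N * V m (Nat.sqrt N)| ≤ 9 * m * Real.sqrt N := by
  have hm1 : (1 : ℝ) ≤ m := by
    have : m ≠ 0 := by
      rintro rfl
      exact hm ⟨0, rfl⟩
    exact_mod_cast Nat.one_le_iff_ne_zero.2 this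
  set A := Nat.sqrt N with hA
  have hAr : (A : ℝ) ≤ Real.sqrt N := by
    apply Real.le_sqrt_of_sq_le
    have : A ^ 2 ≤ N := Nat.sqrt_le' N
    exact_mod_cast this
  rw [hyperbola, ← hA]
  have e : ∑ a ∈ Ioc 0 A, ((ch m a : ℤ) : ℝ) * ((N / a : ℕ) : ℝ) +
      ∑ b ∈ Ioc 0 A, (X m (N / b) - X m A) - N * V m A =
      ∑ a ∈ Ioc 0 A, (((ch m a : ℤ) : ℝ) * (((N / a : ℕ) : ℝ) - N / a) +
        (X m (N / a) - X m A)) := by
    have hV : (N : ℝ) * V m A = ∑ a ∈ Ioc 0 A, ((ch m a : ℤ) : ℝ) * (N / a) := by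
      unfold V
      rw [mul_sum]
      exact sum_congr rfl fun a _ => by ring
    rw [hV, sum_add_distrib]
    simp only [mul_sub, sum_sub_distrib]
    ring
  rw [e]
  calc |∑ a ∈ Ioc 0 A, (((ch m a : ℤ) : ℝ) * (((N / a : ℕ) : ℝ) - N / a) +
        (X m (N / a) - X m A))|
      ≤ ∑ a ∈ Ioc 0 A, |((ch m a : ℤ) : ℝ) * (((N / a : ℕ) : ℝ) - N / a) +
        (X m (N / a) - X m A)| := abs_sum_le_sum_abs _ _
    _ ≤ ∑ a ∈ Ioc 0 A, (9 * m : ℝ) := by
        refine sum_le_sum fun a ha => ?_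
        rw [mem_Ioc] at ha
        have ha0 : (0 : ℝ) < a := by exact_mod_cast ha.1
        have h1 : |((N / a : ℕ) : ℝ) - N / a| ≤ 1 := by
          have h2 : ((N / a : ℕ) : ℝ) ≤ N / a := Nat.cast_div_le
          have h3 : (N : ℝ) / a < ((N / a : ℕ) : ℝ) + 1 := by
            rw [div_lt_iff₀ ha0]
            have h7 : N < (N / a + 1) * a := by
              rw [mul_comm]
              exact Nat.lt_mul_div_succ N ha.1
            exact_mod_cast h7
          rw [abs_le]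
          constructor <;> linarith
        have h4 : |((ch m a : ℤ) : ℝ) * (((N / a : ℕ) : ℝ) - N / a)| ≤ 1 := by
          rw [abs_mul]
          exact mul_le_one₀ (ch_abs m a) (abs_nonneg _) h1
        have h5 := X_le h hm (N / a)
        have h6 := X_le h hm A
        rw [abs_le] at h4 h5 h6 ⊢
        constructor <;> linarith [h4.1, h4.2, h5.1, h5.2, h6.1, h6.2]
    _ = A * (9 * m) := by rw [sum_const, Nat.card_Ioc, nsmul_eq_mul, Nat.sub_zero]
    _ ≤ Real.sqrt N * (9 * m) := by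
        apply mul_le_mul_of_nonneg_right hAr
        linarith
    _ = 9 * m * Real.sqrt N := by ring

end Hyp

theorem hyp_proof : ORTH_Stmt → HYP_Stmt := by
  intro h
  refine ⟨Hyp.gg_nonneg, ?_, Hyp.gg_mul, fun m p a hp _ => Hyp.gg_le m p a hp, 9, by norm_num, ?_⟩
  · intro m
    refine ⟨fun n => by exact_mod_cast Hyp.gg_nonneg m n, by simp [Hyp.gg_one], ?_⟩
    intro a b _ _ hab
    rw [Hyp.gg_mul m a b hab]
    push_cast
    exact le_rfl
  · intro m hm
    refine ⟨?_, fun N _ => Hyp.hyp2 h hm N⟩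
    intro A B hA hAB
    refine (Hyp.V_diff h hm hA hAB).trans ?_
    gcongr
    norm_num

end Pool.Per
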