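import Pool.Agent.Lib.MP_45b5fd_nt.PER.Iface

/-!
# PER, row CHI: the character sum over the primes above `2^J` is bounded for good `m`
-/

set_option autoImplicit false

open Finset

namespace Pool.Per

namespace Chi

/-- the summand -/
noncomputable def tt (m n : ℕ) : ℝ :=
  if n.Prime then ((jacobiSym (m : ℤ) n : ℤ) : ℝ) / n else 0

theorem sum_eq (m a b : ℕ) :
    ∑ p ∈ (Ioc a b).filter Nat.Prime, ((jacobiSym (m : ℤ) p : ℤ) : ℝ) / p =
      ∑ n ∈ Ioc a b, tt m n := by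
  rw [Finset.sum_filter]
  rfl

theorem tt_le {m n a : ℕ} (ha : 0 < a) (hn : a ≤ n) : tt m n ≤ 1 / (a : ℝ) := by
  have ha' : (0 : ℝ) < a := by exact_mod_cast ha
  have hn' : (a : ℝ) ≤ n := by exact_mod_cast hn
  unfold tt
  split_ifs with hp
  · have h1 : ((jacobiSym (m : ℤ) n : ℤ) : ℝ) ≤ 1 := by
      rcases jacobiSym.trichotomy (m : ℤ) n with h | h | h <;> rw [h] <;> norm_num
    calc ((jacobiSym (m : ℤ) n : ℤ) : ℝ) / n ≤ 1 / n := by
          apply div_le_div_of_nonneg_right h1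
          exact (ha'.trans_le hn').le
      _ ≤ 1 / a := one_div_le_one_div_of_le ha' hn'
  · positivity

/-- a partial block -/
theorem part (m i x : ℕ) (hx : x ≤ 2 ^ (i + 1)) : ∑ n ∈ Ioc (2 ^ i) x, tt m n ≤ 1 := by
  have h1 : ∑ n ∈ Ioc (2 ^ i) x, tt m n ≤ ∑ n ∈ Ioc (2 ^ i) x, 1 / ((2 ^ i : ℕ) : ℝ) := by
    apply Finset.sum_le_sum
    intro n hn
    exact tt_le (by positivity) (Finset.mem_Ioc.1 hn).1.le
  refine h1.trans ?_
  rw [Finset.sum_const, nsmul_eq_mul, Nat.card_Ioc]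
  have h2 : x - 2 ^ i ≤ 2 ^ i := by
    rw [pow_succ] at hx
    omega
  have h3 : ((x - 2 ^ i : ℕ) : ℝ) ≤ ((2 ^ i : ℕ) : ℝ) := by exact_mod_cast h2
  have h4 : (0 : ℝ) < ((2 ^ i : ℕ) : ℝ) := by positivity
  rw [mul_one_div, div_le_one h4]
  exact h3

/-- the complete blocks -/
theorem blocks {A m J : ℕ} (hb : ¬ Bad A m) (hJ : 1 ≤ J) (hA : A * Nat.log 2 (Nat.log 2 m) ≤ J)
    (n : ℕ) (hn : J ≤ n) (hn2 : n ≤ 8 * Nat.log 2 m + 1) :
    ∑ p ∈ Ioc (2 ^ J) (2 ^ n), tt m p ≤ ∑ j ∈ Ico J n, 1 / (j : ℝ) ^ 2 := by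
  induction n, hn using Nat.le_induction with
  | base => simp
  | succ n hn ih =>
    rw [Finset.sum_Ico_succ_top hn, ← Finset.sum_Ioc_consecutive (tt m)
      (Nat.pow_le_pow_right (by norm_num) hn) (Nat.pow_le_pow_right (by norm_num) (Nat.le_succ n))]
    refine add_le_add (ih (by omega)) ?_
    have h1 : ¬ (1 / (n : ℝ) ^ 2 < |T m n|) := by
      intro h
      exact hb ⟨n, hJ.trans hn, hA.trans hn, by omega, h⟩
    have h2 := (le_abs_self _).trans (not_lt.1 h1)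
    unfold T at h2
    rw [sum_eq] at h2
    exact h2

theorem sum_sq (J n : ℕ) (hJ : 1 ≤ J) : ∑ j ∈ Ico J n, 1 / (j : ℝ) ^ 2 ≤ 2 := by
  have h1 : ∑ j ∈ Ico J n, 1 / (j : ℝ) ^ 2 ≤ ∑ j ∈ Ioo 0 n, 1 / (j : ℝ) ^ 2 := by
    apply Finset.sum_le_sum_of_subset_of_nonneg
    · intro j hj
      rw [Finset.mem_Ico] at hj
      rw [Finset.mem_Ioo]
      omega
    · intro j _ _
      positivity
  refine h1.trans ?_
  have h2 := sum_Ioo_inv_sq_le (α := ℝ) 0 n
  simp only [one_div]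
  refine h2.trans ?_
  norm_num

end Chi

open Chi in
theorem chi_proof (h : TAIL_Stmt) : CHI_Stmt := by
  obtain ⟨C, hC⟩ := h
  refine ⟨max C 0 + 3, ?_⟩
  intro A m J x hm hb hJ hA
  rw [sum_eq]
  have hC0 : C ≤ max C 0 := le_max_left _ _
  have h00 : 0 ≤ max C 0 := le_max_right _ _
  -- `m ≥ 2`
  have hm2 : 2 ≤ m := by
    by_contra hlt
    have : m = 0 ∨ m = 1 := by omega
    rcases this with rfl | rfl
    · exact hm ⟨0, by norm_num⟩
    · exact hm ⟨1, by norm_num⟩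
  set L := Nat.log 2 m with hL
  have hL1 : 1 ≤ L := by
    rw [hL]
    exact Nat.log_pos (by norm_num) hm2
  have hmL : m < 2 ^ (L + 1) := Nat.lt_pow_succ_log_self (by norm_num) m
  have hm4 : m ^ 4 ≤ 2 ^ (8 * L) := by
    calc m ^ 4 ≤ (2 ^ (L + 1)) ^ 4 := Nat.pow_le_pow_left hmL.le 4
      _ = 2 ^ (4 * L + 4) := by rw [← pow_mul]; congr 1; ring
      _ ≤ 2 ^ (8 * L) := Nat.pow_le_pow_right (by norm_num) (by omega)
  -- the tail
  have htail : ∀ y : ℕ, m ^ 4 ≤ y → ∑ n ∈ Ioc y x, tt m n ≤ max C 0 := by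
    intro y hy
    rcases le_total y x with hyx | hyx
    · rw [← sum_eq]
      exact (hC m y x hm hy hyx).trans hC0
    · rw [Finset.Ioc_eq_empty (by omega), Finset.sum_empty]
      exact h00
  rcases le_total (8 * L) J with hJL | hJL
  · have := htail (2 ^ J) (hm4.trans (Nat.pow_le_pow_right (by norm_num) hJL))
    linarith
  rcases le_total (2 ^ (8 * L)) x with hx | hx
  · rw [← Finset.sum_Ioc_consecutive (tt m) (Nat.pow_le_pow_right (by norm_num) hJL) hx]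
    have h1 := blocks hb hJ hA (8 * L) hJL (by omega)
    have h2 := sum_sq J (8 * L) hJ
    have h3 := htail (2 ^ (8 * L)) hm4
    linarith
  rcases lt_or_ge x (2 ^ J) with hxJ | hxJ
  · rw [Finset.Ioc_eq_empty (by omega), Finset.sum_empty]
    linarith
  -- partial block
  set i := Nat.log 2 x with hi
  have hx0 : x ≠ 0 := by
    have : 0 < 2 ^ J := by positivity
    omega
  have hix : 2 ^ i ≤ x := Nat.pow_log_le_self 2 hx0
  have hxi : x < 2 ^ (i + 1) := Nat.lt_pow_succ_log_self (by norm_num) x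
  have hJi : J ≤ i := by
    have : 2 ^ J < 2 ^ (i + 1) := hxJ.trans_lt hxi
    have := (Nat.pow_lt_pow_iff_right (by norm_num : 1 < 2)).1 this
    omega
  have hi8 : i ≤ 8 * L := by
    have : 2 ^ i ≤ 2 ^ (8 * L) := hix.trans hx
    exact (Nat.pow_le_pow_iff_right (by norm_num : 1 < 2)).1 this
  rw [← Finset.sum_Ioc_consecutive (tt m) (Nat.pow_le_pow_right (by norm_num) hJi) hix]
  have h1 := blocks hb hJ hA i hJi (by omega)
  have h2 := sum_sq J i hJ
  have h3 := part m i x hxi.le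
  linarith

end Pool.Per
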