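import Pool.Agent.Lib.MP_45b5fd_nt.PER.Iface2
import Pool.Agent.Lib.MP_45b5fd_nt.PER.KER
import Pool.Agent.Lib.MP_45b5fd_nt.PER.CHI

/-!
# PER, row KW: the kernel bound for `m` without a large block (doubling exponents)
-/

set_option autoImplicit false

open Finset

namespace Pool.Per.Kw

open Pool.Per.Chi Pool.Per.KER

/-- a sum of `tt` over primes in `(y, x]` with `x ≤ y ^ 2` -/
theorem part2 {C : ℝ} (hC : ∀ N : ℕ, 2 ≤ N →
    |∑ p ∈ Nat.primesLE N, 1 / (p : ℝ) - Real.log (Real.log N)| ≤ C)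
    (m y x : ℕ) (hy : 2 ≤ y) (hyx : y ≤ x) (hx : x ≤ y ^ 2) :
    ∑ n ∈ Ioc y x, tt m n ≤ 2 * C + 1 := by
  rw [← sum_eq]
  have h1 : ∑ p ∈ (Ioc y x).filter Nat.Prime, ((jacobiSym (m : ℤ) p : ℤ) : ℝ) / p ≤
      ∑ p ∈ (Ioc y x).filter Nat.Prime, 1 / (p : ℝ) :=
    Finset.sum_le_sum fun p _ => jac_div_le (m : ℤ) p
  have h2 : ∑ p ∈ Nat.primesLE x, 1 / (p : ℝ) =
      ∑ p ∈ Nat.primesLE y, 1 / (p : ℝ) + ∑ p ∈ (Ioc y x).filter Nat.Prime, 1 / (p : ℝ) := by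
    rw [← Finset.sum_union]
    · congr 1
      ext p
      simp only [Finset.mem_union, Finset.mem_filter, Nat.mem_primesLE, Finset.mem_Ioc]
      constructor
      · rintro ⟨h3, h4⟩
        rcases le_or_gt p y with h5 | h5
        · exact Or.inl ⟨h5, h4⟩
        · exact Or.inr ⟨⟨h5, h3⟩, h4⟩
      · rintro (⟨h3, h4⟩ | ⟨⟨h3, h5⟩, h4⟩)
        · exact ⟨h3.trans hyx, h4⟩
        · exact ⟨h5, h4⟩
    · rw [Finset.disjoint_left]
      intro p hp hq
      rw [Nat.mem_primesLE] at hp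
      rw [Finset.mem_filter, Finset.mem_Ioc] at hq
      omega
  have h3 := (abs_le.1 (hC x (hy.trans hyx))).2
  have h4 := (abs_le.1 (hC y hy)).1
  have hy' : (2 : ℝ) ≤ y := by exact_mod_cast hy
  have hly : 0 < Real.log (y : ℝ) := Real.log_pos (by linarith)
  have hx' : (x : ℝ) ≤ (y : ℝ) ^ 2 := by exact_mod_cast hx
  have hx0 : (0 : ℝ) < x := by exact_mod_cast (by omega : 0 < x)
  have h5 : Real.log (x : ℝ) ≤ 2 * Real.log y := by
    have := Real.log_le_log hx0 hx'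
    rw [Real.log_pow] at this
    exact_mod_cast this
  have hlx : 0 < Real.log (x : ℝ) := Real.log_pos (by exact_mod_cast (by omega : 1 < x))
  have h6 : Real.log (Real.log (x : ℝ)) ≤ Real.log 2 + Real.log (Real.log (y : ℝ)) := by
    rw [← Real.log_mul (by norm_num) hly.ne']
    exact Real.log_le_log hlx h5
  have h7 := Real.log_two_lt_d9
  linarith

/-- the blocks up to `n` -/
theorem blocks2 {X H m i₀ : ℕ} (hb : ¬ Bad2 X H m) (hi : 1 ≤ i₀) (hH : H ≤ 2 ^ i₀)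
    (n : ℕ) (hn : i₀ ≤ n) (hn2 : n ≤ topI X + 1) :
    ∑ p ∈ Ioc (2 ^ (2 ^ i₀)) (2 ^ (2 ^ n)), tt m p ≤
      ∑ j ∈ Ico i₀ n, 1 / ((topI X + 1 - j : ℕ) : ℝ) ^ 2 := by
  induction n, hn using Nat.le_induction with
  | base => simp
  | succ n hn ih =>
    rw [Finset.sum_Ico_succ_top hn, ← Finset.sum_Ioc_consecutive (tt m)
      (Nat.pow_le_pow_right (by norm_num) (Nat.pow_le_pow_right (by norm_num) hn))
      (Nat.pow_le_pow_right (by norm_num) (Nat.pow_le_pow_right (by norm_num) (Nat.le_succ n)))]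
    refine add_le_add (ih (by omega)) ?_
    have h1 : ¬ (1 / ((topI X + 1 - n : ℕ) : ℝ) ^ 2 < |T2 m n|) := by
      intro h
      exact hb ⟨n, hi.trans hn, hH.trans (Nat.pow_le_pow_right (by norm_num) hn), by omega, h⟩
    have h2 := (le_abs_self _).trans (not_lt.1 h1)
    unfold T2 at h2
    rw [sum_eq] at h2
    exact h2

/-- the sum of the bounds -/
theorem sum_sq2 (I i₀ n : ℕ) (hn : n ≤ I + 1) :
    ∑ j ∈ Ico i₀ n, 1 / ((I + 1 - j : ℕ) : ℝ) ^ 2 ≤ 2 := by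
  have h1 : ∑ j ∈ Ico i₀ n, 1 / ((I + 1 - j : ℕ) : ℝ) ^ 2 ≤
      ∑ j ∈ range (I + 1), 1 / ((I + 1 - j : ℕ) : ℝ) ^ 2 := by
    apply Finset.sum_le_sum_of_subset_of_nonneg
    · intro j hj
      rw [Finset.mem_Ico] at hj
      rw [Finset.mem_range]
      omega
    · intro j _ _
      positivity
  refine h1.trans ?_
  have h2 : ∑ j ∈ range (I + 1), 1 / ((I + 1 - j : ℕ) : ℝ) ^ 2 =
      ∑ j ∈ Ico 1 (I + 2), 1 / (j : ℝ) ^ 2 := by
    rw [← Finset.sum_range_reflect]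
    rw [Finset.sum_Ico_eq_sum_range]
    refine Finset.sum_congr (by congr 1) ?_
    intro j hj
    rw [Finset.mem_range] at hj
    have h3 : I + 1 - (I + 1 - 1 - j) = 1 + j := by omega
    rw [h3]
  rw [h2]
  exact sum_sq 1 (I + 2) le_rfl

theorem chi3 (h : TAIL_Stmt) (hmert : MERT_Stmt) : ∃ B : ℝ, ∀ X H m i₀ x : ℕ, ¬ IsSquare m →
    m ≤ X → ¬ Bad2 X H m → 1 ≤ i₀ → H ≤ 2 ^ i₀ →
    ∑ p ∈ (Ioc (2 ^ (2 ^ i₀)) x).filter Nat.Prime, ((jacobiSym (m : ℤ) p : ℤ) : ℝ) / p ≤ B := by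
  obtain ⟨C, hC⟩ := h
  obtain ⟨D, hD0, hD⟩ := hmert
  refine ⟨max C 0 + (2 * D + 3), ?_⟩
  intro X H m i₀ x hm hmX hb hi hH
  rw [sum_eq]
  have hC0 : C ≤ max C 0 := le_max_left _ _
  have h00 : 0 ≤ max C 0 := le_max_right _ _
  have hm2 : 2 ≤ m := by
    by_contra hlt
    have : m = 0 ∨ m = 1 := by omega
    rcases this with rfl | rfl
    · exact hm ⟨0, by norm_num⟩
    · exact hm ⟨1, by norm_num⟩
  obtain ⟨I, hI⟩ : ∃ I, I = topI X := ⟨_, rfl⟩
  -- the top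
  have hmI : m ^ 4 ≤ 2 ^ (2 ^ I) := by
    have h1 : 8 * (Nat.log 2 X + 1) < 2 ^ I := by
      rw [hI]
      exact Nat.lt_pow_succ_log_self (by norm_num) _
    have h2 : X < 2 ^ (Nat.log 2 X + 1) := Nat.lt_pow_succ_log_self (by norm_num) X
    calc m ^ 4 ≤ (2 ^ (Nat.log 2 X + 1)) ^ 4 := Nat.pow_le_pow_left (hmX.trans h2.le) 4
      _ = 2 ^ (4 * (Nat.log 2 X + 1)) := by rw [← pow_mul]; congr 1; ring
      _ ≤ 2 ^ (2 ^ I) := Nat.pow_le_pow_right (by norm_num) (by omega)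
  -- the tail
  have htail : ∀ y : ℕ, m ^ 4 ≤ y → ∑ n ∈ Ioc y x, tt m n ≤ max C 0 := by
    intro y hy
    rcases le_total y x with hyx | hyx
    · rw [← sum_eq]
      exact (hC m y x hm hy hyx).trans hC0
    · rw [Finset.Ioc_eq_empty (by omega), Finset.sum_empty]
      exact h00
  rcases lt_or_ge I i₀ with hIi | hIi
  · have := htail (2 ^ (2 ^ i₀)) (hmI.trans (Nat.pow_le_pow_right (by norm_num)
      (Nat.pow_le_pow_right (by norm_num) hIi.le)))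
    linarith
  rcases le_total (2 ^ (2 ^ (I + 1))) x with hx | hx
  · rw [← Finset.sum_Ioc_consecutive (tt m) (Nat.pow_le_pow_right (by norm_num)
      (Nat.pow_le_pow_right (by norm_num) (by omega : i₀ ≤ I + 1))) hx]
    have h1 := blocks2 hb hi hH (I + 1) (by omega) (by omega)
    rw [← hI] at h1
    have h2 := sum_sq2 I i₀ (I + 1) le_rfl
    have h3 := htail (2 ^ (2 ^ (I + 1))) (hmI.trans (Nat.pow_le_pow_right (by norm_num)
      (Nat.pow_le_pow_right (by norm_num) (Nat.le_succ I))))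
    linarith
  rcases lt_or_ge x (2 ^ (2 ^ i₀)) with hxJ | hxJ
  · rw [Finset.Ioc_eq_empty (by omega), Finset.sum_empty]
    linarith
  -- an incomplete block
  obtain ⟨l, hl⟩ : ∃ l, l = Nat.log 2 x := ⟨_, rfl⟩
  obtain ⟨i, hii⟩ : ∃ i, i = Nat.log 2 l := ⟨_, rfl⟩
  have hx0 : x ≠ 0 := by
    have : 0 < 2 ^ (2 ^ i₀) := by positivity
    omega
  have hlx : 2 ^ l ≤ x := by rw [hl]; exact Nat.pow_log_le_self 2 hx0
  have hxl : x < 2 ^ (l + 1) := by rw [hl]; exact Nat.lt_pow_succ_log_self (by norm_num) x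
  have hil : 2 ^ i₀ ≤ l := by
    have h1 : 2 ^ (2 ^ i₀) < 2 ^ (l + 1) := hxJ.trans_lt hxl
    have := (Nat.pow_lt_pow_iff_right (by norm_num : 1 < 2)).1 h1
    omega
  have hl0 : l ≠ 0 := by
    have : 0 < 2 ^ i₀ := by positivity
    omega
  have hil2 : 2 ^ i ≤ l := by rw [hii]; exact Nat.pow_log_le_self 2 hl0
  have hli2 : l < 2 ^ (i + 1) := by rw [hii]; exact Nat.lt_pow_succ_log_self (by norm_num) l
  have hi0i : i₀ ≤ i := by
    have h1 : 2 ^ i₀ < 2 ^ (i + 1) := hil.trans_lt hli2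
    have := (Nat.pow_lt_pow_iff_right (by norm_num : 1 < 2)).1 h1
    omega
  have hix : 2 ^ (2 ^ i) ≤ x := (Nat.pow_le_pow_right (by norm_num) hil2).trans hlx
  have hxi : x ≤ 2 ^ (2 ^ (i + 1)) := hxl.le.trans (Nat.pow_le_pow_right (by norm_num) hli2)
  have hiI : i ≤ I + 1 := by
    have h1 : 2 ^ (2 ^ i) ≤ 2 ^ (2 ^ (I + 1)) := hix.trans hx
    have h2 := (Nat.pow_le_pow_iff_right (by norm_num : 1 < 2)).1 h1
    exact (Nat.pow_le_pow_iff_right (by norm_num : 1 < 2)).1 h2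
  rw [← Finset.sum_Ioc_consecutive (tt m) (Nat.pow_le_pow_right (by norm_num)
      (Nat.pow_le_pow_right (by norm_num) hi0i)) hix]
  have h1 := blocks2 hb hi hH i hi0i (by omega)
  rw [← hI] at h1
  have h2 := sum_sq2 I i₀ i hiI
  have h4 : 2 ≤ 2 ^ (2 ^ i) := by
    have h5 : 1 ≤ 2 ^ i := Nat.one_le_two_pow
    calc 2 = 2 ^ 1 := by norm_num
      _ ≤ 2 ^ (2 ^ i) := Nat.pow_le_pow_right (by norm_num) h5
  have h3 := part2 hD m (2 ^ (2 ^ i)) x h4 hix (by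
    rw [← pow_mul, ← pow_succ]; exact hxi)
  linarith

end Pool.Per.Kw

namespace Pool.Per

open KER Kw in
/-- **KW** -/
theorem kw_proof (ht : TAIL_Stmt) (hmert : MERT_Stmt) : KW_Stmt := by
  obtain ⟨B, hB⟩ := chi3 ht hmert
  obtain ⟨C, hC0, hC⟩ := hmert
  refine ⟨6 * Real.exp (C + B + 1), by positivity, ?_⟩
  intro X H m k hH hm hm1 hmX hbad hk hd
  obtain ⟨d, hdd⟩ : ∃ d, d = m * k ^ 2 := ⟨_, rfl⟩
  rw [← hdd] at hd ⊢
  have hsq : ¬ IsSquare m := by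
    rintro ⟨r, hr⟩
    have h1 : IsUnit r := hm r (by rw [hr])
    rw [Nat.isUnit_iff] at h1
    rw [h1] at hr
    omega
  obtain ⟨M, hM⟩ : ∃ M, M = max H (Nat.log 2 (Nat.log 2 d) + 1) := ⟨_, rfl⟩
  have hM2 : H ≤ M := by rw [hM]; exact le_max_left _ _
  have hM1 : 1 ≤ M := hH.trans hM2
  have hM3 : Nat.log 2 (Nat.log 2 d) + 1 ≤ M := by rw [hM]; exact le_max_right _ _
  obtain ⟨i₀, hi₀⟩ : ∃ i₀, i₀ = Nat.log 2 M + 1 := ⟨_, rfl⟩
  obtain ⟨J, hJ⟩ : ∃ J, J = 2 ^ i₀ := ⟨_, rfl⟩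
  have hMJ : M ≤ J := by
    rw [hJ, hi₀]; exact (Nat.lt_pow_succ_log_self (by norm_num) M).le
  have hJM : J ≤ 2 * M := by
    have h1 : 2 ^ Nat.log 2 M ≤ M := Nat.pow_log_le_self 2 (by omega)
    rw [hJ, hi₀, pow_succ]
    omega
  have hJ1 : 1 ≤ J := hM1.trans hMJ
  have hd0 : 0 < d := by omega
  have hll := one_le_loglog hd
  have h2 := loglog_le hd
  have hMs : (M : ℝ) ≤ 3 * max (H : ℝ) (Real.log (Real.log (d : ℝ))) := by
    have hm1 : (H : ℝ) ≤ max (H : ℝ) (Real.log (Real.log (d : ℝ))) := le_max_left _ _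
    have hm2 : Real.log (Real.log (d : ℝ)) ≤ max (H : ℝ) (Real.log (Real.log (d : ℝ))) :=
      le_max_right _ _
    have hH' : (1 : ℝ) ≤ H := by exact_mod_cast hH
    rw [hM]
    push_cast
    exact max_le (by linarith) (by linarith)
  have hJs : (J : ℝ) ≤ 6 * max (H : ℝ) (Real.log (Real.log (d : ℝ))) := by
    have h3 : (J : ℝ) ≤ 2 * M := by exact_mod_cast hJM
    linarith
  have hJ0 : (0 : ℝ) < J := by exact_mod_cast hJ1
  have hsum : chiSum d (Nat.sqrt d) ≤ Real.log J + (C + B + 1) := by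
    unfold chiSum
    rw [← Finset.sum_filter_add_sum_filter_not _ (fun p => p ≤ 2 ^ J)]
    have h3 := small_le d (Nat.sqrt d) J (fun p => ¬ p ∣ 2 * d)
    have h4 : ∑ p ∈ ((Nat.primesLE (Nat.sqrt d)).filter (fun p => ¬ p ∣ 2 * d)).filter
        (fun p => ¬ p ≤ 2 ^ J), ((jacobiSym ((d : ℕ) : ℤ) p : ℤ) : ℝ) / p ≤ B + 1 := by
      have h5 := hB X H m i₀ (Nat.sqrt d) hsq hmX hbad (by omega)
        (hM2.trans (hMJ.trans hJ.le))
      rw [← hJ] at h5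
      have h6 := large_le (m := m) (k := k) (J := J) (N := Nat.sqrt d) (B := B)
        (by rw [← hdd]; exact hd0) (by rw [← hdd]; exact hM3.trans hMJ) h5
      rw [← hdd] at h6
      exact h6
    have h5 : (2 : ℕ) ≤ 2 ^ J := by
      calc 2 = 2 ^ 1 := by norm_num
        _ ≤ 2 ^ J := Nat.pow_le_pow_right (by norm_num) hJ1
    have h6 := (abs_le.1 (hC (2 ^ J) h5)).2
    have h7 : Real.log (Real.log ((2 ^ J : ℕ) : ℝ)) ≤ Real.log J := by
      have hl : 0 < Real.log 2 := Real.log_pos (by norm_num)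
      have h8 : Real.log ((2 ^ J : ℕ) : ℝ) = J * Real.log 2 := by
        push_cast; rw [Real.log_pow]
      rw [h8]
      apply Real.log_le_log (by positivity)
      have h9 := Real.log_two_lt_d9
      nlinarith
    linarith
  calc Real.exp (chiSum d (Nat.sqrt d)) ≤ Real.exp (Real.log J + (C + B + 1)) :=
        Real.exp_le_exp.2 hsum
    _ = J * Real.exp (C + B + 1) := by rw [Real.exp_add, Real.exp_log hJ0]
    _ ≤ 6 * max (H : ℝ) (Real.log (Real.log (d : ℝ))) * Real.exp (C + B + 1) :=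
        mul_le_mul_of_nonneg_right hJs (Real.exp_pos _).le
    _ = 6 * Real.exp (C + B + 1) * max (H : ℝ) (Real.log (Real.log (d : ℝ))) := by ring

end Pool.Per
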