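import Pool.Agent.Lib.MP_45b5fd_nt.PER.Iface2

/-!
# PER, second stage, module MW: the moments of a block with doubling exponents
-/

set_option autoImplicit false

open Finset

namespace Pool.Per.Mw

/-- The primes of the block. -/
def P (i : ℕ) : Finset ℕ := (Ioc (2 ^ (2 ^ i)) (2 ^ (2 ^ (i + 1)))).filter Nat.Prime

/-- The `k`-tuples of primes of the block. -/
def Fs (i k : ℕ) : Finset (Fin k → ℕ) := Fintype.piFinset (fun _ : Fin k => P i)

/-- The odd numbers of the range. -/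
def Rg (i k : ℕ) : Finset ℕ := (Ioc (2 ^ (k * 2 ^ i)) (2 ^ (2 * (k * 2 ^ i)))).filter Odd

theorem mem_Fs {i k : ℕ} {f : Fin k → ℕ} : f ∈ Fs i k ↔ ∀ u, f u ∈ P i := by
  unfold Fs
  exact Fintype.mem_piFinset

theorem mem_P {i p : ℕ} :
    p ∈ P i ↔ (2 ^ (2 ^ i) < p ∧ p ≤ 2 ^ (2 ^ (i + 1))) ∧ p.Prime := by
  unfold P
  rw [mem_filter, mem_Ioc]

theorem jac_prod (m : ℤ) {ι : Type} (s : Finset ι) (f : ι → ℕ) (h : ∀ i ∈ s, f i ≠ 0) :
    jacobiSym m (∏ i ∈ s, f i) = ∏ i ∈ s, jacobiSym m (f i) := by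
  classical
  induction s using Finset.induction_on with
  | empty => simp
  | insert a s ha ih =>
    rw [Finset.prod_insert ha, Finset.prod_insert ha]
    have h1 : f a ≠ 0 := h a (mem_insert_self _ _)
    have h2 : ∏ i ∈ s, f i ≠ 0 := Finset.prod_ne_zero_iff.2 fun i hi =>
      h i (mem_insert_of_mem hi)
    have : NeZero (f a) := ⟨h1⟩
    have : NeZero (∏ i ∈ s, f i) := ⟨h2⟩
    rw [jacobiSym.mul_right, ih fun i hi => h i (mem_insert_of_mem hi)]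

/-- number of `k`-tuples with product `n` -/
noncomputable def r (i k n : ℕ) : ℕ := ((Fs i k).filter (fun f => ∏ u, f u = n)).card

theorem r_le (i k n : ℕ) : r i k n ≤ k.factorial := by
  classical
  unfold r
  by_cases h0 : ((Fs i k).filter (fun f => ∏ u, f u = n)) = ∅
  · rw [h0]
    simp
  obtain ⟨f0, hf0⟩ := Finset.nonempty_iff_ne_empty.2 h0
  have hpr : ∀ f ∈ (Fs i k).filter (fun f => ∏ u, f u = n),
      (List.ofFn f).Perm n.primeFactorsList := by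
    intro f hf
    obtain ⟨h1, h2⟩ := mem_filter.1 hf
    refine Nat.primeFactorsList_unique ?_ ?_
    · rw [List.prod_ofFn]
      exact h2
    · intro p hp
      obtain ⟨u, rfl⟩ := (List.mem_ofFn).1 hp
      exact (mem_P.1 (mem_Fs.1 h1 u)).2
  have hlen : n.primeFactorsList.length = k := by
    rw [← (hpr f0 hf0).length_eq, List.length_ofFn]
  have h1 : ((Fs i k).filter (fun f => ∏ u, f u = n)).card ≤
      (n.primeFactorsList.permutations.toFinset).card := by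
    refine card_le_card_of_injOn (fun f => List.ofFn f) ?_ ?_
    · intro f hf
      refine mem_coe.2 (List.mem_toFinset.2 ?_)
      exact List.mem_permutations.2 (hpr f (mem_coe.1 hf))
    · intro f _ g _ hfg
      exact List.ofFn_injective hfg
  refine h1.trans ((List.toFinset_card_le _).trans ?_)
  rw [List.length_permutations, hlen]

theorem prod_lt {i k : ℕ} (hk : 1 ≤ k) {f : Fin k → ℕ} (hf : f ∈ Fs i k) :
    2 ^ (k * 2 ^ i) < ∏ u, f u := by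
  have h1 := mem_Fs.1 hf
  have h2 : ∏ _u : Fin k, (2 ^ (2 ^ i)) < ∏ u, f u := by
    have : Nonempty (Fin k) := ⟨⟨0, hk⟩⟩
    exact Finset.prod_lt_prod_of_nonempty (fun u _ => by positivity)
      (fun u _ => (mem_P.1 (h1 u)).1.1) Finset.univ_nonempty
  rw [Finset.prod_const, Finset.card_univ, Fintype.card_fin, ← pow_mul] at h2
  rwa [mul_comm] at h2

theorem prod_le {i k : ℕ} {f : Fin k → ℕ} (hf : f ∈ Fs i k) :
    ∏ u, f u ≤ 2 ^ (2 * (k * 2 ^ i)) := by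
  have h1 := mem_Fs.1 hf
  have h2 := Finset.prod_le_pow_card (Finset.univ : Finset (Fin k)) f (2 ^ (2 ^ (i + 1)))
    (fun u _ => (mem_P.1 (h1 u)).1.2)
  rw [Finset.card_univ, Fintype.card_fin, ← pow_mul] at h2
  refine h2.trans (le_of_eq ?_)
  congr 1
  ring

theorem maps {i k : ℕ} (hk : 1 ≤ k) {f : Fin k → ℕ} (hf : f ∈ Fs i k) :
    ∏ u, f u ∈ Rg i k := by
  have h1 := mem_Fs.1 hf
  refine mem_filter.2 ⟨mem_Ioc.2 ⟨prod_lt hk hf, prod_le hf⟩, ?_⟩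
  refine Finset.prod_induction _ Odd (fun a b ha hb => ha.mul hb) odd_one fun u _ => ?_
  have h2 := mem_P.1 (h1 u)
  refine h2.2.odd_of_ne_two ?_
  have h3 : 2 ^ 1 ≤ 2 ^ (2 ^ i) := Nat.pow_le_pow_right (by norm_num) Nat.one_le_two_pow
  omega

theorem T_pow {m i k : ℕ} (hk : 1 ≤ k) : (T2 m i) ^ k =
    ∑ n ∈ Rg i k, ((r i k n : ℝ) / n) *
      ((jacobiSym (m : ℤ) n : ℤ) : ℝ) := by
  have h1 : (T2 m i) ^ k =
      ∑ f ∈ Fs i k, ∏ u, (((jacobiSym (m : ℤ) (f u) : ℤ) : ℝ) / (f u : ℕ)) := by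
    have h2 := Finset.prod_univ_sum (fun _ : Fin k => P i)
      (fun _ p => ((jacobiSym (m : ℤ) p : ℤ) : ℝ) / p)
    rw [Finset.prod_const, Finset.card_univ, Fintype.card_fin] at h2
    exact h2
  rw [h1, ← Finset.sum_fiberwise_of_maps_to (fun f hf => maps hk hf)]
  refine Finset.sum_congr rfl fun n _ => ?_
  have h3 : ∀ f ∈ (Fs i k).filter (fun f => ∏ u, f u = n),
      ∏ u, (((jacobiSym (m : ℤ) (f u) : ℤ) : ℝ) / (f u : ℕ)) =
      1 / (n : ℝ) * ((jacobiSym (m : ℤ) n : ℤ) : ℝ) := by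
    intro f hf
    obtain ⟨h4, h5⟩ := mem_filter.1 hf
    rw [Finset.prod_div_distrib, ← h5, jac_prod _ _ _ fun u _ =>
      (mem_P.1 (mem_Fs.1 h4 u)).2.ne_zero]
    push_cast
    ring
  rw [Finset.sum_congr rfl h3, Finset.sum_const, nsmul_eq_mul]
  unfold r
  ring

theorem supp {i k n : ℕ} (h : (r i k n : ℝ) / n ≠ 0) (p : ℕ) (hp : p.Prime) (hd : p ∣ n) :
    2 ^ (2 ^ i) < p := by
  have h1 : r i k n ≠ 0 := by
    intro h2
    exact h (by rw [h2]; simp)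
  unfold r at h1
  obtain ⟨f, hf⟩ := Finset.card_ne_zero.1 h1
  obtain ⟨h2, h3⟩ := mem_filter.1 hf
  rw [← h3] at hd
  obtain ⟨u, -, hu⟩ := (Prime.dvd_finsetProd_iff hp.prime _).1 hd
  have h4 := mem_P.1 (mem_Fs.1 h2 u)
  rw [(Nat.prime_dvd_prime_iff_eq hp h4.2).1 hu]
  exact h4.1.1

theorem sum_inv {C : ℝ} (hC : ∀ N : ℕ, 2 ≤ N →
    |∑ p ∈ Nat.primesLE N, 1 / (p : ℝ) - Real.log (Real.log N)| ≤ C) (i : ℕ) :
    ∑ p ∈ P i, 1 / (p : ℝ) ≤ 2 * C + 1 := by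
  have ha : 2 ≤ 2 ^ (2 ^ i) := by
    have h3 : 2 ^ 1 ≤ 2 ^ (2 ^ i) := Nat.pow_le_pow_right (by norm_num) Nat.one_le_two_pow
    simpa using h3
  have hb : 2 ≤ 2 ^ (2 ^ (i + 1)) := by
    have h3 : 2 ^ 1 ≤ 2 ^ (2 ^ (i + 1)) := Nat.pow_le_pow_right (by norm_num) Nat.one_le_two_pow
    simpa using h3
  have hab : 2 ^ (2 ^ i) ≤ 2 ^ (2 ^ (i + 1)) :=
    Nat.pow_le_pow_right (by norm_num) (Nat.pow_le_pow_right (by norm_num) (by omega))
  have h1 := abs_le.1 (hC _ ha)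
  have h2 := abs_le.1 (hC _ hb)
  have h3 : ∑ p ∈ Nat.primesLE (2 ^ (2 ^ (i + 1))), 1 / (p : ℝ) =
      ∑ p ∈ Nat.primesLE (2 ^ (2 ^ i)), 1 / (p : ℝ) + ∑ p ∈ P i, 1 / (p : ℝ) := by
    rw [← Finset.sum_union]
    · congr 1
      ext p
      simp only [mem_union, mem_P, Nat.mem_primesLE]
      constructor
      · rintro ⟨h4, h5⟩
        rcases le_or_gt p (2 ^ (2 ^ i)) with h6 | h6
        · exact Or.inl ⟨h6, h5⟩
        · exact Or.inr ⟨⟨h6, h4⟩, h5⟩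
      · rintro (⟨h4, h5⟩ | ⟨⟨h4, h5⟩, h6⟩)
        · exact ⟨h4.trans hab, h5⟩
        · exact ⟨h5, h6⟩
    · rw [Finset.disjoint_left]
      intro p hp hq
      have h4 := (Nat.mem_primesLE.1 hp).1
      have h5 := (mem_P.1 hq).1.1
      omega
  have hl2 : (0 : ℝ) < Real.log 2 := Real.log_pos (by norm_num)
  have h4 : Real.log (Real.log ((2 ^ (2 ^ (i + 1)) : ℕ) : ℝ)) =
      Real.log 2 + Real.log (Real.log ((2 ^ (2 ^ i) : ℕ) : ℝ)) := by
    push_cast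
    rw [Real.log_pow, Real.log_pow, ← Real.log_mul (by norm_num) (by positivity)]
    congr 1
    push_cast
    ring
  have h5 : Real.log 2 ≤ 1 := by
    have := Real.log_two_lt_d9
    linarith
  rw [h4] at h2
  linarith [h1.1, h2.2]

theorem sum_sq {i k : ℕ} (hk : 1 ≤ k) :
    ∑ n ∈ Rg i k,
      (n : ℝ) * ((r i k n : ℝ) / n) ^ 2 ≤
      (k : ℝ) ^ k * (∑ p ∈ P i, 1 / (p : ℝ)) ^ k := by
  have h1 : ∑ n ∈ Rg i k,
      (n : ℝ) * ((r i k n : ℝ) / n) ^ 2 ≤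
      ∑ n ∈ Rg i k,
        (k.factorial : ℝ) * ((r i k n : ℝ) / (n : ℝ)) := by
    refine Finset.sum_le_sum fun n hn => ?_
    have h2 : (r i k n : ℝ) ≤ k.factorial := by exact_mod_cast r_le i k n
    have h3 : (0 : ℝ) < n := by
      have := (mem_Ioc.1 (mem_filter.1 hn).1).1
      exact_mod_cast lt_of_le_of_lt (Nat.zero_le _) this
    have h4 : (n : ℝ) * ((r i k n : ℝ) / n) ^ 2 = (r i k n : ℝ) * ((r i k n : ℝ) / n) := by
      field_simp
    rw [h4]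
    gcongr
  have h2 : ∑ n ∈ Rg i k,
      ((r i k n : ℝ) / (n : ℝ)) = (∑ p ∈ P i, 1 / (p : ℝ)) ^ k := by
    have h3 := Finset.prod_univ_sum (fun _ : Fin k => P i) (fun _ p => 1 / (p : ℝ))
    rw [Finset.prod_const, Finset.card_univ, Fintype.card_fin] at h3
    rw [h3]
    change _ = ∑ f ∈ Fs i k, ∏ u, 1 / ((f u : ℕ) : ℝ)
    rw [← Finset.sum_fiberwise_of_maps_to (fun f hf => maps hk hf)]
    refine Finset.sum_congr rfl fun n _ => ?_
    have h4 : ∀ f ∈ (Fs i k).filter (fun f => ∏ u, f u = n),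
        ∏ u, 1 / ((f u : ℕ) : ℝ) = 1 / (n : ℝ) := by
      intro f hf
      obtain ⟨-, h5⟩ := mem_filter.1 hf
      rw [Finset.prod_div_distrib, Finset.prod_const_one, ← h5]
      push_cast
      rfl
    rw [Finset.sum_congr rfl h4, Finset.sum_const, nsmul_eq_mul]
    unfold r
    ring
  refine h1.trans ?_
  rw [← Finset.mul_sum, h2]
  have h5 : (k.factorial : ℝ) ≤ (k : ℝ) ^ k := by exact_mod_cast Nat.factorial_le_pow k
  have h6 : 0 ≤ ∑ p ∈ P i, 1 / (p : ℝ) := Finset.sum_nonneg fun _ _ => by positivity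
  gcongr

theorem mw_proof (hD : DW_Stmt) (hM : MERT_Stmt) : MW_Stmt := by
  obtain ⟨C, hC0, hC⟩ := hD
  obtain ⟨D, hD0, hD⟩ := hM
  refine ⟨2 * max C 1 * (2 * D + 1), ?_, ?_⟩
  · have h1 : (1 : ℝ) ≤ max C 1 := le_max_right _ _
    nlinarith
  intro X i k M hX hi hk hle hMM
  have hz : 2 ≤ 2 ^ (2 ^ i) := by
    have h3 : 2 ^ 1 ≤ 2 ^ (2 ^ i) := Nat.pow_le_pow_right (by norm_num) Nat.one_le_two_pow
    simpa using h3
  have hN : 2 ^ (k * 2 ^ i) ≤ 2 ^ (2 * (k * 2 ^ i)) :=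
    Nat.pow_le_pow_right (by norm_num) (by omega)
  have hz2 : (2 ^ (2 ^ i)) ^ 2 * X ^ 3 ≤ 2 ^ (k * 2 ^ i) := by
    rw [← pow_mul, mul_comm (2 ^ i) 2]
    exact hle
  have h1 := hC X (2 ^ (k * 2 ^ i)) (2 ^ (2 * (k * 2 ^ i))) (2 ^ (2 ^ i)) M hz hX hz2 hN hMM
    (fun n => (r i k n : ℝ) / n) (fun n hn p hp hd => supp hn p hp hd)
  have h2 : ∀ m : ℕ, (T2 m i) ^ (2 * k) =
      (∑ n ∈ Rg i k, ((r i k n : ℝ) / n) *
        ((jacobiSym (m : ℤ) n : ℤ) : ℝ)) ^ 2 := fun m => by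
    rw [← T_pow hk, mul_comm 2 k, pow_mul]
  simp only [h2]
  refine h1.trans ?_
  have hl2 : (0 : ℝ) < Real.log 2 := Real.log_pos (by norm_num)
  have h3 : Real.log (((2 ^ (2 * (k * 2 ^ i)) : ℕ) : ℝ) / ((2 ^ (k * 2 ^ i) : ℕ) : ℝ)) /
      Real.log ((2 ^ (2 ^ i) : ℕ) : ℝ) = k := by
    push_cast
    rw [show (2 : ℝ) ^ (2 * (k * 2 ^ i)) / 2 ^ (k * 2 ^ i) = 2 ^ (k * 2 ^ i) by
      rw [two_mul, pow_add]; field_simp]
    rw [Real.log_pow, Real.log_pow]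
    push_cast
    field_simp
  rw [h3]
  have h4 := sum_sq (i := i) hk
  have h5 := sum_inv hD i
  have h6 : 0 ≤ ∑ p ∈ P i, 1 / (p : ℝ) := Finset.sum_nonneg fun _ _ => by positivity
  have h7 : C * (1 + (k : ℝ)) ≤ (2 * max C 1) ^ k := by
    have h8 : (1 : ℝ) ≤ max C 1 := le_max_right _ _
    have h9 : C ≤ (max C 1) ^ k := (le_max_left _ _).trans (le_self_pow₀ h8 (by omega))
    have h10 : 1 + (k : ℝ) ≤ 2 ^ k := by
      have := Nat.lt_two_pow_self (n := k)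
      have h11 : 1 + k ≤ 2 ^ k := by omega
      exact_mod_cast h11
    rw [mul_pow, mul_comm ((2 : ℝ) ^ k)]
    gcongr
  calc C * (1 + (k : ℝ)) * ∑ n ∈ Rg i k,
        (n : ℝ) * ((r i k n : ℝ) / n) ^ 2
      ≤ (2 * max C 1) ^ k * ((k : ℝ) ^ k * (2 * D + 1) ^ k) := by
        refine mul_le_mul h7 (h4.trans ?_) ?_ (by positivity)
        · gcongr
        · exact Finset.sum_nonneg fun n _ => by positivity
    _ = _ := by
        rw [← mul_pow, ← mul_pow]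
        ring_nf

end Pool.Per.Mw
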