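import Pool.Agent.Lib.MP_45b5fd_nt.PER.Iface

/-!
# ORTH: incomplete sums of `n ↦ (D/n)` over odd `n` for a non-square `D`
-/

set_option autoImplicit false

open Finset

namespace Pool.Per

namespace Orth

/-- a non-square has a prime with odd exponent -/
theorem exists_prime_odd {D : ℕ} (hD : ¬ IsSquare D) :
    ∃ q : ℕ, q.Prime ∧ Odd (D.factorization q) := by
  have h0 : D ≠ 0 := by
    rintro rfl
    exact hD ⟨0, rfl⟩
  by_contra hc
  push Not at hc
  apply hD
  refine ⟨∏ p ∈ D.primeFactors, p ^ (D.factorization p / 2), ?_⟩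
  rw [← Finset.prod_mul_distrib]
  conv_lhs => rw [← Nat.prod_factorization_pow_eq_self h0]
  rw [Finsupp.prod, Nat.support_factorization]
  apply Finset.prod_congr rfl
  intro p hp
  have h1 := hc p (Nat.prime_of_mem_primeFactors hp)
  rw [Nat.not_odd_iff_even] at h1
  obtain ⟨k, hk⟩ := h1
  rw [← pow_add]
  congr 1
  omega

theorem one_of {R n : ℕ} (hR : Odd R) (h4 : n % 4 = 1) (h1 : n ≡ 1 [MOD R]) :
    jacobiSym (R : ℤ) n = 1 := by
  rw [jacobiSym.quadratic_reciprocity_one_mod_four' hR h4]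
  have : ((n : ℕ) : ℤ) % (R : ℤ) = (1 : ℤ) % (R : ℤ) := by
    exact_mod_cast h1
  rw [jacobiSym.mod_left' this, jacobiSym.one_left]

theorem two_of {n : ℕ} (h : n % 8 = 1) : jacobiSym (2 : ℤ) n = 1 := by
  rw [jacobiSym.at_two (by rw [Nat.odd_iff]; omega), ZMod.χ₈_nat_eq_if_mod_eight]
  simp [h, show n % 2 = 1 by omega]

theorem two_of' {n : ℕ} (h : n % 8 = 5) : jacobiSym (2 : ℤ) n = -1 := by
  rw [jacobiSym.at_two (by rw [Nat.odd_iff]; omega), ZMod.χ₈_nat_eq_if_mod_eight]
  simp [h, show n % 2 = 1 by omega]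

/-- some odd `n` has `(D/n) = -1` -/
theorem exists_neg {D : ℕ} (hD : ¬ IsSquare D) : ∃ n : ℕ, Odd n ∧ jacobiSym (D : ℤ) n = -1 := by
  have h0 : D ≠ 0 := by
    rintro rfl
    exact hD ⟨0, rfl⟩
  obtain ⟨q, hq, hodd⟩ := exists_prime_odd hD
  have hDq : D = q ^ (D.factorization q) * (D / q ^ D.factorization q) :=
    (Nat.ordProj_mul_ordCompl_eq_self D q).symm
  have hR0 : ¬ q ∣ D / q ^ D.factorization q := Nat.not_dvd_ordCompl hq h0
  set c := D.factorization q with hc
  set R := D / q ^ c with hR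
  rcases hq.eq_two_or_odd' with h2 | h2
  · subst h2
    have hRodd : Odd R := by
      rw [Nat.odd_iff]
      omega
    have hco : Nat.Coprime 8 R := by
      have : Nat.Coprime (2 ^ 3) R :=
        Nat.Coprime.pow_left 3 (Nat.coprime_two_left.mpr hRodd)
      exact this
    obtain ⟨n, hn1, hn2⟩ := Nat.chineseRemainder hco 5 1
    have h8 : n % 8 = 5 := hn1
    refine ⟨n, by rw [Nat.odd_iff]; omega, ?_⟩
    rw [hDq]
    push_cast
    rw [jacobiSym.mul_left, jacobiSym.pow_left, two_of' h8, one_of hRodd (by omega) hn2,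
      hodd.neg_one_pow, mul_one]
  · have hR1 : R ≠ 0 := by
      rintro h
      rw [h] at hR0
      exact hR0 (dvd_zero q)
    have hRR : R = 2 ^ (R.factorization 2) * (R / 2 ^ R.factorization 2) :=
      (Nat.ordProj_mul_ordCompl_eq_self R 2).symm
    have hR2 : ¬ 2 ∣ R / 2 ^ R.factorization 2 := Nat.not_dvd_ordCompl Nat.prime_two hR1
    set b := R.factorization 2 with hb
    set M := R / 2 ^ b with hM
    have hModd : Odd M := by
      rw [Nat.odd_iff]
      omega
    have hqM : ¬ q ∣ M := fun h => hR0 (by rw [hRR]; exact Dvd.dvd.mul_left h _)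
    have : Fact q.Prime := ⟨hq⟩
    have hq2 : ringChar (ZMod q) ≠ 2 := by
      rw [ZMod.ringChar_zmod_n]
      rintro rfl
      exact absurd h2 (by decide)
    obtain ⟨g, hg⟩ := FiniteField.exists_nonsquare (F := ZMod q) hq2
    have hco : Nat.Coprime 8 M := by
      have : Nat.Coprime (2 ^ 3) M :=
        Nat.Coprime.pow_left 3 (Nat.coprime_two_left.mpr hModd)
      exact this
    have hco2 : Nat.Coprime (8 * M) q := by
      rw [Nat.coprime_comm, hq.coprime_iff_not_dvd]
      intro h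
      rcases (hq.dvd_mul).mp h with h | h
      · have h3 : q ∣ 2 ^ 3 := h
        have h4 := hq.dvd_of_dvd_pow h3
        have h5 := (Nat.prime_dvd_prime_iff_eq hq Nat.prime_two).mp h4
        rw [h5] at h2
        exact absurd h2 (by decide)
      · exact hqM h
    obtain ⟨n, hn1, hn2⟩ := Nat.chineseRemainder hco2 1 g.val
    have hn8 : n % 8 = 1 := by
      have h3 : n ≡ 1 [MOD 8] := Nat.ModEq.of_mul_right M hn1
      exact h3
    have hnM : n ≡ 1 [MOD M] := Nat.ModEq.of_mul_left 8 hn1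
    refine ⟨n, by rw [Nat.odd_iff]; omega, ?_⟩
    have hgn : jacobiSym (q : ℤ) n = -1 := by
      rw [jacobiSym.quadratic_reciprocity_one_mod_four' h2 (by omega)]
      have e1 : jacobiSym ((n : ℕ) : ℤ) q = legendreSym q n := by
        rw [← jacobiSym.legendreSym.to_jacobiSym]
      rw [e1, legendreSym.eq_neg_one_iff]
      have e2 : ((n : ℤ) : ZMod q) = g := by
        have e3 : ((n : ℕ) : ZMod q) = ((g.val : ℕ) : ZMod q) :=
          (ZMod.natCast_eq_natCast_iff n g.val q).mpr hn2
        rw [Int.cast_natCast, e3, ZMod.natCast_zmod_val]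
      rw [e2]
      exact hg
    rw [hDq, hRR]
    push_cast
    rw [jacobiSym.mul_left, jacobiSym.pow_left, jacobiSym.mul_left, jacobiSym.pow_left, hgn,
      two_of hn8, one_of hModd (by omega) hnM, hodd.neg_one_pow, one_pow, mul_one, mul_one]

/-- the character -/
noncomputable def f (D n : ℕ) : ℤ := if Odd n then jacobiSym (D : ℤ) n else 0

theorem f_period (D n : ℕ) : f D (n + 4 * D) = f D n := by
  unfold f
  have h1 : Odd (n + 4 * D) ↔ Odd n := by
    rw [Nat.odd_iff, Nat.odd_iff]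
    omega
  by_cases h : Odd n
  · rw [if_pos h, if_pos (h1.mpr h), jacobiSym.mod_right' D (h1.mpr h), jacobiSym.mod_right' D h,
      Nat.add_mod_right]
  · rw [if_neg h, if_neg (fun h' => h (h1.mp h'))]

theorem f_period' (D n k : ℕ) : f D (n + 4 * D * k) = f D n := by
  induction k with
  | zero => simp
  | succ k ih =>
    rw [Nat.mul_succ, ← add_assoc, f_period]
    exact ih

theorem f_mod (D n : ℕ) : f D (n % (4 * D)) = f D n := by
  conv_rhs => rw [← Nat.mod_add_div n (4 * D)]
  rw [f_period']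

theorem f_mul (D m n : ℕ) : f D (m * n) = f D m * f D n := by
  unfold f
  by_cases h1 : Odd m
  · by_cases h2 : Odd n
    · have : NeZero m := ⟨by rintro rfl; exact absurd h1 (by decide)⟩
      have : NeZero n := ⟨by rintro rfl; exact absurd h2 (by decide)⟩
      rw [if_pos (h1.mul h2), if_pos h1, if_pos h2, jacobiSym.mul_right]
    · rw [if_neg (fun h => h2 (Nat.odd_mul.mp h).2), if_neg h2, mul_zero]
  · rw [if_neg (fun h => h1 (Nat.odd_mul.mp h).1), if_neg h1, zero_mul]

theorem abs_f (D n : ℕ) : |f D n| ≤ 1 := by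
  unfold f
  split_ifs
  · rcases jacobiSym.trichotomy (D : ℤ) n with h | h | h <;> rw [h] <;> simp
  · simp

theorem period_sum {D : ℕ} (hD : ¬ IsSquare D) : ∑ n ∈ range (4 * D), f D n = 0 := by
  obtain ⟨n0, hodd, hneg⟩ := exists_neg hD
  have h0 : D ≠ 0 := by
    rintro rfl
    exact hD ⟨0, rfl⟩
  have hf : f D n0 = -1 := by
    unfold f
    rw [if_pos hodd, hneg]
  have hn0 : n0 ≠ 0 := by
    rintro rfl
    exact absurd hodd (by decide)
  have hco : Nat.Coprime (4 * D) n0 := by
    have h1 : Nat.Coprime (2 ^ 2) n0 := Nat.Coprime.pow_left 2 (Nat.coprime_two_left.mpr hodd)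
    have h2 : Nat.Coprime D n0 := by
      by_contra hc
      have : NeZero n0 := ⟨hn0⟩
      have h3 : jacobiSym (D : ℤ) n0 = 0 := by
        rw [jacobiSym.eq_zero_iff_not_coprime]
        rw [Int.gcd_natCast_natCast]
        exact hc
      rw [h3] at hneg
      exact absurd hneg (by norm_num)
    exact Nat.Coprime.mul_left h1 h2
  have hinj : Set.InjOn (fun n => n0 * n % (4 * D)) (range (4 * D) : Set ℕ) := by
    intro a ha b hb hab
    have ha' : a < 4 * D := by simpa using ha
    have hb' : b < 4 * D := by simpa using hb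
    have h1 : n0 * a ≡ n0 * b [MOD 4 * D] := hab
    have h2 : a ≡ b [MOD 4 * D] := Nat.ModEq.cancel_left_of_coprime hco h1
    exact Nat.ModEq.eq_of_lt_of_lt h2 ha' hb'
  have himg : (range (4 * D)).image (fun n => n0 * n % (4 * D)) = range (4 * D) := by
    apply Finset.eq_of_subset_of_card_le
    · intro x hx
      obtain ⟨n, _, rfl⟩ := Finset.mem_image.mp hx
      exact Finset.mem_range.mpr (Nat.mod_lt _ (by omega))
    · rw [Finset.card_image_of_injOn hinj]
  have h1 : ∑ n ∈ range (4 * D), f D n = ∑ n ∈ range (4 * D), f D (n0 * n % (4 * D)) := by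
    conv_lhs => rw [← himg]
    rw [Finset.sum_image hinj]
  have h2 : ∑ n ∈ range (4 * D), f D (n0 * n % (4 * D)) = - ∑ n ∈ range (4 * D), f D n := by
    rw [← Finset.sum_neg_distrib]
    apply Finset.sum_congr rfl
    intro n _
    rw [f_mod, f_mul, hf]
    ring
  rw [h2] at h1
  omega

theorem sum_mul {D : ℕ} (hD : ¬ IsSquare D) (k r : ℕ) :
    ∑ n ∈ range (4 * D * k + r), f D n = ∑ n ∈ range r, f D n := by
  induction k with
  | zero => simp
  | succ k ih =>
    have e : 4 * D * (k + 1) + r = 4 * D + (4 * D * k + r) := by ring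
    rw [e, Finset.sum_range_add, period_sum hD, zero_add, ← ih]
    apply Finset.sum_congr rfl
    intro n _
    rw [add_comm, f_period]

theorem abs_sum {D : ℕ} (hD : ¬ IsSquare D) (N : ℕ) : |∑ n ∈ range N, f D n| ≤ 4 * D := by
  have h0 : D ≠ 0 := by
    rintro rfl
    exact hD ⟨0, rfl⟩
  have h1 : N = 4 * D * (N / (4 * D)) + N % (4 * D) := (Nat.div_add_mod N (4 * D)).symm
  rw [h1, sum_mul hD]
  have h2 : N % (4 * D) < 4 * D := Nat.mod_lt _ (by omega)
  calc |∑ n ∈ range (N % (4 * D)), f D n| ≤ ∑ n ∈ range (N % (4 * D)), |f D n| :=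
        Finset.abs_sum_le_sum_abs _ _
    _ ≤ ∑ n ∈ range (N % (4 * D)), 1 := Finset.sum_le_sum fun n _ => abs_f D n
    _ = (N % (4 * D) : ℕ) := by simp
    _ ≤ 4 * D := by exact_mod_cast h2.le

end Orth

theorem orth_proof : ORTH_Stmt := by
  intro D N hD
  have h1 := Orth.abs_sum hD (N + 1)
  have h2 : ∑ n ∈ (Icc 1 N).filter Odd, ((jacobiSym (D : ℤ) n : ℤ) : ℝ) =
      ((∑ n ∈ range (N + 1), Orth.f D n : ℤ) : ℝ) := by
    push_cast
    have e : (Icc 1 N).filter Odd = (range (N + 1)).filter Odd := by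
      ext n
      simp only [Finset.mem_filter, Finset.mem_Icc, Finset.mem_range]
      constructor
      · rintro ⟨⟨_, h2⟩, h3⟩
        exact ⟨by omega, h3⟩
      · rintro ⟨h2, h3⟩
        exact ⟨⟨h3.pos, by omega⟩, h3⟩
    rw [e, Finset.sum_filter]
    apply Finset.sum_congr rfl
    intro n _
    unfold Orth.f
    split_ifs <;> simp
  rw [h2, ← Int.cast_abs]
  exact_mod_cast h1

end Pool.Per
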