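import Pool.Agent.Lib.MP_45b5fd_nt.PER.Iface
import Pool.Agent.Lib.MP_02fec8_nt.Mert

/-!
# PER, row RANK: lower bound by Rankin's trick
-/

set_option autoImplicit false

open Finset

namespace Pool.Per

namespace Rank

theorem g_prod (g : ℕ → ℝ) (h1 : g 1 = 1)
    (hm : ∀ a b : ℕ, a.Coprime b → g (a * b) = g a * g b) (S : Finset ℕ)
    (hS : ∀ p ∈ S, p.Prime) : g (∏ p ∈ S, p) = ∏ p ∈ S, g p := by
  induction S using Finset.induction_on with
  | empty => simpa using h1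
  | insert q S hq ih =>
    rw [Finset.prod_insert hq, Finset.prod_insert hq, hm, ih]
    · intro p hp
      exact hS p (Finset.mem_insert_of_mem hp)
    · refine Nat.Coprime.prod_right fun p hp => ?_
      refine (Nat.coprime_primes (hS q (Finset.mem_insert_self q S))
        (hS p (Finset.mem_insert_of_mem hp))).2 ?_
      rintro rfl
      exact hq hp

/-- `exp (∑ g p / p) ≤ e² ∏ (1 + g p / p)` -/
theorem exp_le (g : ℕ → ℝ) (hg0 : ∀ n, 0 ≤ g n) (hg : ∀ p : ℕ, p.Prime → g p ≤ 2) (x : ℕ)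
    (hx : 1 ≤ x) :
    Real.exp (∑ p ∈ Nat.primesLE x, g p / p) ≤
      Real.exp 2 * ∏ p ∈ Nat.primesLE x, (1 + g p / p) := by
  have key : ∀ p ∈ Nat.primesLE x, g p / p ≤ Real.log (1 + g p / p) + 2 * ((p : ℝ) ^ 2)⁻¹ := by
    intro p hp
    have hpp := Nat.prime_of_mem_primesLE hp
    have hp0 : (0 : ℝ) < p := by exact_mod_cast hpp.pos
    set u := g p / p with hu
    have hu0 : 0 ≤ u := div_nonneg (hg0 p) hp0.le
    have h1 := Real.le_log_one_add_of_nonneg hu0
    have h2 : u - u ^ 2 / 2 ≤ 2 * u / (u + 2) := by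
      rw [le_div_iff₀ (by linarith)]
      nlinarith [pow_nonneg hu0 3]
    have h3 : u ^ 2 / 2 ≤ 2 * ((p : ℝ) ^ 2)⁻¹ := by
      have h4 : u ≤ 2 / p := div_le_div_of_nonneg_right (hg p hpp) hp0.le
      have h5 : u ^ 2 ≤ (2 / p) ^ 2 := pow_le_pow_left₀ hu0 h4 2
      have h6 : ((2 : ℝ) / p) ^ 2 = 4 * ((p : ℝ) ^ 2)⁻¹ := by
        rw [div_pow]; field_simp; norm_num
      rw [h6] at h5
      linarith
    linarith
  have h7 : ∑ p ∈ Nat.primesLE x, 2 * ((p : ℝ) ^ 2)⁻¹ ≤ 2 := by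
    rw [← Finset.mul_sum]
    have h8 : ∑ p ∈ Nat.primesLE x, ((p : ℝ) ^ 2)⁻¹ ≤ ∑ p ∈ Ioc 1 x, ((p : ℝ) ^ 2)⁻¹ := by
      refine Finset.sum_le_sum_of_subset_of_nonneg ?_ (fun _ _ _ => by positivity)
      intro p hp
      rw [Finset.mem_Ioc]
      exact ⟨Nat.one_lt_of_mem_primesLE hp, Nat.le_of_mem_primesLE hp⟩
    have h9 : ∑ p ∈ Ioc 1 x, ((p : ℝ) ^ 2)⁻¹ ≤ ((1 : ℕ) : ℝ)⁻¹ - (x : ℝ)⁻¹ :=
      sum_Ioc_inv_sq_le_sub one_ne_zero hx
    have h10 : (0 : ℝ) ≤ (x : ℝ)⁻¹ := by positivity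
    rw [Nat.cast_one, inv_one] at h9
    linarith
  have hprod : ∏ p ∈ Nat.primesLE x, (1 + g p / p) =
      Real.exp (∑ p ∈ Nat.primesLE x, Real.log (1 + g p / p)) := by
    rw [Real.exp_sum]
    refine Finset.prod_congr rfl fun p hp => ?_
    rw [Real.exp_log]
    have : 0 ≤ g p / p := div_nonneg (hg0 p) (Nat.cast_nonneg p)
    linarith
  rw [hprod, ← Real.exp_add, Real.exp_le_exp]
  have h11 := Finset.sum_le_sum key
  rw [Finset.sum_add_distrib] at h11
  linarith

theorem main {C1 : ℝ} (hC1 : 0 ≤ C1)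
    (hM : ∀ n : ℕ, 1 ≤ n → ∑ p ∈ Nat.primesLE n, Real.log p / p ≤ Real.log n + C1)
    (B : ℕ) (hB : 4 + 4 * C1 / Real.log 2 + 1 ≤ B)
    (g : ℕ → ℝ) (hg0 : ∀ n, 0 ≤ g n) (h1 : g 1 = 1)
    (hm : ∀ a b : ℕ, a.Coprime b → g (a * b) = g a * g b) (hg : ∀ p : ℕ, p.Prime → g p ≤ 2)
    (x : ℕ) (hx : 2 ≤ x) :
    ∏ p ∈ Nat.primesLE x, (1 + g p / p) ≤ 2 * ∑ n ∈ Icc 1 (x ^ B), g n / n := by
  classical
  set P := Nat.primesLE x with hP
  have hlog2 : 0 < Real.log 2 := Real.log_pos (by norm_num)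
  have hx2 : (2 : ℝ) ≤ x := by exact_mod_cast hx
  have hlogx : Real.log 2 ≤ Real.log x := Real.log_le_log (by norm_num) hx2
  have hlogx0 : 0 < Real.log x := lt_of_lt_of_le hlog2 hlogx
  set δ := 1 / Real.log x with hδ
  have hδ0 : 0 < δ := by positivity
  have hPprime : ∀ p ∈ P, p.Prime := fun p hp => Nat.prime_of_mem_primesLE hp
  set w : Finset ℕ → ℝ := fun S => ∏ p ∈ S, g p / p with hw
  have hw0 : ∀ S, 0 ≤ w S := fun S =>
    Finset.prod_nonneg fun p _ => div_nonneg (hg0 p) (Nat.cast_nonneg p)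
  have hexp : ∏ p ∈ P, (1 + g p / p) = ∑ S ∈ P.powerset, w S := Finset.prod_one_add P
  -- Rankin
  have hr : ∑ S ∈ P.powerset.filter (fun S => ¬ (∏ p ∈ S, p ≤ x ^ B)), w S ≤
      Real.exp (-B) * ∏ p ∈ P, (1 + g p / p * Real.exp (δ * Real.log p)) := by
    have e1 : ∏ p ∈ P, (1 + g p / p * Real.exp (δ * Real.log p)) =
        ∑ S ∈ P.powerset, ∏ p ∈ S, (g p / p * Real.exp (δ * Real.log p)) :=
      Finset.prod_one_add P
    rw [e1, Finset.mul_sum]
    refine le_trans (Finset.sum_le_sum (g := fun S => Real.exp (-B) *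
      ∏ p ∈ S, (g p / p * Real.exp (δ * Real.log p))) ?_)
      (Finset.sum_le_sum_of_subset_of_nonneg (Finset.filter_subset _ _) ?_)
    · intro S hS
      rw [Finset.mem_filter, Finset.mem_powerset] at hS
      obtain ⟨hSP, hbig⟩ := hS
      push Not at hbig
      rw [Finset.prod_mul_distrib, ← Real.exp_sum, ← Finset.mul_sum]
      have e2 : ∑ p ∈ S, Real.log (p : ℝ) = Real.log ((∏ p ∈ S, p : ℕ) : ℝ) := by
        rw [Nat.cast_prod, Real.log_prod]
        intro p hp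
        have := (hPprime p (hSP hp)).pos
        positivity
      have e3 : (B : ℝ) * Real.log x ≤ ∑ p ∈ S, Real.log (p : ℝ) := by
        rw [e2, ← Real.log_pow]
        apply Real.log_le_log (by positivity)
        exact_mod_cast hbig.le
      have e4 : (B : ℝ) ≤ δ * ∑ p ∈ S, Real.log (p : ℝ) := by
        rw [hδ, one_div, ← div_eq_inv_mul, le_div_iff₀ hlogx0]
        exact e3
      have e5 : 1 ≤ Real.exp (-B) * Real.exp (δ * ∑ p ∈ S, Real.log (p : ℝ)) := by
        rw [← Real.exp_add]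
        apply Real.one_le_exp
        linarith
      calc w S = w S * 1 := (mul_one _).symm
        _ ≤ w S * (Real.exp (-B) * Real.exp (δ * ∑ p ∈ S, Real.log (p : ℝ))) :=
            mul_le_mul_of_nonneg_left e5 (hw0 S)
        _ = _ := by rw [hw]; ring
    · intro S _ _
      refine mul_nonneg (Real.exp_pos _).le (Finset.prod_nonneg fun p _ => ?_)
      exact mul_nonneg (div_nonneg (hg0 p) (Nat.cast_nonneg p)) (Real.exp_pos _).le
  -- the product with `p ^ δ`
  have hprod : ∏ p ∈ P, (1 + g p / p * Real.exp (δ * Real.log p)) ≤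
      (∏ p ∈ P, (1 + g p / p)) * Real.exp (4 + 4 * C1 / Real.log 2) := by
    have e1 : ∀ p ∈ P, 1 + g p / p * Real.exp (δ * Real.log p) ≤
        (1 + g p / p) * Real.exp (4 * δ * (Real.log p / p)) := by
      intro p hp
      have hpp := hPprime p hp
      have hp0 : (0 : ℝ) < p := by exact_mod_cast hpp.pos
      have hp1 : (1 : ℝ) ≤ p := by exact_mod_cast hpp.one_le
      have hpx : (p : ℝ) ≤ x := by exact_mod_cast Nat.le_of_mem_primesLE hp
      have hlp0 : 0 ≤ Real.log p := Real.log_nonneg hp1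
      have hlpx : Real.log p ≤ Real.log x := Real.log_le_log hp0 hpx
      set u := g p / p with hu
      have hu0 : 0 ≤ u := div_nonneg (hg0 p) hp0.le
      have hu2 : u ≤ 2 / p := div_le_div_of_nonneg_right (hg p hpp) hp0.le
      set t := δ * Real.log p with ht
      have ht0 : 0 ≤ t := by positivity
      have ht1 : t ≤ 1 := by
        rw [ht, hδ, one_div, ← div_eq_inv_mul, div_le_one hlogx0]
        exact hlpx
      have he := Real.abs_exp_sub_one_sub_id_le (x := t) (by rw [abs_of_nonneg ht0]; exact ht1)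
      rw [abs_le] at he
      have he1 : Real.exp t - 1 ≤ 2 * t := by nlinarith [he.2]
      have he0 : 0 ≤ Real.exp t - 1 := by linarith [Real.one_le_exp ht0]
      have e2 : 1 + u * Real.exp t ≤ (1 + u) * (1 + u * (Real.exp t - 1)) := by
        nlinarith [mul_nonneg (mul_nonneg hu0 hu0) he0]
      have e3 : u * (Real.exp t - 1) ≤ 4 * δ * (Real.log p / p) := by
        calc u * (Real.exp t - 1) ≤ (2 / p) * (2 * t) := mul_le_mul hu2 he1 he0 (by positivity)
          _ = _ := by rw [ht]; ring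
      have e4 : 1 + u * (Real.exp t - 1) ≤ Real.exp (4 * δ * (Real.log p / p)) := by
        have := Real.add_one_le_exp (u * (Real.exp t - 1))
        have h := Real.exp_le_exp.2 e3
        linarith
      calc 1 + u * Real.exp t ≤ (1 + u) * (1 + u * (Real.exp t - 1)) := e2
        _ ≤ _ := mul_le_mul_of_nonneg_left e4 (by linarith)
    refine (Finset.prod_le_prod (fun p _ => ?_) e1).trans ?_
    · have : 0 ≤ g p / p := div_nonneg (hg0 p) (Nat.cast_nonneg p)
      positivity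
    · rw [Finset.prod_mul_distrib, ← Real.exp_sum, ← Finset.mul_sum]
      apply mul_le_mul_of_nonneg_left
      · rw [Real.exp_le_exp]
        have e5 := hM x (by omega)
        calc 4 * δ * ∑ p ∈ P, Real.log p / p ≤ 4 * δ * (Real.log x + C1) :=
              mul_le_mul_of_nonneg_left e5 (by positivity)
          _ = 4 + 4 * C1 / Real.log x := by rw [hδ]; field_simp
          _ ≤ 4 + 4 * C1 / Real.log 2 := by
              have : 4 * C1 / Real.log x ≤ 4 * C1 / Real.log 2 :=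
                div_le_div_of_nonneg_left (by positivity) hlog2 hlogx
              linarith
      · refine Finset.prod_nonneg fun p _ => ?_
        have : 0 ≤ g p / p := div_nonneg (hg0 p) (Nat.cast_nonneg p)
        linarith
  have hprod0 : 0 ≤ ∏ p ∈ P, (1 + g p / p) := by
    refine Finset.prod_nonneg fun p _ => ?_
    have : 0 ≤ g p / p := div_nonneg (hg0 p) (Nat.cast_nonneg p)
    linarith
  have hhalf : Real.exp (-B) * Real.exp (4 + 4 * C1 / Real.log 2) ≤ 1 / 2 := by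
    rw [← Real.exp_add]
    have e1 : -(B : ℝ) + (4 + 4 * C1 / Real.log 2) ≤ -1 := by linarith
    refine (Real.exp_le_exp.2 e1).trans ?_
    rw [Real.exp_neg, one_div]
    apply inv_anti₀ (by norm_num)
    have := Real.add_one_le_exp (1 : ℝ)
    linarith
  have htail : ∑ S ∈ P.powerset.filter (fun S => ¬ (∏ p ∈ S, p ≤ x ^ B)), w S ≤
      1 / 2 * ∏ p ∈ P, (1 + g p / p) := by
    calc _ ≤ _ := hr
      _ ≤ Real.exp (-B) * ((∏ p ∈ P, (1 + g p / p)) * Real.exp (4 + 4 * C1 / Real.log 2)) :=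
          mul_le_mul_of_nonneg_left hprod (Real.exp_pos _).le
      _ = (Real.exp (-B) * Real.exp (4 + 4 * C1 / Real.log 2)) * ∏ p ∈ P, (1 + g p / p) := by
          ring
      _ ≤ _ := mul_le_mul_of_nonneg_right hhalf hprod0
  have hhead : ∑ S ∈ P.powerset.filter (fun S => ∏ p ∈ S, p ≤ x ^ B), w S ≤
      ∑ n ∈ Icc 1 (x ^ B), g n / n := by
    have e1 : ∀ S ∈ P.powerset.filter (fun S => ∏ p ∈ S, p ≤ x ^ B),
        w S = g (∏ p ∈ S, p) / ((∏ p ∈ S, p : ℕ) : ℝ) := by
      intro S hS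
      rw [Finset.mem_filter, Finset.mem_powerset] at hS
      rw [g_prod g h1 hm S (fun p hp => hPprime p (hS.1 hp)), Nat.cast_prod,
        ← Finset.prod_div_distrib]
    rw [Finset.sum_congr rfl e1]
    have e2 : Set.InjOn (fun S : Finset ℕ => ∏ p ∈ S, p)
        (P.powerset.filter (fun S => ∏ p ∈ S, p ≤ x ^ B) : Finset (Finset ℕ)) := by
      intro S hS T hT hST
      rw [Finset.mem_coe, Finset.mem_filter, Finset.mem_powerset] at hS hT
      have h2 := Nat.primeFactors_prod (fun p hp => hPprime p (hS.1 hp))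
      have h3 := Nat.primeFactors_prod (fun p hp => hPprime p (hT.1 hp))
      have hST' : ∏ p ∈ S, p = ∏ p ∈ T, p := hST
      rw [← h2, ← h3, hST']
    rw [← Finset.sum_image (f := fun n : ℕ => g n / (n : ℝ)) e2]
    refine Finset.sum_le_sum_of_subset_of_nonneg ?_ (fun n _ _ =>
      div_nonneg (hg0 n) (Nat.cast_nonneg n))
    intro n hn
    obtain ⟨S, hS, rfl⟩ := Finset.mem_image.1 hn
    rw [Finset.mem_filter, Finset.mem_powerset] at hS
    rw [Finset.mem_Icc]
    exact ⟨Finset.prod_pos fun p hp => (hPprime p (hS.1 hp)).pos, hS.2⟩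
  have hsplit := Finset.sum_filter_add_sum_filter_not P.powerset
    (fun S => ∏ p ∈ S, p ≤ x ^ B) w
  rw [← hexp] at hsplit
  linarith

end Rank

theorem rank_proof (_ : MERT_Stmt) : RANK_Stmt := by
  obtain ⟨C1, hC1, hM⟩ := Pool.Agent.Lib.MP_02fec8_nt.Mert.mertens1
  refine ⟨⌈4 + 4 * C1 / Real.log 2 + 1⌉₊ + 1, by omega, 2 * Real.exp 2,
    by positivity, ?_⟩
  intro g hg0 h1 hm hg x hx
  have hM' : ∀ n : ℕ, 1 ≤ n → ∑ p ∈ Nat.primesLE n, Real.log p / p ≤ Real.log n + C1 := by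
    intro n hn
    have h := hM n hn
    rw [abs_le] at h
    have h2 : ∑ p ∈ Nat.primesLE n, Real.log p / p =
      Pool.Agent.Lib.MP_02fec8_nt.Mert.M n := rfl
    rw [h2]
    linarith [h.2]
  have hB : 4 + 4 * C1 / Real.log 2 + 1 ≤
      ((⌈4 + 4 * C1 / Real.log 2 + 1⌉₊ + 1 : ℕ) : ℝ) := by
    have := Nat.le_ceil (4 + 4 * C1 / Real.log 2 + 1)
    push_cast
    linarith
  have k1 := Rank.exp_le g hg0 hg x (by omega)
  have k2 := Rank.main hC1 hM' _ hB g hg0 h1 hm hg x hx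
  calc _ ≤ _ := k1
    _ ≤ Real.exp 2 * (2 * ∑ n ∈ Icc 1 (x ^ (⌈4 + 4 * C1 / Real.log 2 + 1⌉₊ + 1)), g n / n) :=
        mul_le_mul_of_nonneg_left k2 (Real.exp_pos _).le
    _ = _ := by ring

end Pool.Per
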