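import Pool.Agent.Lib.MP_45b5fd_nt.PER.Iface2
import Pool.Agent.Lib.MP_ba0fa5_ag.H48.NSIEVE

/-!
# PER, second stage, row SW: Selberg weights in dimension one
-/

set_option autoImplicit false

open Finset

namespace Pool.Per.SW

open Pool.Agent.Lib.MP_ba0fa5_ag.H48

/-- the odd primes up to `z` -/
noncomputable def PP (z : ℕ) : Finset ℕ := (Icc 1 z).filter (fun l => l.Prime ∧ Odd l)

/-- the odd squarefree numbers up to `z` -/
noncomputable def KK (z : ℕ) : Finset ℕ := (Icc 1 z).filter (fun k => Odd k ∧ Squarefree k)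

noncomputable def nuS : ℕ → ℝ := fun l => 1 / (l : ℝ)

noncomputable def gS : ℕ → ℝ := fun l => 1 / ((l : ℝ) - 1)

theorem mem_PP {z l : ℕ} : l ∈ PP z ↔ (1 ≤ l ∧ l ≤ z) ∧ l.Prime ∧ Odd l := by
  rw [PP, mem_filter, mem_Icc]

theorem mem_KK {z k : ℕ} : k ∈ KK z ↔ (1 ≤ k ∧ k ≤ z) ∧ Odd k ∧ Squarefree k := by
  rw [KK, mem_filter, mem_Icc]

theorem mem_fam {z : ℕ} {A : Finset ℕ} : A ∈ fam (PP z) z ↔ A ⊆ PP z ∧ ∏ l ∈ A, l ≤ z := by
  rw [fam, mem_filter, mem_powerset]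

theorem PP_prime {z l : ℕ} (h : l ∈ PP z) : l.Prime := (mem_PP.1 h).2.1

theorem pf_mem {z k : ℕ} (hk : k ∈ KK z) : k.primeFactors ∈ fam (PP z) z := by
  obtain ⟨⟨h1, h2⟩, h3, h4⟩ := mem_KK.1 hk
  rw [mem_fam, Nat.prod_primeFactors_of_squarefree h4]
  refine ⟨fun l hl => ?_, h2⟩
  have hp := Nat.prime_of_mem_primeFactors hl
  have hd := Nat.dvd_of_mem_primeFactors hl
  exact mem_PP.2 ⟨⟨hp.one_le, (Nat.le_of_dvd h1 hd).trans h2⟩, hp, Odd.of_dvd_nat h3 hd⟩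

theorem prod_mem {z : ℕ} {A : Finset ℕ} (hA : A ∈ fam (PP z) z) : ∏ l ∈ A, l ∈ KK z := by
  obtain ⟨h1, h2⟩ := mem_fam.1 hA
  have hpr : ∀ l ∈ A, l.Prime := fun l hl => PP_prime (h1 hl)
  refine mem_KK.2 ⟨⟨Finset.prod_pos fun l hl => (hpr l hl).pos, h2⟩, ?_, ?_⟩
  · exact Finset.prod_induction _ Odd (fun a b ha hb => ha.mul hb) odd_one
      fun l hl => (mem_PP.1 (h1 hl)).2.2
  · refine Finset.squarefree_prod_of_pairwise_isCoprime ?_ fun l hl => (hpr l hl).squarefree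
    intro l hl k hk hne
    exact Nat.coprime_iff_isRelPrime.1 ((Nat.coprime_primes (hpr l hl) (hpr k hk)).2 hne)

theorem pf_prod {z : ℕ} {A : Finset ℕ} (hA : A ∈ fam (PP z) z) :
    (∏ l ∈ A, l).primeFactors = A :=
  Nat.primeFactors_prod fun _ hl => PP_prime ((mem_fam.1 hA).1 hl)

theorem sum_KK (z : ℕ) (φ : Finset ℕ → ℝ) :
    ∑ k ∈ KK z, φ k.primeFactors = ∑ A ∈ fam (PP z) z, φ A := by
  refine Finset.sum_bij' (fun k _ => k.primeFactors) (fun A _ => ∏ l ∈ A, l)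
    (fun k hk => pf_mem hk) (fun A hA => prod_mem hA) ?_ (fun A hA => pf_prod hA)
    (fun k _ => rfl)
  intro k hk
  exact Nat.prod_primeFactors_of_squarefree (mem_KK.1 hk).2.2

theorem hdown (z : ℕ) : ∀ A ∈ fam (PP z) z, ∀ B ⊆ A, B ∈ fam (PP z) z := by
  intro A hA B hBA
  rw [mem_fam] at hA ⊢
  refine ⟨hBA.trans hA.1, le_trans ?_ hA.2⟩
  exact Finset.prod_le_prod_of_subset_of_one_le' hBA fun l hl _ => (PP_prime (hA.1 hl)).one_le

theorem three_le {z l : ℕ} (h : l ∈ PP z) : (3 : ℝ) ≤ l := by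
  obtain ⟨-, h1, h2⟩ := mem_PP.1 h
  have h3 := h1.two_le
  have h4 : l ≠ 2 := by
    rintro rfl
    exact absurd h2 (by decide)
  have : 3 ≤ l := by omega
  exact_mod_cast this

theorem hnu (z : ℕ) : ∀ A ∈ fam (PP z) z, ∀ l ∈ A, 0 < nuS l := by
  intro A hA l hl
  have := three_le ((mem_fam.1 hA).1 hl)
  exact div_pos one_pos (by linarith)

theorem hgS (z : ℕ) : ∀ A ∈ fam (PP z) z, ∀ l ∈ A, 0 < gS l := by
  intro A hA l hl
  have := three_le ((mem_fam.1 hA).1 hl)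
  exact div_pos one_pos (by linarith)

theorem hgnu (z : ℕ) : ∀ A ∈ fam (PP z) z, ∀ l ∈ A, 1 + (gS l)⁻¹ = (nuS l)⁻¹ := by
  intro A _ l _
  rw [gS, nuS, one_div, one_div, inv_inv, inv_inv]
  ring

theorem empty_mem {z : ℕ} (hz : 1 ≤ z) : ∅ ∈ fam (PP z) z := by
  rw [mem_fam]
  exact ⟨Finset.empty_subset _, by simpa using hz⟩

theorem J_pos {z : ℕ} (hz : 1 ≤ z) : 0 < J (fam (PP z) z) gS :=
  Finset.sum_pos (fun C hC => Finset.prod_pos fun l hl => hgS z C hC l hl) ⟨∅, empty_mem hz⟩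

theorem inv_le_J (z : ℕ) : ∑ k ∈ KK z, (1 : ℝ) / k ≤ J (fam (PP z) z) gS := by
  have h1 : ∑ k ∈ KK z, (1 : ℝ) / k = ∑ A ∈ fam (PP z) z, ∏ l ∈ A, nuS l := by
    rw [← sum_KK z (fun A => ∏ l ∈ A, nuS l)]
    refine Finset.sum_congr rfl fun k hk => ?_
    have h2 : ∏ l ∈ k.primeFactors, nuS l = 1 / ∏ l ∈ k.primeFactors, (l : ℝ) := by
      unfold nuS
      rw [Finset.prod_div_distrib, Finset.prod_const_one]
    rw [h2, ← Nat.cast_prod, Nat.prod_primeFactors_of_squarefree (mem_KK.1 hk).2.2]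
  rw [h1]
  refine Finset.sum_le_sum fun A hA => Finset.prod_le_prod (fun l hl => (hnu z A hA l hl).le)
    fun l hl => ?_
  have := three_le ((mem_fam.1 hA).1 hl)
  rw [nuS, gS]
  exact one_div_le_one_div_of_le (by linarith) (by linarith)

/-- the odd numbers up to `z` -/
theorem odd_sum (z : ℕ) (hz : 2 ≤ z) :
    Real.log z / 4 ≤ ∑ n ∈ (Icc 1 z).filter (fun n => Odd n), (1 : ℝ) / n := by
  set t := (z + 1) / 2 with ht
  have h1 : ∑ j ∈ range t, (1 : ℝ) / (2 * j + 1 : ℕ) ≤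
      ∑ n ∈ (Icc 1 z).filter (fun n => Odd n), (1 : ℝ) / n := by
    rw [← Finset.sum_image (s := range t) (g := fun j : ℕ => 2 * j + 1)
      (f := fun n : ℕ => (1 : ℝ) / n) (by
        intro a _ b _ h
        have : 2 * a + 1 = 2 * b + 1 := h
        omega)]
    refine Finset.sum_le_sum_of_subset_of_nonneg ?_ fun n _ _ => by positivity
    intro n hn
    obtain ⟨j, hj, rfl⟩ := Finset.mem_image.1 hn
    rw [mem_range] at hj
    rw [mem_filter, mem_Icc]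
    exact ⟨⟨by omega, by omega⟩, ⟨j, rfl⟩⟩
  have h2 : ((harmonic t : ℚ) : ℝ) / 2 ≤ ∑ j ∈ range t, (1 : ℝ) / (2 * j + 1 : ℕ) := by
    rw [harmonic]
    push_cast
    rw [Finset.sum_div]
    refine Finset.sum_le_sum fun j _ => ?_
    rw [inv_eq_one_div, div_div]
    have : (0 : ℝ) ≤ j := Nat.cast_nonneg j
    exact one_div_le_one_div_of_le (by linarith) (by linarith)
  have h3 := log_add_one_le_harmonic t
  have hz' : (2 : ℝ) ≤ z := by exact_mod_cast hz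
  have h4 : (z : ℝ) / 2 + 1 ≤ ((t + 1 : ℕ) : ℝ) := by
    have : z ≤ 2 * t := by omega
    have h5 : (z : ℝ) ≤ 2 * t := by exact_mod_cast this
    push_cast
    linarith
  have h5 : Real.log z ≤ 2 * Real.log ((t + 1 : ℕ) : ℝ) := by
    have h6 : (z : ℝ) ≤ (((t + 1 : ℕ) : ℝ)) ^ 2 := by nlinarith
    have h7 := Real.log_le_log (by linarith) h6
    rw [Real.log_pow] at h7
    exact_mod_cast h7
  push_cast at h3 h5
  linarith

theorem KK_sum (z : ℕ) (hz : 2 ≤ z) : Real.log z / 8 ≤ ∑ k ∈ KK z, (1 : ℝ) / k := by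
  have hex : ∀ n : ℕ, ∃ q : ℕ × ℕ, q.2 ^ 2 * q.1 = n ∧ Squarefree q.1 := by
    intro n
    obtain ⟨a, b, h1, h2⟩ := Nat.sq_mul_squarefree n
    exact ⟨(a, b), h1, h2⟩
  choose f hf hsq using hex
  have h1 : ∑ n ∈ (Icc 1 z).filter (fun n => Odd n), (1 : ℝ) / n ≤
      ∑ q ∈ KK z ×ˢ Ioo 0 (z + 1), (1 : ℝ) / q.1 * ((q.2 : ℝ) ^ 2)⁻¹ := by
    have h2 : ∑ n ∈ (Icc 1 z).filter (fun n => Odd n), (1 : ℝ) / n =
        ∑ n ∈ (Icc 1 z).filter (fun n => Odd n),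
          (fun q : ℕ × ℕ => (1 : ℝ) / q.1 * ((q.2 : ℝ) ^ 2)⁻¹) (f n) := by
      refine Finset.sum_congr rfl fun n _ => ?_
      have e : (n : ℝ) = ((f n).2 : ℝ) ^ 2 * ((f n).1 : ℝ) := by exact_mod_cast (hf n).symm
      show (1 : ℝ) / n = 1 / (f n).1 * (((f n).2 : ℝ) ^ 2)⁻¹
      rw [e, one_div, mul_inv, one_div, mul_comm]
    rw [h2, ← Finset.sum_image (g := f)
      (f := fun q : ℕ × ℕ => (1 : ℝ) / q.1 * ((q.2 : ℝ) ^ 2)⁻¹) (by
        intro a _ b _ h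
        rw [← hf a, ← hf b, h])]
    refine Finset.sum_le_sum_of_subset_of_nonneg ?_ fun q _ _ => by positivity
    intro q hq
    obtain ⟨n, hn, rfl⟩ := Finset.mem_image.1 hq
    obtain ⟨hn1, hn2⟩ := mem_filter.1 hn
    rw [mem_Icc] at hn1
    have hd1 : (f n).1 ∣ n := ⟨(f n).2 ^ 2, by rw [mul_comm]; exact (hf n).symm⟩
    have hd2 : (f n).2 ∣ n := ⟨(f n).2 * (f n).1, by rw [← mul_assoc, ← sq]; exact (hf n).symm⟩
    have hp1 := Nat.pos_of_dvd_of_pos hd1 (by omega)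
    have hp2 := Nat.pos_of_dvd_of_pos hd2 (by omega)
    have hl1 := Nat.le_of_dvd (by omega) hd1
    have hl2 := Nat.le_of_dvd (by omega) hd2
    rw [mem_product, mem_KK, mem_Ioo]
    exact ⟨⟨⟨hp1, by omega⟩, Odd.of_dvd_nat hn2 hd1, hsq n⟩, hp2, by omega⟩
  have h3 := sum_Ioo_inv_sq_le (α := ℝ) 0 (z + 1)
  have h4 : ∑ q ∈ KK z ×ˢ Ioo 0 (z + 1), (1 : ℝ) / q.1 * ((q.2 : ℝ) ^ 2)⁻¹ =
      (∑ k ∈ KK z, (1 : ℝ) / k) * ∑ m ∈ Ioo 0 (z + 1), ((m : ℝ) ^ 2)⁻¹ := by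
    rw [Finset.sum_product, Finset.sum_mul_sum]
  have h5 : 0 ≤ ∑ k ∈ KK z, (1 : ℝ) / k := Finset.sum_nonneg fun k _ => by positivity
  have h6 := odd_sum z hz
  have h7 : (∑ k ∈ KK z, (1 : ℝ) / k) * ∑ m ∈ Ioo 0 (z + 1), ((m : ℝ) ^ 2)⁻¹ ≤
      (∑ k ∈ KK z, (1 : ℝ) / k) * 2 := by
    refine mul_le_mul_of_nonneg_left (h3.trans ?_) h5
    norm_num
  linarith

open Classical in
/-- the weights -/
noncomputable def wt (z : ℕ) (d : ℕ) : ℝ :=
  if d ∈ KK z then lam (fam (PP z) z) nuS gS d.primeFactors else 0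

theorem lcm_inv {z a b : ℕ} (ha : a ∈ KK z) (hb : b ∈ KK z) :
    (1 : ℝ) / (Nat.lcm a b : ℝ) = ∏ l ∈ a.primeFactors ∪ b.primeFactors, nuS l := by
  obtain ⟨⟨ha0, -⟩, -, ha1⟩ := mem_KK.1 ha
  obtain ⟨⟨hb0, -⟩, -, hb1⟩ := mem_KK.1 hb
  have h1 := Finset.prod_union_inter (s₁ := a.primeFactors) (s₂ := b.primeFactors)
    (f := fun l : ℕ => l)
  rw [Nat.prod_primeFactors_of_squarefree ha1, Nat.prod_primeFactors_of_squarefree hb1] at h1
  have h2 : ∏ l ∈ a.primeFactors ∩ b.primeFactors, l = Nat.gcd a b := by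
    rw [← Nat.primeFactors_gcd (by omega) (by omega)]
    exact Nat.prod_primeFactors_of_squarefree (ha1.squarefree_of_dvd (Nat.gcd_dvd_left a b))
  have h3 := Nat.gcd_mul_lcm a b
  have h4 : 0 < Nat.gcd a b := Nat.gcd_pos_of_pos_left _ (by omega)
  have h5 : ∏ l ∈ a.primeFactors ∪ b.primeFactors, l = Nat.lcm a b := by
    rw [h2, ← h3, mul_comm] at h1
    exact Nat.eq_of_mul_eq_mul_left h4 h1
  unfold nuS
  rw [Finset.prod_div_distrib, Finset.prod_const_one, ← Nat.cast_prod, h5]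

end Pool.Per.SW

namespace Pool.Per

open Pool.Agent.Lib.MP_ba0fa5_ag.H48 SW

theorem sw_proof : SW_Stmt := by
  classical
  refine ⟨8, by norm_num, fun z hz => ⟨wt z, ?_, ?_, ?_, ?_⟩⟩
  · have h1 : 1 ∈ KK z := mem_KK.2 ⟨⟨le_refl 1, by omega⟩, odd_one, squarefree_one⟩
    rw [wt, if_pos h1, Nat.primeFactors_one]
    exact lam_empty (J_pos (by omega)).ne'
  · intro d
    rw [wt]
    split_ifs with h
    · exact abs_lam_le (hdown z) (hgS z) (hnu z) (hgnu z) (J_pos (by omega)) (pf_mem h)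
    · simp
  · intro d hd
    have h : d ∈ KK z := by
      by_contra h
      exact hd (by rw [wt, if_neg h])
    exact ⟨(mem_KK.1 h).2.1, (mem_KK.1 h).1.2⟩
  · have hsub : KK z ⊆ Icc 1 z := Finset.filter_subset _ _
    have hJ := J_pos (z := z) (by omega)
    have h1 : ∑ a ∈ Icc 1 z, ∑ b ∈ Icc 1 z, wt z a * wt z b / (Nat.lcm a b : ℝ) =
        ∑ a ∈ KK z, ∑ b ∈ KK z, wt z a * wt z b / (Nat.lcm a b : ℝ) := by
      refine (Finset.sum_subset hsub fun a _ ha => ?_).symm.trans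
        (Finset.sum_congr rfl fun a _ => (Finset.sum_subset hsub fun b _ hb => ?_).symm)
      · refine Finset.sum_eq_zero fun b _ => ?_
        rw [wt, if_neg ha, zero_mul, zero_div]
      · have e : wt z b = 0 := by rw [wt, if_neg hb]
        rw [e, mul_zero, zero_div]
    have h2 : ∑ a ∈ KK z, ∑ b ∈ KK z, wt z a * wt z b / (Nat.lcm a b : ℝ) =
        ∑ a ∈ KK z, ∑ b ∈ KK z, lam (fam (PP z) z) nuS gS a.primeFactors *
          lam (fam (PP z) z) nuS gS b.primeFactors *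
          ∏ l ∈ a.primeFactors ∪ b.primeFactors, nuS l := by
      refine Finset.sum_congr rfl fun a ha => Finset.sum_congr rfl fun b hb => ?_
      rw [div_eq_mul_one_div, lcm_inv ha hb, wt, if_pos ha, wt, if_pos hb]
    have h3 : ∑ a ∈ KK z, ∑ b ∈ KK z, lam (fam (PP z) z) nuS gS a.primeFactors *
          lam (fam (PP z) z) nuS gS b.primeFactors *
          ∏ l ∈ a.primeFactors ∪ b.primeFactors, nuS l =
        ∑ A ∈ fam (PP z) z, ∑ B ∈ fam (PP z) z, lam (fam (PP z) z) nuS gS A *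
          lam (fam (PP z) z) nuS gS B * ∏ l ∈ A ∪ B, nuS l := by
      rw [← sum_KK z (fun A => ∑ B ∈ fam (PP z) z, lam (fam (PP z) z) nuS gS A *
          lam (fam (PP z) z) nuS gS B * ∏ l ∈ A ∪ B, nuS l)]
      refine Finset.sum_congr rfl fun a _ => ?_
      exact sum_KK z (fun B => lam (fam (PP z) z) nuS gS a.primeFactors *
          lam (fam (PP z) z) nuS gS B * ∏ l ∈ a.primeFactors ∪ B, nuS l)
    have h4 := main_term (hdown z) (hgS z) (hnu z) (hgnu z) hJ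
    rw [h1, h2, h3, h4]
    have h5 := inv_le_J z
    have h6 := KK_sum z hz
    have hlog : 0 < Real.log z := Real.log_pos (by exact_mod_cast (by omega : 1 < z))
    rw [div_le_div_iff₀ hJ hlog]
    linarith

end Pool.Per
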