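import Pool.Agent.Lib.MP_45b5fd_nt.PER.All1
import Pool.Agent.Lib.MP_45b5fd_nt.PER.DEV3
import Pool.Agent.Lib.MP_45b5fd_nt.PER.CW
import Pool.Agent.Lib.MP_45b5fd_nt.PER.DW
import Pool.Agent.Lib.MP_45b5fd_nt.PER.HYP
import Pool.Agent.Lib.MP_45b5fd_nt.PER.KW
import Pool.Agent.Lib.MP_45b5fd_nt.PER.MW
import Pool.Agent.Lib.MP_45b5fd_nt.PER.ORTH
import Pool.Agent.Lib.MP_45b5fd_nt.PER.RANK
import Pool.Agent.Lib.MP_45b5fd_nt.PER.SW
import Pool.Agent.Lib.MP_45b5fd_nt.PER.TAIL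

/-!
# All rows together
-/

set_option autoImplicit false

namespace Pool.Per.All

theorem hyp : HYP_Stmt := hyp_proof orth_proof

theorem tail : TAIL_Stmt :=
  tail_proof hyp (rank_proof mert_proof) HR.hr_proof ep_proof gb_proof mert_proof

theorem mw : MW_Stmt := Mw.mw_proof (Dw.dw_proof sw_proof orth_proof) mert_proof

/-- few exceptional fields -/
theorem dev : ∃ C : ℝ, 0 < C ∧ ∀ X H : ℕ, 2 ≤ X → 1 ≤ H →
    (({m : ℕ | Squarefree m ∧ 1 < m ∧ m ≤ X ∧ ∃ k : ℕ, 0 < k ∧ 16 ≤ m * k ^ 2 ∧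
      ¬ ∃ p : ℕ, IsPer (m * k ^ 2) p ∧
        (2 : ℝ) ^ (m * k ^ 2).primeFactors.card * p ≤
          C * Real.sqrt ((m * k ^ 2 : ℕ) : ℝ) *
            max (H : ℝ) (Real.log (Real.log ((m * k ^ 2 : ℕ) : ℝ)))} : Set ℕ).ncard : ℝ) ≤
      Real.exp (C * (1 + Real.log X / H) * Real.log (2 + Real.log X / H)) :=
  Dev3.deviations cf gen rsum ana (kw_proof tail mert_proof) (cw_proof mw)

/-- all orders -/
theorem orders : ∃ C : ℝ, 0 < C ∧ ∀ m k : ℕ, Squarefree m → 1 < m → 0 < k →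
    16 ≤ m * k ^ 2 → ∃ p : ℕ, IsPer (m * k ^ 2) p ∧
      (2 : ℝ) ^ (m * k ^ 2).primeFactors.card * p ≤
        C * Real.sqrt ((m * k ^ 2 : ℕ) : ℝ) *
          max (Real.log m) (Real.log (Real.log ((m * k ^ 2 : ℕ) : ℝ))) :=
  Dev3.orders cf gen rsum ana (kw_proof tail mert_proof)

end Pool.Per.All
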