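import Pool.Agent.Lib.MP_45b5fd_nt.PER.Iface

/-!
# CF: the partial quotients of `√d` and the map `step`
-/

set_option autoImplicit false

open Finset

namespace Pool.Per.CF

variable {d : ℕ}

lemma red_step (H : RED_Stmt) (hd : ¬ IsSquare d) {x : ℕ × ℕ} (hx : Red d x) :
    Red d (step d x) := by
  have h1 := (H d hd).2 x hx
  obtain ⟨_, _, _, _, h2, _⟩ := h1
  have h3 := (H d hd).2 (fS d x) h2
  obtain ⟨_, _, _, _, _, _, h4, _⟩ := h3
  exact h4

lemma red_iter (H : RED_Stmt) (hd : ¬ IsSquare d) {x : ℕ × ℕ} (hx : Red d x) (i : ℕ) :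
    Red d ((step d)^[i] x) := by
  induction i with
  | zero => exact hx
  | succ i ih => rw [Function.iterate_succ_apply']; exact red_step H hd ih

lemma al_gt (H : RED_Stmt) (hd : ¬ IsSquare d) {x : ℕ × ℕ} (hx : Red d x) : 1 < al d x := by
  obtain ⟨_, _, _, _, _, _, _, _, h, _⟩ := (H d hd).2 x hx
  exact h

lemma al_eq (H : RED_Stmt) (hd : ¬ IsSquare d) {x : ℕ × ℕ} (hx : Red d x) :
    al d x = pq d x + 1 / al d (step d x) := by
  obtain ⟨_, _, _, _, _, _, _, _, _, _, _, h, _⟩ := (H d hd).2 x hx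
  exact h

lemma inv_mem (H : RED_Stmt) (hd : ¬ IsSquare d) {x : ℕ × ℕ} (hx : Red d x) :
    0 < 1 / al d (step d x) ∧ 1 / al d (step d x) < 1 := by
  have h := al_gt H hd (red_step H hd hx)
  constructor
  · positivity
  · rw [div_lt_one (by linarith)]; exact h

lemma floor_al (H : RED_Stmt) (hd : ¬ IsSquare d) {x : ℕ × ℕ} (hx : Red d x) :
    ⌊al d x⌋ = (pq d x : ℤ) := by
  rw [Int.floor_eq_iff]
  have h := al_eq H hd hx
  obtain ⟨h1, h2⟩ := inv_mem H hd hx
  constructor
  · rw [h]; push_cast; linarith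
  · rw [h]; push_cast; linarith

lemma fract_al (H : RED_Stmt) (hd : ¬ IsSquare d) {x : ℕ × ℕ} (hx : Red d x) :
    Int.fract (al d x) = 1 / al d (step d x) := by
  have h := al_eq H hd hx
  rw [Int.fract, floor_al H hd hx]
  push_cast
  linarith

lemma al_x0 (d : ℕ) : al d (x0 d) = Nat.sqrt d + Real.sqrt d := by
  simp [al, x0]

lemma pq_x0 (d : ℕ) : pq d (x0 d) = 2 * Nat.sqrt d := by
  simp [pq, x0]; ring

lemma fract_sqrt (H : RED_Stmt) (hd : ¬ IsSquare d) :
    Int.fract (Real.sqrt d) = 1 / al d (step d (x0 d)) := by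
  have h0 := (H d hd).1
  have h := fract_al H hd h0
  rw [← h, al_x0, add_comm]
  rw [Int.fract_add_natCast]

lemma stream_eq (H : RED_Stmt) (hd : ¬ IsSquare d) (i : ℕ) :
    GenContFract.IntFractPair.stream (Real.sqrt (d : ℝ)) (i + 1) =
      some (GenContFract.IntFractPair.of (al d ((step d)^[i + 1] (x0 d)))) := by
  have h0 := (H d hd).1
  induction i with
  | zero =>
    have h1 : GenContFract.IntFractPair.stream (Real.sqrt (d : ℝ)) 0 =
        some (GenContFract.IntFractPair.of (Real.sqrt (d : ℝ))) := rfl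
    have h2 : (GenContFract.IntFractPair.of (Real.sqrt (d : ℝ))).fr ≠ 0 := by
      change Int.fract (Real.sqrt d) ≠ 0
      rw [fract_sqrt H hd]
      exact (inv_mem H hd h0).1.ne'
    rw [GenContFract.IntFractPair.stream_succ_of_some h1 h2]
    congr 2
    change (Int.fract (Real.sqrt d))⁻¹ = _
    rw [fract_sqrt H hd, one_div, inv_inv]
    rfl
  | succ i ih =>
    have hx := red_iter H hd h0 (i + 1)
    have h2 : (GenContFract.IntFractPair.of (al d ((step d)^[i + 1] (x0 d)))).fr ≠ 0 := by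
      change Int.fract (al d ((step d)^[i + 1] (x0 d))) ≠ 0
      rw [fract_al H hd hx]
      exact (inv_mem H hd hx).1.ne'
    rw [GenContFract.IntFractPair.stream_succ_of_some ih h2]
    congr 2
    change (Int.fract (al d ((step d)^[i + 1] (x0 d))))⁻¹ = _
    rw [fract_al H hd hx, one_div, inv_inv, ← Function.iterate_succ_apply' (step d)]

lemma get_eq (H : RED_Stmt) (hd : ¬ IsSquare d) (i : ℕ) :
    (GenContFract.of (Real.sqrt (d : ℝ))).partDens.get? i =
      some (pq d ((step d)^[i + 1] (x0 d)) : ℝ) := by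
  have h1 := GenContFract.get?_of_eq_some_of_succ_get?_intFractPair_stream (stream_eq H hd i)
  have h2 := GenContFract.partDen_eq_s_b h1
  rw [h2]
  congr 1
  change ((⌊al d ((step d)^[i + 1] (x0 d))⌋ : ℤ) : ℝ) = _
  rw [floor_al H hd (red_iter H hd (H d hd).1 (i + 1))]
  push_cast
  rfl

theorem cf_proof : RED_Stmt → CF_Stmt := by
  intro H d hd n hn i
  rw [get_eq H hd, get_eq H hd]
  congr 3
  have : i + n + 1 = (i + 1) + n := by ring
  rw [this, Function.iterate_add_apply, hn]

end Pool.Per.CF
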