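import Pool.Agent.Lib.MP_45b5fd_nt.PER.Iface

set_option autoImplicit false

open Finset

namespace Pool.Per

namespace EPn

theorem key (f : ℕ → ℝ) (hf : SubM f) (N : ℕ) (S : Finset ℕ) (hS : ∀ p ∈ S, p.Prime) :
    ∑ n ∈ (Icc 1 N).filter (fun n => n.primeFactors ⊆ S), f n / n ≤
      ∏ p ∈ S, (1 + ∑ a ∈ Icc 1 (Nat.log p N), f (p ^ a) / (p : ℝ) ^ a) := by
  induction S using Finset.induction_on with
  | empty =>
    have hsub : (Icc 1 N).filter (fun n => n.primeFactors ⊆ ∅) ⊆ {1} := by
      intro n hn
      simp only [mem_filter, mem_Icc, Finset.subset_empty, Nat.primeFactors_eq_empty] at hn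
      simp only [mem_singleton]
      omega
    calc ∑ n ∈ (Icc 1 N).filter (fun n => n.primeFactors ⊆ ∅), f n / n
        ≤ ∑ n ∈ ({1} : Finset ℕ), f n / n :=
          Finset.sum_le_sum_of_subset_of_nonneg hsub
            (fun n _ _ => div_nonneg (hf.nonneg n) (Nat.cast_nonneg n))
      _ = f 1 := by simp
      _ ≤ 1 := hf.one
      _ = _ := by simp
  | insert p S hpS ih =>
    have hp : p.Prime := hS p (mem_insert_self p S)
    have hp0 : (0 : ℝ) < p := by exact_mod_cast hp.pos
    have ih' := ih (fun q hq => hS q (mem_insert_of_mem hq))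
    rw [Finset.prod_insert hpS]
    set A := (Icc 1 N).filter (fun n => n.primeFactors ⊆ S) with hA
    set A' := (Icc 1 N).filter (fun n => n.primeFactors ⊆ insert p S) with hA'
    set L := Nat.log p N with hL
    let g : ℕ → ℝ := fun a => if a = 0 then 1 else f (p ^ a) / (p : ℝ) ^ a
    have hg : ∀ a, 0 ≤ g a := by
      intro a
      simp only [g]
      split_ifs
      · exact zero_le_one
      · exact div_nonneg (hf.nonneg _) (pow_nonneg hp0.le _)
    have hgsum : ∑ a ∈ range (L + 1), g a =
        1 + ∑ a ∈ Icc 1 L, f (p ^ a) / (p : ℝ) ^ a := by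
      rw [Finset.sum_range_succ']
      have h1 : ∑ k ∈ range L, g (k + 1) = ∑ a ∈ Icc 1 L, f (p ^ a) / (p : ℝ) ^ a := by
        rw [show Icc 1 L = Ico 1 (L + 1) from by ext; simp [Finset.mem_Icc]]
        rw [Finset.sum_Ico_eq_sum_range]
        simp only [Nat.add_sub_cancel]
        refine Finset.sum_congr rfl (fun k _ => ?_)
        simp only [g, Nat.succ_ne_zero, if_false]
        rw [Nat.add_comm k 1]
      rw [h1]
      simp only [g, if_true]
      ring
    let G : ℕ × ℕ → ℝ := fun x => g x.1 * (f x.2 / x.2)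
    have hG : ∀ x, 0 ≤ G x := fun x =>
      mul_nonneg (hg _) (div_nonneg (hf.nonneg _) (Nat.cast_nonneg _))
    let φ : ℕ → ℕ × ℕ := fun n => (n.factorization p, n / p ^ n.factorization p)
    have hrec : ∀ n, p ^ n.factorization p * (n / p ^ n.factorization p) = n := fun n =>
      Nat.ordProj_mul_ordCompl_eq_self n p
    have hinj : Set.InjOn φ A' := by
      intro m _ n _ h
      simp only [φ, Prod.mk.injEq] at h
      rw [← hrec m, ← hrec n, h.2, h.1]
    have hmaps : ∀ n ∈ A', φ n ∈ range (L + 1) ×ˢ A := by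
      intro n hn
      simp only [hA', mem_filter, mem_Icc] at hn
      obtain ⟨⟨h1, h2⟩, h3⟩ := hn
      have hn0 : n ≠ 0 := by omega
      simp only [φ, mem_product, mem_range, hA, mem_filter, mem_Icc]
      refine ⟨?_, ⟨?_, ?_⟩, ?_⟩
      · have : n.factorization p ≤ Nat.log p n :=
          (Nat.le_log_iff_pow_le hp.one_lt hn0).mpr (Nat.ordProj_le p hn0)
        exact Nat.lt_succ_of_le (this.trans (Nat.log_mono_right h2))
      · exact Nat.ordCompl_pos p hn0
      · exact (Nat.div_le_self _ _).trans h2
      · intro q hq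
        have hqp := Nat.prime_of_mem_primeFactors hq
        have hqd := Nat.dvd_of_mem_primeFactors hq
        have hqn : q ∣ n := hqd.trans (Nat.ordCompl_dvd n p)
        have : q ∈ insert p S := h3 (Nat.mem_primeFactors.mpr ⟨hqp, hqn, hn0⟩)
        rcases mem_insert.mp this with rfl | h
        · exact absurd hqd (Nat.not_dvd_ordCompl hp hn0)
        · exact h
    have hle : ∀ n ∈ A', f n / n ≤ G (φ n) := by
      intro n hn
      simp only [hA', mem_filter, mem_Icc] at hn
      obtain ⟨⟨h1, h2⟩, h3⟩ := hn
      have hn0 : n ≠ 0 := by omega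
      simp only [G, φ, g]
      split_ifs with h0
      · rw [h0]; simp
      · set a := n.factorization p with ha
        set m := n / p ^ a with hm
        have hmpos : 0 < m := Nat.ordCompl_pos p hn0
        have hnm : n = p ^ a * m := (hrec n).symm
        have hcop : (p ^ a).Coprime m := (Nat.coprime_ordCompl hp hn0).pow_left a
        have hfm := hf.mul (p ^ a) m (pow_pos hp.pos a) hmpos hcop
        have hcast : (n : ℝ) = (p : ℝ) ^ a * m := by
          conv_lhs => rw [hnm]
          push_cast
          ring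
        have hm0 : (0 : ℝ) < m := by exact_mod_cast hmpos
        rw [div_mul_div_comm, ← hcast]
        have hn0' : (0 : ℝ) < n := by exact_mod_cast Nat.pos_of_ne_zero hn0
        apply div_le_div_of_nonneg_right _ hn0'.le
        conv_lhs => rw [hnm]
        exact hfm
    calc ∑ n ∈ A', f n / n ≤ ∑ n ∈ A', G (φ n) := Finset.sum_le_sum hle
      _ = ∑ x ∈ A'.image φ, G x := (Finset.sum_image hinj).symm
      _ ≤ ∑ x ∈ range (L + 1) ×ˢ A, G x := by
          apply Finset.sum_le_sum_of_subset_of_nonneg
          · intro x hx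
            obtain ⟨n, hn, rfl⟩ := mem_image.mp hx
            exact hmaps n hn
          · intro x _ _
            exact hG x
      _ = (∑ a ∈ range (L + 1), g a) * ∑ n ∈ A, f n / n := by
          rw [Finset.sum_mul_sum, Finset.sum_product]
      _ ≤ _ := by
          rw [hgsum]
          apply mul_le_mul_of_nonneg_left ih'
          rw [← hgsum]
          exact Finset.sum_nonneg (fun a _ => hg a)

end EPn

theorem ep_proof : EP_Stmt := by
  intro f hf N
  have h := EPn.key f hf N (Nat.primesLE N) (fun p hp => (Nat.mem_primesLE.mp hp).2)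
  refine le_trans (le_of_eq ?_) h
  refine Finset.sum_congr ?_ (fun _ _ => rfl)
  symm
  rw [Finset.filter_eq_self]
  intro n hn
  rw [mem_Icc] at hn
  intro q hq
  rw [Nat.mem_primesLE]
  exact ⟨(Nat.le_of_mem_primeFactors hq).trans hn.2, Nat.prime_of_mem_primeFactors hq⟩

end Pool.Per
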