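import Pool.Agent.Lib.MP_45b5fd_nt.PER.Iface

/-!
# PER, row GB: prime power sums of a function with `f (p ^ a) ≤ 2 p ^ (a / 2)`
-/

set_option autoImplicit false

open Finset

namespace Pool.Per

namespace GB

theorem geo {p : ℕ} (hp : 2 ≤ p) (L : ℕ) :
    ∑ a ∈ Icc 1 L, (p : ℝ) ^ (a / 2) ≤ 4 * (p : ℝ) ^ (L / 2) := by
  have hp2 : (2 : ℝ) ≤ p := by exact_mod_cast hp
  have hp1 : (1 : ℝ) ≤ p := by linarith
  have key : ∀ L : ℕ, (∑ a ∈ Icc 1 L, (p : ℝ) ^ (a / 2) ≤ 4 * (p : ℝ) ^ (L / 2)) ∧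
      (∑ a ∈ Icc 1 (L + 1), (p : ℝ) ^ (a / 2) ≤ 4 * (p : ℝ) ^ ((L + 1) / 2)) := by
    intro L
    induction L with
    | zero =>
      constructor
      · simp
      · simp
    | succ L ih =>
      refine ⟨ih.2, ?_⟩
      rw [Finset.sum_Icc_succ_top (by omega), Finset.sum_Icc_succ_top (by omega)]
      have e1 : (L + 1 + 1) / 2 = L / 2 + 1 := by omega
      have e2 : (p : ℝ) ^ ((L + 1) / 2) ≤ (p : ℝ) ^ (L / 2 + 1) :=
        pow_le_pow_right₀ hp1 (by omega)
      have e3 : 2 * (p : ℝ) ^ (L / 2) ≤ (p : ℝ) ^ (L / 2 + 1) := by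
        rw [pow_succ, mul_comm]
        exact mul_le_mul_of_nonneg_left hp2 (by positivity)
      rw [e1]
      linarith [ih.1]
  exact (key L).1

/-- the bound for one prime -/
theorem one (f : ℕ → ℝ) (hf0 : ∀ n, 0 ≤ f n)
    (hf : ∀ p a : ℕ, p.Prime → 1 ≤ a → f (p ^ a) ≤ 2 * (p : ℝ) ^ (a / 2))
    (N p : ℕ) (hp : p.Prime) :
    ∑ a ∈ Icc 1 (Nat.log p N), f (p ^ a) * Real.log ((p : ℝ) ^ a) ≤
      2 * Real.log p + if p ≤ Nat.sqrt N then
        24 * (Nat.sqrt N : ℝ) * ((Nat.log p (Nat.sqrt N) : ℝ) * Real.log p) else 0 := by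
  set s := Nat.sqrt N with hs
  set L := Nat.log p N with hL
  have hp2 : 2 ≤ p := hp.two_le
  have hp1 : (1 : ℝ) ≤ p := by exact_mod_cast hp.one_le
  have hlog : 0 ≤ Real.log p := Real.log_nonneg hp1
  have hterm : ∀ a ∈ Icc 1 L, f (p ^ a) * Real.log ((p : ℝ) ^ a) ≤
      2 * (p : ℝ) ^ (a / 2) * (a * Real.log p) := by
    intro a ha
    rw [Real.log_pow]
    exact mul_le_mul_of_nonneg_right (hf p a hp (Finset.mem_Icc.1 ha).1) (by positivity)
  by_cases hps : p ≤ s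
  · rw [if_pos hps]
    set l := Nat.log p s with hl
    have hN0 : N ≠ 0 := by
      rintro rfl
      rw [hs, Nat.sqrt_zero] at hps
      omega
    have hl1 : 1 ≤ l := Nat.log_pos hp2 hps
    have hLl : L ≤ 3 * l := by
      have h1 : s < p ^ (l + 1) := Nat.lt_pow_succ_log_self hp2 s
      have h2 : N < (s + 1) * (s + 1) := Nat.lt_succ_sqrt N
      have h3 : (s + 1) * (s + 1) ≤ p ^ (l + 1) * p ^ (l + 1) := Nat.mul_le_mul h1 h1
      have h4 : N < p ^ (2 * l + 2) := by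
        calc N < p ^ (l + 1) * p ^ (l + 1) := lt_of_lt_of_le h2 h3
          _ = p ^ (2 * l + 2) := by rw [← pow_add]; congr 1; ring
      have h5 : L < 2 * l + 2 := Nat.log_lt_of_lt_pow hN0 h4
      omega
    have hpow : (p : ℝ) ^ (L / 2) ≤ s := by
      have h1 : p ^ (L / 2) ≤ s := by
        rw [hs, Nat.le_sqrt, ← pow_add]
        calc p ^ (L / 2 + L / 2) ≤ p ^ L := Nat.pow_le_pow_right (by omega) (by omega)
          _ ≤ N := Nat.pow_log_le_self p hN0
      exact_mod_cast h1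
    have hLl' : (L : ℝ) ≤ 3 * l := by exact_mod_cast hLl
    have hs0 : (0 : ℝ) ≤ s := Nat.cast_nonneg s
    calc ∑ a ∈ Icc 1 L, f (p ^ a) * Real.log ((p : ℝ) ^ a)
        ≤ ∑ a ∈ Icc 1 L, 2 * (p : ℝ) ^ (a / 2) * (a * Real.log p) := Finset.sum_le_sum hterm
      _ ≤ ∑ a ∈ Icc 1 L, (p : ℝ) ^ (a / 2) * (2 * (L * Real.log p)) := by
          refine Finset.sum_le_sum fun a ha => ?_
          have h1 : (a : ℝ) ≤ L := by exact_mod_cast (Finset.mem_Icc.1 ha).2
          have h2 : (a : ℝ) * Real.log p ≤ L * Real.log p := mul_le_mul_of_nonneg_right h1 hlog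
          have h3 : (0 : ℝ) ≤ (p : ℝ) ^ (a / 2) := by positivity
          calc 2 * (p : ℝ) ^ (a / 2) * (a * Real.log p)
              = (p : ℝ) ^ (a / 2) * (2 * (a * Real.log p)) := by ring
            _ ≤ _ := mul_le_mul_of_nonneg_left (by linarith) h3
      _ = (∑ a ∈ Icc 1 L, (p : ℝ) ^ (a / 2)) * (2 * (L * Real.log p)) := by
          rw [Finset.sum_mul]
      _ ≤ (4 * (p : ℝ) ^ (L / 2)) * (2 * (L * Real.log p)) :=
          mul_le_mul_of_nonneg_right (geo hp2 L) (by positivity)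
      _ ≤ (4 * (s : ℝ)) * (2 * (3 * l * Real.log p)) := by
          apply mul_le_mul
          · linarith
          · have := mul_le_mul_of_nonneg_right hLl' hlog
            linarith
          · positivity
          · positivity
      _ = 24 * (s : ℝ) * ((l : ℝ) * Real.log p) := by ring
      _ ≤ 2 * Real.log p + 24 * (s : ℝ) * ((l : ℝ) * Real.log p) := by linarith
  · rw [if_neg hps, add_zero]
    have hL1 : L ≤ 1 := by
      by_contra hcon
      push Not at hcon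
      have hN0 : N ≠ 0 := by
        rintro rfl
        rw [hL, Nat.log_zero_right] at hcon
        omega
      apply hps
      rw [hs, Nat.le_sqrt]
      calc p * p = p ^ 2 := by ring
        _ ≤ p ^ L := Nat.pow_le_pow_right (by omega) hcon
        _ ≤ N := Nat.pow_log_le_self p hN0
    have hsub : Icc 1 L ⊆ Icc 1 1 := Finset.Icc_subset_Icc_right hL1
    calc ∑ a ∈ Icc 1 L, f (p ^ a) * Real.log ((p : ℝ) ^ a)
        ≤ ∑ a ∈ Icc 1 1, f (p ^ a) * Real.log ((p : ℝ) ^ a) := by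
          refine Finset.sum_le_sum_of_subset_of_nonneg hsub fun a _ _ => ?_
          refine mul_nonneg (hf0 _) (Real.log_nonneg (one_le_pow₀ hp1))
      _ = f (p ^ 1) * Real.log ((p : ℝ) ^ 1) := by simp
      _ ≤ 2 * (p : ℝ) ^ (1 / 2) * Real.log ((p : ℝ) ^ 1) := by
          rw [pow_one (p : ℝ)]
          exact mul_le_mul_of_nonneg_right (hf p 1 hp le_rfl) hlog
      _ = 2 * Real.log p := by norm_num

end GB

theorem gb_proof : GB_Stmt := by
  refine ⟨2 * Real.log 4 + 24 * (Real.log 4 + 4), ?_, ?_⟩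
  · have : 0 ≤ Real.log 4 := Real.log_nonneg (by norm_num)
    positivity
  intro f hf0 hf N
  set s := Nat.sqrt N with hs
  have hlog4 : 0 ≤ Real.log 4 := Real.log_nonneg (by norm_num)
  have hsN : s ≤ N := Nat.sqrt_le_self N
  have h1 : ∑ p ∈ Nat.primesLE N, ∑ a ∈ Icc 1 (Nat.log p N),
      f (p ^ a) * Real.log ((p : ℝ) ^ a) ≤
      ∑ p ∈ Nat.primesLE N, (2 * Real.log p + if p ≤ s then
        24 * (s : ℝ) * ((Nat.log p s : ℝ) * Real.log p) else 0) :=
    Finset.sum_le_sum fun p hp => GB.one f hf0 hf N p (Nat.prime_of_mem_primesLE hp)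
  have h2 : (Nat.primesLE N).filter (fun p => p ≤ s) = Nat.primesLE s := by
    ext p
    rw [Finset.mem_filter, Nat.mem_primesLE, Nat.mem_primesLE]
    constructor
    · rintro ⟨⟨_, h⟩, h'⟩; exact ⟨h', h⟩
    · rintro ⟨h', h⟩; exact ⟨⟨h'.trans hsN, h⟩, h'⟩
  rw [Finset.sum_add_distrib, ← Finset.sum_filter, h2, ← Finset.mul_sum, ← Finset.mul_sum,
    ← Chebyshev.theta_eq_sum_primesLE_log, ← Chebyshev.psi_eq_sum_mul_log_prime] at h1
  have h3 : Chebyshev.theta (N : ℝ) ≤ Real.log 4 * N :=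
    Chebyshev.theta_le_log4_mul_x (Nat.cast_nonneg N)
  have h4 : Chebyshev.psi (s : ℝ) ≤ (Real.log 4 + 4) * s :=
    Chebyshev.psi_le_const_mul_self (Nat.cast_nonneg s)
  have h5 : (s : ℝ) * s ≤ N := by exact_mod_cast Nat.sqrt_le N
  have hs0 : (0 : ℝ) ≤ s := Nat.cast_nonneg s
  calc _ ≤ _ := h1
    _ ≤ 2 * (Real.log 4 * N) + 24 * (s : ℝ) * ((Real.log 4 + 4) * s) := by
        apply add_le_add
        · linarith
        · exact mul_le_mul_of_nonneg_left h4 (by positivity)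
    _ = 2 * Real.log 4 * N + 24 * (Real.log 4 + 4) * ((s : ℝ) * s) := by ring
    _ ≤ 2 * Real.log 4 * N + 24 * (Real.log 4 + 4) * N := by
        apply add_le_add le_rfl
        exact mul_le_mul_of_nonneg_left h5 (by positivity)
    _ = _ := by ring

end Pool.Per
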