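import Pool.Agent.Lib.MP_45b5fd_nt.PER.Iface

/-!
# PER, row GEN (MP_45b5fd_nt)

The orbits of the continued fraction map on the reduced points: every orbit carries at least the
logarithm of the fundamental unit, and many orbits contain a fixed point of the first involution.
-/

set_option autoImplicit false

open Finset

namespace Pool.Per.Gen

/-! ## Abstract part -/

section Abs

variable {α : Type*} [Fintype α] [DecidableEq α]

omit [DecidableEq α] in
theorem minPer_pos (σ : Equiv.Perm α) (x : α) : 0 < Function.minimalPeriod σ x := by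
  refine Function.IsPeriodicPt.minimalPeriod_pos (orderOf_pos σ) ?_
  show (σ : α → α)^[orderOf σ] x = x
  rw [Equiv.Perm.iterate_eq_pow, pow_orderOf_eq_one]
  rfl

open Classical in
theorem card_fix_le (σ τ : Equiv.Perm α) (hc : τ * σ = σ⁻¹ * τ) (y : α) :
    (univ.filter (fun x => τ x = x ∧ σ.SameCycle y x)).card ≤ 2 := by
  by_cases h : ∃ x, τ x = x ∧ σ.SameCycle y x
  · obtain ⟨x, hx, hyx⟩ := h
    have hcp := minPer_pos σ x
    have hsub : univ.filter (fun x => τ x = x ∧ σ.SameCycle y x) ⊆
        {x, (σ ^ (Function.minimalPeriod σ x / 2)) x} := by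
      intro z hz
      rw [mem_filter] at hz
      obtain ⟨-, hz1, hz2⟩ := hz
      have hxz : σ.SameCycle x z := hyx.symm.trans hz2
      obtain ⟨n, hn⟩ := hxz.exists_nat_pow_eq
      obtain ⟨i, hi, hic⟩ : ∃ i, (σ ^ i) x = z ∧ i < Function.minimalPeriod σ x := by
        refine ⟨n % Function.minimalPeriod σ x, ?_, Nat.mod_lt _ hcp⟩
        rw [← Equiv.Perm.iterate_eq_pow, Function.iterate_mod_minimalPeriod_eq,
          Equiv.Perm.iterate_eq_pow, hn]
      have hsc : SemiconjBy τ (σ ^ i) (σ⁻¹ ^ i) := (show SemiconjBy τ σ σ⁻¹ from hc).pow_right i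
      have h1 : z = (σ⁻¹ ^ i) x := by
        have h2 : (τ * σ ^ i) x = (σ⁻¹ ^ i * τ) x := by rw [hsc.eq]
        rw [Equiv.Perm.mul_apply, Equiv.Perm.mul_apply, hi, hx, hz1] at h2
        exact h2
      have h3 : (σ ^ i) z = x := by
        rw [h1, inv_pow]
        exact Equiv.apply_symm_apply _ _
      have h4 : (σ ^ (i + i)) x = x := by
        rw [pow_add, Equiv.Perm.mul_apply, hi, h3]
      have h5 : Function.minimalPeriod σ x ∣ i + i := by
        refine Function.IsPeriodicPt.minimalPeriod_dvd ?_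
        show (σ : α → α)^[i + i] x = x
        rw [Equiv.Perm.iterate_eq_pow, h4]
      obtain ⟨k, hk⟩ := h5
      rw [mem_insert, mem_singleton]
      have hk2 : k < 2 := by
        by_contra hk2
        push Not at hk2
        have : Function.minimalPeriod σ x * 2 ≤ Function.minimalPeriod σ x * k :=
          Nat.mul_le_mul_left _ hk2
        omega
      interval_cases k
      · left
        have h6 : i = 0 := by omega
        rw [← hi, h6, pow_zero]
        rfl
      · right
        have h6 : Function.minimalPeriod σ x / 2 = i := by omega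
        rw [h6, hi]
    exact (card_le_card hsub).trans card_le_two
  · have h0 : univ.filter (fun x => τ x = x ∧ σ.SameCycle y x) = ∅ := by
      rw [filter_eq_empty_iff]
      intro x _ hx
      exact h ⟨x, hx⟩
    rw [h0, card_empty]
    norm_num

open Classical in
theorem sum_le (σ τ : Equiv.Perm α) (hc : τ * σ = σ⁻¹ * τ) (w : α → ℝ) (hw : ∀ x, 0 ≤ w x)
    (F : Finset α) (hF : ∀ x ∈ F, τ x = x) (L : ℝ)
    (hL : ∀ x, L ≤ ∑ i ∈ range (Function.minimalPeriod σ x), w ((σ ^ i) x)) :
    L * F.card ≤ 2 * ∑ x, w x := by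
  have h1 : ∀ x, L ≤ ∑ y ∈ univ.filter (fun y => σ.SameCycle y x), w y := by
    intro x
    refine (hL x).trans ?_
    have hinj : Set.InjOn (fun i : ℕ => (σ ^ i) x) (range (Function.minimalPeriod σ x)) := by
      intro i hi j hj hij
      rw [coe_range] at hi hj
      have h := Function.iterate_injOn_Iio_minimalPeriod (f := σ) (x := x) hi hj
      apply h
      show (σ : α → α)^[i] x = (σ : α → α)^[j] x
      rw [Equiv.Perm.iterate_eq_pow, Equiv.Perm.iterate_eq_pow]
      exact hij
    rw [← sum_image (f := w) hinj]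
    refine sum_le_sum_of_subset_of_nonneg ?_ (fun y _ _ => hw y)
    intro y hy
    rw [mem_image] at hy
    obtain ⟨i, -, rfl⟩ := hy
    rw [mem_filter]
    exact ⟨mem_univ _, (Equiv.Perm.SameCycle.symm ⟨(i : ℤ), by rw [zpow_natCast]⟩)⟩
  calc L * F.card = ∑ x ∈ F, L := by rw [sum_const, nsmul_eq_mul, mul_comm]
    _ ≤ ∑ x ∈ F, ∑ y ∈ univ.filter (fun y => σ.SameCycle y x), w y :=
        sum_le_sum (fun x _ => h1 x)
    _ = ∑ y, ∑ x ∈ F.filter (fun x => σ.SameCycle y x), w y := by
        simp_rw [sum_filter]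
        rw [sum_comm]
    _ ≤ ∑ y, 2 * w y := by
        refine sum_le_sum (fun y _ => ?_)
        rw [sum_const, nsmul_eq_mul]
        refine mul_le_mul_of_nonneg_right ?_ (hw y)
        have h2 : F.filter (fun x => σ.SameCycle y x) ⊆
            univ.filter (fun x => τ x = x ∧ σ.SameCycle y x) := by
          intro x hx
          rw [mem_filter] at hx ⊢
          exact ⟨mem_univ _, hF x hx.1, hx.2⟩
        exact_mod_cast (card_le_card h2).trans (card_fix_le σ τ hc y)
    _ = 2 * ∑ y, w y := by rw [mul_sum]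

end Abs

/-! ## The reduced points -/

theorem mem_Rset (d : ℕ) (x : ℕ × ℕ) : x ∈ Rset d ↔ Red d x := by
  classical
  unfold Rset
  simp only [mem_filter, mem_product, mem_range]
  constructor
  · exact fun h => h.2
  · intro h
    have h1 := h.le
    have h2 := h.le2
    exact ⟨⟨by omega, by omega⟩, h⟩

noncomputable instance fintypeRed (d : ℕ) : Fintype {x : ℕ × ℕ // Red d x} :=
  Fintype.subtype (Rset d) (mem_Rset d)

variable (hR : RED_Stmt) (d : ℕ) (hd : ¬ IsSquare d)

/-- the continued fraction map as a permutation of the reduced points -/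
def sig : Equiv.Perm {x : ℕ × ℕ // Red d x} where
  toFun x := ⟨step d x.1, by
    have h1 := ((hR d hd).2 x.1 x.2).2.2.2.2.1
    exact ((hR d hd).2 _ h1).2.2.2.2.2.2.1⟩
  invFun x := ⟨fS d (fG d x.1), by
    have h1 := ((hR d hd).2 x.1 x.2).2.2.2.2.2.2.1
    exact ((hR d hd).2 _ h1).2.2.2.2.1⟩
  left_inv x := Subtype.ext (by
    show fS d (fG d (fG d (fS d x.1))) = x.1
    have h1 := (hR d hd).2 x.1 x.2
    have h2 := (hR d hd).2 _ h1.2.2.2.2.1
    rw [h2.2.2.2.2.2.2.2.1, h1.2.2.2.2.2.1])
  right_inv x := Subtype.ext (by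
    show fG d (fS d (fS d (fG d x.1))) = x.1
    have h1 := (hR d hd).2 x.1 x.2
    have h2 := (hR d hd).2 _ h1.2.2.2.2.2.2.1
    rw [h2.2.2.2.2.2.1, h1.2.2.2.2.2.2.2.1])

/-- the first involution as a permutation of the reduced points -/
def tau : Equiv.Perm {x : ℕ × ℕ // Red d x} where
  toFun x := ⟨fS d x.1, ((hR d hd).2 x.1 x.2).2.2.2.2.1⟩
  invFun x := ⟨fS d x.1, ((hR d hd).2 x.1 x.2).2.2.2.2.1⟩
  left_inv x := Subtype.ext ((hR d hd).2 x.1 x.2).2.2.2.2.2.1
  right_inv x := Subtype.ext ((hR d hd).2 x.1 x.2).2.2.2.2.2.1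

theorem tau_sig : tau hR d hd * sig hR d hd = (sig hR d hd)⁻¹ * tau hR d hd := by
  ext x <;> rfl

theorem sig_pow (i : ℕ) (x : {x : ℕ × ℕ // Red d x}) :
    ((sig hR d hd ^ i) x).1 = (step d)^[i] x.1 := by
  induction i with
  | zero => rfl
  | succ i ih =>
    rw [pow_succ', Equiv.Perm.mul_apply, Function.iterate_succ_apply', ← ih]
    rfl

include hR hd in
theorem al_pos (x : ℕ × ℕ) (hx : Red d x) : 1 < al d x :=
  ((hR d hd).2 x hx).2.2.2.2.2.2.2.2.1

include hR hd in
theorem red_step (x : ℕ × ℕ) (hx : Red d x) : Red d (step d x) := (sig hR d hd ⟨x, hx⟩).2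

include hR hd in
theorem red_iter (x : ℕ × ℕ) (hx : Red d x) (i : ℕ) : Red d ((step d)^[i] x) := by
  rw [← sig_pow hR d hd i ⟨x, hx⟩]
  exact ((sig hR d hd ^ i) ⟨x, hx⟩).2

include hR hd in
theorem two_lt (x : ℕ × ℕ) (hx : Red d x) : 2 < al d x * al d (step d x) := by
  obtain ⟨-, -, -, h1, -, -, -, -, -, -, -, h2, -⟩ := (hR d hd).2 x hx
  have h3 := al_pos hR d hd _ (red_step hR d hd x hx)
  have h4 : al d x * al d (step d x) = pq d x * al d (step d x) + 1 := by
    rw [h2]
    field_simp
  have h5 : (1 : ℝ) ≤ pq d x := by exact_mod_cast h1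
  rw [h4]
  nlinarith

include hR hd in
/-- the sum of the logarithms over a period -/
theorem per_sum (n : ℕ) (x : ℕ × ℕ) (hx : Red d x) (hn : (step d)^[n] x = x) :
    (n : ℝ) * Real.log 2 ≤ 2 * ∑ i ∈ range n, Real.log (al d ((step d)^[i] x)) := by
  have h1 : ∑ i ∈ range n, Real.log (al d ((step d)^[i + 1] x)) =
      ∑ i ∈ range n, Real.log (al d ((step d)^[i] x)) := by
    have h2 := sum_range_succ (fun i => Real.log (al d ((step d)^[i] x))) n
    have h3 := sum_range_succ' (fun i => Real.log (al d ((step d)^[i] x))) n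
    simp only [hn, Function.iterate_zero, id_eq] at h2 h3
    linarith
  have h4 : 2 * ∑ i ∈ range n, Real.log (al d ((step d)^[i] x)) =
      ∑ i ∈ range n, (Real.log (al d ((step d)^[i] x)) +
        Real.log (al d ((step d)^[i + 1] x))) := by
    rw [sum_add_distrib, h1]
    ring
  rw [h4]
  calc (n : ℝ) * Real.log 2 = ∑ i ∈ range n, Real.log 2 := by
        rw [sum_const, card_range, nsmul_eq_mul]
    _ ≤ _ := by
        refine sum_le_sum (fun i _ => ?_)
        have h5 := red_iter hR d hd x hx i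
        have h6 := red_iter hR d hd x hx (i + 1)
        have h7 := al_pos hR d hd _ h5
        have h8 := al_pos hR d hd _ h6
        have h9 := two_lt hR d hd _ h5
        rw [← Real.log_mul (by positivity) (by positivity)]
        refine Real.log_le_log (by norm_num) ?_
        rw [Function.iterate_succ_apply']
        exact h9.le

theorem gen_proof (hR : RED_Stmt) (hU : UNIT_Stmt) (hP : PELL_Stmt) (hA : AMB_Stmt) :
    GEN_Stmt := by
  classical
  refine ⟨Real.log 2 / 8, by positivity, ?_⟩
  intro d hd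
  have hx0 : Red d (x0 d) := (hR d hd).1
  -- the minimal period of the principal point
  have hper : ∃ n, 0 < n ∧ (step d)^[n] (x0 d) = x0 d := by
    refine ⟨orderOf (sig hR d hd), orderOf_pos _, ?_⟩
    have h := sig_pow hR d hd (orderOf (sig hR d hd)) ⟨x0 d, hx0⟩
    rw [pow_orderOf_eq_one] at h
    exact h.symm
  obtain ⟨n1, hn1, hn1'⟩ := hper
  have hn0 : 0 < Function.minimalPeriod (step d) (x0 d) :=
    Function.IsPeriodicPt.minimalPeriod_pos hn1 hn1'
  refine ⟨Function.minimalPeriod (step d) (x0 d), hn0, Function.iterate_minimalPeriod, ?_⟩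
  generalize hgen : Function.minimalPeriod (step d) (x0 d) = n0 at *
  have hmin : ∀ n, 1 ≤ n → (step d)^[n] (x0 d) = x0 d → n0 ≤ n := by
    intro n h1 h2
    rw [← hgen]
    exact Function.IsPeriodicPt.minimalPeriod_le h1 h2
  obtain ⟨F, hF, hFc⟩ := hA d hd
  -- the fixed points
  let F' : Finset {x : ℕ × ℕ // Red d x} :=
    F.attach.map ⟨fun x => ⟨x.1, (hF x.1 x.2).1⟩, fun a b hab => by
      have := congrArg (fun z : {x : ℕ × ℕ // Red d x} => z.1) hab
      exact Subtype.ext this⟩
  have hF'c : F'.card = F.card := by rw [card_map, card_attach]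
  have hF' : ∀ x ∈ F', tau hR d hd x = x := by
    intro x hx
    rw [mem_map] at hx
    obtain ⟨y, -, rfl⟩ := hx
    exact Subtype.ext (hF y.1 y.2).2
  have hL : ∀ x, (n0 : ℝ) * Real.log 2 / 2 ≤
      ∑ i ∈ range (Function.minimalPeriod (sig hR d hd) x),
        Real.log (al d ((sig hR d hd ^ i) x).1) := by
    intro x
    have hm := minPer_pos (sig hR d hd) x
    have hm2 : (step d)^[Function.minimalPeriod (sig hR d hd) x] x.1 = x.1 := by
      rw [← sig_pow hR d hd, ← Equiv.Perm.iterate_eq_pow, Function.iterate_minimalPeriod]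
    generalize Function.minimalPeriod (sig hR d hd) x = m at *
    obtain ⟨X, Y, hY, hN, hprod⟩ := hU d hd x.1 x.2 m hm hm2
    obtain ⟨n, hn, hn2, hprod2⟩ := hP d hd X Y hY hN
    have h1 : ∑ i ∈ range m, Real.log (al d ((sig hR d hd ^ i) x).1) =
        ∑ i ∈ range n, Real.log (al d ((step d)^[i] (x0 d))) := by
      have h2 : ∑ i ∈ range m, Real.log (al d ((sig hR d hd ^ i) x).1) =
          Real.log (∏ i ∈ range m, al d ((step d)^[i] x.1)) := by
        rw [Real.log_prod]
        · refine sum_congr rfl (fun i _ => ?_)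
          rw [sig_pow]
        · intro i _
          have := al_pos hR d hd _ (red_iter hR d hd x.1 x.2 i)
          positivity
      rw [h2, hprod, ← hprod2, Real.log_prod]
      intro i _
      have := al_pos hR d hd _ (red_iter hR d hd (x0 d) hx0 i)
      positivity
    rw [h1]
    have h3 := per_sum hR d hd n (x0 d) hx0 hn2
    have h4 : (n0 : ℝ) ≤ n := by exact_mod_cast hmin n hn hn2
    have h5 : 0 < Real.log 2 := Real.log_pos (by norm_num)
    nlinarith
  have hmain := sum_le (sig hR d hd) (tau hR d hd) (tau_sig hR d hd)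
    (fun x => Real.log (al d x.1)) (fun x => (Real.log_pos (al_pos hR d hd x.1 x.2)).le)
    F' hF' ((n0 : ℝ) * Real.log 2 / 2) hL
  rw [hF'c] at hmain
  have hsum : ∑ x ∈ Rset d, Real.log (al d x) =
      ∑ x : {x : ℕ × ℕ // Red d x}, Real.log (al d x.1) :=
    sum_subtype (Rset d) (mem_Rset d) (fun x => Real.log (al d x))
  rw [hsum]
  have h5 : 0 < Real.log 2 := Real.log_pos (by norm_num)
  have h6 : (2 : ℝ) ^ d.primeFactors.card ≤ 2 * F.card := by exact_mod_cast hFc
  have h7 : (0 : ℝ) ≤ n0 := Nat.cast_nonneg _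
  have h8 : (n0 : ℝ) * Real.log 2 / 2 * (2 : ℝ) ^ d.primeFactors.card ≤
      (n0 : ℝ) * Real.log 2 / 2 * (2 * F.card) :=
    mul_le_mul_of_nonneg_left h6 (by positivity)
  nlinarith

end Pool.Per.Gen
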