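import Pool.Agent.Lib.MP_45b5fd_nt.PER.Iface

/-!
# PER, row HR (MP_45b5fd_nt): the Halberstam-Richert inequality
-/

set_option autoImplicit false

open Finset

namespace Pool.Per.HR

theorem log_eq (n : ℕ) (hn : n ≠ 0) :
    Real.log n = ∑ p ∈ n.primeFactors, Real.log ((p : ℝ) ^ (n.factorization p)) := by
  have h : (n : ℝ) = ∏ p ∈ n.primeFactors, (p : ℝ) ^ (n.factorization p) := by
    have h0 := Nat.prod_factorization_pow_eq_self hn
    rw [Finsupp.prod, Nat.support_factorization] at h0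
    exact_mod_cast h0.symm
  conv_lhs => rw [h]
  rw [Real.log_prod]
  intro p hp
  have := Nat.pos_of_mem_primeFactors hp
  positivity

/-- the index map -/
def ph (s : (_ : ℕ) × ℕ) : (_ : ℕ) × (_ : ℕ) × ℕ :=
  ⟨s.1 / s.2 ^ s.1.factorization s.2, s.2, s.1.factorization s.2⟩

theorem ph_inj (S : Finset ℕ) : Set.InjOn ph (S.sigma (fun n => n.primeFactors)) := by
  rintro ⟨n, p⟩ _ ⟨n', p'⟩ _ h
  unfold ph at h
  simp only [Sigma.mk.injEq, heq_eq_eq] at h
  obtain ⟨h1, h2, h3⟩ := h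
  subst h2
  have e1 := Nat.ordProj_mul_ordCompl_eq_self n p
  have e2 := Nat.ordProj_mul_ordCompl_eq_self n' p
  have : n = n' := by rw [← e1, ← e2, h1, h3]
  subst this
  rfl

theorem second (f : ℕ → ℝ) (C : ℝ) (hC : 0 ≤ C) (hf : SubM f) (hP : PowSum C f) (N : ℕ) :
    ∑ n ∈ Icc 1 N, f n * Real.log n ≤ C * N * ∑ n ∈ Icc 1 N, f n / n := by
  classical
  set g : (_ : ℕ) × (_ : ℕ) × ℕ → ℝ :=
    fun t => f t.1 * (f (t.2.1 ^ t.2.2) * Real.log ((t.2.1 : ℝ) ^ t.2.2)) with hg
  set Tt : Finset ((_ : ℕ) × (_ : ℕ) × ℕ) :=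
    (Icc 1 N).sigma (fun m => (Nat.primesLE (N / m)).sigma (fun p => Icc 1 (Nat.log p (N / m))))
    with hT
  have hgn : ∀ t ∈ Tt, 0 ≤ g t := by
    rintro ⟨m, p, a⟩ ht
    rw [hT, mem_sigma, mem_sigma] at ht
    have hp := (Nat.mem_primesLE.1 ht.2.1).2
    have h1 : (1 : ℝ) ≤ (p : ℝ) ^ a := one_le_pow₀ (by exact_mod_cast hp.one_le)
    exact mul_nonneg (hf.nonneg _) (mul_nonneg (hf.nonneg _) (Real.log_nonneg h1))
  have hsub : ((Icc 1 N).sigma (fun n => n.primeFactors)).image ph ⊆ Tt := by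
    intro t ht
    rw [mem_image] at ht
    obtain ⟨⟨n, p⟩, hnp, rfl⟩ := ht
    rw [mem_sigma, mem_Icc] at hnp
    obtain ⟨⟨hn1, hnN⟩, hp⟩ := hnp
    simp only at hn1 hnN hp
    have hn0 : n ≠ 0 := by omega
    have hpp := Nat.prime_of_mem_primeFactors hp
    have hv : 1 ≤ n.factorization p :=
      hpp.factorization_pos_of_dvd hn0 (Nat.dvd_of_mem_primeFactors hp)
    have e1 := Nat.ordProj_mul_ordCompl_eq_self n p
    have hm : 0 < n / p ^ n.factorization p := Nat.ordCompl_pos p hn0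
    have hle : p ^ n.factorization p ≤ N / (n / p ^ n.factorization p) := by
      rw [Nat.le_div_iff_mul_le hm, e1]
      exact hnN
    rw [hT]
    unfold ph
    simp only [mem_sigma, mem_Icc]
    refine ⟨⟨hm, (Nat.div_le_self _ _).trans hnN⟩, ?_, hv, Nat.le_log_of_pow_le hpp.one_lt hle⟩
    rw [Nat.mem_primesLE]
    refine ⟨?_, hpp⟩
    calc p = p ^ 1 := (pow_one p).symm
      _ ≤ p ^ n.factorization p := Nat.pow_le_pow_right hpp.pos hv
      _ ≤ _ := hle
  calc ∑ n ∈ Icc 1 N, f n * Real.log n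
      = ∑ n ∈ Icc 1 N, ∑ p ∈ n.primeFactors, f n * Real.log ((p : ℝ) ^ (n.factorization p)) := by
        refine sum_congr rfl (fun n hn => ?_)
        rw [mem_Icc] at hn
        rw [log_eq n (by omega), mul_sum]
    _ ≤ ∑ n ∈ Icc 1 N, ∑ p ∈ n.primeFactors, g (ph ⟨n, p⟩) := by
        refine sum_le_sum (fun n hn => sum_le_sum (fun p hp => ?_))
        rw [mem_Icc] at hn
        have hn0 : n ≠ 0 := by omega
        have hpp := Nat.prime_of_mem_primeFactors hp
        have e1 := Nat.ordProj_mul_ordCompl_eq_self n p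
        have hm : 0 < n / p ^ n.factorization p := Nat.ordCompl_pos p hn0
        have hcop : Nat.Coprime (n / p ^ n.factorization p) (p ^ n.factorization p) :=
          ((Nat.coprime_ordCompl hpp hn0).pow_left _).symm
        have h1 : f n ≤ f (n / p ^ n.factorization p) * f (p ^ n.factorization p) := by
          have h2 := hf.mul _ _ hm (pow_pos hpp.pos _) hcop
          rwa [mul_comm (n / p ^ n.factorization p), e1] at h2
        have h3 : (1 : ℝ) ≤ (p : ℝ) ^ n.factorization p :=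
          one_le_pow₀ (by exact_mod_cast hpp.one_le)
        have h4 := mul_le_mul_of_nonneg_right h1 (Real.log_nonneg h3)
        rw [mul_assoc] at h4
        exact h4
    _ = ∑ s ∈ (Icc 1 N).sigma (fun n => n.primeFactors), g (ph s) := by
        rw [sum_sigma]
    _ = ∑ t ∈ ((Icc 1 N).sigma (fun n => n.primeFactors)).image ph, g t :=
        (sum_image (ph_inj (Icc 1 N))).symm
    _ ≤ ∑ t ∈ Tt, g t := sum_le_sum_of_subset_of_nonneg hsub (fun t ht _ => hgn t ht)
    _ = ∑ m ∈ Icc 1 N, f m * ∑ p ∈ Nat.primesLE (N / m), ∑ a ∈ Icc 1 (Nat.log p (N / m)),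
          f (p ^ a) * Real.log ((p : ℝ) ^ a) := by
        rw [hT, sum_sigma]
        refine sum_congr rfl (fun m _ => ?_)
        rw [sum_sigma, mul_sum]
        refine sum_congr rfl (fun p _ => ?_)
        rw [mul_sum]
    _ ≤ ∑ m ∈ Icc 1 N, f m * (C * ((N / m : ℕ) : ℝ)) :=
        sum_le_sum (fun m _ => mul_le_mul_of_nonneg_left (hP (N / m)) (hf.nonneg m))
    _ ≤ C * N * ∑ n ∈ Icc 1 N, f n / n := by
        rw [mul_sum]
        refine sum_le_sum (fun m hm => ?_)
        rw [mem_Icc] at hm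
        have h1 : ((N / m : ℕ) : ℝ) ≤ (N : ℝ) / m := Nat.cast_div_le
        have h2 := mul_le_mul_of_nonneg_left (mul_le_mul_of_nonneg_left h1 hC) (hf.nonneg m)
        calc f m * (C * ((N / m : ℕ) : ℝ)) ≤ f m * (C * ((N : ℝ) / m)) := h2
          _ = C * N * (f m / m) := by ring

theorem hr_proof : HR_Stmt := by
  intro f C hC hf hP N hN
  have h2 := second f C hC hf hP N
  have hNr : (0 : ℝ) < N := by exact_mod_cast hN
  have h1 : ∑ n ∈ Icc 1 N, f n * (Real.log N - Real.log n) ≤ N * ∑ n ∈ Icc 1 N, f n / n := by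
    rw [mul_sum]
    refine sum_le_sum (fun n hn => ?_)
    rw [mem_Icc] at hn
    have hn0 : (0 : ℝ) < n := by exact_mod_cast (show 0 < n by omega)
    have h3 : Real.log N - Real.log n ≤ N / n := by
      rw [← Real.log_div hNr.ne' hn0.ne']
      exact (Real.log_le_sub_one_of_pos (by positivity)).trans (by linarith)
    calc f n * (Real.log N - Real.log n) ≤ f n * (N / n) :=
          mul_le_mul_of_nonneg_left h3 (hf.nonneg n)
      _ = N * (f n / n) := by ring
  have h4 : Real.log N * ∑ n ∈ Icc 1 N, f n =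
      ∑ n ∈ Icc 1 N, f n * (Real.log N - Real.log n) + ∑ n ∈ Icc 1 N, f n * Real.log n := by
    rw [← sum_add_distrib, mul_sum]
    refine sum_congr rfl (fun n _ => ?_)
    ring
  rw [h4]
  nlinarith

end Pool.Per.HR
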