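import Pool.Agent.Lib.MP_45b5fd_nt.PER.Iface

/-!
# PER, row MASS: the mass at the primes dividing `2d`
-/

set_option autoImplicit false

open Finset

namespace Pool.Per

namespace Mass

lemma two_mul_dvd {d p : ℕ} (hp : p.Prime) (hpd : p ∣ 2 * d) {x : ℕ}
    (h : (p : ℤ) ∣ (d : ℤ) - (x : ℤ) ^ 2) : p ∣ 2 * x := by
  rcases (Nat.Prime.dvd_mul hp).1 hpd with h2 | hd
  · exact Dvd.dvd.mul_right h2 x
  · have hd' : (p : ℤ) ∣ (d : ℤ) := by exact_mod_cast hd
    have hx : (p : ℤ) ∣ (x : ℤ) ^ 2 := by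
      have := dvd_sub hd' h
      simpa using this
    have hx' : p ∣ x ^ 2 := by exact_mod_cast hx
    exact Dvd.dvd.mul_left (hp.dvd_of_dvd_pow hx') 2

lemma isPR_iff {d p : ℕ} (hp : p.Prime) (hpd : p ∣ 2 * d) {a : ℕ} (ha : 1 ≤ a) (x : ℕ) :
    IsPR d (p ^ a) x ↔ (((p ^ a : ℕ) : ℤ) ∣ (d : ℤ) - (x : ℤ) ^ 2 ∧
      ¬ ((p ^ (a + 1) : ℕ) : ℤ) ∣ (d : ℤ) - (x : ℤ) ^ 2) := by
  unfold IsPR
  refine and_congr_right ?_
  intro h
  have hpp : (p : ℤ) ∣ ((p ^ a : ℕ) : ℤ) := by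
    exact_mod_cast dvd_pow_self p (by omega)
  have h2 := two_mul_dvd hp hpd (hpp.trans h)
  constructor
  · intro H
    have := H p hp (dvd_pow_self p (by omega)) h2
    rwa [pow_succ']
  · intro H q hq hqp _
    have hqe : q = p := (Nat.prime_dvd_prime_iff_eq hq hp).1 (hq.dvd_of_dvd_pow hqp)
    subst hqe
    rwa [← pow_succ']

lemma dvd_add_iff {d p : ℕ} (hp : p.Prime) (hpd : p ∣ 2 * d) {a : ℕ} (ha : 1 ≤ a) (x : ℕ) :
    IsPR d (p ^ a) (x + p ^ a) ↔ IsPR d (p ^ a) x := by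
  rw [isPR_iff hp hpd ha, isPR_iff hp hpd ha]
  have e1 : (d : ℤ) - ((x + p ^ a : ℕ) : ℤ) ^ 2 =
      ((d : ℤ) - (x : ℤ) ^ 2) - ((p ^ a : ℕ) : ℤ) * (2 * x + ((p ^ a : ℕ) : ℤ)) := by
    push_cast
    ring
  have h1 : ((p ^ a : ℕ) : ℤ) ∣ (d : ℤ) - ((x + p ^ a : ℕ) : ℤ) ^ 2 ↔
      ((p ^ a : ℕ) : ℤ) ∣ (d : ℤ) - (x : ℤ) ^ 2 := by
    rw [e1]
    exact dvd_sub_left (Dvd.intro _ rfl)
  rw [h1]
  refine and_congr_right ?_
  intro h
  have hpp : (p : ℤ) ∣ ((p ^ a : ℕ) : ℤ) := by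
    exact_mod_cast dvd_pow_self p (by omega)
  have h2 : (p : ℤ) ∣ 2 * (x : ℤ) := by
    exact_mod_cast two_mul_dvd hp hpd (hpp.trans h)
  have h3 : ((p ^ (a + 1) : ℕ) : ℤ) ∣ ((p ^ a : ℕ) : ℤ) * (2 * x + ((p ^ a : ℕ) : ℤ)) := by
    have : ((p ^ (a + 1) : ℕ) : ℤ) = ((p ^ a : ℕ) : ℤ) * p := by push_cast; ring
    rw [this]
    exact mul_dvd_mul_left _ (dvd_add h2 hpp)
  rw [e1]
  exact not_congr (dvd_sub_left h3)

open Classical in
lemma card_mul (P : ℕ → Prop) (n : ℕ) (hP : ∀ x, P (x + n) ↔ P x) (k : ℕ) :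
    ((range (n * k)).filter P).card = k * ((range n).filter P).card := by
  induction k with
  | zero => simp
  | succ k ih =>
    have h : ((range (n * (k + 1))).filter P).card =
        ((range (n * k)).filter P).card + ((range n).filter P).card := by
      have hper : ∀ k x, P (x + n * k) ↔ P x := by
        intro k
        induction k with
        | zero => intro x; simp
        | succ k ih => intro x; rw [mul_add, mul_one, ← add_assoc, hP, ih]
      rw [mul_add, mul_one, range_eq_Ico, range_eq_Ico, range_eq_Ico,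
        ← Finset.Ico_union_Ico_eq_Ico (a := 0) (b := n * k) (c := n * k + n) (by omega) (by omega),
        filter_union, card_union_of_disjoint]
      · congr 1
        refine card_bij' (fun x _ => x - n * k) (fun x _ => x + n * k) ?_ ?_ ?_ ?_
        · intro x hx
          rw [mem_filter, mem_Ico] at hx ⊢
          refine ⟨by omega, ?_⟩
          rw [← hper k, Nat.sub_add_cancel hx.1.1]
          exact hx.2
        · intro x hx
          rw [mem_filter, mem_Ico] at hx ⊢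
          refine ⟨by omega, ?_⟩
          rw [hper k]
          exact hx.2
        · intro x hx
          rw [mem_filter, mem_Ico] at hx
          omega
        · intro x hx
          simp
      · refine disjoint_filter_filter ?_
        exact Finset.Ico_disjoint_Ico_consecutive _ _ _
    rw [h, ih]
    ring

open Classical in
lemma card_class {d p : ℕ} (hp : p.Prime) (hpd : p ∣ 2 * d) {A : ℕ} (hA : 1 ≤ A) :
    ((range (p ^ A)).filter (fun x : ℕ => (p : ℤ) ∣ (d : ℤ) - (x : ℤ) ^ 2)).card ≤ p ^ (A - 1) := by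
  have hpos := hp.pos
  have e : p ^ A = p * p ^ (A - 1) := by
    rw [← pow_succ']
    congr 1
    omega
  have hper : ∀ x : ℕ, (p : ℤ) ∣ (d : ℤ) - ((x + p : ℕ) : ℤ) ^ 2 ↔
      (p : ℤ) ∣ (d : ℤ) - (x : ℤ) ^ 2 := by
    intro x
    have e1 : (d : ℤ) - ((x + p : ℕ) : ℤ) ^ 2 =
        ((d : ℤ) - (x : ℤ) ^ 2) - (p : ℤ) * (2 * x + (p : ℤ)) := by
      push_cast
      ring
    rw [e1]
    exact dvd_sub_left (Dvd.intro _ rfl)
  have hmul := card_mul (fun x : ℕ => (p : ℤ) ∣ (d : ℤ) - (x : ℤ) ^ 2) p hper (p ^ (A - 1))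
  have hmul' : ((range (p * p ^ (A - 1))).filter
      (fun x : ℕ => (p : ℤ) ∣ (d : ℤ) - (x : ℤ) ^ 2)).card = p ^ (A - 1) *
      ((range p).filter (fun x : ℕ => (p : ℤ) ∣ (d : ℤ) - (x : ℤ) ^ 2)).card := by
    convert hmul
  rw [e, hmul']
  · have : ((range p).filter (fun x : ℕ => (p : ℤ) ∣ (d : ℤ) - (x : ℤ) ^ 2)).card ≤ 1 := by
      rw [card_le_one]
      intro x hx y hy
      rw [mem_filter, mem_range] at hx hy
      rcases (Nat.Prime.dvd_mul hp).1 hpd with h2 | hd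
      · have h2' : p = 2 := (Nat.prime_dvd_prime_iff_eq hp Nat.prime_two).1 h2
        subst h2'
        have h : (2 : ℤ) ∣ (x : ℤ) ^ 2 - (y : ℤ) ^ 2 := by
          have := dvd_sub hy.2 hx.2
          simpa using this
        have h' : (2 : ℤ) ∣ ((x : ℤ) - y) * (x + y) := by
          have e : ((x : ℤ) - y) * (x + y) = (x : ℤ) ^ 2 - (y : ℤ) ^ 2 := by ring
          rw [e]; exact h
        rcases Int.prime_two.dvd_or_dvd h' with h | h
        · omega
        · omega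
      · have hz : ∀ z : ℕ, z < p → (p : ℤ) ∣ (d : ℤ) - (z : ℤ) ^ 2 → z = 0 := by
          intro z hz hdz
          have hd' : (p : ℤ) ∣ (d : ℤ) := by exact_mod_cast hd
          have hx : (p : ℤ) ∣ (z : ℤ) ^ 2 := by
            have := dvd_sub hd' hdz
            simpa using this
          have hx' : p ∣ z ^ 2 := by exact_mod_cast hx
          exact Nat.eq_zero_of_dvd_of_lt (hp.dvd_of_dvd_pow hx') hz
        rw [hz x hx.1 hx.2, hz y hy.1 hy.2]
    nlinarith [Nat.zero_le (p ^ (A - 1))]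

end Mass

open Classical in
theorem mass_proof : MASS_Stmt := by
  intro d p A hp hpd
  rcases Nat.eq_zero_or_pos A with rfl | hA
  · simp
  have hp0 : (0 : ℝ) < p := by exact_mod_cast hp.pos
  have hcard : ∀ a ∈ Icc 1 A,
      ((range (p ^ A)).filter (fun x => IsPR d (p ^ a) x)).card = p ^ (A - a) * pr d (p ^ a) := by
    intro a ha
    rw [mem_Icc] at ha
    have e : p ^ A = p ^ a * p ^ (A - a) := by
      rw [← pow_add]
      congr 1
      omega
    rw [e, Mass.card_mul (fun x => IsPR d (p ^ a) x) (p ^ a)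
      (fun x => Mass.dvd_add_iff hp hpd ha.1 x)]
    rfl
  have hdisj : ∀ a ∈ Icc 1 A, ∀ b ∈ Icc 1 A, a ≠ b →
      Disjoint ((range (p ^ A)).filter (fun x => IsPR d (p ^ a) x))
        ((range (p ^ A)).filter (fun x => IsPR d (p ^ b) x)) := by
    have main : ∀ a ∈ Icc 1 A, ∀ b ∈ Icc 1 A, a < b → ∀ x, IsPR d (p ^ a) x →
        IsPR d (p ^ b) x → False := by
      intro a ha b hb hab x h1 h2
      rw [mem_Icc] at ha hb
      rw [Mass.isPR_iff hp hpd ha.1] at h1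
      rw [Mass.isPR_iff hp hpd hb.1] at h2
      refine h1.2 (dvd_trans ?_ h2.1)
      exact_mod_cast pow_dvd_pow p (by omega : a + 1 ≤ b)
    intro a ha b hb hab
    rw [disjoint_left]
    intro x hx hy
    rw [mem_filter] at hx hy
    rcases lt_or_gt_of_ne hab with h | h
    · exact main a ha b hb h x hx.2 hy.2
    · exact main b hb a ha h x hy.2 hx.2
  have hsum : ∑ a ∈ Icc 1 A, p ^ (A - a) * pr d (p ^ a) ≤ p ^ (A - 1) := by
    rw [← sum_congr rfl hcard, ← card_biUnion hdisj]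
    refine le_trans (card_le_card ?_) (Mass.card_class hp hpd hA)
    intro x hx
    rw [mem_biUnion] at hx
    obtain ⟨a, ha, hx⟩ := hx
    rw [mem_filter] at hx ⊢
    rw [mem_Icc] at ha
    refine ⟨hx.1, dvd_trans ?_ hx.2.1⟩
    exact_mod_cast dvd_pow_self p (by omega)
  have hsum' : ∑ a ∈ Icc 1 A, (p : ℝ) ^ (A - a) * (pr d (p ^ a) : ℝ) ≤ (p : ℝ) ^ (A - 1) := by
    exact_mod_cast hsum
  have hdiv : ∑ a ∈ Icc 1 A, ((pr d (p ^ a) : ℕ) : ℝ) / (p : ℝ) ^ a =
      (∑ a ∈ Icc 1 A, (p : ℝ) ^ (A - a) * (pr d (p ^ a) : ℝ)) / (p : ℝ) ^ A := by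
    rw [sum_div]
    refine sum_congr rfl ?_
    intro a ha
    rw [mem_Icc] at ha
    have e : (p : ℝ) ^ A = (p : ℝ) ^ a * (p : ℝ) ^ (A - a) := by
      rw [← pow_add]
      congr 1
      omega
    rw [e]
    field_simp
  rw [hdiv, div_le_iff₀ (by positivity)]
  refine le_trans hsum' (le_of_eq ?_)
  have e : (p : ℝ) ^ A = (p : ℝ) * (p : ℝ) ^ (A - 1) := by
    rw [← pow_succ']
    congr 1
    omega
  rw [e]
  field_simp

end Pool.Per
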