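import Pool.Agent.Lib.MP_45b5fd_nt.PER.Iface
import Pool.Agent.Lib.MP_02fec8_nt.Mert

/-!
# PER, row MERT: Mertens' second theorem, two sided
-/

set_option autoImplicit false

open Finset

namespace Pool.Per.MERT

open Pool.Agent.Lib.MP_02fec8_nt.Mert

/-- `∑_{p ≤ n} 1 / p` -/
noncomputable def P (n : ℕ) : ℝ := ∑ p ∈ Nat.primesLE n, 1 / (p : ℝ)

lemma P_succ (z : ℕ) : P (z + 1) = P z +
    (if (z + 1).Prime then (1 : ℝ) / ((z + 1 : ℕ) : ℝ) else 0) := by
  unfold P
  rw [Nat.primesLE_eq_filter_range, Nat.primesLE_eq_filter_range, Finset.range_add_one,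
    Finset.filter_insert]
  split_ifs with h
  · rw [Finset.sum_insert (by simp)]
    ring
  · simp

/-- the potential -/
noncomputable def G (z : ℕ) : ℝ :=
  P z - (M z - Real.log z) / Real.log z - Real.log (Real.log z)

lemma step {C : ℝ} (hC : ∀ n : ℕ, 1 ≤ n → |M n - Real.log n| ≤ C) {z : ℕ} (hz : 2 ≤ z) :
    |G (z + 1) - G z| ≤ (C + 1) * (1 / Real.log z - 1 / Real.log ((z + 1 : ℕ) : ℝ)) := by
  obtain ⟨v, hv⟩ : ∃ v, v = Real.log (z : ℝ) := ⟨_, rfl⟩
  obtain ⟨u, hu⟩ : ∃ u, u = Real.log ((z + 1 : ℕ) : ℝ) := ⟨_, rfl⟩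
  have hz2 : (2 : ℝ) ≤ z := by exact_mod_cast hz
  have hv0 : 0 < v := by rw [hv]; exact Real.log_pos (by linarith)
  have huv : v ≤ u := by
    rw [hv, hu]; exact Real.log_le_log (by linarith) (by push_cast; linarith)
  have hu0 : 0 < u := lt_of_lt_of_le hv0 huv
  have huv1 : u - v ≤ 1 := by
    rw [hu, hv, ← Real.log_div (by positivity) (by positivity)]
    have h1 : Real.log (((z + 1 : ℕ) : ℝ) / z) ≤ ((z + 1 : ℕ) : ℝ) / z - 1 :=
      Real.log_le_sub_one_of_pos (by positivity)
    have h2 : ((z + 1 : ℕ) : ℝ) / z - 1 ≤ 1 := by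
      rw [sub_le_iff_le_add, div_le_iff₀ (by linarith)]
      push_cast; linarith
    linarith
  have hlog : Real.log u - Real.log v ≤ (u - v) / v := by
    rw [← Real.log_div hu0.ne' hv0.ne']
    have h1 : Real.log (u / v) ≤ u / v - 1 := Real.log_le_sub_one_of_pos (by positivity)
    have h2 : u / v - 1 = (u - v) / v := by field_simp
    linarith
  have hlog' : (u - v) / u ≤ Real.log u - Real.log v := by
    have h0 : Real.log v - Real.log u = Real.log (v / u) := (Real.log_div hv0.ne' hu0.ne').symm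
    have h1 : Real.log (v / u) ≤ v / u - 1 := Real.log_le_sub_one_of_pos (by positivity)
    have h2 : v / u - 1 = -((u - v) / u) := by field_simp; ring
    linarith
  have hSM : P (z + 1) = P z + (M (z + 1) - M z) / u := by
    rw [P_succ, M_succ, ← hu]
    split_ifs with h
    · have : ((z + 1 : ℕ) : ℝ) ≠ 0 := by positivity
      field_simp
      ring
    · simp
  have hE := hC z (by omega)
  obtain ⟨E, hEdef⟩ : ∃ E, E = M z - v := ⟨_, rfl⟩
  rw [← hv, ← hEdef] at hE
  have hgap : 0 ≤ 1 / v - 1 / u := by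
    rw [sub_nonneg]; exact one_div_le_one_div_of_le hv0 huv
  have h1 : -(C * (1 / v - 1 / u)) ≤ E * (1 / v - 1 / u) := by
    have := (abs_le.mp hE).1
    nlinarith
  have h1' : E * (1 / v - 1 / u) ≤ C * (1 / v - 1 / u) := by
    have := (abs_le.mp hE).2
    nlinarith
  have h2 : (u - v) / v - (u - v) / u ≤ 1 * (1 / v - 1 / u) := by
    have h3 : (u - v) / v - (u - v) / u = (u - v) * (1 / v - 1 / u) := by ring
    rw [h3]
    exact mul_le_mul_of_nonneg_right huv1 hgap
  have h3 : G (z + 1) - G z = E * (1 / v - 1 / u) + (u - v) / u -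
        (Real.log u - Real.log v) := by
    unfold G
    rw [← hu, ← hv, hSM]
    have h4 : (M (z + 1) - M z) / u - (M (z + 1) - u) / u = (u - v) / u - E * (1 / u) := by
      rw [hEdef]; field_simp; ring
    have h5 : P z + (M (z + 1) - M z) / u - (M (z + 1) - u) / u - Real.log u -
        (P z - (M z - v) / v - Real.log v) =
        ((M (z + 1) - M z) / u - (M (z + 1) - u) / u) + E / v - (Real.log u - Real.log v) := by
      rw [hEdef]; ring
    rw [h5, h4]; ring
  rw [← hu, ← hv, h3, abs_le]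
  constructor <;> nlinarith

lemma potential' {C : ℝ} (hC : ∀ n : ℕ, 1 ≤ n → |M n - Real.log n| ≤ C) :
    ∀ z : ℕ, 2 ≤ z → |G z - G 2| ≤ (C + 1) * (1 / Real.log 2 - 1 / Real.log z) := by
  intro z hz
  induction z, hz using Nat.le_induction with
  | base => simp
  | succ z hz ih =>
    have h1 := step hC hz
    have h2 : G (z + 1) - G 2 = (G (z + 1) - G z) + (G z - G 2) := by ring
    rw [h2]
    refine (abs_add_le _ _).trans ?_
    have h3 : (C + 1) * (1 / Real.log 2 - 1 / Real.log ((z + 1 : ℕ) : ℝ)) =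
        (C + 1) * (1 / Real.log z - 1 / Real.log ((z + 1 : ℕ) : ℝ)) +
          (C + 1) * (1 / Real.log 2 - 1 / Real.log z) := by ring
    rw [h3]
    exact add_le_add h1 ih

theorem main : MERT_Stmt := by
  obtain ⟨C, hC0, hC⟩ := mertens1
  have hl2 : 0 < Real.log 2 := Real.log_pos (by norm_num)
  refine ⟨|G 2| + (C + 1) / Real.log 2 + C / Real.log 2, by positivity, fun N hN => ?_⟩
  have hN2 : (2 : ℝ) ≤ N := by exact_mod_cast hN
  have hlN : Real.log 2 ≤ Real.log N := Real.log_le_log (by norm_num) hN2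
  have hlN0 : 0 < Real.log N := lt_of_lt_of_le hl2 hlN
  have h1 := potential' hC N hN
  have h2 : (C + 1) * (1 / Real.log 2 - 1 / Real.log N) ≤ (C + 1) / Real.log 2 := by
    rw [div_eq_mul_one_div (C + 1) (Real.log 2)]
    apply mul_le_mul_of_nonneg_left _ (by linarith)
    have : 0 ≤ 1 / Real.log N := by positivity
    linarith
  have h3 : |(M N - Real.log N) / Real.log N| ≤ C / Real.log 2 := by
    rw [abs_div, abs_of_pos hlN0]
    exact div_le_div₀ hC0 (hC N (by omega)) hl2 hlN
  have h4 : ∑ p ∈ Nat.primesLE N, 1 / (p : ℝ) - Real.log (Real.log N) =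
      G 2 + (G N - G 2) + (M N - Real.log N) / Real.log N := by
    have h5 : P N = ∑ p ∈ Nat.primesLE N, 1 / (p : ℝ) := rfl
    rw [← h5]
    have h6 : G N = P N - (M N - Real.log N) / Real.log N - Real.log (Real.log N) := rfl
    rw [h6]; ring
  rw [h4]
  refine (abs_add_le _ _).trans (add_le_add ((abs_add_le _ _).trans
    (add_le_add le_rfl (h1.trans h2))) h3)

end Pool.Per.MERT

namespace Pool.Per

/-- **MERT** -/
theorem mert_proof : MERT_Stmt := MERT.main

end Pool.Per
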