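import Pool.Agent.Lib.MP_45b5fd_nt.PER.Iface

/-!
# RED: the two involutions on reduced pairs
-/

set_option autoImplicit false

open Finset

namespace Pool.Per.RED

variable {d : ℕ}

lemma sq_lt (hd : ¬ IsSquare d) : Nat.sqrt d * Nat.sqrt d < d := by
  have h1 := Nat.sqrt_le d
  rcases lt_or_eq_of_le h1 with h | h
  · exact h
  · exact absurd ⟨Nat.sqrt d, h.symm⟩ hd

lemma lt_sq (d : ℕ) : d < (Nat.sqrt d + 1) * (Nat.sqrt d + 1) := Nat.lt_succ_sqrt d

lemma sqrt_pos (hd : ¬ IsSquare d) : 0 < Nat.sqrt d := by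
  rw [Nat.sqrt_pos]
  rcases Nat.eq_zero_or_pos d with h | h
  · exact absurd (h ▸ ⟨0, rfl⟩) hd
  · exact h

lemma s_lt (hd : ¬ IsSquare d) : (Nat.sqrt d : ℝ) < Real.sqrt d := by
  apply Real.lt_sqrt_of_sq_lt
  have := sq_lt hd
  rw [pow_two]
  exact_mod_cast this

lemma lt_s (d : ℕ) : Real.sqrt d < (Nat.sqrt d : ℝ) + 1 := by
  rw [Real.sqrt_lt' (by positivity)]
  have := lt_sq d
  rw [pow_two]
  exact_mod_cast this

lemma red_x0 (hd : ¬ IsSquare d) : Red d (x0 d) where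
  le := le_refl _
  lt := by simp [x0]
  le2 := by
    have := sqrt_pos hd
    simp only [x0]; omega
  dvd := one_dvd _
  prim := fun p hp h => hp.one_lt.ne' (Nat.dvd_one.mp h.1)

variable {x : ℕ × ℕ}

lemma sq_lt' (hd : ¬ IsSquare d) (hx : Red d x) : x.1 ^ 2 < d := by
  have := sq_lt hd
  have := Nat.mul_le_mul hx.le hx.le
  rw [pow_two]; omega

lemma posQ (hx : Red d x) : 0 < x.2 := by
  have := hx.le; have := hx.lt; omega

lemma posP (hx : Red d x) : 0 < x.1 := by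
  have := hx.le2; have := hx.lt; omega

lemma pq_pos (hx : Red d x) : 1 ≤ pq d x := Nat.div_pos hx.le2 (posQ hx)

/-- data of the first involution -/
lemma fS_data (hx : Red d x) : ∃ r : ℕ, r < x.2 ∧ r ≤ Nat.sqrt d ∧
    x.1 + Nat.sqrt d = pq d x * x.2 + r ∧ (fS d x).1 = Nat.sqrt d - r ∧ (fS d x).2 = x.2 := by
  refine ⟨(x.1 + Nat.sqrt d) % x.2, Nat.mod_lt _ (posQ hx), ?_, ?_, ?_, rfl⟩
  · have h1 := Nat.div_add_mod (x.1 + Nat.sqrt d) x.2
    have h2 : (x.1 + Nat.sqrt d) % x.2 < x.2 := Nat.mod_lt _ (posQ hx)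
    have h3 : 1 ≤ (x.1 + Nat.sqrt d) / x.2 := pq_pos hx
    have h4 : x.2 * 1 ≤ x.2 * ((x.1 + Nat.sqrt d) / x.2) := Nat.mul_le_mul_left _ h3
    have h5 := hx.le
    omega
  · unfold pq
    rw [mul_comm]
    exact (Nat.div_add_mod (x.1 + Nat.sqrt d) x.2).symm
  · have h1 := Nat.div_add_mod (x.1 + Nat.sqrt d) x.2
    unfold fS pq
    simp only
    rw [mul_comm]
    omega

lemma int_of_dvd {P Q : ℕ} (hP : P ^ 2 ≤ d) :
    Q ∣ d - P ^ 2 ↔ (Q : ℤ) ∣ (d : ℤ) - (P : ℤ) ^ 2 := by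
  rw [← Int.natCast_dvd_natCast, Nat.cast_sub hP]
  push_cast
  rfl

lemma fS_pq (hx : Red d x) : pq d (fS d x) = pq d x := by
  obtain ⟨r, h1, h2, h3, h4, h5⟩ := fS_data hx
  have h6 := hx.le
  have h7 := hx.lt
  have h8 : (fS d x).1 + Nat.sqrt d = pq d x * x.2 + (Nat.sqrt d - x.1) := by
    rw [h4]; omega
  rw [pq, h5, h8, mul_comm, Nat.mul_add_div (posQ hx), Nat.div_eq_of_lt (by omega)]
  omega

lemma fS_fS (hx : Red d x) : fS d (fS d x) = x := by
  obtain ⟨r, h1, h2, h3, h4, h5⟩ := fS_data hx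
  have h6 := hx.le
  apply Prod.ext
  · change pq d (fS d x) * (fS d x).2 - (fS d x).1 = x.1
    rw [fS_pq hx, h4, h5]
    omega
  · rfl

/-- the integer relation `P' + P = a Q` -/
lemma fS_add (hx : Red d x) : (fS d x).1 + x.1 = pq d x * x.2 := by
  obtain ⟨r, h1, h2, h3, h4, h5⟩ := fS_data hx
  rw [h4]; omega

lemma red_fS (hd : ¬ IsSquare d) (hx : Red d x) : Red d (fS d x) := by
  obtain ⟨r, h1, h2, h3, h4, h5⟩ := fS_data hx
  have hle : (fS d x).1 ≤ Nat.sqrt d := by omega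
  have hlt : (fS d x).1 ^ 2 ≤ d := by
    have := Nat.mul_le_mul hle hle
    have := Nat.sqrt_le d
    rw [pow_two]; omega
  have hlt0 : x.1 ^ 2 ≤ d := (sq_lt' hd hx).le
  have hadd : ((fS d x).1 : ℤ) + x.1 = pq d x * x.2 := by exact_mod_cast fS_add hx
  have hdv : (x.2 : ℤ) ∣ (d : ℤ) - ((fS d x).1 : ℤ) ^ 2 := by
    have h6 := (int_of_dvd hlt0).mp hx.dvd
    have h7 : (d : ℤ) - ((fS d x).1 : ℤ) ^ 2 = ((d : ℤ) - (x.1 : ℤ) ^ 2) +
        x.2 * (pq d x * (x.1 - (fS d x).1)) := by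
      linear_combination (-((fS d x).1 : ℤ) + x.1) * hadd
    rw [h7]
    exact dvd_add h6 (dvd_mul_right _ _)
  refine ⟨hle, ?_, ?_, ?_, ?_⟩
  · rw [h4, h5]; omega
  · rw [h4, h5]
    have h6 := Nat.mul_le_mul_right x.2 (pq_pos hx)
    have h7 := hx.le
    omega
  · rw [h5, int_of_dvd hlt]
    exact hdv
  · rintro p hp ⟨hp1, hp2, hp3⟩
    rw [h5] at hp1 hp3
    obtain ⟨R, hR⟩ := hx.dvd
    have hdv' := (int_of_dvd hlt).mpr hdv
    obtain ⟨R', hR'⟩ := hdv'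
    have hQ := posQ hx
    rw [hR', Nat.mul_div_cancel_left _ hQ] at hp3
    refine hx.prim p hp ⟨hp1, ?_, ?_⟩
    · rw [← Int.natCast_dvd_natCast] at hp1 hp2 ⊢
      have h6 : ((2 * x.1 : ℕ) : ℤ) = x.2 * (2 * pq d x) - ((2 * (fS d x).1 : ℕ) : ℤ) := by
        push_cast
        linear_combination 2 * hadd
      rw [h6]
      exact dvd_sub (dvd_mul_of_dvd_left hp1 _) hp2
    · rw [hR, Nat.mul_div_cancel_left _ hQ]
      have hRz : (d : ℤ) - (x.1 : ℤ) ^ 2 = x.2 * R := by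
        rw [← Nat.cast_mul, ← hR, Nat.cast_sub hlt0]; push_cast; rfl
      have hRz' : (d : ℤ) - ((fS d x).1 : ℤ) ^ 2 = x.2 * R' := by
        rw [← Nat.cast_mul, ← hR', Nat.cast_sub hlt]; push_cast; rfl
      rw [← Int.natCast_dvd_natCast] at hp1 hp2 hp3 ⊢
      have hQz : (x.2 : ℤ) ≠ 0 := by exact_mod_cast hQ.ne'
      have h6 : (R : ℤ) = R' + x.2 * (-(pq d x : ℤ) ^ 2) +
          ((2 * (fS d x).1 : ℕ) : ℤ) * pq d x := by
        apply mul_left_cancel₀ hQz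
        rw [← hRz]
        push_cast
        linear_combination hRz' - ((pq d x : ℤ) * x.2 - (fS d x).1 + x.1) * hadd
      rw [h6]
      exact dvd_add (dvd_add hp3 (dvd_mul_of_dvd_left hp1 _)) (dvd_mul_of_dvd_left hp2 _)

/-- data of the second involution -/
lemma fG_data (_hd : ¬ IsSquare d) (hx : Red d x) : x.2 * (fG d x).2 = d - x.1 ^ 2 := by
  change x.2 * ((d - x.1 ^ 2) / x.2) = _
  exact Nat.mul_div_cancel' hx.dvd

lemma fG_fG (hd : ¬ IsSquare d) (hx : Red d x) : fG d (fG d x) = x := by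
  have h := fG_data hd hx
  have h0 := sq_lt' hd hx
  apply Prod.ext
  · rfl
  · change (d - x.1 ^ 2) / (fG d x).2 = x.2
    have h1 : 0 < (fG d x).2 := by
      rcases Nat.eq_zero_or_pos (fG d x).2 with h2 | h2
      · rw [h2] at h; omega
      · exact h2
    rw [← h]
    exact Nat.mul_div_cancel _ h1

lemma red_fG (hd : ¬ IsSquare d) (hx : Red d x) : Red d (fG d x) := by
  have h := fG_data hd hx
  have h0 := sq_lt' hd hx
  have h1 : 0 < (fG d x).2 := by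
    rcases Nat.eq_zero_or_pos (fG d x).2 with h2 | h2
    · rw [h2] at h; omega
    · exact h2
  have hz : (x.2 : ℤ) * (fG d x).2 = (d : ℤ) - (x.1 : ℤ) ^ 2 := by
    rw [← Nat.cast_mul, h, Nat.cast_sub h0.le]; push_cast; rfl
  have e1 : (fG d x).1 = x.1 := rfl
  have hs1 : (Nat.sqrt d : ℤ) * Nat.sqrt d < d := by exact_mod_cast sq_lt hd
  have hs2 : (d : ℤ) < (Nat.sqrt d + 1) * (Nat.sqrt d + 1) := by exact_mod_cast lt_sq d
  have hle : (x.1 : ℤ) ≤ Nat.sqrt d := by exact_mod_cast hx.le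
  have hlt : (Nat.sqrt d : ℤ) < x.1 + x.2 := by exact_mod_cast hx.lt
  have hle2 : (x.2 : ℤ) ≤ x.1 + Nat.sqrt d := by exact_mod_cast hx.le2
  have hQ : (0 : ℤ) < x.2 := by exact_mod_cast posQ hx
  have hQ' : (0 : ℤ) < (fG d x).2 := by exact_mod_cast h1
  refine ⟨hx.le, ?_, ?_, ?_, ?_⟩
  · rw [e1]
    by_contra hcon
    have h2 : (x.1 : ℤ) + (fG d x).2 ≤ Nat.sqrt d := by exact_mod_cast not_lt.mp hcon
    nlinarith
  · rw [e1]
    by_contra hcon
    have h2 : (x.1 : ℤ) + Nat.sqrt d + 1 ≤ (fG d x).2 := by exact_mod_cast not_le.mp hcon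
    have h3 : (Nat.sqrt d : ℤ) + 1 - x.1 ≤ x.2 := by linarith
    have h4 : ((Nat.sqrt d : ℤ) + 1 - x.1) * (x.1 + Nat.sqrt d + 1) ≤ x.2 * (fG d x).2 :=
      mul_le_mul h3 h2 (by positivity) hQ.le
    nlinarith
  · rw [e1, ← h]
    exact dvd_mul_left _ _
  · rintro p hp ⟨hp1, hp2, hp3⟩
    rw [e1] at hp2 hp3
    refine hx.prim p hp ⟨?_, hp2, ?_⟩
    · rw [← h, Nat.mul_div_cancel _ h1] at hp3
      exact hp3
    · exact hp1

lemma al_gt (hd : ¬ IsSquare d) (hx : Red d x) : 1 < al d x := by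
  have hQ : (0 : ℝ) < x.2 := by exact_mod_cast posQ hx
  have h1 := s_lt hd
  have h2 : (x.2 : ℝ) ≤ x.1 + Nat.sqrt d := by exact_mod_cast hx.le2
  unfold al
  rw [lt_div_iff₀ hQ]
  linarith

lemma co_gt (hx : Red d x) : -1 < co d x := by
  have hQ : (0 : ℝ) < x.2 := by exact_mod_cast posQ hx
  have h1 := lt_s d
  have h2 : (Nat.sqrt d : ℝ) + 1 ≤ x.1 + x.2 := by exact_mod_cast hx.lt
  unfold co
  rw [lt_div_iff₀ hQ]
  linarith

lemma co_lt (hd : ¬ IsSquare d) (hx : Red d x) : co d x < 0 := by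
  have hQ : (0 : ℝ) < x.2 := by exact_mod_cast posQ hx
  have h1 := s_lt hd
  have h2 : (x.1 : ℝ) ≤ Nat.sqrt d := by exact_mod_cast hx.le
  unfold co
  rw [div_lt_iff₀ hQ]
  linarith

/-- the real relation `Q Q' = d - P'²` for the step -/
lemma step_real (hd : ¬ IsSquare d) (hx : Red d x) :
    (x.2 : ℝ) * (step d x).2 = Real.sqrt d ^ 2 - ((step d x).1 : ℝ) ^ 2 ∧
    ((step d x).1 : ℝ) + x.1 = pq d x * x.2 ∧ (step d x).1 = (fS d x).1 := by
  have h := fG_data hd (red_fS hd hx)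
  have h0 := sq_lt' hd (red_fS hd hx)
  refine ⟨?_, ?_, rfl⟩
  · rw [Real.sq_sqrt (Nat.cast_nonneg d)]
    change (x.2 : ℝ) * (fG d (fS d x)).2 = (d : ℝ) - ((fS d x).1 : ℝ) ^ 2
    have h1 : (fS d x).2 = x.2 := rfl
    rw [h1] at h
    rw [← Nat.cast_mul, h, Nat.cast_sub h0.le]
    push_cast
    rfl
  · change ((fS d x).1 : ℝ) + x.1 = pq d x * x.2
    exact_mod_cast fS_add hx

lemma al_eq (hd : ¬ IsSquare d) (hx : Red d x) :
    al d x = pq d x + 1 / al d (step d x) := by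
  obtain ⟨h1, h2, h3⟩ := step_real hd hx
  have hst : Red d (step d x) := red_fG hd (red_fS hd hx)
  have hQ : (0 : ℝ) < x.2 := by exact_mod_cast posQ hx
  have hQ' : (0 : ℝ) < (step d x).2 := by exact_mod_cast posQ hst
  have hP' : (0 : ℝ) ≤ (step d x).1 := Nat.cast_nonneg _
  have hs : 0 < Real.sqrt d := lt_of_le_of_lt (Nat.cast_nonneg _) (s_lt hd)
  have hne : ((step d x).1 : ℝ) + Real.sqrt d ≠ 0 := by positivity
  unfold al
  rw [one_div_div]
  field_simp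
  linear_combination (((step d x).1 : ℝ) + Real.sqrt d) * h2 - h1

lemma co_eq (hd : ¬ IsSquare d) (hx : Red d x) :
    co d x = pq d x + 1 / co d (step d x) := by
  obtain ⟨h1, h2, h3⟩ := step_real hd hx
  have hst : Red d (step d x) := red_fG hd (red_fS hd hx)
  have hQ : (0 : ℝ) < x.2 := by exact_mod_cast posQ hx
  have hQ' : (0 : ℝ) < (step d x).2 := by exact_mod_cast posQ hst
  have hc := co_lt hd hst
  have hne : ((step d x).1 : ℝ) - Real.sqrt d ≠ 0 := by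
    intro h
    unfold co at hc
    rw [h] at hc
    simp at hc
  unfold co
  rw [one_div_div]
  field_simp
  linear_combination (((step d x).1 : ℝ) - Real.sqrt d) * h2 - h1

theorem red_proof : RED_Stmt := by
  intro d hd
  refine ⟨red_x0 hd, fun x hx => ⟨posP hx, posQ hx, ?_, pq_pos hx, red_fS hd hx, fS_fS hx,
    red_fG hd hx, fG_fG hd hx, al_gt hd hx, co_gt hx, co_lt hd hx, al_eq hd hx, co_eq hd hx⟩⟩
  have := sq_lt' hd hx
  omega

end Pool.Per.RED
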