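import Pool.Agent.Lib.MP_45b5fd_nt.PER.Iface

/-!
# ROOT: primitive roots of `d` modulo `n` (MP_45b5fd_nt, board PER)
-/

set_option autoImplicit false

open Finset

namespace Pool.Per

namespace Root

theorem isPR_of_mul {d a b x : ℕ} (hab : a.Coprime b) (h : IsPR d (a * b) x) : IsPR d a x := by
  obtain ⟨h1, h2⟩ := h
  have hb : (b : ℤ) ∣ (d : ℤ) - (x : ℤ) ^ 2 :=
    (Dvd.intro_left (a : ℤ) (by push_cast; ring) : (b : ℤ) ∣ ((a * b : ℕ) : ℤ)).trans h1
  have ha : (a : ℤ) ∣ (d : ℤ) - (x : ℤ) ^ 2 :=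
    (Dvd.intro (b : ℤ) (by push_cast; ring) : (a : ℤ) ∣ ((a * b : ℕ) : ℤ)).trans h1
  refine ⟨ha, fun p hp hpa hpx hd => ?_⟩
  apply h2 p hp (hpa.mul_right b) hpx
  have hpb : p.Coprime b := Nat.Coprime.coprime_dvd_left hpa hab
  have hc : (p * a).Coprime b := Nat.Coprime.mul_left hpb hab
  have hc' : IsCoprime (((p * a : ℕ) : ℤ)) ((b : ℕ) : ℤ) := Nat.isCoprime_iff_coprime.2 hc
  have := hc'.mul_dvd hd hb
  have e : (((p * (a * b) : ℕ)) : ℤ) = ((p * a : ℕ) : ℤ) * (b : ℤ) := by push_cast; ring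
  rw [e]
  exact this

theorem isPR_mod {d n x : ℕ} (h : IsPR d n x) : IsPR d n (x % n) := by
  obtain ⟨h1, h2⟩ := h
  have hx : (x : ℤ) = ((x % n : ℕ) : ℤ) + (n : ℤ) * ((x / n : ℕ) : ℤ) := by
    exact_mod_cast (Nat.mod_add_div x n).symm
  set y : ℕ := x % n with hy
  set t : ℕ := x / n with ht
  have key : (d : ℤ) - (y : ℤ) ^ 2 = ((d : ℤ) - (x : ℤ) ^ 2) + (n : ℤ) * ((t : ℤ) * (2 * y + n * t)) := by
    rw [hx]; ring
  refine ⟨?_, fun p hp hpn hpy hd => ?_⟩
  · rw [key]
    exact dvd_add h1 (Dvd.intro _ rfl)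
  · obtain ⟨u, hu⟩ := hpn
    have hpy' : (p : ℤ) ∣ 2 * (y : ℤ) := by exact_mod_cast hpy
    have hpn' : (p : ℤ) ∣ (n : ℤ) := ⟨(u : ℤ), by rw [hu]; push_cast; ring⟩
    have hpx : (p : ℤ) ∣ 2 * (x : ℤ) := by
      have e : 2 * (x : ℤ) = 2 * y + (n : ℤ) * (2 * t) := by rw [hx]; ring
      rw [e]
      exact dvd_add hpy' (hpn'.mul_right _)
    have hpx' : p ∣ 2 * x := by exact_mod_cast hpx
    apply h2 p hp ⟨u, hu⟩ hpx'
    have h3 : (((p * n : ℕ)) : ℤ) ∣ (n : ℤ) * ((t : ℤ) * (2 * y + n * t)) := by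
      have h4 : (p : ℤ) ∣ (t : ℤ) * (2 * y + n * t) :=
        Dvd.dvd.mul_left (dvd_add hpy' (hpn'.mul_right _)) _
      obtain ⟨v, hv⟩ := h4
      refine ⟨v, ?_⟩
      rw [hv]; push_cast; ring
    have e : (d : ℤ) - (x : ℤ) ^ 2 =
        ((d : ℤ) - (y : ℤ) ^ 2) - (n : ℤ) * ((t : ℤ) * (2 * y + n * t)) := by
      rw [key]; ring
    rw [e]
    exact dvd_sub hd h3

theorem pr_mul (d a b : ℕ) (ha : 0 < a) (hb : 0 < b) (hab : a.Coprime b) :
    pr d (a * b) ≤ pr d a * pr d b := by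
  classical
  unfold pr
  rw [← card_product]
  refine card_le_card_of_injOn (fun x => (x % a, x % b)) ?_ ?_
  · intro x hx
    simp only [coe_filter, mem_range, Set.mem_setOf_eq] at hx
    simp only [coe_product, coe_filter, mem_range, Set.mem_prod, Set.mem_setOf_eq]
    refine ⟨⟨Nat.mod_lt _ ha, isPR_mod (isPR_of_mul hab hx.2)⟩, Nat.mod_lt _ hb, ?_⟩
    have h : IsPR d (b * a) x := by rw [mul_comm]; exact hx.2
    exact isPR_mod (isPR_of_mul hab.symm h)
  · intro x hx y hy hxy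
    simp only [coe_filter, mem_range, Set.mem_setOf_eq] at hx hy
    simp only [Prod.mk.injEq] at hxy
    have h : x ≡ y [MOD a * b] := (Nat.modEq_and_modEq_iff_modEq_mul hab).1 ⟨hxy.1, hxy.2⟩
    exact Nat.ModEq.eq_of_lt_of_lt h hx.1 hy.1

theorem pow_dvd_or {p : ℕ} (hp : p.Prime) {u v : ℤ} {a c : ℕ} (hc : a ≤ c + c) (hc0 : c + c ≤ a + 1)
    (h : ((p : ℤ)) ^ a ∣ u * v) : (p : ℤ) ^ c ∣ u ∨ (p : ℤ) ^ c ∣ v := by
  haveI := Fact.mk hp
  by_cases hu : u = 0
  · left; rw [hu]; exact dvd_zero _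
  by_cases hv : v = 0
  · right; rw [hv]; exact dvd_zero _
  rw [padicValInt_dvd_iff] at h ⊢
  rw [padicValInt_dvd_iff]
  have huv : u * v ≠ 0 := mul_ne_zero hu hv
  rcases h with h | h
  · exact absurd h huv
  rw [padicValInt.mul hu hv] at h
  by_cases h1 : c ≤ padicValInt p u
  · left; right; exact h1
  · right; right; omega

theorem card_class (P r c e : ℕ) (hP : 0 < P) :
    ((range (P ^ (c + e))).filter (fun x => x % P ^ c = r)).card ≤ P ^ e := by
  have h : ((range (P ^ (c + e))).filter (fun x => x % P ^ c = r)).card ≤ (range (P ^ e)).card := by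
    refine card_le_card_of_injOn (fun x => x / P ^ c) ?_ ?_
    · intro x hx
      simp only [coe_filter, mem_range, Set.mem_setOf_eq] at hx
      simp only [coe_range, Set.mem_Iio]
      apply Nat.div_lt_of_lt_mul
      rw [← pow_add]
      exact hx.1
    · intro x hx y hy hxy
      simp only [coe_filter, mem_range, Set.mem_setOf_eq] at hx hy
      simp only at hxy
      rw [← Nat.mod_add_div x (P ^ c), ← Nat.mod_add_div y (P ^ c), hx.2, hy.2, hxy]
  rwa [card_range] at h

theorem pr_pow (d p a : ℕ) (hp : p.Prime) : pr d (p ^ a) ≤ 2 * p ^ (a / 2) := by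
  classical
  unfold pr
  by_cases hne : ((range (p ^ a)).filter (fun x => IsPR d (p ^ a) x)).Nonempty
  · obtain ⟨x1, hx1⟩ := hne
    simp only [mem_filter, mem_range] at hx1
    set c := a - a / 2 with hc
    have hac : a = c + a / 2 := by omega
    have hpc : 0 < p ^ c := pow_pos hp.pos c
    set r1 := x1 % p ^ c with hr1
    set r2 := (p ^ c * x1 - x1) % p ^ c with hr2
    have hsub : (range (p ^ a)).filter (fun x => IsPR d (p ^ a) x) ⊆
        (range (p ^ (c + a / 2))).filter (fun x => x % p ^ c = r1) ∪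
        (range (p ^ (c + a / 2))).filter (fun x => x % p ^ c = r2) := by
      intro x hx
      simp only [mem_filter, mem_range] at hx
      simp only [mem_union, mem_filter, mem_range]
      have hlt : x < p ^ (c + a / 2) := by rw [← hac]; exact hx.1
      have h1 : ((p ^ a : ℕ) : ℤ) ∣ ((x : ℤ) - x1) * (x + x1) := by
        have e : ((x : ℤ) - x1) * (x + x1) = ((d : ℤ) - (x1 : ℤ) ^ 2) - ((d : ℤ) - (x : ℤ) ^ 2) := by
          ring
        rw [e]
        exact dvd_sub hx1.2.1 hx.2.1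
      rw [Nat.cast_pow] at h1
      rcases pow_dvd_or hp (c := c) (by omega) (by omega) h1 with h | h
      · left
        refine ⟨hlt, ?_⟩
        have : (x : ℤ) ≡ x1 [ZMOD ((p ^ c : ℕ) : ℤ)] := by
          apply Int.ModEq.symm
          rw [Int.modEq_iff_dvd]
          rw [Nat.cast_pow]
          exact h
        exact (Int.natCast_modEq_iff.1 this)
      · right
        refine ⟨hlt, ?_⟩
        have hle : x1 ≤ p ^ c * x1 := Nat.le_mul_of_pos_left _ hpc
        have : (x : ℤ) ≡ ((p ^ c * x1 - x1 : ℕ) : ℤ) [ZMOD ((p ^ c : ℕ) : ℤ)] := by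
          apply Int.ModEq.symm
          rw [Int.modEq_iff_dvd, Nat.cast_sub hle]
          have e : (x : ℤ) - (((p ^ c * x1 : ℕ) : ℤ) - (x1 : ℤ)) =
              (x + x1) - ((p ^ c : ℕ) : ℤ) * x1 := by push_cast; ring
          rw [e]
          refine dvd_sub ?_ (Dvd.intro _ rfl)
          rw [Nat.cast_pow]
          exact h
        exact (Int.natCast_modEq_iff.1 this)
    calc _ ≤ _ := card_le_card hsub
      _ ≤ _ := card_union_le _ _
      _ ≤ p ^ (a / 2) + p ^ (a / 2) :=
        Nat.add_le_add (card_class p r1 c (a / 2) hp.pos) (card_class p r2 c (a / 2) hp.pos)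
      _ = 2 * p ^ (a / 2) := by ring
  · rw [not_nonempty_iff_eq_empty] at hne
    rw [hne]
    simp

theorem pr_odd (d p a : ℕ) (hp : p.Prime) (h2 : p ≠ 2) (hd : ¬ p ∣ d) (ha : 1 ≤ a) :
    ((pr d (p ^ a) : ℕ) : ℤ) ≤ 1 + jacobiSym (d : ℤ) p := by
  classical
  haveI := Fact.mk hp
  have hdz : ((d : ℤ) : ZMod p) ≠ 0 := by
    intro h
    apply hd
    rw [Int.cast_natCast, ZMod.natCast_eq_zero_iff] at h
    exact h
  unfold pr
  by_cases hne : ((range (p ^ a)).filter (fun x => IsPR d (p ^ a) x)).Nonempty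
  · obtain ⟨x1, hx1⟩ := hne
    simp only [mem_filter, mem_range] at hx1
    have hpa : (p : ℤ) ∣ ((p ^ a : ℕ) : ℤ) := by
      rw [Nat.cast_pow]; exact dvd_pow_self _ (by omega)
    have hroot : (p : ℤ) ∣ (d : ℤ) - (x1 : ℤ) ^ 2 := hpa.trans hx1.2.1
    have hpx1 : ¬ (p : ℤ) ∣ (x1 : ℤ) := by
      intro h
      apply hd
      have : (p : ℤ) ∣ (d : ℤ) := by
        have e : (d : ℤ) = ((d : ℤ) - (x1 : ℤ) ^ 2) + (x1 : ℤ) * x1 := by ring
        rw [e]
        exact dvd_add hroot (h.mul_right _)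
      exact_mod_cast this
    have hJ : jacobiSym (d : ℤ) p = 1 := by
      rw [← jacobiSym.legendreSym.to_jacobiSym, legendreSym.eq_one_iff p hdz]
      refine ⟨(x1 : ZMod p), ?_⟩
      have h := (ZMod.intCast_zmod_eq_zero_iff_dvd ((d : ℤ) - (x1 : ℤ) ^ 2) p).2 hroot
      push_cast at h
      rw [sub_eq_zero] at h
      rw [Int.cast_natCast, h, sq]
    rw [hJ]
    have hsub : (range (p ^ a)).filter (fun x => IsPR d (p ^ a) x) ⊆ {x1, p ^ a - x1} := by
      intro x hx
      simp only [mem_filter, mem_range] at hx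
      simp only [mem_insert, mem_singleton]
      have h1 : ((p : ℤ)) ^ a ∣ ((x : ℤ) - x1) * (x + x1) := by
        have e : ((x : ℤ) - x1) * (x + x1) = ((d : ℤ) - (x1 : ℤ) ^ 2) - ((d : ℤ) - (x : ℤ) ^ 2) := by
          ring
        rw [e]
        have := dvd_sub hx1.2.1 hx.2.1
        rwa [Nat.cast_pow] at this
      have hpZ : Prime (p : ℤ) := Nat.prime_iff_prime_int.1 hp
      by_cases hm : (p : ℤ) ∣ (x : ℤ) - x1
      · have hpl : ¬ (p : ℤ) ∣ (x : ℤ) + x1 := by
          intro h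
          have h3 : (p : ℤ) ∣ 2 * (x1 : ℤ) := by
            have e : 2 * (x1 : ℤ) = (x + x1) - (x - x1) := by ring
            rw [e]; exact dvd_sub h hm
          rcases hpZ.dvd_or_dvd h3 with h4 | h4
          · have h5 : p ∣ 2 := by exact_mod_cast h4
            have := (Nat.prime_dvd_prime_iff_eq hp Nat.prime_two).1 h5
            exact h2 this
          · exact hpx1 h4
        have hcop : IsCoprime ((p : ℤ) ^ a) ((x : ℤ) + x1) :=
          IsCoprime.pow_left ((Prime.coprime_iff_not_dvd hpZ).2 hpl)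
        have h6 : (p : ℤ) ^ a ∣ (x : ℤ) - x1 := hcop.dvd_of_dvd_mul_right h1
        left
        have : (x : ℤ) ≡ x1 [ZMOD ((p ^ a : ℕ) : ℤ)] := by
          apply Int.ModEq.symm
          rw [Int.modEq_iff_dvd, Nat.cast_pow]
          exact h6
        exact Nat.ModEq.eq_of_lt_of_lt (Int.natCast_modEq_iff.1 this) hx.1 hx1.1
      · have hcop : IsCoprime ((p : ℤ) ^ a) ((x : ℤ) - x1) :=
          IsCoprime.pow_left ((Prime.coprime_iff_not_dvd hpZ).2 hm)
        have h6 : (p : ℤ) ^ a ∣ (x : ℤ) + x1 := hcop.dvd_of_dvd_mul_left h1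
        right
        have h7 : p ^ a ∣ x + x1 := by exact_mod_cast h6
        have hx10 : 0 < x1 := by
          rcases Nat.eq_zero_or_pos x1 with h | h
          · exfalso; apply hpx1; rw [h]; simp
          · exact h
        obtain ⟨k, hk⟩ := h7
        have hk1 : k = 1 := by
          rcases Nat.lt_or_ge k 1 with h | h
          · have : k = 0 := by omega
            rw [this, mul_zero] at hk
            omega
          · rcases Nat.lt_or_ge 1 k with h' | h'
            · exfalso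
              have : p ^ a * 2 ≤ p ^ a * k := Nat.mul_le_mul_left _ h'
              omega
            · omega
        rw [hk1, mul_one] at hk
        omega
    have hc : ((range (p ^ a)).filter (fun x => IsPR d (p ^ a) x)).card ≤ 2 :=
      (card_le_card hsub).trans card_le_two
    have : (((((range (p ^ a)).filter (fun x => IsPR d (p ^ a) x)).card : ℕ)) : ℤ) ≤ 2 := by
      exact_mod_cast hc
    linarith
  · rw [not_nonempty_iff_eq_empty] at hne
    rw [hne]
    have hJ : -1 ≤ jacobiSym (d : ℤ) p := by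
      rcases jacobiSym.trichotomy (d : ℤ) p with h | h | h <;> rw [h] <;> norm_num
    simp only [card_empty, Nat.cast_zero]
    linarith

end Root

/-- **ROOT** -/
theorem root_proof : ROOT_Stmt := by
  refine ⟨fun d => ⟨fun n => Nat.cast_nonneg _, ?_, ?_⟩, Root.pr_pow, Root.pr_odd⟩
  · show ((pr d 1 : ℕ) : ℝ) ≤ 1
    have h : pr d 1 ≤ 1 := by
      classical
      unfold pr
      refine (card_filter_le _ _).trans ?_
      simp
    exact_mod_cast h
  · intro a b ha hb hab
    show ((pr d (a * b) : ℕ) : ℝ) ≤ (pr d a : ℝ) * (pr d b : ℝ)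
    exact_mod_cast Root.pr_mul d a b ha hb hab

end Pool.Per
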