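import Pool.Agent.Lib.MP_45b5fd_nt.PER.Iface

/-!
# PER, module RSUM
-/

set_option autoImplicit false

open Finset

namespace Pool.Per

namespace Rsum

lemma sq_le {d P : ℕ} (h : P ≤ Nat.sqrt d) : P ^ 2 ≤ d :=
  (Nat.pow_le_pow_left h 2).trans (Nat.sqrt_le' d)

/-- the residue of `P` is a primitive root -/
lemma isPR_mod {d : ℕ} {x : ℕ × ℕ} (h : Red d x) (hQ : 0 < x.2) : IsPR d x.2 (x.1 % x.2) := by
  obtain ⟨P, Q⟩ := x
  simp only at hQ ⊢
  obtain ⟨t, ht⟩ : ∃ t : ℕ, t = P / Q := ⟨_, rfl⟩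
  obtain ⟨r, hr⟩ : ∃ r : ℕ, r = P % Q := ⟨_, rfl⟩
  have hP : P = r + Q * t := by rw [hr, ht]; exact (Nat.mod_add_div P Q).symm
  rw [← hr]
  have hsq : P ^ 2 ≤ d := sq_le h.le
  have hdv : (Q : ℤ) ∣ (d : ℤ) - (P : ℤ) ^ 2 := by
    have := Int.natCast_dvd_natCast.2 h.dvd
    rwa [Nat.cast_sub hsq, Nat.cast_pow] at this
  have hPz : (P : ℤ) = r + Q * t := by exact_mod_cast hP
  have e : (d : ℤ) - (r : ℤ) ^ 2 = ((d : ℤ) - (P : ℤ) ^ 2) + Q * (t * (2 * r + Q * t)) := by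
    rw [hPz]; ring
  refine ⟨?_, ?_⟩
  · rw [e]
    exact dvd_add hdv (dvd_mul_right _ _)
  · intro p hp hpQ hp2 hcon
    have hp2z : (p : ℤ) ∣ 2 * r + Q * t := by
      apply dvd_add
      · exact_mod_cast hp2
      · exact dvd_mul_of_dvd_left (by exact_mod_cast hpQ) _
    have h1 : ((p * Q : ℕ) : ℤ) ∣ Q * (t * (2 * r + Q * t)) := by
      rw [Nat.cast_mul, mul_comm (p : ℤ)]
      exact mul_dvd_mul_left _ (dvd_mul_of_dvd_right hp2z _)
    have h2 : ((p * Q : ℕ) : ℤ) ∣ (d : ℤ) - (P : ℤ) ^ 2 := by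
      rw [e] at hcon
      exact (dvd_add_left h1).1 hcon
    have h3 : p * Q ∣ d - P ^ 2 := by
      rw [← Int.natCast_dvd_natCast, Nat.cast_sub hsq, Nat.cast_pow]
      exact h2
    apply h.prim p hp
    refine ⟨hpQ, ?_, ?_⟩
    · simp only
      rw [hP, mul_add]
      exact dvd_add hp2 (dvd_mul_of_dvd_right (dvd_mul_of_dvd_left hpQ _) _)
    · exact Nat.dvd_div_of_mul_dvd (by rwa [mul_comm] at h3)

open Classical in
/-- few reduced points with given `Q` -/
lemma card_le (hR : RED_Stmt) {d : ℕ} (hd : ¬ IsSquare d) (Q : ℕ) :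
    ((Rset d).filter (fun x => x.2 = Q)).card ≤ pr d Q := by
  unfold pr
  apply Finset.card_le_card_of_injOn (fun x => x.1 % Q)
  · intro x hx
    have hx' := Finset.mem_filter.1 (Finset.mem_coe.1 hx)
    have hxR : Red d x := (Finset.mem_filter.1 hx'.1).2
    have hQ : 0 < x.2 := ((hR d hd).2 x hxR).2.1
    have := isPR_mod hxR hQ
    rw [hx'.2] at this hQ
    rw [Finset.mem_coe, Finset.mem_filter, Finset.mem_range]
    exact ⟨Nat.mod_lt _ hQ, this⟩
  · intro x hx y hy hxy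
    have hx' := Finset.mem_filter.1 (Finset.mem_coe.1 hx)
    have hy' := Finset.mem_filter.1 (Finset.mem_coe.1 hy)
    have hxR : Red d x := (Finset.mem_filter.1 hx'.1).2
    have hyR : Red d y := (Finset.mem_filter.1 hy'.1).2
    have h1 := hxR.le
    have h2 := hxR.lt
    have h3 := hyR.le
    have h4 := hyR.lt
    rw [hx'.2] at h2
    rw [hy'.2] at h4
    simp only at hxy
    have key : x.1 = y.1 := by
      have e : x.1 ≡ y.1 [MOD Q] := hxy
      rcases le_total x.1 y.1 with h | h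
      · have := (Nat.modEq_iff_dvd' h).1 e
        have h0 : y.1 - x.1 = 0 := Nat.eq_zero_of_dvd_of_lt this (by omega)
        omega
      · have := (Nat.modEq_iff_dvd' h).1 e.symm
        have h0 : x.1 - y.1 = 0 := Nat.eq_zero_of_dvd_of_lt this (by omega)
        omega
    exact Prod.ext key (hx'.2.trans hy'.2.symm)

open Classical in
lemma mem_Rset {d : ℕ} {x : ℕ × ℕ} : x ∈ Rset d ↔ Red d x := by
  unfold Rset
  rw [Finset.mem_filter, Finset.mem_product, Finset.mem_range, Finset.mem_range]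
  constructor
  · exact fun h => h.2
  · intro h
    have h1 := h.le
    have h2 := h.le2
    exact ⟨⟨by omega, by omega⟩, h⟩

end Rsum

open Rsum in
open Classical in
theorem rsum_proof (hR : RED_Stmt) : RSUM_Stmt := by
  intro d hd
  have hs1 : ((Nat.sqrt d : ℕ) : ℝ) ≤ Real.sqrt d := Real.nat_sqrt_le_real_sqrt
  have hs2 : Real.sqrt d < (Nat.sqrt d : ℕ) + 1 := Real.real_sqrt_lt_nat_sqrt_succ
  have hpos : 0 < Nat.sqrt d := by
    rw [Nat.sqrt_pos]
    rcases Nat.eq_zero_or_pos d with h | h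
    · exact absurd (h ▸ (⟨0, rfl⟩ : IsSquare 0)) hd
    · exact h
  have hd0 : 0 < Real.sqrt d := lt_of_lt_of_le (by exact_mod_cast hpos) hs1
  -- split
  rw [← Finset.sum_filter_add_sum_filter_not (Rset d) (fun x => x.2 ≤ Nat.sqrt d)]
  obtain ⟨A, hA⟩ : ∃ A, A = (Rset d).filter (fun x => x.2 ≤ Nat.sqrt d) := ⟨_, rfl⟩
  obtain ⟨B, hB⟩ : ∃ B, B = (Rset d).filter (fun x => ¬ x.2 ≤ Nat.sqrt d) := ⟨_, rfl⟩
  rw [← hA, ← hB]
  have hAm : ∀ x, x ∈ A ↔ Red d x ∧ x.2 ≤ Nat.sqrt d := by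
    intro x; rw [hA, Finset.mem_filter, mem_Rset]
  have hBm : ∀ x, x ∈ B ↔ Red d x ∧ ¬ x.2 ≤ Nat.sqrt d := by
    intro x; rw [hB, Finset.mem_filter, mem_Rset]
  have hBA : B.card ≤ A.card := by
    apply Finset.card_le_card_of_injOn (fG d)
    · intro x hx
      obtain ⟨h1, h2⟩ := (hBm x).1 (Finset.mem_coe.1 hx)
      obtain ⟨-, hQ, -, -, -, -, hG, -, -⟩ := (hR d hd).2 x h1
      rw [Finset.mem_coe, hAm]
      refine ⟨hG, ?_⟩
      change (d - x.1 ^ 2) / x.2 ≤ Nat.sqrt d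
      apply Nat.le_of_lt_succ
      rw [Nat.div_lt_iff_lt_mul hQ]
      have h3 : d < (Nat.sqrt d).succ ^ 2 := Nat.lt_succ_sqrt' d
      have h4 : (Nat.sqrt d).succ ≤ x.2 := by omega
      calc d - x.1 ^ 2 ≤ d := Nat.sub_le _ _
        _ < (Nat.sqrt d).succ ^ 2 := h3
        _ = (Nat.sqrt d).succ * (Nat.sqrt d).succ := sq _
        _ ≤ (Nat.sqrt d).succ * x.2 := Nat.mul_le_mul_left _ h4
    · intro x hx y hy hxy
      obtain ⟨h1, -⟩ := (hBm x).1 (Finset.mem_coe.1 hx)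
      obtain ⟨h2, -⟩ := (hBm y).1 (Finset.mem_coe.1 hy)
      have e1 := ((hR d hd).2 x h1).2.2.2.2.2.2.2.1
      have e2 := ((hR d hd).2 y h2).2.2.2.2.2.2.2.1
      rw [← e1, ← e2, hxy]
  have hl2 : 0 < Real.log 2 := Real.log_pos (by norm_num)
  have hSB : ∑ x ∈ B, Real.log (al d x) ≤ ∑ x ∈ A, Real.log 2 := by
    have h1 : ∑ x ∈ B, Real.log (al d x) ≤ ∑ x ∈ B, Real.log 2 := by
      apply Finset.sum_le_sum
      intro x hx
      obtain ⟨h1, h2⟩ := (hBm x).1 hx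
      have hal := ((hR d hd).2 x h1).2.2.2.2.2.2.2.2.1
      apply Real.log_le_log (by linarith)
      have hQ : (Nat.sqrt d : ℝ) + 1 ≤ x.2 := by
        exact_mod_cast (show Nat.sqrt d + 1 ≤ x.2 by omega)
      have hP : (x.1 : ℝ) ≤ Nat.sqrt d := by exact_mod_cast h1.le
      have hQ0 : (0 : ℝ) < x.2 := by
        have : (0 : ℝ) ≤ Nat.sqrt d := Nat.cast_nonneg _
        linarith
      unfold al
      rw [div_le_iff₀ hQ0]
      linarith
    refine h1.trans ?_
    rw [Finset.sum_const, Finset.sum_const, nsmul_eq_mul, nsmul_eq_mul]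
    exact mul_le_mul_of_nonneg_right (by exact_mod_cast hBA) hl2.le
  have hSA : ∑ x ∈ A, Real.log (al d x) + ∑ x ∈ A, Real.log 2 ≤
      ∑ x ∈ A, Real.log (4 * Real.sqrt d / x.2) := by
    rw [← Finset.sum_add_distrib]
    apply Finset.sum_le_sum
    intro x hx
    obtain ⟨h1, h2⟩ := (hAm x).1 hx
    have hall := (hR d hd).2 x h1
    have hal := hall.2.2.2.2.2.2.2.2.1
    have hQ : (0 : ℝ) < x.2 := by exact_mod_cast hall.2.1
    have hP : (x.1 : ℝ) ≤ Nat.sqrt d := by exact_mod_cast h1.le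
    rw [← Real.log_mul (by linarith) (by norm_num)]
    apply Real.log_le_log (by linarith)
    unfold al
    rw [div_mul_eq_mul_div]
    apply div_le_div_of_nonneg_right _ hQ.le
    linarith
  have hfib : ∑ x ∈ A, Real.log (4 * Real.sqrt d / x.2) =
      ∑ Q ∈ Icc 1 (Nat.sqrt d), ∑ x ∈ A with x.2 = Q, Real.log (4 * Real.sqrt d / x.2) := by
    rw [Finset.sum_fiberwise_of_maps_to]
    intro x hx
    obtain ⟨h1, h2⟩ := (hAm x).1 hx
    exact Finset.mem_Icc.2 ⟨((hR d hd).2 x h1).2.1, h2⟩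
  have hfin : ∑ x ∈ A, Real.log (4 * Real.sqrt d / x.2) ≤
      ∑ Q ∈ Icc 1 (Nat.sqrt d), ((pr d Q : ℕ) : ℝ) * Real.log (4 * Real.sqrt d / Q) := by
    rw [hfib]
    apply Finset.sum_le_sum
    intro Q hQ
    obtain ⟨hQ1, hQ2⟩ := Finset.mem_Icc.1 hQ
    have hQ0 : (0 : ℝ) < Q := by exact_mod_cast hQ1
    have hQs : (Q : ℝ) ≤ Nat.sqrt d := by exact_mod_cast hQ2
    have e : ∑ x ∈ A with x.2 = Q, Real.log (4 * Real.sqrt d / x.2) =
        ((A.filter fun x => x.2 = Q).card : ℝ) * Real.log (4 * Real.sqrt d / Q) := by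
      rw [Finset.sum_congr rfl (g := fun _ => Real.log (4 * Real.sqrt d / Q)),
        Finset.sum_const, nsmul_eq_mul]
      intro x hx
      rw [(Finset.mem_filter.1 hx).2]
    rw [e]
    apply mul_le_mul_of_nonneg_right
    · have h1 : (A.filter fun x => x.2 = Q).card ≤ ((Rset d).filter (fun x => x.2 = Q)).card := by
        apply Finset.card_le_card
        rw [hA]
        exact Finset.filter_subset_filter _ (Finset.filter_subset _ _)
      exact_mod_cast h1.trans (card_le hR hd Q)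
    · apply Real.log_nonneg
      rw [le_div_iff₀ hQ0]
      linarith
  linarith

end Pool.Per
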