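import Pool.Agent.Lib.MP_45b5fd_nt.PER.Iface

/-!
# UNIT: the product of the values over a period is a unit of `ℤ[√d]` (MP_45b5fd_nt, board PER)
-/

set_option autoImplicit false

open Finset

namespace Pool.Per

namespace Unit'

theorem red_iter (hR : RED_Stmt) {d : ℕ} (hd : ¬ IsSquare d) {x : ℕ × ℕ} (hx : Red d x) (k : ℕ) :
    Red d ((step d)^[k] x) := by
  induction k with
  | zero => exact hx
  | succ k ih =>
    rw [Function.iterate_succ_apply']
    obtain ⟨_, _, _, _, h5, _⟩ := (hR d hd).2 _ ih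
    obtain ⟨_, _, _, _, _, _, h7, _⟩ := (hR d hd).2 _ h5
    exact h7

/-- the integers of the continued fraction -/
theorem conv (hR : RED_Stmt) {d : ℕ} (hd : ¬ IsSquare d) {x : ℕ × ℕ} (hx : Red d x) (k : ℕ) :
    ∃ u v p q : ℕ, 1 ≤ u + v ∧ (1 ≤ k → 1 ≤ u) ∧ ((p : ℤ) * v - u * q = (-1) ^ k) ∧
      (∏ i ∈ range k, al d ((step d)^[i + 1] x) = u * al d ((step d)^[k] x) + v) ∧
      (al d x * ∏ i ∈ range k, al d ((step d)^[i + 1] x) = p * al d ((step d)^[k] x) + q) := by
  induction k with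
  | zero =>
    refine ⟨0, 1, 1, 0, le_rfl, by simp, by simp, by simp, by simp⟩
  | succ k ih =>
    obtain ⟨u, v, p, q, h1, h2, h3, h4, h5⟩ := ih
    have hk := red_iter hR hd hx k
    obtain ⟨_, _, _, ha, _, _, _, _, _, _, _, hal, _⟩ := (hR d hd).2 _ hk
    have hk1 := red_iter hR hd hx (k + 1)
    obtain ⟨_, _, _, _, _, _, _, _, h1al, _⟩ := (hR d hd).2 _ hk1
    have e : step d ((step d)^[k] x) = (step d)^[k + 1] x := (Function.iterate_succ_apply' _ _ _).symm
    rw [e] at hal
    set a := pq d ((step d)^[k] x) with haa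
    set B := al d ((step d)^[k + 1] x) with hB
    set A := al d ((step d)^[k] x) with hA
    have hB0 : B ≠ 0 := by positivity
    have hAB : A * B = a * B + 1 := by rw [hal]; field_simp
    refine ⟨u * a + v, u, p * a + q, p, ?_, ?_, ?_, ?_, ?_⟩
    · nlinarith [Nat.zero_le u, Nat.zero_le v]
    · intro _
      nlinarith [Nat.zero_le u, Nat.zero_le v]
    · push_cast
      rw [pow_succ, ← h3]
      ring
    · rw [prod_range_succ, h4]
      push_cast
      have : (u * A + v) * B = u * (A * B) + v * B := by ring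
      rw [← hB, this, hAB]
      ring
    · rw [prod_range_succ, ← mul_assoc, h5]
      push_cast
      have : (p * A + q) * B = p * (A * B) + q * B := by ring
      rw [← hB, this, hAB]
      ring

theorem lin_zero {d P Q : ℕ} (hd : ¬ IsSquare d) (hQ : 0 < Q) {A B : ℤ}
    (h : (A : ℝ) * ((P + Real.sqrt d) / Q) + B = 0) : A = 0 ∧ B = 0 := by
  have hQ' : (Q : ℝ) ≠ 0 := by positivity
  have hirr : Irrational (Real.sqrt (d : ℝ)) := irrational_sqrt_natCast_iff.2 hd
  have h1 : (A : ℝ) * Real.sqrt d = -((A : ℝ) * P + B * Q) := by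
    have h2 : (A : ℝ) * (P + Real.sqrt d) + B * Q = 0 := by
      have : (A : ℝ) * (P + Real.sqrt d) + B * Q = ((A : ℝ) * ((P + Real.sqrt d) / Q) + B) * Q := by
        field_simp
      rw [this, h, zero_mul]
    linarith
  have hA : A = 0 := by
    by_contra hA
    apply hirr
    refine ⟨-((A : ℚ) * P + B * Q) / A, ?_⟩
    have hA' : (A : ℝ) ≠ 0 := by exact_mod_cast hA
    push_cast
    rw [← h1]
    field_simp
  refine ⟨hA, ?_⟩
  rw [hA] at h
  simp only [Int.cast_zero, zero_mul, zero_add] at h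
  exact_mod_cast h

end Unit'

/-- **UNIT** -/
theorem unit_proof (hR : RED_Stmt) : UNIT_Stmt := by
  intro d hd x hx n hn hper
  obtain ⟨u, v, p, q, _, h2, h3, h4, h5⟩ := Unit'.conv hR hd hx n
  rw [hper] at h4 h5
  obtain ⟨hP0, hQ0, hdP, _⟩ := (hR d hd).2 _ hx
  obtain ⟨_, _, _, _, _, _, _, _, hal1, _⟩ := (hR d hd).2 _ hx
  set P := x.1 with hP
  set Q := x.2 with hQ
  set R := (d - P ^ 2) / Q with hRdef
  have hQR : Q * R = d - P ^ 2 := Nat.mul_div_cancel' hx.dvd
  have hQRz : (Q : ℤ) * R = d - (P : ℤ) ^ 2 := by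
    have h : ((Q * R : ℕ) : ℤ) = ((d - P ^ 2 : ℕ) : ℤ) := by rw [hQR]
    rw [Nat.cast_sub (by omega)] at h
    push_cast at h
    exact h
  have hQRr : (Q : ℝ) * R = d - (P : ℝ) ^ 2 := by exact_mod_cast hQRz
  have hQr : (0 : ℝ) < Q := by exact_mod_cast hQ0
  have hal : al d x = ((P : ℝ) + Real.sqrt d) / Q := rfl
  have hsq : Real.sqrt (d : ℝ) * Real.sqrt d = d := Real.mul_self_sqrt (Nat.cast_nonneg d)
  set α := al d x with hα
  have hQα : (Q : ℝ) * α = P + Real.sqrt d := by rw [hal]; field_simp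
  have hquad : (Q : ℝ) * α ^ 2 - 2 * P * α - R = 0 := by
    have h : (Q : ℝ) * ((Q : ℝ) * α ^ 2 - 2 * P * α - R) = 0 := by
      have : (Q : ℝ) * ((Q : ℝ) * α ^ 2 - 2 * P * α - R) =
          ((Q : ℝ) * α) ^ 2 - 2 * P * (Q * α) - Q * R := by ring
      rw [this, hQα, hQRr]
      linear_combination hsq
    rcases mul_eq_zero.1 h with h | h
    · exact absurd h hQr.ne'
    · exact h
  have hrel : α * (u * α + v) = p * α + q := by rw [← h4]; exact h5
  -- the two linear relations
  have hlin : (((Q : ℤ) * (v - p) + 2 * P * u : ℤ) : ℝ) * ((P + Real.sqrt d) / Q) +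
      (((u : ℤ) * R - Q * q : ℤ) : ℝ) = 0 := by
    rw [← hal]
    push_cast
    linear_combination (Q : ℝ) * hrel - (u : ℝ) * hquad
  obtain ⟨hA, hB⟩ := Unit'.lin_zero hd hQ0 hlin
  have hu1 : 1 ≤ u := h2 hn
  have hQu : Q ∣ u := by
    have hc : Nat.Coprime Q (Nat.gcd (2 * P) R) := by
      unfold Nat.Coprime
      rw [Nat.eq_one_iff_not_exists_prime_dvd]
      intro r hr hrd
      have h1 := hrd.trans (Nat.gcd_dvd_left Q _)
      have h2' := hrd.trans (Nat.gcd_dvd_right Q _)
      exact hx.prim r hr ⟨h1, h2'.trans (Nat.gcd_dvd_left _ _), h2'.trans (Nat.gcd_dvd_right _ _)⟩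
    have h7 : Q ∣ u * (2 * P) := by
      have : (Q : ℤ) ∣ ((u * (2 * P) : ℕ) : ℤ) := by
        refine ⟨p - v, ?_⟩
        push_cast
        linarith
      exact_mod_cast this
    have h8 : Q ∣ u * R := by
      have : (Q : ℤ) ∣ ((u * R : ℕ) : ℤ) := by
        refine ⟨q, ?_⟩
        push_cast
        linarith
      exact_mod_cast this
    have h9 : Q ∣ u * Nat.gcd (2 * P) R := by
      rw [← Nat.gcd_mul_left]
      exact Nat.dvd_gcd h7 h8
    exact hc.dvd_of_dvd_mul_right h9
  obtain ⟨Y, hY⟩ := hQu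
  have hQz : (Q : ℤ) ≠ 0 := by exact_mod_cast hQ0.ne'
  have hYz : (u : ℤ) = Q * Y := by exact_mod_cast hY
  have hpv : (p : ℤ) - v = 2 * P * Y := by
    have : (Q : ℤ) * (p - v - 2 * P * Y) = 0 := by
      linear_combination (-1 : ℤ) * hA + 2 * P * hYz
    rcases mul_eq_zero.1 this with h | h
    · exact absurd h hQz
    · linarith
  have hqR : (q : ℤ) = Y * R := by
    have : (Q : ℤ) * (q - Y * R) = 0 := by
      linear_combination (-1 : ℤ) * hB + R * hYz
    rcases mul_eq_zero.1 this with h | h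
    · exact absurd h hQz
    · linarith
  have hY1 : 1 ≤ Y := by
    rcases Nat.eq_zero_or_pos Y with h | h
    · rw [h, mul_zero] at hY; omega
    · exact h
  refine ⟨v + Y * P, Y, hY1, ?_, ?_⟩
  · have hnorm : ((v + Y * P : ℕ) : ℤ) ^ 2 - d * (Y : ℤ) ^ 2 = (-1) ^ n := by
      rw [← h3]
      have hd' : (d : ℤ) = Q * R + P ^ 2 := by linarith
      have hp' : (p : ℤ) = v + 2 * P * Y := by linarith
      rw [hd', hp', hqR, hYz]
      push_cast
      ring
    rcases neg_one_pow_eq_or ℤ n with h | h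
    · left; rw [hnorm, h]
    · right; rw [hnorm, h]
  · have hprod : ∏ i ∈ range n, al d ((step d)^[i] x) = ∏ i ∈ range n, al d ((step d)^[i + 1] x) := by
      have h6 := prod_range_succ (fun i => al d ((step d)^[i] x)) n
      have h7 := prod_range_succ' (fun i => al d ((step d)^[i] x)) n
      simp only [Function.iterate_zero, id_eq] at h7
      rw [hper] at h6
      have hne : al d x ≠ 0 := by rw [← hα]; positivity
      exact mul_right_cancel₀ hne (h6.symm.trans h7)
    rw [hprod, h4]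
    have hYr : (u : ℝ) = Q * Y := by exact_mod_cast hYz
    push_cast
    rw [hYr]
    have : (Q : ℝ) * Y * α + v = Y * (Q * α) + v := by ring
    rw [this, hQα]
    ring

end Pool.Per
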