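import Mathlib

/-!
# PER: the period of the continued fraction of `√d` (MP_45b5fd_nt)

Interface.  The mathematical proofs of all modules are in `Paper.md` (same folder).
Every module proves one `XX_Stmt` below (theorem name `xx_proof`), in its own file
`PER/<Seat>/<Mod>.lean` or `PER/<Mod>.lean`, and may take the statements named in column
`uses` as hypotheses.
-/

set_option autoImplicit false

open Finset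

namespace Pool.Per

/-! ## 1. Abstract multiplicative sums -/

/-- nonnegative, `f 1 ≤ 1`, submultiplicative on coprime arguments -/
structure SubM (f : ℕ → ℝ) : Prop where
  nonneg : ∀ n, 0 ≤ f n
  one : f 1 ≤ 1
  mul : ∀ a b : ℕ, 0 < a → 0 < b → a.Coprime b → f (a * b) ≤ f a * f b

/-- the sum of `f(q) log q` over the prime powers `q ≤ N` is at most `C N` -/
def PowSum (C : ℝ) (f : ℕ → ℝ) : Prop :=
  ∀ N : ℕ, ∑ p ∈ Nat.primesLE N, ∑ a ∈ Icc 1 (Nat.log p N),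
    f (p ^ a) * Real.log ((p : ℝ) ^ a) ≤ C * N

/-- **HR** (Halberstam–Richert) -/
def HR_Stmt : Prop :=
  ∀ (f : ℕ → ℝ) (C : ℝ), 0 ≤ C → SubM f → PowSum C f → ∀ N : ℕ, 1 ≤ N →
    Real.log N * ∑ n ∈ Icc 1 N, f n ≤ (C + 1) * N * ∑ n ∈ Icc 1 N, f n / n

/-- **EP** (Euler product bound) -/
def EP_Stmt : Prop :=
  ∀ f : ℕ → ℝ, SubM f → ∀ N : ℕ, ∑ n ∈ Icc 1 N, f n / n ≤
    ∏ p ∈ Nat.primesLE N, (1 + ∑ a ∈ Icc 1 (Nat.log p N), f (p ^ a) / (p : ℝ) ^ a)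

/-- **WS** (the weighted sum) -/
def WS_Stmt : Prop :=
  ∀ C : ℝ, 0 ≤ C → ∃ C' : ℝ, 0 ≤ C' ∧ ∀ f : ℕ → ℝ, SubM f → PowSum C f → ∀ N : ℕ, 1 ≤ N →
    Real.log N * ∑ n ∈ Icc 1 N, f n * (1 + Real.log ((N : ℝ) / n)) ≤
      C' * N * ∑ n ∈ Icc 1 N, f n / n

/-- **MERT** (Mertens' second theorem) -/
def MERT_Stmt : Prop :=
  ∃ C : ℝ, 0 ≤ C ∧ ∀ N : ℕ, 2 ≤ N →
    |∑ p ∈ Nat.primesLE N, 1 / (p : ℝ) - Real.log (Real.log N)| ≤ C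

/-- **GB** -/
def GB_Stmt : Prop :=
  ∃ C : ℝ, 0 ≤ C ∧ ∀ f : ℕ → ℝ, (∀ n, 0 ≤ f n) →
    (∀ p a : ℕ, p.Prime → 1 ≤ a → f (p ^ a) ≤ 2 * (p : ℝ) ^ (a / 2)) → PowSum C f

/-! ## 2. Primitive roots of `d` modulo `n` -/

/-- `x² ≡ d` modulo `n`, and no prime divides all of `n`, `2x`, `(d - x²)/n` -/
def IsPR (d n x : ℕ) : Prop :=
  (n : ℤ) ∣ (d : ℤ) - (x : ℤ) ^ 2 ∧
    ∀ p : ℕ, p.Prime → p ∣ n → p ∣ 2 * x → ¬ (((p * n : ℕ) : ℤ) ∣ (d : ℤ) - (x : ℤ) ^ 2)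

open Classical in
/-- number of primitive roots of `d` modulo `n` -/
noncomputable def pr (d n : ℕ) : ℕ := ((range n).filter (fun x => IsPR d n x)).card

/-- **ROOT** -/
def ROOT_Stmt : Prop :=
  (∀ d : ℕ, SubM (fun n => (pr d n : ℝ))) ∧
  (∀ d p a : ℕ, p.Prime → pr d (p ^ a) ≤ 2 * p ^ (a / 2)) ∧
  (∀ d p a : ℕ, p.Prime → p ≠ 2 → ¬ p ∣ d → 1 ≤ a →
    ((pr d (p ^ a) : ℕ) : ℤ) ≤ 1 + jacobiSym (d : ℤ) p)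

/-- **MASS** -/
def MASS_Stmt : Prop :=
  ∀ d p A : ℕ, p.Prime → p ∣ 2 * d →
    ∑ a ∈ Icc 1 A, ((pr d (p ^ a) : ℕ) : ℝ) / (p : ℝ) ^ a ≤ 1 / (p : ℝ)

/-- the character sum over the primes up to `N` that do not divide `2d` -/
noncomputable def chiSum (d N : ℕ) : ℝ :=
  ∑ p ∈ (Nat.primesLE N).filter (fun p => ¬ p ∣ 2 * d), ((jacobiSym (d : ℤ) p : ℤ) : ℝ) / p

/-- **ANA** (from ROOT, MASS, GB, EP, WS, MERT) -/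
def ANA_Stmt : Prop :=
  ∃ C : ℝ, 0 < C ∧ ∀ d : ℕ, ¬ IsSquare d →
    ∑ Q ∈ Icc 1 (Nat.sqrt d), ((pr d Q : ℕ) : ℝ) * Real.log (4 * Real.sqrt d / Q) ≤
      C * Real.sqrt d * Real.exp (chiSum d (Nat.sqrt d))

/-! ## 3. The continued fraction of `√d` -/

/-- the pair `x = (P, Q)` stands for the reduced number `(P + √d)/Q`; the associated form
`(Q, 2P, -(d - P²)/Q)` is primitive -/
structure Red (d : ℕ) (x : ℕ × ℕ) : Prop where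
  le : x.1 ≤ Nat.sqrt d
  lt : Nat.sqrt d < x.1 + x.2
  le2 : x.2 ≤ x.1 + Nat.sqrt d
  dvd : x.2 ∣ d - x.1 ^ 2
  prim : ∀ p : ℕ, p.Prime → ¬ (p ∣ x.2 ∧ p ∣ 2 * x.1 ∧ p ∣ (d - x.1 ^ 2) / x.2)

/-- partial quotient -/
def pq (d : ℕ) (x : ℕ × ℕ) : ℕ := (x.1 + Nat.sqrt d) / x.2

/-- first involution -/
def fS (d : ℕ) (x : ℕ × ℕ) : ℕ × ℕ := (pq d x * x.2 - x.1, x.2)

/-- second involution -/
def fG (d : ℕ) (x : ℕ × ℕ) : ℕ × ℕ := (x.1, (d - x.1 ^ 2) / x.2)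

/-- the continued fraction map -/
def step (d : ℕ) (x : ℕ × ℕ) : ℕ × ℕ := fG d (fS d x)

/-- the value -/
noncomputable def al (d : ℕ) (x : ℕ × ℕ) : ℝ := (x.1 + Real.sqrt d) / x.2

/-- the conjugate value -/
noncomputable def co (d : ℕ) (x : ℕ × ℕ) : ℝ := (x.1 - Real.sqrt d) / x.2

/-- the principal point -/
def x0 (d : ℕ) : ℕ × ℕ := (Nat.sqrt d, 1)

/-- **RED** -/
def RED_Stmt : Prop :=
  ∀ d : ℕ, ¬ IsSquare d → Red d (x0 d) ∧ ∀ x : ℕ × ℕ, Red d x →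
    0 < x.1 ∧ 0 < x.2 ∧ 0 < d - x.1 ^ 2 ∧ 1 ≤ pq d x ∧
    Red d (fS d x) ∧ fS d (fS d x) = x ∧ Red d (fG d x) ∧ fG d (fG d x) = x ∧
    1 < al d x ∧ -1 < co d x ∧ co d x < 0 ∧
    al d x = pq d x + 1 / al d (step d x) ∧ co d x = pq d x + 1 / co d (step d x)

/-- **CF** (uses RED): a period of the orbit of `x0` is a period of the partial quotients of
`√d`, in the form of the frozen statement -/
def CF_Stmt : Prop :=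
  ∀ d : ℕ, ¬ IsSquare d → ∀ n : ℕ, (step d)^[n] (x0 d) = x0 d → ∀ i : ℕ,
    (GenContFract.of (Real.sqrt (d : ℝ))).partDens.get? (i + n) =
      (GenContFract.of (Real.sqrt (d : ℝ))).partDens.get? i

/-- **UNIT** (uses RED): the product of the values over a period is a unit of `ℤ[√d]` -/
def UNIT_Stmt : Prop :=
  ∀ d : ℕ, ¬ IsSquare d → ∀ x : ℕ × ℕ, Red d x → ∀ n : ℕ, 1 ≤ n → (step d)^[n] x = x →
    ∃ X Y : ℕ, 1 ≤ Y ∧ ((X : ℤ) ^ 2 - d * (Y : ℤ) ^ 2 = 1 ∨ (X : ℤ) ^ 2 - d * (Y : ℤ) ^ 2 = -1) ∧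
      ∏ i ∈ range n, al d ((step d)^[i] x) = X + Y * Real.sqrt d

/-- **PELL** (uses RED): every unit comes from a period of `x0` -/
def PELL_Stmt : Prop :=
  ∀ d : ℕ, ¬ IsSquare d → ∀ X Y : ℕ, 1 ≤ Y →
    ((X : ℤ) ^ 2 - d * (Y : ℤ) ^ 2 = 1 ∨ (X : ℤ) ^ 2 - d * (Y : ℤ) ^ 2 = -1) →
    ∃ n : ℕ, 1 ≤ n ∧ (step d)^[n] (x0 d) = x0 d ∧
      ∏ i ∈ range n, al d ((step d)^[i] (x0 d)) = X + Y * Real.sqrt d

/-- **AMB**: many reduced points are fixed by the first involution -/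
def AMB_Stmt : Prop :=
  ∀ d : ℕ, ¬ IsSquare d → ∃ F : Finset (ℕ × ℕ), (∀ x ∈ F, Red d x ∧ fS d x = x) ∧
    2 ^ d.primeFactors.card ≤ 2 * F.card

open Classical in
/-- the finite set of reduced points -/
noncomputable def Rset (d : ℕ) : Finset (ℕ × ℕ) :=
  ((range (Nat.sqrt d + 1)) ×ˢ (range (2 * Nat.sqrt d + 1))).filter (fun x => Red d x)

/-- **GEN** (uses RED, UNIT, PELL, AMB) -/
def GEN_Stmt : Prop :=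
  ∃ c : ℝ, 0 < c ∧ ∀ d : ℕ, ¬ IsSquare d → ∃ n : ℕ, 0 < n ∧ (step d)^[n] (x0 d) = x0 d ∧
    c * 2 ^ d.primeFactors.card * n ≤ ∑ x ∈ Rset d, Real.log (al d x)

/-- **RSUM** (uses RED) -/
def RSUM_Stmt : Prop :=
  ∀ d : ℕ, ¬ IsSquare d → ∑ x ∈ Rset d, Real.log (al d x) ≤
    ∑ Q ∈ Icc 1 (Nat.sqrt d), ((pr d Q : ℕ) : ℝ) * Real.log (4 * Real.sqrt d / Q)

/-! ## 4. The large sieve -/

/-- **ORTH**: an incomplete sum of a nonprincipal real character -/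
def ORTH_Stmt : Prop :=
  ∀ D N : ℕ, ¬ IsSquare D →
    |∑ n ∈ (Icc 1 N).filter Odd, ((jacobiSym (D : ℤ) n : ℤ) : ℝ)| ≤ 4 * D

/-- **DUAL** (uses ORTH) -/
def DUAL_Stmt : Prop :=
  ∀ (X N : ℕ) (M : Finset ℕ), (∀ m ∈ M, Squarefree m ∧ m ≤ X) → ∀ a : ℕ → ℝ,
    ∑ m ∈ M, (∑ n ∈ (Icc 1 N).filter Odd, a n * ((jacobiSym (m : ℤ) n : ℤ) : ℝ)) ^ 2 ≤
      ((N : ℝ) + 4 * (X : ℝ) ^ 3) * ∑ n ∈ (Icc 1 N).filter Odd, (a n) ^ 2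

/-- dyadic block of the character sum over primes -/
noncomputable def T (m j : ℕ) : ℝ :=
  ∑ p ∈ (Ioc (2 ^ j) (2 ^ (j + 1))).filter Nat.Prime, ((jacobiSym (m : ℤ) p : ℤ) : ℝ) / p

/-- **MOM** (uses DUAL) -/
def MOM_Stmt : Prop :=
  ∀ (X j k : ℕ) (M : Finset ℕ), 1 ≤ j → 1 ≤ k → (∀ m ∈ M, Squarefree m ∧ m ≤ X) →
    ∑ m ∈ M, (T m j) ^ (2 * k) ≤
      ((2 : ℝ) ^ ((j + 1) * k) + 4 * (X : ℝ) ^ 3) * ((k : ℝ) / 2 ^ j) ^ k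

/-- `m` is bad if some dyadic block is large -/
def Bad (A m : ℕ) : Prop :=
  ∃ j : ℕ, 1 ≤ j ∧ A * Nat.log 2 (Nat.log 2 m) ≤ j ∧ j ≤ 8 * Nat.log 2 m ∧
    1 / (j : ℝ) ^ 2 < |T m j|

open Classical in
/-- **CNT** (uses MOM): few squarefree `m` are bad -/
def CNT_Stmt : Prop :=
  ∀ ε : ℝ, 0 < ε → ∃ A : ℕ, 1 ≤ A ∧ ∃ C : ℝ, 0 < C ∧ ∀ X : ℕ,
    (((Icc 1 X).filter (fun m => Squarefree m ∧ Bad A m)).card : ℝ) ≤ C * (X : ℝ) ^ ε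

/-! ## 5. Primes that are large compared with `m` -/

/-- the character attached to `m` -/
def ch (m n : ℕ) : ℤ := if n % 2 = 1 then jacobiSym (m : ℤ) n else 0

/-- `1 * ch m` -/
def gg (m n : ℕ) : ℤ := ∑ e ∈ n.divisors, ch m e

/-- partial sum of `L(1, ch m)` -/
noncomputable def V (m N : ℕ) : ℝ := ∑ a ∈ Icc 1 N, ((ch m a : ℤ) : ℝ) / a

/-- **HYP** (uses ORTH): hyperbola method -/
def HYP_Stmt : Prop :=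
  (∀ m n : ℕ, 0 ≤ gg m n) ∧ (∀ m : ℕ, SubM (fun n => ((gg m n : ℤ) : ℝ))) ∧
  (∀ m a b : ℕ, a.Coprime b → gg m (a * b) = gg m a * gg m b) ∧
  (∀ m p a : ℕ, p.Prime → 1 ≤ a → ((gg m (p ^ a) : ℤ) : ℝ) ≤ 2 * (p : ℝ) ^ (a / 2)) ∧
  ∃ C : ℝ, 0 < C ∧ ∀ m : ℕ, ¬ IsSquare m →
    (∀ A B : ℕ, 1 ≤ A → A ≤ B → |V m A - V m B| ≤ C * m / A) ∧
    (∀ N : ℕ, 1 ≤ N → |∑ n ∈ Icc 1 N, ((gg m n : ℤ) : ℝ) - N * V m (Nat.sqrt N)| ≤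
      C * m * Real.sqrt N)

/-- **RANK** (uses MERT): lower bound by Rankin's trick -/
def RANK_Stmt : Prop :=
  ∃ B : ℕ, 1 ≤ B ∧ ∃ C : ℝ, 0 < C ∧ ∀ g : ℕ → ℝ, (∀ n, 0 ≤ g n) → g 1 = 1 →
    (∀ a b : ℕ, a.Coprime b → g (a * b) = g a * g b) → (∀ p : ℕ, p.Prime → g p ≤ 2) →
    ∀ x : ℕ, 2 ≤ x → Real.exp (∑ p ∈ Nat.primesLE x, g p / p) ≤
      C * ∑ n ∈ Icc 1 (x ^ B), g n / n

/-- **TAIL** (uses HYP, RANK, HR, EP, GB, MERT) -/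
def TAIL_Stmt : Prop :=
  ∃ C : ℝ, ∀ m y x : ℕ, ¬ IsSquare m → m ^ 4 ≤ y → y ≤ x →
    ∑ p ∈ (Ioc y x).filter Nat.Prime, ((jacobiSym (m : ℤ) p : ℤ) : ℝ) / p ≤ C

/-- **CHI** (uses TAIL) -/
def CHI_Stmt : Prop :=
  ∃ B : ℝ, ∀ A m J x : ℕ, ¬ IsSquare m → ¬ Bad A m → 1 ≤ J →
    A * Nat.log 2 (Nat.log 2 m) ≤ J →
    ∑ p ∈ (Ioc (2 ^ J) x).filter Nat.Prime, ((jacobiSym (m : ℤ) p : ℤ) : ℝ) / p ≤ B

/-- **KER** (uses CHI, MERT) -/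
def KER_Stmt : Prop :=
  ∃ B : ℝ, 0 < B ∧ ∀ A m k : ℕ, 1 ≤ A → Squarefree m → 1 < m → ¬ Bad A m → 0 < k →
    16 ≤ m * k ^ 2 →
    Real.exp (chiSum (m * k ^ 2) (Nat.sqrt (m * k ^ 2))) ≤
      B * A * Real.log (Real.log ((m * k ^ 2 : ℕ) : ℝ))

/-! ## 6. The final statement -/

/-- a period of the partial quotients, in the form of the frozen statement -/
def IsPer (d p : ℕ) : Prop :=
  0 < p ∧ ∀ n : ℕ, (GenContFract.of (Real.sqrt (d : ℝ))).partDens.get? (n + p) =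
    (GenContFract.of (Real.sqrt (d : ℝ))).partDens.get? n

/-- **FIN** -/
def FIN_Stmt : Prop :=
  (∃ C : ℝ, 0 < C ∧ ∀ d : ℕ, ¬ IsSquare d → ∃ p : ℕ, IsPer d p ∧
    (2 : ℝ) ^ d.primeFactors.card * p ≤
      C * Real.sqrt d * Real.exp (chiSum d (Nat.sqrt d))) ∧
  (∀ ε : ℝ, 0 < ε → ∃ C : ℝ, 0 < C ∧ ∃ E : Set ℕ,
    (∀ X : ℕ, (({m | m ∈ E ∧ m ≤ X} : Set ℕ).ncard : ℝ) ≤ C * (X : ℝ) ^ ε) ∧
    ∀ m k : ℕ, Squarefree m → 1 < m → m ∉ E → 0 < k → 16 ≤ m * k ^ 2 →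
      ∃ p : ℕ, IsPer (m * k ^ 2) p ∧
        (2 : ℝ) ^ (m * k ^ 2).primeFactors.card * p ≤
          C * Real.sqrt ((m * k ^ 2 : ℕ) : ℝ) * Real.log (Real.log ((m * k ^ 2 : ℕ) : ℝ)))

end Pool.Per
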