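import Mathlib
import Pool.Agent.Lib.MP_45b5fd_nt.PER.Iface

/-!
# PER, module WS: the weighted sum

`ws_proof : HR_Stmt → WS_Stmt`.  With `F(t) = ∑_{n ≤ t} f(n)` and `E = ∑_{n ≤ N} f(n)/n`:
`1 + log(N/n) ≤ 2 #{i : n 2^i ≤ N}`, so the weighted sum is at most `2 ∑_i F(N/2^i)`, and
`log N · F(N/2^i) ≤ (C + 2 + i) (N/2^i) E` by HR at `N/2^i` and the trivial bound.
-/

set_option autoImplicit false

open Finset

namespace Pool.Per

namespace Ws

/-- the number of dyadic levels -/
lemma level_le (N n : ℕ) (hn : 1 ≤ n) (hnN : n ≤ N) :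
    1 + Real.log ((N : ℝ) / n) ≤
      2 * (((range (N + 1)).filter (fun i => n * 2 ^ i ≤ N)).card : ℝ) := by
  have hn0 : (0 : ℝ) < n := by exact_mod_cast hn
  have hN0 : (0 : ℝ) < N := by exact_mod_cast (lt_of_lt_of_le hn hnN)
  set m := N / n with hm
  have hm1 : 1 ≤ m := by
    rw [hm]; exact (Nat.one_le_div_iff hn).2 hnN
  have hmN : m ≤ N := Nat.div_le_self N n
  set l := Nat.log 2 m with hl
  have hlN : l < N := by
    calc l < 2 ^ l := Nat.lt_two_pow_self
      _ ≤ m := Nat.pow_log_le_self 2 (by omega)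
      _ ≤ N := hmN
  have hsub : range (l + 1) ⊆ (range (N + 1)).filter (fun i => n * 2 ^ i ≤ N) := by
    intro i hi
    rw [mem_range] at hi
    rw [mem_filter, mem_range]
    refine ⟨by omega, ?_⟩
    have h1 : 2 ^ i ≤ m :=
      le_trans (Nat.pow_le_pow_right (by norm_num) (by omega)) (Nat.pow_log_le_self 2 (by omega))
    calc n * 2 ^ i ≤ n * m := Nat.mul_le_mul_left n h1
      _ ≤ N := Nat.mul_div_le N n
  have hcard : (l + 1 : ℝ) ≤ (((range (N + 1)).filter (fun i => n * 2 ^ i ≤ N)).card : ℝ) := by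
    have h := card_le_card hsub
    rw [card_range] at h
    exact_mod_cast h
  have hlt : (N : ℝ) / n ≤ 2 ^ (l + 1) := by
    have h1 : m < 2 ^ (l + 1) := Nat.lt_pow_succ_log_self (by norm_num) m
    have h2 : N < n * 2 ^ (l + 1) := by
      have h3 : N < n * (m + 1) := by
        rw [hm]; exact Nat.lt_mul_div_succ N hn
      calc N < n * (m + 1) := h3
        _ ≤ n * 2 ^ (l + 1) := Nat.mul_le_mul_left n h1
    rw [div_le_iff₀ hn0]
    have h4 : (N : ℝ) ≤ n * 2 ^ (l + 1) := by exact_mod_cast h2.le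
    linarith [mul_comm (n : ℝ) (2 ^ (l + 1))]
  have hlog : Real.log ((N : ℝ) / n) ≤ l + 1 := by
    have h1 : Real.log ((N : ℝ) / n) ≤ Real.log (2 ^ (l + 1)) :=
      Real.log_le_log (div_pos hN0 hn0) hlt
    rw [Real.log_pow] at h1
    have h2 : Real.log 2 ≤ 1 := by
      have := Real.log_two_lt_d9; linarith
    have h3 : ((l + 1 : ℕ) : ℝ) * Real.log 2 ≤ ((l + 1 : ℕ) : ℝ) * 1 :=
      mul_le_mul_of_nonneg_left h2 (Nat.cast_nonneg _)
    push_cast at h1 h3
    linarith
  have hl0 : (0 : ℝ) ≤ l := Nat.cast_nonneg _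
  linarith

/-- `∑_{i < k} (a + i)/2^i` -/
lemma geom_sum (a : ℝ) (k : ℕ) :
    ∑ i ∈ range k, (a + i) / 2 ^ i = 2 * (a + 1) - (2 * (a + 1) + 2 * k) / 2 ^ k := by
  induction k with
  | zero => simp
  | succ k ih =>
    rw [sum_range_succ, ih]
    have h : (2 : ℝ) ^ k ≠ 0 := by positivity
    rw [pow_succ]
    push_cast
    field_simp
    ring

end Ws

open Ws

theorem ws_proof (hr : HR_Stmt) : WS_Stmt := by
  intro C hC
  refine ⟨4 * C + 12, by linarith, ?_⟩
  intro f hf hP N hN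
  have hN0 : (0 : ℝ) < N := by exact_mod_cast hN
  have hlogN : 0 ≤ Real.log N := Real.log_nonneg (by exact_mod_cast hN)
  set E : ℝ := ∑ n ∈ Icc 1 N, f n / n with hE
  have hE0 : 0 ≤ E := sum_nonneg fun n _ => div_nonneg (hf.nonneg n) (Nat.cast_nonneg n)
  -- the partial sums
  have hEmono : ∀ M : ℕ, M ≤ N → ∑ n ∈ Icc 1 M, f n / n ≤ E := by
    intro M hM
    refine sum_le_sum_of_subset_of_nonneg (Icc_subset_Icc_right hM) ?_
    intro n _ _
    exact div_nonneg (hf.nonneg n) (Nat.cast_nonneg n)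
  have htriv : ∀ M : ℕ, M ≤ N → ∑ n ∈ Icc 1 M, f n ≤ M * E := by
    intro M hM
    calc ∑ n ∈ Icc 1 M, f n ≤ ∑ n ∈ Icc 1 M, (M : ℝ) * (f n / n) := by
          refine sum_le_sum fun n hn => ?_
          rw [mem_Icc] at hn
          have hn0 : (0 : ℝ) < n := by exact_mod_cast hn.1
          have h1 : (1 : ℝ) ≤ (M : ℝ) / n := by
            rw [le_div_iff₀ hn0]
            have : (n : ℝ) ≤ M := by exact_mod_cast hn.2
            linarith
          calc f n = 1 * f n := by ring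
            _ ≤ (M : ℝ) / n * f n := mul_le_mul_of_nonneg_right h1 (hf.nonneg n)
            _ = (M : ℝ) * (f n / n) := by ring
      _ = M * ∑ n ∈ Icc 1 M, f n / n := by rw [mul_sum]
      _ ≤ M * E := mul_le_mul_of_nonneg_left (hEmono M hM) (Nat.cast_nonneg M)
  -- one dyadic level
  have hlevel : ∀ i : ℕ, Real.log N * ∑ n ∈ Icc 1 (N / 2 ^ i), f n ≤
      (N * E) * ((C + 2 + i) / 2 ^ i) := by
    intro i
    set M := N / 2 ^ i with hM
    have hMN : M ≤ N := Nat.div_le_self N _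
    have h2i : (0 : ℝ) < 2 ^ i := by positivity
    have hMle : (M : ℝ) ≤ N / 2 ^ i := by
      rw [le_div_iff₀ h2i]
      have : M * 2 ^ i ≤ N := Nat.div_mul_le_self N _
      exact_mod_cast this
    have hci : (0 : ℝ) ≤ C + 2 + i := by
      have : (0 : ℝ) ≤ i := Nat.cast_nonneg i
      linarith
    rcases Nat.eq_zero_or_pos M with h0 | hpos
    · rw [h0]
      simp only [Icc_eq_empty_of_lt (by norm_num : 0 < 1), sum_empty, mul_zero]
      exact mul_nonneg (mul_nonneg hN0.le hE0) (div_nonneg hci h2i.le)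
    · have hM0 : (0 : ℝ) < M := by exact_mod_cast hpos
      have hF0 : 0 ≤ ∑ n ∈ Icc 1 M, f n := sum_nonneg fun n _ => hf.nonneg n
      -- `log N ≤ log M + (i + 1)`
      have hlog : Real.log N ≤ Real.log M + (i + 1) := by
        have h1 : N < 2 ^ i * (M + 1) := by
          rw [hM]; exact Nat.lt_mul_div_succ N (by positivity)
        have h2 : (N : ℝ) ≤ 2 ^ (i + 1) * M := by
          have h3 : N ≤ 2 ^ (i + 1) * M := by
            calc N ≤ 2 ^ i * (M + 1) := h1.le
              _ ≤ 2 ^ i * (2 * M) := Nat.mul_le_mul_left _ (by omega)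
              _ = 2 ^ (i + 1) * M := by ring
          exact_mod_cast h3
        have h4 : Real.log N ≤ Real.log (2 ^ (i + 1) * M) := Real.log_le_log hN0 h2
        rw [Real.log_mul (by positivity) hM0.ne', Real.log_pow] at h4
        have h5 : Real.log 2 ≤ 1 := by
          have := Real.log_two_lt_d9; linarith
        have h6 : ((i + 1 : ℕ) : ℝ) * Real.log 2 ≤ ((i + 1 : ℕ) : ℝ) * 1 :=
          mul_le_mul_of_nonneg_left h5 (Nat.cast_nonneg _)
        push_cast at h4 h6
        linarith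
      have hHR := hr f C hC hf hP M hpos
      have hHR' : Real.log M * ∑ n ∈ Icc 1 M, f n ≤ (C + 1) * M * E := by
        refine le_trans hHR ?_
        exact mul_le_mul_of_nonneg_left (hEmono M hMN)
          (mul_nonneg (by linarith) (Nat.cast_nonneg M))
      have hi0 : (0 : ℝ) ≤ i + 1 := by
        have : (0 : ℝ) ≤ i := Nat.cast_nonneg i
        linarith
      calc Real.log N * ∑ n ∈ Icc 1 M, f n
          ≤ (Real.log M + (i + 1)) * ∑ n ∈ Icc 1 M, f n :=
            mul_le_mul_of_nonneg_right hlog hF0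
        _ = Real.log M * ∑ n ∈ Icc 1 M, f n + (i + 1) * ∑ n ∈ Icc 1 M, f n := by ring
        _ ≤ (C + 1) * M * E + (i + 1) * (M * E) :=
            add_le_add hHR' (mul_le_mul_of_nonneg_left (htriv M hMN) hi0)
        _ = (M : ℝ) * ((C + 2 + i) * E) := by ring
        _ ≤ (N / 2 ^ i) * ((C + 2 + i) * E) :=
            mul_le_mul_of_nonneg_right hMle (mul_nonneg hci hE0)
        _ = (N * E) * ((C + 2 + i) / 2 ^ i) := by ring
  -- the weighted sum is at most twice the sum over the levels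
  have hsum : ∑ n ∈ Icc 1 N, f n * (1 + Real.log ((N : ℝ) / n)) ≤
      2 * ∑ i ∈ range (N + 1), ∑ n ∈ Icc 1 (N / 2 ^ i), f n := by
    calc ∑ n ∈ Icc 1 N, f n * (1 + Real.log ((N : ℝ) / n))
        ≤ ∑ n ∈ Icc 1 N, f n *
            (2 * (((range (N + 1)).filter (fun i => n * 2 ^ i ≤ N)).card : ℝ)) := by
          refine sum_le_sum fun n hn => ?_
          rw [mem_Icc] at hn
          exact mul_le_mul_of_nonneg_left (level_le N n hn.1 hn.2) (hf.nonneg n)
      _ = 2 * ∑ n ∈ Icc 1 N, ∑ i ∈ range (N + 1), (if n * 2 ^ i ≤ N then f n else 0) := by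
          rw [mul_sum]
          refine sum_congr rfl fun n _ => ?_
          rw [← sum_filter, sum_const, nsmul_eq_mul]
          ring
      _ = 2 * ∑ i ∈ range (N + 1), ∑ n ∈ Icc 1 N, (if n * 2 ^ i ≤ N then f n else 0) := by
          rw [sum_comm]
      _ = 2 * ∑ i ∈ range (N + 1), ∑ n ∈ Icc 1 (N / 2 ^ i), f n := by
          congr 1
          refine sum_congr rfl fun i _ => ?_
          rw [← sum_filter]
          refine sum_congr ?_ fun _ _ => rfl
          ext n
          rw [mem_filter, mem_Icc, mem_Icc, Nat.le_div_iff_mul_le (by positivity)]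
          constructor
          · rintro ⟨⟨h1, _⟩, h3⟩
            exact ⟨h1, h3⟩
          · rintro ⟨h1, h3⟩
            refine ⟨⟨h1, ?_⟩, h3⟩
            calc n = n * 1 := (mul_one n).symm
              _ ≤ n * 2 ^ i := Nat.mul_le_mul_left n Nat.one_le_two_pow
              _ ≤ N := h3
  have hgeo : ∑ i ∈ range (N + 1), (C + 2 + (i : ℝ)) / 2 ^ i ≤ 2 * C + 6 := by
    rw [geom_sum (C + 2) (N + 1)]
    have : (0 : ℝ) ≤ (2 * (C + 2 + 1) + 2 * ((N + 1 : ℕ) : ℝ)) / 2 ^ (N + 1) := by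
      apply div_nonneg _ (by positivity)
      have : (0 : ℝ) ≤ ((N + 1 : ℕ) : ℝ) := Nat.cast_nonneg _
      linarith
    linarith
  calc Real.log N * ∑ n ∈ Icc 1 N, f n * (1 + Real.log ((N : ℝ) / n))
      ≤ Real.log N * (2 * ∑ i ∈ range (N + 1), ∑ n ∈ Icc 1 (N / 2 ^ i), f n) :=
        mul_le_mul_of_nonneg_left hsum hlogN
    _ = 2 * ∑ i ∈ range (N + 1), Real.log N * ∑ n ∈ Icc 1 (N / 2 ^ i), f n := by
        rw [← mul_sum]; ring
    _ ≤ 2 * ∑ i ∈ range (N + 1), (N * E) * ((C + 2 + i) / 2 ^ i) :=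
        mul_le_mul_of_nonneg_left (sum_le_sum fun i _ => hlevel i) (by norm_num)
    _ = 2 * ((N * E) * ∑ i ∈ range (N + 1), (C + 2 + (i : ℝ)) / 2 ^ i) := by
        rw [← mul_sum]
    _ ≤ 2 * ((N * E) * (2 * C + 6)) := by
        refine mul_le_mul_of_nonneg_left ?_ (by norm_num)
        exact mul_le_mul_of_nonneg_left hgeo (mul_nonneg hN0.le hE0)
    _ = (4 * C + 12) * N * E := by ring

end Pool.Per
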