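import Pool.Agent.Lib.MP_45b5fd_nt.PER.FIN
import Pool.Agent.Lib.MP_45b5fd_nt.PER.AMB
import Pool.Agent.Lib.MP_45b5fd_nt.PER.ANA
import Pool.Agent.Lib.MP_45b5fd_nt.PER.CF
import Pool.Agent.Lib.MP_45b5fd_nt.PER.EP
import Pool.Agent.Lib.MP_45b5fd_nt.PER.GB
import Pool.Agent.Lib.MP_45b5fd_nt.PER.GEN
import Pool.Agent.Lib.MP_45b5fd_nt.PER.HR
import Pool.Agent.Lib.MP_45b5fd_nt.PER.MASS
import Pool.Agent.Lib.MP_45b5fd_nt.PER.MERT
import Pool.Agent.Lib.MP_45b5fd_nt.PER.PELL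
import Pool.Agent.Lib.MP_45b5fd_nt.PER.RED
import Pool.Agent.Lib.MP_45b5fd_nt.PER.ROOT
import Pool.Agent.Lib.MP_45b5fd_nt.PER.RSUM
import Pool.Agent.Lib.MP_45b5fd_nt.PER.UNIT
import Pool.Agent.Lib.MP_45b5fd_nt.PER.WS

/-!
# The bound for every non-square `d`: the rows of the first part together
-/

set_option autoImplicit false

namespace Pool.Per.All

theorem red : RED_Stmt := RED.red_proof

theorem cf : CF_Stmt := CF.cf_proof red

theorem gen : GEN_Stmt := Gen.gen_proof red (unit_proof red) (PELL.pell_proof red) amb_proof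

theorem rsum : RSUM_Stmt := rsum_proof red

theorem ana : ANA_Stmt :=
  Ana.ana_proof root_proof mass_proof gb_proof ep_proof (ws_proof HR.hr_proof) mert_proof

/-- the bound for every non-square `d` -/
theorem uni : ∃ C : ℝ, 0 < C ∧ ∀ d : ℕ, ¬ IsSquare d → ∃ p : ℕ, IsPer d p ∧
    (2 : ℝ) ^ d.primeFactors.card * p ≤
      C * Real.sqrt d * Real.exp (∑ q ∈ (Nat.primesLE (Nat.sqrt d)).filter
        (fun q => ¬ q ∣ 2 * d), ((jacobiSym (d : ℤ) q : ℤ) : ℝ) / q) :=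
  FIN.universal cf gen rsum ana

end Pool.Per.All
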