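import Pool.Agent.Lib.MP_45b5fd_nt.PER.Iface

/-!
# PER, second stage: large sieve with sieve weights (proofs in `Paper2.md`)
-/

set_option autoImplicit false

open Finset

namespace Pool.Per

/-- **SW**: Selberg weights, dimension one, odd numbers only -/
def SW_Stmt : Prop :=
  ∃ C : ℝ, 0 < C ∧ ∀ z : ℕ, 2 ≤ z → ∃ w : ℕ → ℝ, w 1 = 1 ∧ (∀ d, |w d| ≤ 1) ∧
    (∀ d, w d ≠ 0 → Odd d ∧ d ≤ z) ∧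
    ∑ a ∈ Icc 1 z, ∑ b ∈ Icc 1 z, w a * w b / (Nat.lcm a b : ℝ) ≤ C / Real.log z

/-- **DW** (uses SW, ORTH): weighted large sieve for numbers without small prime factors -/
def DW_Stmt : Prop :=
  ∃ C : ℝ, 0 < C ∧ ∀ (X N₁ N₂ z : ℕ) (M : Finset ℕ), 2 ≤ z → 1 ≤ X →
    z ^ 2 * X ^ 3 ≤ N₁ → N₁ ≤ N₂ → (∀ m ∈ M, Squarefree m ∧ m ≤ X) → ∀ a : ℕ → ℝ,
    (∀ n, a n ≠ 0 → ∀ p : ℕ, p.Prime → p ∣ n → z < p) →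
    ∑ m ∈ M, (∑ n ∈ (Ioc N₁ N₂).filter Odd, a n * ((jacobiSym (m : ℤ) n : ℤ) : ℝ)) ^ 2 ≤
      C * (1 + Real.log ((N₂ : ℝ) / N₁) / Real.log z) *
        ∑ n ∈ (Ioc N₁ N₂).filter Odd, (n : ℝ) * (a n) ^ 2

/-- block of the character sum over primes, with doubling exponents -/
noncomputable def T2 (m i : ℕ) : ℝ :=
  ∑ p ∈ (Ioc (2 ^ (2 ^ i)) (2 ^ (2 ^ (i + 1)))).filter Nat.Prime,
    ((jacobiSym (m : ℤ) p : ℤ) : ℝ) / p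

/-- **MW** (uses DW, MERT) -/
def MW_Stmt : Prop :=
  ∃ C : ℝ, 1 ≤ C ∧ ∀ (X i k : ℕ) (M : Finset ℕ), 1 ≤ X → 1 ≤ i → 1 ≤ k →
    2 ^ (2 * 2 ^ i) * X ^ 3 ≤ 2 ^ (k * 2 ^ i) → (∀ m ∈ M, Squarefree m ∧ m ≤ X) →
    ∑ m ∈ M, (T2 m i) ^ (2 * k) ≤ (C * k) ^ k

/-- the last block: `2 ^ topI X > 8 (Nat.log 2 X + 1)` -/
def topI (X : ℕ) : ℕ := Nat.log 2 (8 * (Nat.log 2 X + 1)) + 1

/-- some block above `2 ^ H` is large -/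
def Bad2 (X H m : ℕ) : Prop :=
  ∃ i : ℕ, 1 ≤ i ∧ H ≤ 2 ^ i ∧ i ≤ topI X ∧
    1 / ((topI X + 1 - i : ℕ) : ℝ) ^ 2 < |T2 m i|

open Classical in
/-- **CW** (uses MW) -/
def CW_Stmt : Prop :=
  ∃ C : ℝ, 0 < C ∧ ∀ X H : ℕ, 2 ≤ X → 1 ≤ H →
    (((Icc 1 X).filter (fun m => Squarefree m ∧ Bad2 X H m)).card : ℝ) ≤
      Real.exp (C * (1 + Real.log X / H) * Real.log (2 + Real.log X / H))

/-- **KW** (uses TAIL, MERT) -/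
def KW_Stmt : Prop :=
  ∃ B : ℝ, 0 < B ∧ ∀ X H m k : ℕ, 1 ≤ H → Squarefree m → 1 < m → m ≤ X → ¬ Bad2 X H m →
    0 < k → 16 ≤ m * k ^ 2 →
    Real.exp (chiSum (m * k ^ 2) (Nat.sqrt (m * k ^ 2))) ≤
      B * max (H : ℝ) (Real.log (Real.log ((m * k ^ 2 : ℕ) : ℝ)))

end Pool.Per
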