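import Pool.Agent.Lib.MP_45b5fd_nt.PER.Iface

/-!
# PELL: every unit of `ℤ[√d]` comes from a period of the principal point
-/

set_option autoImplicit false

open Finset

namespace Pool.Per.PELL

/-- `E n = A 0 / (A 0 ... A (n-1))` -/
noncomputable def E (A : ℕ → ℝ) (n : ℕ) : ℝ := A 0 / ∏ i ∈ range n, A i

lemma E_zero (A : ℕ → ℝ) : E A 0 = A 0 := by simp [E]

lemma E_one (A : ℕ → ℝ) (h : A 0 ≠ 0) : E A 1 = 1 := by simp [E, h]

lemma E_succ (A : ℕ → ℝ) (n : ℕ) (h : A n ≠ 0) : E A n = A n * E A (n + 1) := by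
  unfold E
  rw [prod_range_succ]
  by_cases h2 : ∏ i ∈ range n, A i = 0
  · rw [h2]; simp
  · field_simp

lemma E_rec (A : ℕ → ℝ) (a : ℕ → ℕ) (h : ∀ n, A n ≠ 0)
    (hr : ∀ n, A n = a n + 1 / A (n + 1)) (n : ℕ) :
    E A n = a n * E A (n + 1) + E A (n + 2) := by
  have h1 := E_succ A n (h n)
  have h2 := E_succ A (n + 1) (h (n + 1))
  have h3 := h (n + 1)
  rw [h1, hr n, add_mul, h2]
  congr 1
  field_simp

/-- the abstract statement -/
lemma core (A B : ℕ → ℝ) (a Q : ℕ → ℕ) (hA : ∀ n, 1 < A n) (hB : ∀ n, B n < 0)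
    (ha : ∀ n, 1 ≤ a n) (hAr : ∀ n, A n = a n + 1 / A (n + 1))
    (hBr : ∀ n, B n = a n + 1 / B (n + 1)) (hQpos : ∀ n, 0 < Q n) (hQ0 : Q 0 = 1)
    (hQ : ∀ n, A (n + 1) * B (n + 1) * Q (n + 1) = -(Q n : ℝ)) (w : ℝ) (s : ℤ)
    (hA0 : A 0 = s + w) (hB0 : B 0 = s - w) (p q : ℤ) (l l' : ℝ) (hl : l = p + q * w)
    (hl' : l' = p - q * w) (h1 : l * |l'| = 1) (h2 : 0 < l) (h3 : l < 1) :
    ∃ n : ℕ, 1 ≤ n ∧ Q n = 1 ∧ (∏ i ∈ range n, A (i + 1)) * l = 1 := by
  have hAp : ∀ n, 0 < A n := fun n => one_pos.trans (hA n)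
  have hA0' : ∀ n, A n ≠ 0 := fun n => (hAp n).ne'
  have hB0' : ∀ n, B n ≠ 0 := fun n => (hB n).ne
  have hEp : ∀ n, 0 < E A n := by
    intro n
    exact div_pos (hAp 0) (prod_pos fun i _ => hAp i)
  have hEr := E_rec A a hA0' hAr
  have hFr := E_rec B a hB0' hBr
  have hF0 : ∀ n, E B n ≠ 0 := by
    intro n
    exact div_ne_zero (hB0' 0) (prod_ne_zero_iff.mpr fun i _ => hB0' i)
  have hFs : ∀ n, E B n * E B (n + 1) < 0 := by
    intro n
    rw [E_succ B n (hB0' n)]
    have h5 : 0 < E B (n + 1) * E B (n + 1) := mul_self_pos.mpr (hF0 (n + 1))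
    nlinarith [hB n]
  -- the product relation
  have hprod : ∀ n, E A (n + 1) * |E B (n + 1)| = Q n := by
    intro n
    induction n with
    | zero => 
      rw [E_one A (hA0' 0), E_one B (hB0' 0), hQ0]
      simp
    | succ n ih =>
      have e1 := E_succ A (n + 1) (hA0' (n + 1))
      have e2 := E_succ B (n + 1) (hB0' (n + 1))
      rw [e1, e2, abs_mul, abs_of_neg (hB (n + 1))] at ih
      have h5 := hQ n
      have h6 : (0 : ℝ) < Q n := by exact_mod_cast hQpos n
      have h7 : A (n + 1) * B (n + 1) ≠ 0 := mul_ne_zero (hA0' _) (hB0' _)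
      apply mul_left_cancel₀ h7
      rw [h5]
      linear_combination -ih
  -- integer combinations
  have hcomb : ∀ n, ∃ u v : ℤ, l = u * E A n + v * E A (n + 1) ∧
      l' = u * E B n + v * E B (n + 1) := by
    intro n
    induction n with
    | zero =>
      refine ⟨q, p - q * s, ?_, ?_⟩
      · rw [E_zero, E_one A (hA0' 0), hA0, hl]
        push_cast
        ring
      · rw [E_zero, E_one B (hB0' 0), hB0, hl']
        push_cast
        ring
    | succ n ih =>
      obtain ⟨u, v, hu, hv⟩ := ih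
      refine ⟨u * a n + v, u, ?_, ?_⟩
      · rw [hu, hEr n]
        push_cast
        ring
      · rw [hv, hFr n]
        push_cast
        ring
  -- decrease to zero
  have hdec : ∀ k : ℕ, E A (2 * k + 1) ≤ (1 / 2 : ℝ) ^ k := by
    intro k
    induction k with
    | zero =>
      rw [Nat.mul_zero, Nat.zero_add, E_one A (hA0' 0)]
      simp
    | succ k ih =>
      have h5 := hEr (2 * k + 1)
      have h6 : E A (2 * k + 1 + 1) = A (2 * k + 1 + 1) * E A (2 * k + 1 + 2) :=
        E_succ A (2 * k + 1 + 1) (hA0' _)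
      have h7 := hEp (2 * k + 1 + 2)
      have h8 := hEp (2 * k + 1 + 1)
      have h9 : (1 : ℝ) ≤ a (2 * k + 1) := by exact_mod_cast ha _
      have h10 := hA (2 * k + 1 + 1)
      have h11 : 2 * (k + 1) + 1 = 2 * k + 1 + 2 := by ring
      rw [h11, pow_succ]
      have h12 : E A (2 * k + 1 + 2) < E A (2 * k + 1 + 1) := by
        rw [h6]; nlinarith
      nlinarith
  have hex : ∃ N, E A N ≤ l := by
    obtain ⟨k, hk⟩ := exists_pow_lt_of_lt_one h2 (by norm_num : (1 / 2 : ℝ) < 1)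
    exact ⟨2 * k + 1, (hdec k).trans hk.le⟩
  classical
  obtain ⟨N, hN, hmin⟩ : ∃ N, E A N ≤ l ∧ ∀ m < N, l < E A m := by
    refine ⟨Nat.find hex, Nat.find_spec hex, fun m hm => ?_⟩
    exact not_le.mp (Nat.find_min hex hm)
  have hN2 : 2 ≤ N := by
    by_contra hcon
    have h5 : N = 0 ∨ N = 1 := by omega
    rcases h5 with h5 | h5
    · rw [h5, E_zero] at hN
      linarith [hA 0]
    · rw [h5, E_one A (hA0' 0)] at hN
      linarith
  obtain ⟨n, rfl⟩ : ∃ n, N = n + 1 := ⟨N - 1, by omega⟩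
  have hn1 : 1 ≤ n := by omega
  have hln := hmin n (Nat.lt_succ_self n)
  obtain ⟨u, v, hu, hv⟩ := hcomb n
  have hEn := hEp n
  have hEn1 := hEp (n + 1)
  have hkey : |E B (n + 1)| ≤ |l'| := by
    have hv0 : v ≠ 0 := by
      rintro rfl
      rw [Int.cast_zero, zero_mul, add_zero] at hu
      have h5 : 0 < u := by
        by_contra hcon
        have h6 : (u : ℝ) ≤ 0 := by exact_mod_cast not_lt.mp hcon
        nlinarith
      have h6 : (1 : ℝ) ≤ u := by exact_mod_cast h5
      nlinarith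
    have huv : u * v ≤ 0 := by
      by_contra hcon
      rcases pos_and_pos_or_neg_and_neg_of_mul_pos (not_le.mp hcon) with ⟨h5, h6⟩ | ⟨h5, h6⟩
      · have h7 : (1 : ℝ) ≤ u := by exact_mod_cast h5
        have h8 : (1 : ℝ) ≤ v := by exact_mod_cast h6
        nlinarith
      · have h7 : (u : ℝ) < 0 := by exact_mod_cast h5
        have h8 : (v : ℝ) < 0 := by exact_mod_cast h6
        nlinarith
    have huv' : (u : ℝ) * v ≤ 0 := by exact_mod_cast huv
    have hv1 : (1 : ℝ) ≤ (v : ℝ) ^ 2 := by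
      have : 1 ≤ v ^ 2 := by
        have := pow_pos (abs_pos.mpr hv0) 2
        rw [sq_abs] at this
        linarith
      exact_mod_cast this
    rw [← sq_le_sq]
    rw [hv]
    have h5 := hFs n
    have h6 : 0 ≤ (u : ℝ) * v * (E B n * E B (n + 1)) := by nlinarith
    have h7 : 0 ≤ ((u : ℝ) * E B n) ^ 2 := sq_nonneg _
    have h8 : 0 ≤ ((v : ℝ) ^ 2 - 1) * (E B (n + 1)) ^ 2 :=
      mul_nonneg (by linarith) (sq_nonneg _)
    nlinarith
  have hpn := hprod n
  have hQn : (1 : ℝ) ≤ Q n := by exact_mod_cast hQpos n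
  have hFp : 0 < |E B (n + 1)| := abs_pos.mpr (hF0 _)
  have hle : E A (n + 1) * |E B (n + 1)| ≤ l * |l'| :=
    mul_le_mul hN hkey hFp.le h2.le
  have hQ1 : (Q n : ℝ) = 1 := by
    apply le_antisymm _ hQn
    rw [← hpn, ← h1]
    exact hle
  have hl1 : l = E A (n + 1) := by
    apply le_antisymm _ hN
    by_contra hcon
    have h5 := not_le.mp hcon
    have h6 : E A (n + 1) * |E B (n + 1)| < l * |l'| :=
      mul_lt_mul h5 hkey hFp h2.le
    rw [hpn, hQ1, h1] at h6
    exact lt_irrefl _ h6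
  refine ⟨n, hn1, by exact_mod_cast hQ1, ?_⟩
  rw [hl1]
  unfold E
  rw [prod_range_succ']
  have h5 : ∏ i ∈ range n, A (i + 1) ≠ 0 := prod_ne_zero_iff.mpr fun i _ => hA0' _
  have h6 := hA0' 0
  field_simp

theorem pell_proof : RED_Stmt → PELL_Stmt := by
  intro hR d hd X Y hY hn
  obtain ⟨h0, hall⟩ := hR d hd
  have hred : ∀ n, Red d ((step d)^[n] (x0 d)) := by
    intro n
    induction n with
    | zero => exact h0
    | succ n ih =>
      rw [Function.iterate_succ_apply']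
      obtain ⟨-, -, -, -, h5, -⟩ := hall _ ih
      obtain ⟨-, -, -, -, -, -, h6, -⟩ := hall _ h5
      exact h6
  have hd2 : 2 ≤ d := by
    by_contra hcon
    have h5 : d = 0 ∨ d = 1 := by omega
    rcases h5 with rfl | rfl
    · exact hd ⟨0, rfl⟩
    · exact hd ⟨1, rfl⟩
  have hdr : (2 : ℝ) ≤ d := by exact_mod_cast hd2
  have hw : Real.sqrt d * Real.sqrt d = d := Real.mul_self_sqrt (by linarith)
  have hw1 : 1 < Real.sqrt d := by
    rw [Real.lt_sqrt (by norm_num)]
    linarith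
  have hYr : (1 : ℝ) ≤ Y := by exact_mod_cast hY
  have hXr : (0 : ℝ) ≤ X := Nat.cast_nonneg X
  have heta : 1 < (X : ℝ) + Y * Real.sqrt d := by nlinarith
  have hetap : 0 < (X : ℝ) + Y * Real.sqrt d := by linarith
  -- the sign
  obtain ⟨e, he, hne⟩ : ∃ e : ℤ, (e = 1 ∨ e = -1) ∧ (X : ℤ) ^ 2 - d * (Y : ℤ) ^ 2 = e := by
    rcases hn with h | h
    · exact ⟨1, Or.inl rfl, h⟩
    · exact ⟨-1, Or.inr rfl, h⟩
  have hee : (e : ℝ) * e = 1 := by
    rcases he with rfl | rfl <;> norm_num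
  have hner : (X : ℝ) ^ 2 - d * (Y : ℝ) ^ 2 = e := by exact_mod_cast hne
  have hnorm : ((X : ℝ) - Y * Real.sqrt d) * (X + Y * Real.sqrt d) = e := by
    rw [← hner]
    linear_combination (-(Y : ℝ) ^ 2) * hw
  have hinv : (e : ℝ) * ((X : ℝ) - Y * Real.sqrt d) * (X + Y * Real.sqrt d) = 1 := by
    rw [mul_assoc, hnorm, hee]
  have hlp : 0 < (e : ℝ) * ((X : ℝ) - Y * Real.sqrt d) := by
    by_contra hcon
    have := not_lt.mp hcon
    nlinarith
  have hl1 : (e : ℝ) * ((X : ℝ) - Y * Real.sqrt d) < 1 := by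
    by_contra hcon
    have := not_lt.mp hcon
    nlinarith
  obtain ⟨n, hn1, hQn, hpr⟩ := core (fun n => al d ((step d)^[n] (x0 d)))
    (fun n => co d ((step d)^[n] (x0 d))) (fun n => pq d ((step d)^[n] (x0 d)))
    (fun n => ((step d)^[n] (x0 d)).2)
    (fun n => by
      obtain ⟨-, -, -, -, -, -, -, -, h5, -⟩ := hall _ (hred n)
      exact h5)
    (fun n => by
      obtain ⟨-, -, -, -, -, -, -, -, -, -, h5, -⟩ := hall _ (hred n)
      exact h5)
    (fun n => by
      obtain ⟨-, -, -, h5, -⟩ := hall _ (hred n)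
      exact h5)
    (fun n => by
      obtain ⟨-, -, -, -, -, -, -, -, -, -, -, h5, -⟩ := hall _ (hred n)
      simp only [Function.iterate_succ_apply']
      exact h5)
    (fun n => by
      obtain ⟨-, -, -, -, -, -, -, -, -, -, -, -, h5⟩ := hall _ (hred n)
      simp only [Function.iterate_succ_apply']
      exact h5)
    (fun n => by
      obtain ⟨-, h5, -⟩ := hall _ (hred n)
      exact h5)
    rfl
    (fun n => by
      obtain ⟨-, h2, -, -, h5, -⟩ := hall _ (hred n)
      obtain ⟨-, -, h6, -⟩ := hall _ h5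
      obtain ⟨-, h7, -⟩ := hall _ (hred (n + 1))
      simp only [Function.iterate_succ_apply'] at h7 ⊢
      set x := (step d)^[n] (x0 d) with hx
      have h8 : x.2 * (step d x).2 = d - (fS d x).1 ^ 2 := Nat.mul_div_cancel' h5.dvd
      have h9 : (step d x).1 = (fS d x).1 := rfl
      have h10 : (x.2 : ℝ) * (step d x).2 = d - ((step d x).1 : ℝ) ^ 2 := by
        rw [← Nat.cast_mul, h8, h9, Nat.cast_sub (by omega)]
        push_cast
        rfl
      have h11 : (0 : ℝ) < (step d x).2 := by exact_mod_cast h7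
      unfold al co
      field_simp
      rw [← sub_eq_zero]
      have h12 : Real.sqrt d ^ 2 = d := by rw [pow_two, hw]
      ring_nf
      ring_nf at h10
      rw [h12]
      linarith)
    (Real.sqrt d) (Nat.sqrt d)
    (by simp [al, x0])
    (by simp [co, x0])
    (e * X) (-(e * Y))
    ((e : ℝ) * ((X : ℝ) - Y * Real.sqrt d))
    ((e : ℝ) * ((X : ℝ) + Y * Real.sqrt d))
    (by push_cast; ring) (by push_cast; ring)
    (by
      rw [abs_mul, abs_of_pos hetap]
      have h5 : |(e : ℝ)| = 1 := by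
        rcases he with rfl | rfl <;> norm_num
      rw [h5, one_mul, hinv])
    hlp hl1
  have hx : (step d)^[n] (x0 d) = x0 d := by
    have h5 := hred n
    have h6 := h5.le
    have h7 := h5.lt
    apply Prod.ext
    · change ((step d)^[n] (x0 d)).1 = Nat.sqrt d
      omega
    · exact hQn
  refine ⟨n, hn1, hx, ?_⟩
  have h5 : ∏ i ∈ range n, al d ((step d)^[i + 1] (x0 d)) =
      ∏ i ∈ range n, al d ((step d)^[i] (x0 d)) := by
    obtain ⟨m, rfl⟩ : ∃ m, n = m + 1 := ⟨n - 1, by omega⟩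
    rw [prod_range_succ, prod_range_succ', hx]
    rfl
  rw [← h5]
  apply mul_right_cancel₀ hlp.ne'
  rw [hpr]
  rw [mul_comm]
  exact hinv.symm

end Pool.Per.PELL
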