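import Pool.Agent.Lib.MP_45b5fd_nt.PER.Iface

/-!
# TAIL: the sum of `(m/p)/p` over the primes `p > m ^ 4` is bounded above
-/

set_option autoImplicit false

open Finset

namespace Pool.Per

namespace Tail

theorem ch_one (m : ℕ) : ch m 1 = 1 := by
  unfold ch
  simp

theorem abs_ch (m n : ℕ) : |ch m n| ≤ 1 := by
  unfold ch
  split_ifs
  · rcases jacobiSym.trichotomy (m : ℤ) n with h | h | h <;> rw [h] <;> simp
  · simp

theorem gg_one (m : ℕ) : gg m 1 = 1 := by
  unfold gg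
  rw [Nat.divisors_one, Finset.sum_singleton, ch_one]

theorem gg_prime {m p : ℕ} (hp : p.Prime) : gg m p = 1 + ch m p := by
  unfold gg
  rw [hp.divisors, Finset.sum_pair hp.one_lt.ne, ch_one]

theorem gg_pow {m p : ℕ} (hp : p.Prime) (a : ℕ) : gg m (p ^ a) ≤ a + 1 := by
  unfold gg
  calc ∑ e ∈ (p ^ a).divisors, ch m e ≤ ∑ _e ∈ (p ^ a).divisors, (1 : ℤ) :=
        Finset.sum_le_sum fun e _ => (abs_le.mp (abs_ch m e)).2
    _ = a + 1 := by
        rw [Finset.sum_const, Nat.divisors_prime_pow hp]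
        simp

/-- real value of the function `g` -/
noncomputable def g (m n : ℕ) : ℝ := ((gg m n : ℤ) : ℝ)

theorem sum_pow_le (L : ℕ) (hL : 1 ≤ L) :
    ∑ a ∈ Icc 2 L, 4 * ((a : ℝ) + 1) / 2 ^ a = 8 - 4 * ((L : ℝ) + 3) / 2 ^ L := by
  induction L, hL using Nat.le_induction with
  | base => norm_num
  | succ n hn ih =>
    rw [Finset.sum_Icc_succ_top (by omega), ih]
    push_cast
    field_simp
    ring

/-- the local factor -/
theorem local_factor {m p : ℕ} (hp : p.Prime) (L : ℕ) (h0 : ∀ n, 0 ≤ gg m n) :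
    1 + ∑ a ∈ Icc 1 L, g m (p ^ a) / (p : ℝ) ^ a ≤
      Real.exp (g m p / p + 8 / (p : ℝ) ^ 2) := by
  have hp2 : (2 : ℝ) ≤ p := by exact_mod_cast hp.two_le
  have hg : ∀ n, 0 ≤ g m n := fun n => by unfold g; exact_mod_cast h0 n
  have h8 : (0 : ℝ) ≤ 8 / (p : ℝ) ^ 2 := by positivity
  have hsum : ∑ a ∈ Icc 1 L, g m (p ^ a) / (p : ℝ) ^ a ≤ g m p / p + 8 / (p : ℝ) ^ 2 := by
    rcases Nat.eq_zero_or_pos L with hL | hL
    · rw [hL]
      have h1 : 0 ≤ g m p / p := div_nonneg (hg p) (by linarith)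
      simpa using add_nonneg h1 h8
    · have h1 : Icc 1 L = insert 1 (Icc 2 L) := by
        ext a
        simp only [Finset.mem_Icc, Finset.mem_insert]
        omega
      rw [h1, Finset.sum_insert (by simp), pow_one, pow_one]
      have h2 : ∑ a ∈ Icc 2 L, g m (p ^ a) / (p : ℝ) ^ a ≤
          (∑ a ∈ Icc 2 L, 4 * ((a : ℝ) + 1) / 2 ^ a) * (1 / (p : ℝ) ^ 2) := by
        rw [Finset.sum_mul]
        apply Finset.sum_le_sum
        intro a ha
        rw [Finset.mem_Icc] at ha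
        obtain ⟨b, rfl⟩ : ∃ b, a = b + 2 := ⟨a - 2, by omega⟩
        have h3 : g m (p ^ (b + 2)) ≤ ((b + 2 : ℕ) : ℝ) + 1 := by
          unfold g
          have := gg_pow (m := m) hp (b + 2)
          exact_mod_cast this
        have h4 : (2 : ℝ) ^ b ≤ (p : ℝ) ^ b := pow_le_pow_left₀ (by norm_num) hp2 b
        have h5 : 0 < (p : ℝ) ^ 2 := by positivity
        have h6 : (0 : ℝ) < (2 : ℝ) ^ b := by positivity
        have h7 : (0 : ℝ) ≤ ((b + 2 : ℕ) : ℝ) + 1 := by positivity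
        calc g m (p ^ (b + 2)) / (p : ℝ) ^ (b + 2)
            ≤ (((b + 2 : ℕ) : ℝ) + 1) / (p : ℝ) ^ (b + 2) := by
              apply div_le_div_of_nonneg_right h3 (by positivity)
          _ = (((b + 2 : ℕ) : ℝ) + 1) / (p : ℝ) ^ b * (1 / (p : ℝ) ^ 2) := by
              rw [pow_add]
              field_simp
          _ ≤ (((b + 2 : ℕ) : ℝ) + 1) / (2 : ℝ) ^ b * (1 / (p : ℝ) ^ 2) := by
              apply mul_le_mul_of_nonneg_right _ (by positivity)
              exact div_le_div_of_nonneg_left h7 h6 h4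
          _ = 4 * (((b + 2 : ℕ) : ℝ) + 1) / 2 ^ (b + 2) * (1 / (p : ℝ) ^ 2) := by
              rw [pow_add]
              field_simp
              ring
      rw [sum_pow_le L hL] at h2
      have h9 : (8 - 4 * ((L : ℝ) + 3) / 2 ^ L) * (1 / (p : ℝ) ^ 2) ≤ 8 * (1 / (p : ℝ) ^ 2) := by
        apply mul_le_mul_of_nonneg_right _ (by positivity)
        have : (0 : ℝ) ≤ 4 * ((L : ℝ) + 3) / 2 ^ L := by positivity
        linarith
      have h10 : 8 * (1 / (p : ℝ) ^ 2) = 8 / (p : ℝ) ^ 2 := by ring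
      linarith
  calc 1 + ∑ a ∈ Icc 1 L, g m (p ^ a) / (p : ℝ) ^ a ≤ (g m p / p + 8 / (p : ℝ) ^ 2) + 1 := by
        linarith
    _ ≤ _ := Real.add_one_le_exp _

theorem sum_inv_sq (N : ℕ) : ∑ p ∈ Nat.primesLE N, 8 / (p : ℝ) ^ 2 ≤ 8 := by
  rcases Nat.eq_zero_or_pos N with hN | hN
  · rw [hN]
    simp
  have h1 : ∑ i ∈ Ioc 1 N, ((i : ℝ) ^ 2)⁻¹ ≤ ((1 : ℕ) : ℝ)⁻¹ - (N : ℝ)⁻¹ :=
    sum_Ioc_inv_sq_le_sub one_ne_zero hN
  have h2 : ∑ p ∈ Nat.primesLE N, ((p : ℝ) ^ 2)⁻¹ ≤ ∑ i ∈ Ioc 1 N, ((i : ℝ) ^ 2)⁻¹ := by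
    apply Finset.sum_le_sum_of_subset_of_nonneg
    · intro p hp
      rw [Nat.mem_primesLE] at hp
      rw [Finset.mem_Ioc]
      exact ⟨hp.2.one_lt, hp.1⟩
    · intro i _ _
      positivity
  have h3 : ∑ p ∈ Nat.primesLE N, 8 / (p : ℝ) ^ 2 = 8 * ∑ p ∈ Nat.primesLE N, ((p : ℝ) ^ 2)⁻¹ := by
    rw [Finset.mul_sum]
    rfl
  rw [h3]
  have h4 : (0 : ℝ) ≤ (N : ℝ)⁻¹ := by positivity
  have h5 : ((1 : ℕ) : ℝ)⁻¹ = 1 := by norm_num
  rw [h5] at h1
  linarith

/-- the character sum over the primes -/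
noncomputable def E (m N : ℕ) : ℝ := ∑ p ∈ Nat.primesLE N, ((ch m p : ℤ) : ℝ) / p

/-- the sum of the reciprocals -/
noncomputable def R (N : ℕ) : ℝ := ∑ p ∈ Nat.primesLE N, 1 / (p : ℝ)

theorem sum_g (m N : ℕ) : ∑ p ∈ Nat.primesLE N, g m p / p = R N + E m N := by
  unfold R E
  rw [← Finset.sum_add_distrib]
  apply Finset.sum_congr rfl
  intro p hp
  unfold g
  rw [gg_prime (Nat.prime_of_mem_primesLE hp)]
  push_cast
  ring

theorem euler (hE : EP_Stmt) {m : ℕ} (h0 : ∀ n, 0 ≤ gg m n) (hs : SubM (g m)) (N : ℕ) :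
    ∑ n ∈ Icc 1 N, g m n / n ≤ Real.exp (R N + E m N + 8) := by
  refine le_trans (hE (g m) hs N) ?_
  have hg : ∀ n, 0 ≤ g m n := fun n => by unfold g; exact_mod_cast h0 n
  calc ∏ p ∈ Nat.primesLE N, (1 + ∑ a ∈ Icc 1 (Nat.log p N), g m (p ^ a) / (p : ℝ) ^ a)
      ≤ ∏ p ∈ Nat.primesLE N, Real.exp (g m p / p + 8 / (p : ℝ) ^ 2) := by
        apply Finset.prod_le_prod
        · intro p _
          have : 0 ≤ ∑ a ∈ Icc 1 (Nat.log p N), g m (p ^ a) / (p : ℝ) ^ a :=
            Finset.sum_nonneg fun a _ => div_nonneg (hg _) (by positivity)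
          linarith
        · intro p hp
          exact local_factor (Nat.prime_of_mem_primesLE hp) _ h0
    _ = Real.exp (∑ p ∈ Nat.primesLE N, (g m p / p + 8 / (p : ℝ) ^ 2)) := by
        rw [Real.exp_sum]
    _ ≤ _ := by
        apply Real.exp_le_exp.mpr
        rw [Finset.sum_add_distrib, sum_g]
        linarith [sum_inv_sq N]

/-- partial sums -/
noncomputable def S (m N : ℕ) : ℝ := ∑ n ∈ Icc 1 N, g m n

/-- logarithmic partial sums -/
noncomputable def H (m N : ℕ) : ℝ := ∑ n ∈ Icc 1 N, g m n / n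

theorem S_succ (m N : ℕ) : S m (N + 1) = S m N + g m (N + 1) := by
  unfold S
  rw [Finset.sum_Icc_succ_top (by omega)]

theorem H_succ (m N : ℕ) : H m (N + 1) = H m N + g m (N + 1) / ((N : ℝ) + 1) := by
  unfold H
  rw [Finset.sum_Icc_succ_top (by omega)]
  push_cast
  rfl

/-- partial summation -/
theorem abel {m y : ℕ} {C : ℝ} (hC : 0 ≤ C) (hy : 1 ≤ y) (h : ∀ N, y ≤ N → S m N ≤ C * N) (N : ℕ)
    (hN : y ≤ N) : H m N - S m N / N ≤ H m y - S m y / y + C * (Real.log N - Real.log y) := by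
  induction N, hN using Nat.le_induction with
  | base => simp
  | succ N hN ih =>
    have hN0 : (0 : ℝ) < N := by exact_mod_cast (by omega : 0 < N)
    have h1 := h N hN
    have e1 : H m (N + 1) - S m (N + 1) / ((N : ℝ) + 1) =
        H m N - S m N / N + S m N / N * (1 / ((N : ℝ) + 1)) := by
      rw [H_succ, S_succ]
      field_simp
      ring
    have h2 : S m N / N ≤ C := by
      rw [div_le_iff₀ hN0]
      exact h1
    have h3 : 1 / ((N : ℝ) + 1) ≤ Real.log ((N : ℝ) + 1) - Real.log N := by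
      rw [← Real.log_div (by positivity) (by positivity)]
      have h4 := Real.one_sub_inv_le_log_of_pos (x := ((N : ℝ) + 1) / N) (by positivity)
      have h5 : 1 - (((N : ℝ) + 1) / N)⁻¹ = 1 / ((N : ℝ) + 1) := by
        field_simp
        ring
      rw [h5] at h4
      exact h4
    have h6 : S m N / N * (1 / ((N : ℝ) + 1)) ≤ C * (Real.log ((N : ℝ) + 1) - Real.log N) :=
      le_trans (mul_le_mul_of_nonneg_right h2 (by positivity)) (mul_le_mul_of_nonneg_left h3 hC)
    push_cast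
    rw [e1]
    linarith

/-- the upper bound for `S` beyond `y` -/
theorem S_bound {m y : ℕ} {CH K : ℝ} (hCH : 0 < CH)
    (hm : 2 ≤ m) (hy : m ^ 4 ≤ y)
    (hV : ∀ A B : ℕ, 1 ≤ A → A ≤ B → |V m A - V m B| ≤ CH * m / A)
    (hS : ∀ N : ℕ, 1 ≤ N → |S m N - N * V m (Nat.sqrt N)| ≤ CH * m * Real.sqrt N)
    (hK : S m y ≤ K * y) {N : ℕ} (hN : y ≤ N) :
    S m N ≤ (K + 4 * CH / Real.sqrt (Real.sqrt y)) * N := by
  have h16 : 16 ≤ y := by
    calc 16 = 2 ^ 4 := by norm_num
      _ ≤ m ^ 4 := Nat.pow_le_pow_left hm 4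
      _ ≤ y := hy
  have hy0 : (0 : ℝ) < y := by exact_mod_cast (by omega : 0 < y)
  have hN0 : (0 : ℝ) < N := by exact_mod_cast (by omega : 0 < N)
  set q := Real.sqrt (Real.sqrt y) with hq
  have hsy : 0 < Real.sqrt y := Real.sqrt_pos.mpr hy0
  have hq0 : 0 < q := Real.sqrt_pos.mpr hsy
  have hqq : q * q = Real.sqrt y := Real.mul_self_sqrt hsy.le
  have hyy : Real.sqrt y * Real.sqrt y = y := Real.mul_self_sqrt hy0.le
  have hmq : (m : ℝ) ≤ q := by
    apply Real.le_sqrt_of_sq_le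
    apply Real.le_sqrt_of_sq_le
    have : ((m : ℝ) ^ 2) ^ 2 = (m : ℝ) ^ 4 := by ring
    rw [this]
    exact_mod_cast hy
  have hm0 : (0 : ℝ) < m := by exact_mod_cast (by omega : 0 < m)
  -- the integer square root
  set A := Nat.sqrt y with hA
  have hA1 : 1 ≤ A := by
    rw [hA, Nat.le_sqrt]
    omega
  have hA0 : (0 : ℝ) < A := by exact_mod_cast hA1
  have hA2 : Real.sqrt y ≤ 2 * A := by
    apply Real.sqrt_le_iff.mpr
    refine ⟨by positivity, ?_⟩
    have h1 : y < (A + 1) * (A + 1) := Nat.lt_succ_sqrt y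
    have h2 : y ≤ (2 * A) ^ 2 := by nlinarith
    exact_mod_cast h2
  have hAB : A ≤ Nat.sqrt N := Nat.sqrt_le_sqrt hN
  have h1 := hV A (Nat.sqrt N) hA1 hAB
  have h2 := hS y (by omega)
  have h3 := hS N (by omega)
  have e1 : CH * m / A ≤ 2 * CH / q := by
    rw [div_le_div_iff₀ hA0 hq0]
    have h4 : (m : ℝ) * q ≤ Real.sqrt y := by rw [← hqq]; exact mul_le_mul_of_nonneg_right hmq hq0.le
    nlinarith
  have e2 : CH * m * Real.sqrt y ≤ CH / q * y := by
    rw [div_mul_eq_mul_div, le_div_iff₀ hq0]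
    have h4 : (m : ℝ) * q ≤ Real.sqrt y := by rw [← hqq]; exact mul_le_mul_of_nonneg_right hmq hq0.le
    calc CH * m * Real.sqrt y * q = CH * ((m * q) * Real.sqrt y) := by ring
      _ ≤ CH * (Real.sqrt y * Real.sqrt y) := by
        apply mul_le_mul_of_nonneg_left _ hCH.le
        exact mul_le_mul_of_nonneg_right h4 hsy.le
      _ = CH * y := by rw [hyy]
  have e3 : CH * m * Real.sqrt N ≤ CH / q * N := by
    rw [div_mul_eq_mul_div, le_div_iff₀ hq0]
    have h4 : (m : ℝ) * q ≤ Real.sqrt y := by rw [← hqq]; exact mul_le_mul_of_nonneg_right hmq hq0.le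
    have h5 : Real.sqrt y ≤ Real.sqrt N := Real.sqrt_le_sqrt (by exact_mod_cast hN)
    have h6 : Real.sqrt N * Real.sqrt N = N := Real.mul_self_sqrt hN0.le
    calc CH * m * Real.sqrt N * q = CH * ((m * q) * Real.sqrt N) := by ring
      _ ≤ CH * (Real.sqrt N * Real.sqrt N) := by
        apply mul_le_mul_of_nonneg_left _ hCH.le
        exact mul_le_mul_of_nonneg_right (h4.trans h5) (Real.sqrt_nonneg _)
      _ = CH * N := by rw [h6]
  have f1 := (abs_le.mp h1).1
  have f2 := (abs_le.mp h2).1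
  have f3 := (abs_le.mp h3).2
  have g1 : y * V m A ≤ (K + CH / q) * y := by linarith
  have g2 : V m A ≤ K + CH / q := by
    have := le_of_mul_le_mul_left (by linarith : (y : ℝ) * V m A ≤ y * (K + CH / q)) hy0
    exact this
  have g3 : V m (Nat.sqrt N) ≤ K + CH / q + 2 * CH / q := by linarith
  have g4 : (N : ℝ) * V m (Nat.sqrt N) ≤ N * (K + CH / q + 2 * CH / q) :=
    mul_le_mul_of_nonneg_left g3 hN0.le
  have g5 : (K + 4 * CH / q) * N = N * (K + CH / q + 2 * CH / q) + CH / q * N := by ring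
  rw [g5]
  linarith

theorem abs_E (m N : ℕ) : |E m N| ≤ R N := by
  unfold E R
  refine le_trans (Finset.abs_sum_le_sum_abs _ _) (Finset.sum_le_sum fun p hp => ?_)
  have hp0 : (0 : ℝ) < p := by exact_mod_cast (Nat.prime_of_mem_primesLE hp).pos
  rw [abs_div, abs_of_pos hp0]
  apply div_le_div_of_nonneg_right _ hp0.le
  have := abs_ch m p
  exact_mod_cast this

/-- the primes in `(y, x]` -/
theorem sum_Ioc (m : ℕ) {y x : ℕ} (hy : 2 ≤ y) (hyx : y ≤ x) :
    ∑ p ∈ (Ioc y x).filter Nat.Prime, ((jacobiSym (m : ℤ) p : ℤ) : ℝ) / p = E m x - E m y := by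
  have h1 : Nat.primesLE x = Nat.primesLE y ∪ (Ioc y x).filter Nat.Prime := by
    ext p
    simp only [Nat.mem_primesLE, Finset.mem_union, Finset.mem_filter, Finset.mem_Ioc]
    constructor
    · rintro ⟨h1, h2⟩
      rcases le_or_gt p y with h | h
      · exact Or.inl ⟨h, h2⟩
      · exact Or.inr ⟨⟨h, h1⟩, h2⟩
    · rintro (⟨h1, h2⟩ | ⟨⟨_, h1⟩, h2⟩)
      · exact ⟨by omega, h2⟩
      · exact ⟨h1, h2⟩
  have h2 : Disjoint (Nat.primesLE y) ((Ioc y x).filter Nat.Prime) := by
    rw [Finset.disjoint_left]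
    intro p hp hp'
    have := Nat.le_of_mem_primesLE hp
    have := (Finset.mem_Ioc.mp (Finset.mem_filter.mp hp').1).1
    omega
  unfold E
  rw [h1, Finset.sum_union h2, add_sub_cancel_left]
  apply Finset.sum_congr rfl
  intro p hp
  rw [Finset.mem_filter, Finset.mem_Ioc] at hp
  have hodd : p % 2 = 1 := by
    rcases hp.2.eq_two_or_odd with h | h
    · omega
    · exact h
  unfold ch
  rw [if_pos hodd]

end Tail

open Tail in
theorem tail_proof : HYP_Stmt → RANK_Stmt → HR_Stmt → EP_Stmt → GB_Stmt → MERT_Stmt →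
    TAIL_Stmt := by
  rintro ⟨h0, hs, hmul, hpw, CH, hCH, hH⟩ ⟨B, hB, CR, hCR, hR⟩ hHR hEP ⟨CG, hCG, hGB⟩
    ⟨CM, hCM, hM⟩
  set K1 := Real.exp (8 + CM) with hK1
  set C1 := (CG + 1) * K1 + 16 * CH * Real.exp CM with hC1
  set K := Real.exp CM * (CR * (K1 + C1 * (1 + B))) with hK
  refine ⟨Real.log K, fun m y x hm hy hyx => ?_⟩
  have hm2 : 2 ≤ m := by
    by_contra hc
    interval_cases m
    · exact hm ⟨0, rfl⟩
    · exact hm ⟨1, rfl⟩
  have h16 : 16 ≤ y := by
    calc 16 = 2 ^ 4 := by norm_num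
      _ ≤ m ^ 4 := Nat.pow_le_pow_left hm2 4
      _ ≤ y := hy
  have hy0 : (0 : ℝ) < y := by exact_mod_cast (by omega : 0 < y)
  have hlog1 : ∀ N : ℕ, 16 ≤ N → 1 ≤ Real.log N := by
    intro N hN
    rw [Real.le_log_iff_exp_le (by exact_mod_cast (by omega : 0 < N))]
    have h1 := Real.exp_one_lt_d9
    have h2 : (16 : ℝ) ≤ N := by exact_mod_cast hN
    linarith
  have hly := hlog1 y h16
  have hlx := hlog1 x (by omega)
  have hlyx : Real.log y ≤ Real.log x := Real.log_le_log hy0 (by exact_mod_cast hyx)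
  have hK10 : 0 < K1 := Real.exp_pos _
  have hC10 : 0 < C1 := by positivity
  have hgn : ∀ n, 0 ≤ g m n := fun n => by unfold g; exact_mod_cast h0 m n
  set W := Real.exp (E m y) with hW
  have hW0 : 0 < W := Real.exp_pos _
  -- Mertens
  have hMexp : ∀ N : ℕ, 16 ≤ N → Real.exp (R N) ≤ Real.exp CM * Real.log N ∧
      Real.log N ≤ Real.exp CM * Real.exp (R N) := by
    intro N hN
    have h1 := hM N (by omega)
    have h2 : Real.exp (Real.log (Real.log N)) = Real.log N :=
      Real.exp_log (by linarith [hlog1 N hN])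
    have h3 := abs_le.mp h1
    have h4 : R N = ∑ p ∈ Nat.primesLE N, 1 / (p : ℝ) := rfl
    rw [← h4] at h3
    constructor
    · calc Real.exp (R N) ≤ Real.exp (CM + Real.log (Real.log N)) :=
            Real.exp_le_exp.mpr (by linarith [h3.2])
        _ = _ := by rw [Real.exp_add, h2]
    · calc Real.log N = Real.exp (Real.log (Real.log N)) := h2.symm
        _ ≤ Real.exp (CM + R N) := Real.exp_le_exp.mpr (by linarith [h3.1])
        _ = _ := by rw [Real.exp_add]
  -- the logarithmic sum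
  have hHy : H m y ≤ K1 * Real.log y * W := by
    have h1 := euler hEP (h0 m) (hs m) y
    have h2 := (hMexp y h16).1
    calc H m y ≤ Real.exp (R y + E m y + 8) := h1
      _ = Real.exp (R y) * W * Real.exp 8 := by rw [hW, Real.exp_add, Real.exp_add]
      _ ≤ (Real.exp CM * Real.log y) * W * Real.exp 8 := by
        apply mul_le_mul_of_nonneg_right _ (Real.exp_pos _).le
        exact mul_le_mul_of_nonneg_right h2 hW0.le
      _ = K1 * Real.log y * W := by rw [hK1, Real.exp_add]; ring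
  -- the partial sum
  have hSy : S m y ≤ (CG + 1) * K1 * W * y := by
    have h1 : PowSum CG (g m) := hGB (g m) hgn (fun p a hp ha => hpw m p a hp ha)
    have h2 := hHR (g m) CG hCG (hs m) h1 y (by omega)
    have h3 : Real.log y * S m y ≤ (CG + 1) * y * H m y := h2
    have h4 : (CG + 1) * y * H m y ≤ (CG + 1) * y * (K1 * Real.log y * W) :=
      mul_le_mul_of_nonneg_left hHy (by positivity)
    have h5 : Real.log y * S m y ≤ Real.log y * ((CG + 1) * K1 * W * y) := by
      calc Real.log y * S m y ≤ (CG + 1) * y * (K1 * Real.log y * W) := h3.trans h4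
        _ = _ := by ring
    exact le_of_mul_le_mul_left h5 (by linarith)
  -- `y ^ (-1/4)`
  have hq : 4 * CH / Real.sqrt (Real.sqrt y) ≤ 16 * CH * Real.exp CM * W := by
    have hsy : 0 < Real.sqrt y := Real.sqrt_pos.mpr hy0
    set q := Real.sqrt (Real.sqrt y) with hq
    have hq0 : 0 < q := Real.sqrt_pos.mpr hsy
    have hqq : q * q = Real.sqrt y := Real.mul_self_sqrt hsy.le
    have hyy : Real.sqrt y * Real.sqrt y = y := Real.mul_self_sqrt hy0.le
    have h1 : Real.log y ≤ 4 * q := by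
      have h2 : (y : ℝ) = q ^ 4 := by
        rw [← hyy, ← hqq]
        ring
      rw [h2, Real.log_pow]
      push_cast
      have := Real.log_le_sub_one_of_pos hq0
      linarith
    have h3 : 1 ≤ Real.exp CM * Real.log y * W := by
      have h4 := (hMexp y h16).1
      have h5 := abs_le.mp (abs_E m y)
      have h6 : 1 ≤ Real.exp (R y) * W := by
        rw [hW, ← Real.exp_add]
        exact Real.one_le_exp (by linarith [h5.1])
      exact h6.trans (mul_le_mul_of_nonneg_right h4 hW0.le)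
    rw [div_le_iff₀ hq0]
    have h7 : Real.exp CM * Real.log y * W ≤ Real.exp CM * (4 * q) * W := by
      apply mul_le_mul_of_nonneg_right _ hW0.le
      exact mul_le_mul_of_nonneg_left h1 (Real.exp_pos _).le
    have h8 : 1 ≤ Real.exp CM * (4 * q) * W := h3.trans h7
    calc 4 * CH = 4 * CH * 1 := by ring
      _ ≤ 4 * CH * (Real.exp CM * (4 * q) * W) := mul_le_mul_of_nonneg_left h8 (by positivity)
      _ = _ := by ring
  obtain ⟨hV, hSS⟩ := hH m hm
  have hSN : ∀ N : ℕ, y ≤ N → S m N ≤ C1 * W * N := by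
    intro N hN
    have h1 := S_bound (K := (CG + 1) * K1 * W) hCH hm2 hy hV hSS hSy hN
    refine h1.trans (mul_le_mul_of_nonneg_right ?_ (Nat.cast_nonneg N))
    rw [hC1]
    have e : ((CG + 1) * K1 + 16 * CH * Real.exp CM) * W =
      (CG + 1) * K1 * W + 16 * CH * Real.exp CM * W := by ring
    rw [e]
    linarith
  have hxB : y ≤ x ^ B := hyx.trans (Nat.le_self_pow (by omega) x)
  have hab := abel (by positivity) (by omega) hSN (x ^ B) hxB
  have hxB0 : (0 : ℝ) < ((x ^ B : ℕ) : ℝ) := by exact_mod_cast (by omega : 0 < x ^ B)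
  have h1 : S m (x ^ B) / ((x ^ B : ℕ) : ℝ) ≤ C1 * W := by
    rw [div_le_iff₀ hxB0]
    exact hSN _ hxB
  have h2 : 0 ≤ S m y / y := div_nonneg (Finset.sum_nonneg fun n _ => hgn n) hy0.le
  have h3 : Real.log ((x ^ B : ℕ) : ℝ) = B * Real.log x := by
    push_cast
    rw [Real.log_pow]
  have hCW : 0 ≤ C1 * W := by positivity
  have h4 : H m (x ^ B) ≤ (K1 + C1 * (1 + B)) * W * Real.log x := by
    rw [h3] at hab
    have h5 : C1 * W * (B * Real.log x - Real.log y) ≤ C1 * W * (B * Real.log x) :=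
      mul_le_mul_of_nonneg_left (by linarith) hCW
    have h6 : K1 * Real.log y * W ≤ K1 * Real.log x * W := by
      apply mul_le_mul_of_nonneg_right _ hW0.le
      exact mul_le_mul_of_nonneg_left hlyx hK10.le
    have h7 : C1 * W ≤ C1 * W * Real.log x := by
      calc C1 * W = C1 * W * 1 := by ring
        _ ≤ _ := mul_le_mul_of_nonneg_left hlx hCW
    have e : (K1 + C1 * (1 + B)) * W * Real.log x =
      K1 * Real.log x * W + C1 * W * Real.log x + C1 * W * (B * Real.log x) := by ring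
    rw [e]
    linarith
  have h5 := hR (g m) hgn (by unfold g; rw [gg_one]; norm_num)
    (fun a b hab => by unfold g; rw [hmul m a b hab]; push_cast; rfl)
    (fun p hp => by
      unfold g
      rw [gg_prime hp]
      have := (abs_le.mp (abs_ch m p)).2
      have h : 1 + ch m p ≤ 2 := by omega
      exact_mod_cast h) x (by omega)
  rw [sum_g] at h5
  have h6 := (hMexp x (by omega)).2
  have h7 : Real.exp (E m x) ≤ K * W := by
    have h8 : Real.log x * Real.exp (E m x) ≤ Real.log x * (K * W) := by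
      calc Real.log x * Real.exp (E m x) ≤ Real.exp CM * Real.exp (R x) * Real.exp (E m x) :=
            mul_le_mul_of_nonneg_right h6 (Real.exp_pos _).le
        _ = Real.exp CM * Real.exp (R x + E m x) := by rw [Real.exp_add]; ring
        _ ≤ Real.exp CM * (CR * H m (x ^ B)) :=
            mul_le_mul_of_nonneg_left h5 (Real.exp_pos _).le
        _ ≤ Real.exp CM * (CR * ((K1 + C1 * (1 + B)) * W * Real.log x)) := by
            apply mul_le_mul_of_nonneg_left _ (Real.exp_pos _).le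
            exact mul_le_mul_of_nonneg_left h4 hCR.le
        _ = Real.log x * (K * W) := by rw [hK]; ring
    exact le_of_mul_le_mul_left h8 (by linarith)
  have hK0 : 0 < K := by positivity
  rw [sum_Ioc m (by omega) hyx]
  have h8 : Real.exp (E m x) ≤ Real.exp (Real.log K + E m y) := by
    rw [Real.exp_add, Real.exp_log hK0]
    exact h7
  have h9 := Real.exp_le_exp.mp h8
  linarith

end Pool.Per
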